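import Mathlib

/-!
Basic definitions for the theorem on families determined by hyperplane counts.
-/

namespace Pool.Agent.J4.H79.HS

/-- `e x = exp (2 pi i x)` -/
noncomputable def e (x : ℝ) : ℂ := Complex.exp (2 * Real.pi * x * Complex.I)

/-- distance to a nearest integer -/
noncomputable def nn (x : ℝ) : ℝ := |x - round x|

theorem e_add (x y : ℝ) : e (x + y) = e x * e y := by
  unfold e; rw [← Complex.exp_add]; congr 1; push_cast; ring

theorem e_zero : e 0 = 1 := by simp [e]

theorem norm_e (x : ℝ) : ‖e x‖ = 1 := by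
  unfold e
  rw [show (2 * (Real.pi : ℂ) * x * Complex.I) = ((2 * Real.pi * x : ℝ) : ℂ) * Complex.I by
    push_cast; ring]
  exact Complex.norm_exp_ofReal_mul_I _

theorem e_neg (x : ℝ) : e (-x) = (starRingEnd ℂ) (e x) := by
  unfold e
  rw [← Complex.exp_conj]
  congr 1
  rw [map_mul, map_mul, map_mul, Complex.conj_I, Complex.conj_ofReal, Complex.conj_ofReal,
    show (starRingEnd ℂ) 2 = 2 from Complex.conj_ofNat 2]
  push_cast
  ring

theorem e_sub (x y : ℝ) : e (x - y) = e x * (starRingEnd ℂ) (e y) := by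
  rw [sub_eq_add_neg, e_add, e_neg]

theorem e_re (x : ℝ) : (e x).re = Real.cos (2 * Real.pi * x) := by
  unfold e
  rw [show (2 * (Real.pi : ℂ) * x * Complex.I) = ((2 * Real.pi * x : ℝ) : ℂ) * Complex.I by
    push_cast; ring]
  rw [Complex.exp_ofReal_mul_I_re]

theorem e_int (k : ℤ) : e k = 1 := by
  unfold e
  rw [show (2 * (Real.pi : ℂ) * ((k : ℝ) : ℂ) * Complex.I) = (k : ℂ) * (2 * Real.pi * Complex.I) by
    push_cast; ring]
  exact Complex.exp_int_mul_two_pi_mul_I k

theorem e_nat_mul (k : ℕ) (x : ℝ) : e (k * x) = e x ^ k := by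
  unfold e
  rw [← Complex.exp_nat_mul]
  congr 1
  push_cast; ring

theorem nn_nonneg (x : ℝ) : 0 ≤ nn x := abs_nonneg _

theorem nn_le (x : ℝ) (k : ℤ) : nn x ≤ |x - k| := round_le x k

theorem nn_nat_mul (k : ℕ) (x : ℝ) : nn (k * x) ≤ k * nn x := by
  have h := nn_le (k * x) (k * round x)
  refine h.trans ?_
  unfold nn
  push_cast
  rw [← mul_sub, abs_mul, Nat.abs_cast]

theorem norm_e_sub_one_le (x : ℝ) : ‖e x - 1‖ ≤ 2 * Real.pi * nn x := by
  have h1 : e x = e (x - round x) := by
    rw [sub_eq_add_neg, e_add]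
    have : e (-(round x : ℝ)) = 1 := by
      have := e_int (-(round x))
      push_cast at this
      exact this
    rw [this, mul_one]
  rw [h1]
  unfold e nn
  have h2 := Real.norm_exp_I_mul_ofReal_sub_one_le (x := 2 * Real.pi * (x - round x))
  rw [show (2 * (Real.pi : ℂ) * ((x - round x : ℝ) : ℂ) * Complex.I)
      = Complex.I * ((2 * Real.pi * (x - round x) : ℝ) : ℂ) by push_cast; ring]
  refine h2.trans ?_
  rw [Real.norm_eq_abs, abs_mul, abs_of_pos (by positivity : (0 : ℝ) < 2 * Real.pi)]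

/-- weight vector of a cell: its hyperplane incidences -/
def wt {d N : ℕ} (c : Fin d → Fin N) : Fin d → Fin N → ℤ := fun j i => if c j = i then 1 else 0

end Pool.Agent.J4.H79.HS
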