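import Mathlib

/-! Project HS (helper79), piece F4 (helper30): a positive cosine sum gives a Khintchine type bound on finite abelian groups. -/

set_option autoImplicit false

namespace Pool.Agent.J4.H79.HS

open Finset ComplexConjugate

theorem F4_char_re {n : ℕ} (D : ℕ) (H : Type) [AddCommGroup H] [Fintype H] (h : Fin n → H)
    (χ : AddChar H ℂ) :
    ∃ θ : Fin n → ℝ, ∀ γ : Finset (Fin n), (χ (γ.card ^ D • ∑ i ∈ γ, h i)).re =
      Real.cos (2 * Real.pi * ((γ.card : ℝ) ^ D * ∑ i ∈ γ, θ i)) := by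
  refine ⟨fun i => Complex.arg (χ (h i)) / (2 * Real.pi), fun γ => ?_⟩
  have h1 : ∀ i, χ (h i) =
      Complex.exp (((2 * Real.pi * (Complex.arg (χ (h i)) / (2 * Real.pi)) : ℝ) : ℂ) * Complex.I) := by
    intro i
    have h2 : 2 * Real.pi * (Complex.arg (χ (h i)) / (2 * Real.pi)) = Complex.arg (χ (h i)) := by
      have := Real.pi_ne_zero
      field_simp
    rw [h2]
    have h3 := Complex.norm_mul_exp_arg_mul_I (χ (h i))
    rw [AddChar.norm_apply, Complex.ofReal_one, one_mul] at h3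
    exact h3.symm
  have h4 : χ (γ.card ^ D • ∑ i ∈ γ, h i) =
      Complex.exp (((2 * Real.pi * ((γ.card : ℝ) ^ D *
        ∑ i ∈ γ, (Complex.arg (χ (h i)) / (2 * Real.pi))) : ℝ) : ℂ) * Complex.I) := by
    have h5 : χ (∑ i ∈ γ, h i) = ∏ i ∈ γ, χ (h i) := by
      classical
      induction γ using Finset.induction_on with
      | empty => simp
      | insert a s ha ih => rw [sum_insert ha, prod_insert ha, AddChar.map_add_eq_mul, ih]
    rw [AddChar.map_nsmul_eq_pow, h5, prod_congr rfl fun i _ => h1 i,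
      ← Complex.exp_sum, ← Complex.exp_nat_mul]
    congr 1
    rw [← sum_mul]
    push_cast
    rw [← mul_sum]
    ring
  rw [h4, Complex.exp_ofReal_mul_I_re]

theorem F4_parseval (H : Type) [AddCommGroup H] [Fintype H] (f : H → ℝ) (g : H) :
    ∑ χ : AddChar H ℂ, ‖∑ x, (f x : ℂ) * χ x‖ ^ 2 * (χ g).re =
      Fintype.card H * ∑ x, f x * f (x + g) := by
  classical
  have key : ∑ χ : AddChar H ℂ, ((‖∑ x, (f x : ℂ) * χ x‖ ^ 2 : ℝ) : ℂ) * χ g =
      (((Fintype.card H : ℝ) * ∑ x, f x * f (x + g) : ℝ) : ℂ) := by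
    have h1 : ∀ χ : AddChar H ℂ, ((‖∑ x, (f x : ℂ) * χ x‖ ^ 2 : ℝ) : ℂ) * χ g =
        ∑ x, ∑ y, ((f x : ℂ) * f y) * χ (x - y + g) := by
      intro χ
      rw [Complex.ofReal_pow, ← Complex.mul_conj', map_sum, sum_mul_sum, sum_mul]
      refine sum_congr rfl fun x _ => ?_
      rw [sum_mul]
      refine sum_congr rfl fun y _ => ?_
      rw [map_mul, Complex.conj_ofReal, ← AddChar.map_neg_eq_conj, sub_eq_add_neg,
        AddChar.map_add_eq_mul, AddChar.map_add_eq_mul]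
      ring
    rw [sum_congr rfl fun χ _ => h1 χ, sum_comm]
    push_cast
    rw [mul_sum]
    refine sum_congr rfl fun x _ => ?_
    rw [sum_comm]
    have h2 : ∀ y, ∑ χ : AddChar H ℂ, ((f x : ℂ) * f y) * χ (x - y + g) =
        if x + g = y then (Fintype.card H : ℂ) * ((f x : ℂ) * f y) else 0 := by
      intro y
      rw [← mul_sum, AddChar.sum_apply_eq_ite]
      by_cases hy : x + g = y
      · rw [if_pos hy, if_pos (by rw [← hy]; abel)]
        ring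
      · rw [if_neg hy, if_neg (fun h0 => hy ?_), mul_zero]
        have : x + g - y = 0 := by rw [← h0]; abel
        exact sub_eq_zero.1 this
    rw [sum_congr rfl fun y _ => h2 y, sum_ite_eq]
    simp
  have h3 := congrArg Complex.re key
  rw [Complex.ofReal_re, Complex.re_sum] at h3
  rw [← h3]
  refine sum_congr rfl fun χ _ => ?_
  rw [Complex.re_ofReal_mul]

theorem khintchine_of_positive {n : ℕ} {ε : ℝ} (hε : 0 ≤ ε) (D : ℕ) (lam : Finset (Fin n) → ℝ)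
    (hpos : ∀ θ : Fin n → ℝ,
      -ε ≤ ∑ γ, lam γ * Real.cos (2 * Real.pi * ((γ.card : ℝ) ^ D * ∑ i ∈ γ, θ i)))
    (H : Type) [AddCommGroup H] [Fintype H] (h : Fin n → H) (f : H → ℝ) :
    (∑ γ, lam γ) * ((∑ x, f x) / Fintype.card H) ^ 2 - ε * ((∑ x, f x ^ 2) / Fintype.card H) ≤
      ∑ γ, lam γ * ((∑ x, f x * f (x + γ.card ^ D • ∑ i ∈ γ, h i)) / Fintype.card H) := by
  classical
  obtain ⟨N, hN⟩ : ∃ N : ℝ, N = Fintype.card H := ⟨_, rfl⟩
  have hN0 : 0 < N := by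
    rw [hN]
    exact_mod_cast Fintype.card_pos
  obtain ⟨Q, hQ⟩ : ∃ Q : AddChar H ℂ → ℝ, Q = fun χ => ‖∑ x, (f x : ℂ) * χ x‖ ^ 2 := ⟨_, rfl⟩
  have hQ0 : ∀ χ, 0 ≤ Q χ := fun χ => by rw [hQ]; positivity
  have hP : ∀ g : H, ∑ χ : AddChar H ℂ, Q χ * (χ g).re = N * ∑ x, f x * f (x + g) := by
    intro g
    rw [hQ, hN]
    exact F4_parseval H f g
  have htot : ∑ χ : AddChar H ℂ, Q χ = N * ∑ x, f x ^ 2 := by
    have h1 := hP 0
    simp only [AddChar.map_zero_eq_one, Complex.one_re, mul_one, add_zero] at h1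
    rw [h1]
    congr 1
    refine sum_congr rfl fun x _ => ?_
    ring
  have htriv : Q 0 = (∑ x, f x) ^ 2 := by
    rw [hQ]
    simp only [AddChar.zero_apply, mul_one]
    rw [← Complex.ofReal_sum, Complex.norm_real, Real.norm_eq_abs, sq_abs]
  -- the right side
  have hR : ∑ γ, lam γ * ((∑ x, f x * f (x + γ.card ^ D • ∑ i ∈ γ, h i)) / N) =
      (∑ χ : AddChar H ℂ, Q χ * ∑ γ, lam γ * (χ (γ.card ^ D • ∑ i ∈ γ, h i)).re) / N ^ 2 := by
    rw [eq_div_iff (by positivity)]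
    rw [sum_mul]
    have h1 : ∀ γ : Finset (Fin n), lam γ * ((∑ x, f x * f (x + γ.card ^ D • ∑ i ∈ γ, h i)) / N) * N ^ 2 =
        ∑ χ : AddChar H ℂ, Q χ * (lam γ * (χ (γ.card ^ D • ∑ i ∈ γ, h i)).re) := by
      intro γ
      have h2 := hP (γ.card ^ D • ∑ i ∈ γ, h i)
      have h3 : lam γ * ((∑ x, f x * f (x + γ.card ^ D • ∑ i ∈ γ, h i)) / N) * N ^ 2 =
          lam γ * (N * ∑ x, f x * f (x + γ.card ^ D • ∑ i ∈ γ, h i)) := by
        field_simp
      rw [h3, ← h2, mul_sum]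
      refine sum_congr rfl fun χ _ => ?_
      ring
    rw [sum_congr rfl fun γ _ => h1 γ, sum_comm]
    refine sum_congr rfl fun χ _ => ?_
    rw [mul_sum]
  rw [← hN, hR]
  have hL : (∑ γ, lam γ) * ((∑ x, f x) / N) ^ 2 - ε * ((∑ x, f x ^ 2) / N) =
      ((∑ γ, lam γ) * Q 0 - ε * ∑ χ : AddChar H ℂ, Q χ) / N ^ 2 := by
    rw [htot, htriv]
    field_simp
  rw [hL]
  apply div_le_div_of_nonneg_right _ (by positivity)
  -- compare the characters
  have hterm : ∀ χ : AddChar H ℂ, -(ε * Q χ) ≤ Q χ * ∑ γ, lam γ * (χ (γ.card ^ D • ∑ i ∈ γ, h i)).re := by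
    intro χ
    obtain ⟨θ, hθ⟩ := F4_char_re D H h χ
    have h1 : ∑ γ, lam γ * (χ (γ.card ^ D • ∑ i ∈ γ, h i)).re =
        ∑ γ, lam γ * Real.cos (2 * Real.pi * ((γ.card : ℝ) ^ D * ∑ i ∈ γ, θ i)) :=
      sum_congr rfl fun γ _ => by rw [hθ γ]
    rw [h1]
    nlinarith [hpos θ, hQ0 χ, mul_le_mul_of_nonneg_left (hpos θ) (hQ0 χ)]
  have hsplit := add_sum_erase univ
    (fun χ : AddChar H ℂ => Q χ * ∑ γ, lam γ * (χ (γ.card ^ D • ∑ i ∈ γ, h i)).re) (mem_univ (0 : AddChar H ℂ))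
  have h0 : Q 0 * ∑ γ, lam γ * ((0 : AddChar H ℂ) (γ.card ^ D • ∑ i ∈ γ, h i)).re = (∑ γ, lam γ) * Q 0 := by
    simp only [AddChar.zero_apply, Complex.one_re, mul_one]
    ring
  beta_reduce at hsplit
  rw [h0] at hsplit
  rw [← hsplit]
  have h5 : -(ε * ∑ χ : AddChar H ℂ, Q χ) ≤
      ∑ χ ∈ univ.erase (0 : AddChar H ℂ), Q χ * ∑ γ, lam γ * (χ (γ.card ^ D • ∑ i ∈ γ, h i)).re := by
    have h6 : -(ε * ∑ χ : AddChar H ℂ, Q χ) ≤ ∑ χ ∈ univ.erase (0 : AddChar H ℂ), -(ε * Q χ) := by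
      rw [sum_neg_distrib, ← mul_sum, neg_le_neg_iff]
      apply mul_le_mul_of_nonneg_left _ hε
      exact sum_le_sum_of_subset_of_nonneg (erase_subset _ _) fun χ _ _ => hQ0 χ
    exact h6.trans (sum_le_sum fun χ _ => hterm χ)
  linarith

end Pool.Agent.J4.H79.HS
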