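import Mathlib

/-! Piece G5 of project HS (helper79), by helper46: smoothing by switching. -/

set_option autoImplicit false

namespace Pool.Agent.J4.H79.HS

open Finset

open Classical in
/-- indicator function of: `R` is contained in `A` and `S` is disjoint from `A` -/
noncomputable def g5x {α : Type*} (R S A : Finset α) : ℝ := if R ⊆ A ∧ Disjoint S A then 1 else 0

theorem g5x_nonneg {α : Type*} (R S A : Finset α) : 0 ≤ g5x R S A := by
  unfold g5x; split_ifs <;> norm_num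

theorem g5x_sq {α : Type*} (R S A : Finset α) : g5x R S A * g5x R S A = g5x R S A := by
  unfold g5x; split_ifs <;> norm_num

theorem g5x_mul {α : Type*} [DecidableEq α] (R S R' S' A : Finset α) :
    g5x R S A * g5x R' S' A = g5x (R ∪ R') (S ∪ S') A := by
  have h : (R ∪ R' ⊆ A ∧ Disjoint (S ∪ S') A) ↔ (R ⊆ A ∧ Disjoint S A) ∧ (R' ⊆ A ∧ Disjoint S' A) := by
    rw [union_subset_iff, disjoint_union_left]
    tauto
  unfold g5x
  by_cases h1 : R ⊆ A ∧ Disjoint S A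
  · by_cases h2 : R' ⊆ A ∧ Disjoint S' A
    · rw [if_pos h1, if_pos h2, if_pos (h.2 ⟨h1, h2⟩), mul_one]
    · rw [if_neg h2, if_neg (fun h' => h2 (h.1 h').2), mul_zero]
  · rw [if_neg h1, if_neg (fun h' => h1 (h.1 h').1), zero_mul]

theorem g5_count {α : Type*} [DecidableEq α] (U R S : Finset α) (hU : R ∪ S ⊆ U) (hd : Disjoint R S) :
    ∑ A ∈ U.powerset, g5x R S A = 2 ^ U.card * (1 / 2 : ℝ) ^ (R.card + S.card) := by
  classical
  have h2 : R ⊆ U \ S := fun x hx => mem_sdiff.2 ⟨hU (mem_union_left _ hx), fun h => (disjoint_left.1 hd hx h)⟩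
  have h1 : U.powerset.filter (fun A => R ⊆ A ∧ Disjoint S A) = Finset.Icc R (U \ S) := by
    ext A
    rw [mem_filter, mem_powerset, mem_Icc, subset_sdiff, disjoint_comm]
    tauto
  have h3 : ∑ A ∈ U.powerset, g5x R S A = ((U.powerset.filter (fun A => R ⊆ A ∧ Disjoint S A)).card : ℝ) := by
    rw [card_filter, Nat.cast_sum]
    refine sum_congr rfl fun A _ => ?_
    unfold g5x
    split_ifs <;> simp
  have hS : S ⊆ U := fun x hx => hU (mem_union_right _ hx)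
  have h4 : (U \ S).card - R.card + (R.card + S.card) = U.card := by
    have e1 := card_sdiff_add_card_eq_card hS
    have e2 := card_le_card h2
    omega
  rw [h3, h1, card_Icc_finset h2, ← h4]
  push_cast
  rw [pow_add 2 _ (R.card + S.card), mul_assoc, ← mul_pow]
  norm_num

/-- second moment -/
theorem g5_second {α : Type*} [DecidableEq α] (U : Finset α) (k m : ℕ) (R S : Fin m → Finset α)
    (hU : ∀ a, R a ∪ S a ⊆ U) (hRS : ∀ a, Disjoint (R a) (S a))
    (hk : ∀ a, (R a).card + (S a).card = k)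
    (hdis : ∀ a b, a ≠ b → Disjoint (R a ∪ S a) (R b ∪ S b)) :
    ∑ A ∈ U.powerset, (∑ a, g5x (R a) (S a) A - m * (1 / 2 : ℝ) ^ k) ^ 2 ≤
      2 ^ U.card * (m * (1 / 2 : ℝ) ^ k) := by
  set ρ : ℝ := (1 / 2 : ℝ) ^ k with hρ
  have hρ0 : 0 ≤ ρ := by positivity
  have h1 : ∀ a, ∑ A ∈ U.powerset, g5x (R a) (S a) A = 2 ^ U.card * ρ := by
    intro a; rw [g5_count U _ _ (hU a) (hRS a), hk a]
  have h2 : ∀ a b, a ≠ b → ∑ A ∈ U.powerset, g5x (R a) (S a) A * g5x (R b) (S b) A = 2 ^ U.card * ρ ^ 2 := by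
    intro a b hab
    have hd := hdis a b hab
    rw [disjoint_union_left, disjoint_union_right, disjoint_union_right] at hd
    obtain ⟨⟨dRR, dRS⟩, dSR, dSS⟩ := hd
    rw [sum_congr rfl (fun A _ => g5x_mul (R a) (S a) (R b) (S b) A), g5_count U]
    · rw [card_union_of_disjoint dRR, card_union_of_disjoint dSS, hρ, ← pow_mul]
      congr 2
      have := hk a; have := hk b; omega
    · have := hU a; have := hU b
      rw [union_subset_iff] at *
      exact ⟨union_subset (by tauto) (by tauto), union_subset (by tauto) (by tauto)⟩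
    · rw [disjoint_union_left, disjoint_union_right, disjoint_union_right]
      exact ⟨⟨hRS a, dRS⟩, dSR.symm, hRS b⟩
  have h3 : ∑ A ∈ U.powerset, (∑ a, g5x (R a) (S a) A) ^ 2 =
      m * (2 ^ U.card * ρ) + m * (m - 1) * (2 ^ U.card * ρ ^ 2) := by
    have e1 : ∀ A ∈ U.powerset, (∑ a, g5x (R a) (S a) A) ^ 2 =
        ∑ a, ∑ b, g5x (R a) (S a) A * g5x (R b) (S b) A := by
      intro A _; rw [sq, sum_mul_sum]
    rw [sum_congr rfl e1, sum_comm]
    have e2 : ∀ a ∈ (univ : Finset (Fin m)), ∑ A ∈ U.powerset, ∑ b, g5x (R a) (S a) A * g5x (R b) (S b) A =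
        2 ^ U.card * ρ + (m - 1) * (2 ^ U.card * ρ ^ 2) := by
      intro a _
      rw [sum_comm, ← add_sum_erase univ _ (mem_univ a)]
      congr 1
      · rw [← h1 a]; exact sum_congr rfl fun A _ => g5x_sq _ _ _
      · rw [sum_congr rfl (fun b hb => h2 a b (ne_of_mem_erase hb).symm), sum_const, nsmul_eq_mul,
          card_erase_of_mem (mem_univ a), card_univ, Fintype.card_fin]
        have hm : 1 ≤ m := Nat.one_le_iff_ne_zero.2 (fun h => by subst h; exact a.elim0)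
        rw [Nat.cast_sub hm, Nat.cast_one]
    rw [sum_congr rfl e2, sum_const, nsmul_eq_mul, card_univ, Fintype.card_fin]
    ring
  have h4 : ∑ A ∈ U.powerset, (∑ a, g5x (R a) (S a) A - m * ρ) ^ 2 =
      ∑ A ∈ U.powerset, (∑ a, g5x (R a) (S a) A) ^ 2 - 2 * (m * ρ) * ∑ A ∈ U.powerset, ∑ a, g5x (R a) (S a) A +
        2 ^ U.card * (m * ρ) ^ 2 := by
    have e : ∀ A ∈ U.powerset, (∑ a, g5x (R a) (S a) A - m * ρ) ^ 2 =
        (∑ a, g5x (R a) (S a) A) ^ 2 - 2 * (m * ρ) * ∑ a, g5x (R a) (S a) A + (m * ρ) ^ 2 := by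
      intro A _; ring
    rw [sum_congr rfl e, sum_add_distrib, sum_sub_distrib, ← mul_sum, sum_const, card_powerset, nsmul_eq_mul]
    push_cast; ring
  have h5 : ∑ A ∈ U.powerset, ∑ a, g5x (R a) (S a) A = m * (2 ^ U.card * ρ) := by
    rw [sum_comm, sum_congr rfl (fun a _ => h1 a), sum_const, nsmul_eq_mul, card_univ, Fintype.card_fin]
  rw [h4, h3, h5]
  have : 0 ≤ (2 : ℝ) ^ U.card * (m * ρ ^ 2) := by positivity
  nlinarith

theorem g5_key {α : Type*} [DecidableEq α] (U : Finset α) (k m : ℕ) (R S : Fin m → Finset α)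
    (hU : ∀ a, R a ∪ S a ⊆ U) (hRS : ∀ a, Disjoint (R a) (S a))
    (hk : ∀ a, (R a).card + (S a).card = k)
    (hdis : ∀ a b, a ≠ b → Disjoint (R a ∪ S a) (R b ∪ S b)) (ψ : Finset α → ℝ)
    (h0 : ∀ t, 0 ≤ ψ t) (h1 : ∀ t, ψ t ≤ 1) :
    |∑ a, ∑ A ∈ U.powerset, g5x (R a) (S a) A * ψ A - m * (1 / 2 : ℝ) ^ k * ∑ A ∈ U.powerset, ψ A| ≤
      2 ^ U.card * Real.sqrt (m * (1 / 2 : ℝ) ^ k) := by
  set ρ : ℝ := (1 / 2 : ℝ) ^ k with hρ
  have hρ0 : 0 ≤ ρ := by positivity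
  have e1 : ∑ a, ∑ A ∈ U.powerset, g5x (R a) (S a) A * ψ A - m * ρ * ∑ A ∈ U.powerset, ψ A =
      ∑ A ∈ U.powerset, (∑ a, g5x (R a) (S a) A - m * ρ) * ψ A := by
    rw [sum_comm, mul_sum, ← sum_sub_distrib]
    refine sum_congr rfl fun A _ => ?_
    rw [sub_mul, sum_mul]
  rw [e1]
  have e2 : |∑ A ∈ U.powerset, (∑ a, g5x (R a) (S a) A - m * ρ) * ψ A| ≤
      ∑ A ∈ U.powerset, |∑ a, g5x (R a) (S a) A - m * ρ| := by
    refine (abs_sum_le_sum_abs _ _).trans (sum_le_sum fun A _ => ?_)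
    rw [abs_mul, abs_of_nonneg (h0 A)]
    exact mul_le_of_le_one_right (abs_nonneg _) (h1 A)
  refine e2.trans (abs_le_of_sq_le_sq' ?_ (by positivity)).2
  have e3 : (∑ A ∈ U.powerset, |∑ a, g5x (R a) (S a) A - m * ρ|) ^ 2 ≤
      (∑ _A ∈ U.powerset, (1 : ℝ)) * ∑ A ∈ U.powerset, (∑ a, g5x (R a) (S a) A - m * ρ) ^ 2 := by
    refine sum_sq_le_sum_mul_sum_of_sq_le_mul _ (fun _ _ => zero_le_one) (fun _ _ => sq_nonneg _) (fun A _ => ?_)
    rw [sq_abs, one_mul]
  refine e3.trans ?_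
  have e4 := g5_second U k m R S hU hRS hk hdis
  rw [sum_const, card_powerset, nsmul_eq_mul, mul_one, mul_pow, Real.sq_sqrt (by positivity), sq, mul_assoc]
  push_cast
  exact mul_le_mul_of_nonneg_left e4 (by positivity)

/-- switching one gadget -/
theorem g5_switch {α V : Type*} [DecidableEq α] [AddCommGroup V] (U : Finset α) (w : α → V) (v : V)
    (P Q : Finset α) (hU : P ∪ Q ⊆ U) (hPQ : Disjoint P Q) (hv : ∑ c ∈ P, w c = ∑ c ∈ Q, w c + v) (φ : V → ℝ) :
    ∑ A ∈ U.powerset, g5x P Q A * φ (∑ c ∈ A, w c) = ∑ A ∈ U.powerset, g5x Q P A * φ (∑ c ∈ A, w c + v) := by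
  classical
  have hPU : P ⊆ U := fun x hx => hU (mem_union_left _ hx)
  have hQU : Q ⊆ U := fun x hx => hU (mem_union_right _ hx)
  have e : ∀ (R S : Finset α) (ψ : Finset α → ℝ), ∑ A ∈ U.powerset, g5x R S A * ψ A =
      ∑ A ∈ U.powerset.filter (fun A => R ⊆ A ∧ Disjoint S A), ψ A := by
    intro R S ψ
    rw [sum_filter]
    refine sum_congr rfl fun A _ => ?_
    unfold g5x; split_ifs <;> simp
  rw [e P Q (fun A => φ (∑ c ∈ A, w c)), e Q P (fun A => φ (∑ c ∈ A, w c + v))]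
  refine sum_bij' (fun A _ => (A \ P) ∪ Q) (fun A _ => (A \ Q) ∪ P) ?_ ?_ ?_ ?_ ?_
  · intro A hA
    rw [mem_filter, mem_powerset] at hA ⊢
    obtain ⟨hA, h1, h2⟩ := hA
    refine ⟨union_subset (sdiff_subset.trans hA) hQU, subset_union_right, ?_⟩
    rw [disjoint_union_right]
    exact ⟨disjoint_sdiff, hPQ⟩
  · intro A hA
    rw [mem_filter, mem_powerset] at hA ⊢
    obtain ⟨hA, h1, h2⟩ := hA
    refine ⟨union_subset (sdiff_subset.trans hA) hPU, subset_union_right, ?_⟩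
    rw [disjoint_union_right]
    exact ⟨disjoint_sdiff, hPQ.symm⟩
  · intro A hA
    rw [mem_filter, mem_powerset] at hA
    obtain ⟨hA, h1, h2⟩ := hA
    ext x
    have a1 := fun h => h1 (show x ∈ _ from h)
    have a2 := fun h => disjoint_left.1 h2 (show x ∈ _ from h)
    have a3 := fun h => disjoint_left.1 hPQ (show x ∈ _ from h)
    simp only [mem_union, mem_sdiff]
    tauto
  · intro A hA
    rw [mem_filter, mem_powerset] at hA
    obtain ⟨hA, h1, h2⟩ := hA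
    ext x
    have a1 := fun h => h1 (show x ∈ _ from h)
    have a2 := fun h => disjoint_left.1 h2 (show x ∈ _ from h)
    have a3 := fun h => disjoint_left.1 hPQ (show x ∈ _ from h)
    simp only [mem_union, mem_sdiff]
    tauto
  · intro A hA
    rw [mem_filter, mem_powerset] at hA
    obtain ⟨hA, h1, h2⟩ := hA
    have d : Disjoint (A \ P) Q := by
      rw [disjoint_left]
      intro x hx hq
      exact disjoint_left.1 h2 hq (mem_sdiff.1 hx).1
    have s1 := sum_sdiff h1 (f := w)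
    rw [sum_union d, add_assoc, ← hv, s1]

/-- **G5**: smoothing by switching. -/
theorem smoothing {α V : Type*} [DecidableEq α] [AddCommGroup V] (U : Finset α) (w : α → V) (v : V)
    (k m : ℕ) (hm : 0 < m) (P Q : Fin m → Finset α)
    (hU : ∀ a, P a ∪ Q a ⊆ U) (hPQ : ∀ a, Disjoint (P a) (Q a))
    (hk : ∀ a, (P a).card + (Q a).card = k)
    (hdis : ∀ a b, a ≠ b → Disjoint (P a ∪ Q a) (P b ∪ Q b))
    (hv : ∀ a, ∑ c ∈ P a, w c = ∑ c ∈ Q a, w c + v)
    (φ : V → ℝ) (h0 : ∀ t, 0 ≤ φ t) (h1 : ∀ t, φ t ≤ 1) :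
    |∑ A ∈ U.powerset, φ (∑ c ∈ A, w c + v) - ∑ A ∈ U.powerset, φ (∑ c ∈ A, w c)|
      ≤ 2 * Real.sqrt (2 ^ k / m) * 2 ^ U.card := by
  have k1 := g5_key U k m P Q hU hPQ hk hdis (fun A => φ (∑ c ∈ A, w c)) (fun _ => h0 _) (fun _ => h1 _)
  have k2 := g5_key U k m Q P (fun a => by rw [union_comm]; exact hU a) (fun a => (hPQ a).symm)
    (fun a => by rw [add_comm]; exact hk a) (fun a b hab => by
      rw [union_comm (Q a), union_comm (Q b)]; exact hdis a b hab) (fun A => φ (∑ c ∈ A, w c + v))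
    (fun _ => h0 _) (fun _ => h1 _)
  have sw : ∑ a, ∑ A ∈ U.powerset, g5x (P a) (Q a) A * φ (∑ c ∈ A, w c) =
      ∑ a, ∑ A ∈ U.powerset, g5x (Q a) (P a) A * φ (∑ c ∈ A, w c + v) :=
    sum_congr rfl fun a _ => g5_switch U w v (P a) (Q a) (hU a) (hPQ a) (hv a) φ
  rw [sw] at k1
  set X := ∑ a, ∑ A ∈ U.powerset, g5x (Q a) (P a) A * φ (∑ c ∈ A, w c + v)
  set F := ∑ A ∈ U.powerset, φ (∑ c ∈ A, w c + v)
  set F' := ∑ A ∈ U.powerset, φ (∑ c ∈ A, w c)
  have hmr : (0 : ℝ) < m := by exact_mod_cast hm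
  set t : ℝ := m * (1 / 2 : ℝ) ^ k with ht
  have ht0 : 0 < t := by positivity
  have hs0 : 0 < Real.sqrt t := Real.sqrt_pos.2 ht0
  have h3 : t * |F - F'| ≤ 2 * (2 ^ U.card * Real.sqrt t) := by
    rw [← abs_of_pos ht0, ← abs_mul, abs_of_pos ht0]
    have : t * (F - F') = (X - t * F') - (X - t * F) := by ring
    rw [this]
    refine (abs_sub _ _).trans ?_
    linarith
  have h4 : Real.sqrt (2 ^ k / m) = 1 / Real.sqrt t := by
    have : (2 : ℝ) ^ k / m = t⁻¹ := by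
      rw [ht, mul_inv, ← inv_pow]; norm_num [div_eq_mul_inv, mul_comm]
    rw [this, Real.sqrt_inv, one_div]
  rw [h4]
  have h5 : Real.sqrt t * Real.sqrt t = t := Real.mul_self_sqrt ht0.le
  rw [show 2 * (1 / Real.sqrt t) * 2 ^ U.card = 2 * 2 ^ U.card / Real.sqrt t by ring, le_div_iff₀ hs0]
  have h6 : Real.sqrt t * (|F - F'| * Real.sqrt t) ≤ Real.sqrt t * (2 * 2 ^ U.card) := by
    rw [show Real.sqrt t * (|F - F'| * Real.sqrt t) = (Real.sqrt t * Real.sqrt t) * |F - F'| by ring, h5]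
    refine h3.trans (le_of_eq (by ring))
  exact le_of_mul_le_mul_left h6 hs0

end Pool.Agent.J4.H79.HS
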