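import Pool.Agent.J4.H79.HS.K4
import Pool.Agent.J4.H79.HS.G5

/-! Piece Z3 of project HS (helper79), by helper46: second moment over disjoint blocks. -/

set_option autoImplicit false

namespace Pool.Agent.J4.H79.HS

open Finset

theorem z3_ind {α : Type} [DecidableEq α] (B X A : Finset α) (hX : X ⊆ B) :
    (if A ∩ B = X then (1 : ℝ) else 0) = g5x X (B \ X) A := by
  have h : A ∩ B = X ↔ X ⊆ A ∧ Disjoint (B \ X) A := by
    constructor
    · intro h
      refine ⟨fun x hx => ?_, disjoint_left.2 fun x hx hA => ?_⟩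
      · rw [← h] at hx
        exact (mem_inter.1 hx).1
      · rw [mem_sdiff] at hx
        exact hx.2 (by rw [← h]; exact mem_inter.2 ⟨hA, hx.1⟩)
    · rintro ⟨h1, h2⟩
      ext x
      rw [mem_inter]
      constructor
      · rintro ⟨hA, hB⟩
        by_contra hx
        exact disjoint_left.1 h2 (mem_sdiff.2 ⟨hB, hx⟩) hA
      · intro hx
        exact ⟨h1 hx, hX hx⟩
  unfold g5x
  by_cases h1 : A ∩ B = X
  · rw [if_pos h1, if_pos (h.1 h1)]
  · rw [if_neg h1, if_neg fun h' => h1 (h.2 h')]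

theorem z3_card {α : Type} [DecidableEq α] {B X : Finset α} (hX : X ⊆ B) :
    X.card + (B \ X).card = B.card := by
  have := card_sdiff_add_card_eq_card hX
  omega

/-- uncorrelated -/
theorem z3_corr {α : Type} [DecidableEq α] (C B X B' X' : Finset α) (hB : B ⊆ C) (hB' : B' ⊆ C) (hX : X ⊆ B)
    (hX' : X' ⊆ B') (hd : Disjoint B B') :
    ∑ A ∈ C.powerset, (2 ^ B.card * g5x X (B \ X) A - 1) * (2 ^ B'.card * g5x X' (B' \ X') A - 1) = 0 := by
  have c1 : ∑ A ∈ C.powerset, g5x X (B \ X) A = 2 ^ C.card * (1 / 2 : ℝ) ^ B.card := by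
    rw [g5_count C X (B \ X) (by rw [union_sdiff_of_subset hX]; exact hB) disjoint_sdiff, z3_card hX]
  have c2 : ∑ A ∈ C.powerset, g5x X' (B' \ X') A = 2 ^ C.card * (1 / 2 : ℝ) ^ B'.card := by
    rw [g5_count C X' (B' \ X') (by rw [union_sdiff_of_subset hX']; exact hB') disjoint_sdiff, z3_card hX']
  have c3 : ∑ A ∈ C.powerset, g5x X (B \ X) A * g5x X' (B' \ X') A =
      2 ^ C.card * (1 / 2 : ℝ) ^ (B.card + B'.card) := by
    rw [sum_congr rfl (fun A _ => g5x_mul X (B \ X) X' (B' \ X') A)]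
    have d1 : Disjoint X X' := hd.mono hX hX'
    have d2 : Disjoint X (B' \ X') := hd.mono hX sdiff_subset
    have d3 : Disjoint (B \ X) X' := hd.mono sdiff_subset hX'
    have d4 : Disjoint (B \ X) (B' \ X') := hd.mono sdiff_subset sdiff_subset
    rw [g5_count C]
    · rw [card_union_of_disjoint d1, card_union_of_disjoint d4]
      congr 2
      have := z3_card hX
      have := z3_card hX'
      omega
    · exact union_subset (union_subset (hX.trans hB) (hX'.trans hB'))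
        (union_subset (sdiff_subset.trans hB) (sdiff_subset.trans hB'))
    · rw [disjoint_union_left, disjoint_union_right, disjoint_union_right]
      exact ⟨⟨disjoint_sdiff, d2⟩, ⟨d3.symm, disjoint_sdiff⟩⟩
  have e1 : ∑ A ∈ C.powerset, (2 ^ B.card * g5x X (B \ X) A - 1) * (2 ^ B'.card * g5x X' (B' \ X') A - 1) =
      2 ^ B.card * 2 ^ B'.card * ∑ A ∈ C.powerset, g5x X (B \ X) A * g5x X' (B' \ X') A -
        2 ^ B.card * ∑ A ∈ C.powerset, g5x X (B \ X) A - 2 ^ B'.card * ∑ A ∈ C.powerset, g5x X' (B' \ X') A +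
        ∑ _A ∈ C.powerset, (1 : ℝ) := by
    rw [mul_sum, mul_sum, mul_sum, ← sum_sub_distrib, ← sum_sub_distrib, ← sum_add_distrib]
    exact sum_congr rfl fun A _ => by ring
  have hp : ∀ n : ℕ, (2 : ℝ) ^ n * (1 / 2) ^ n = 1 := fun n => by rw [← mul_pow]; norm_num
  rw [e1, c1, c2, c3, sum_const, card_powerset, nsmul_eq_mul, mul_one, pow_add]
  push_cast
  have h1 := hp B.card
  have h2 := hp B'.card
  have h3 : (2 : ℝ) ^ B.card * 2 ^ B'.card * (2 ^ C.card * ((1 / 2) ^ B.card * (1 / 2) ^ B'.card)) =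
      2 ^ C.card * ((2 ^ B.card * (1 / 2) ^ B.card) * (2 ^ B'.card * (1 / 2) ^ B'.card)) := by ring
  have h4 : (2 : ℝ) ^ B.card * (2 ^ C.card * (1 / 2) ^ B.card) = 2 ^ C.card * (2 ^ B.card * (1 / 2) ^ B.card) := by ring
  have h5 : (2 : ℝ) ^ B'.card * (2 ^ C.card * (1 / 2) ^ B'.card) = 2 ^ C.card * (2 ^ B'.card * (1 / 2) ^ B'.card) := by ring
  rw [h3, h4, h5, h1, h2]
  ring

theorem z3_dep {α : Type} [DecidableEq α] {B X A₀ A₁ : Finset α} (hX : X ⊆ B) (hd : Disjoint A₁ B) :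
    g5x X (B \ X) (A₀ ∪ A₁) = g5x X (B \ X) A₀ := by
  rw [← z3_ind B X _ hX, ← z3_ind B X _ hX, union_inter_distrib_right, disjoint_iff_inter_eq_empty.1 hd, union_empty]

theorem z3_bd {α : Type} [DecidableEq α] {B X : Finset α} {m : ℕ} (hm : B.card ≤ m) (A : Finset α) :
    |2 ^ B.card * g5x X (B \ X) A - 1| ≤ 2 ^ m := by
  have h1 : (1 : ℝ) ≤ 2 ^ B.card := one_le_pow₀ (by norm_num)
  have h2 : (2 : ℝ) ^ B.card ≤ 2 ^ m := pow_le_pow_right₀ (by norm_num) hm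
  unfold g5x
  split_ifs
  · rw [mul_one, abs_of_nonneg (by linarith)]
    linarith
  · rw [mul_zero, zero_sub, abs_neg, abs_one]
    linarith

/-- one pair of blocks -/
theorem z3_pair {α V : Type} [DecidableEq α] [Fintype α] [AddCommGroup V] (w : α → V)
    (C₀ : Finset α) (μ : ℝ) (hμ : 0 ≤ μ)
    (hsm : ∀ A₀ : Finset α, A₀ ⊆ C₀ → Sm (univ \ C₀) w μ (∑ c ∈ A₀, w c))
    (m : ℕ) (B X B' X' : Finset α) (hB : B ⊆ C₀) (hB' : B' ⊆ C₀) (hBm : B.card ≤ m) (hBm' : B'.card ≤ m)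
    (hd : Disjoint B B') (hX : X ⊆ B) (hX' : X' ⊆ B')
    (Ψ : V → ℝ) (h0 : ∀ t, 0 ≤ Ψ t) (h1 : ∀ t, Ψ t ≤ 1) :
    |EU univ (fun A => Ψ (∑ c ∈ A, w c) * ((2 ^ B.card * g5x X (B \ X) A - 1) *
      (2 ^ B'.card * g5x X' (B' \ X') A - 1)))| ≤ 4 ^ m * μ := by
  obtain ⟨Ξ, hΞ⟩ : ∃ Ξ : Finset α → ℝ, Ξ = fun A => (2 ^ B.card * g5x X (B \ X) A - 1) *
      (2 ^ B'.card * g5x X' (B' \ X') A - 1) := ⟨_, rfl⟩
  have hΞ0 : ∑ A ∈ C₀.powerset, Ξ A = 0 := by rw [hΞ]; exact z3_corr C₀ B X B' X' hB hB' hX hX' hd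
  have hΞb : ∀ A, |Ξ A| ≤ 4 ^ m := by
    intro A
    rw [hΞ]
    simp only
    rw [abs_mul]
    have e : (4 : ℝ) ^ m = 2 ^ m * 2 ^ m := by rw [← mul_pow]; norm_num
    rw [e]
    exact mul_le_mul (z3_bd hBm A) (z3_bd hBm' A) (abs_nonneg _) (by positivity)
  obtain ⟨U, hU⟩ : ∃ U, U = univ \ C₀ := ⟨_, rfl⟩
  rw [← hU] at hsm
  have hCU : Disjoint C₀ U := by rw [hU]; exact disjoint_sdiff
  have hCUu : C₀ ∪ U = univ := by rw [hU]; exact union_sdiff_of_subset (subset_univ _)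
  have hcard : (univ : Finset α).card = C₀.card + U.card := by rw [← hCUu, card_union_of_disjoint hCU]
  have hmain : EU univ (fun A => Ψ (∑ c ∈ A, w c) * Ξ A) =
      (∑ A₀ ∈ C₀.powerset, Ξ A₀ * (EU U (fun A => Ψ (∑ c ∈ A, w c + ∑ c ∈ A₀, w c)) -
        EU U (fun A => Ψ (∑ c ∈ A, w c)))) / 2 ^ C₀.card := by
    have e1 : ∑ A₀ ∈ C₀.powerset, Ξ A₀ * (EU U (fun A => Ψ (∑ c ∈ A, w c + ∑ c ∈ A₀, w c)) -
        EU U (fun A => Ψ (∑ c ∈ A, w c))) =
        ∑ A₀ ∈ C₀.powerset, Ξ A₀ * EU U (fun A => Ψ (∑ c ∈ A, w c + ∑ c ∈ A₀, w c)) := by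
      rw [← sub_eq_zero, ← sum_sub_distrib]
      have e2 : ∀ A₀ ∈ C₀.powerset, Ξ A₀ * (EU U (fun A => Ψ (∑ c ∈ A, w c + ∑ c ∈ A₀, w c)) -
          EU U (fun A => Ψ (∑ c ∈ A, w c))) - Ξ A₀ * EU U (fun A => Ψ (∑ c ∈ A, w c + ∑ c ∈ A₀, w c)) =
          Ξ A₀ * -EU U (fun A => Ψ (∑ c ∈ A, w c)) := fun A₀ _ => by ring
      rw [sum_congr rfl e2, ← sum_mul, hΞ0, zero_mul]
    rw [e1]
    conv_lhs => unfold EU
    rw [hcard, pow_add, ← hCUu, sum_powerset_split C₀ U hCU]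
    rw [div_eq_div_iff (by positivity) (by positivity), sum_mul, sum_mul]
    refine sum_congr rfl fun A₀ hA₀ => ?_
    rw [mem_powerset] at hA₀
    have e3 : ∑ A₁ ∈ U.powerset, Ψ (∑ c ∈ A₀ ∪ A₁, w c) * Ξ (A₀ ∪ A₁) =
        Ξ A₀ * ∑ A₁ ∈ U.powerset, Ψ (∑ c ∈ A₁, w c + ∑ c ∈ A₀, w c) := by
      rw [mul_sum]
      refine sum_congr rfl fun A₁ hA₁ => ?_
      rw [mem_powerset] at hA₁
      have hdd : Disjoint A₁ C₀ := (hCU.mono_right hA₁).symm
      have e4 : Ξ (A₀ ∪ A₁) = Ξ A₀ := by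
        rw [hΞ]
        simp only
        rw [z3_dep hX (hdd.mono_right hB), z3_dep hX' (hdd.mono_right hB')]
      rw [e4, sum_union (hCU.mono hA₀ hA₁), add_comm (∑ c ∈ A₀, w c), mul_comm]
    rw [e3]
    unfold EU
    field_simp
  have hgoal : (fun A => Ψ (∑ c ∈ A, w c) * ((2 ^ B.card * g5x X (B \ X) A - 1) *
      (2 ^ B'.card * g5x X' (B' \ X') A - 1))) = fun A => Ψ (∑ c ∈ A, w c) * Ξ A := by rw [hΞ]
  rw [hgoal, hmain, abs_div, abs_of_pos (by positivity : (0 : ℝ) < 2 ^ C₀.card), div_le_iff₀ (by positivity)]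
  calc |∑ A₀ ∈ C₀.powerset, Ξ A₀ * (EU U (fun A => Ψ (∑ c ∈ A, w c + ∑ c ∈ A₀, w c)) -
        EU U (fun A => Ψ (∑ c ∈ A, w c)))|
      ≤ ∑ A₀ ∈ C₀.powerset, |Ξ A₀ * (EU U (fun A => Ψ (∑ c ∈ A, w c + ∑ c ∈ A₀, w c)) -
        EU U (fun A => Ψ (∑ c ∈ A, w c)))| := abs_sum_le_sum_abs _ _
    _ ≤ ∑ _A₀ ∈ C₀.powerset, 4 ^ m * μ := by
        refine sum_le_sum fun A₀ hA₀ => ?_
        rw [abs_mul]
        exact mul_le_mul (hΞb A₀) (hsm A₀ (mem_powerset.1 hA₀) Ψ h0 h1) (abs_nonneg _) (by positivity)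
    _ = 4 ^ m * μ * 2 ^ C₀.card := by
        rw [sum_const, card_powerset, nsmul_eq_mul]
        push_cast
        ring

/-- **Z3** -/
theorem second_moment {α V : Type} [DecidableEq α] [Fintype α] [AddCommGroup V] (w : α → V)
    (C₀ : Finset α) (S : Finset (Finset α)) (μ : ℝ) (hμ : 0 ≤ μ)
    (hsm : ∀ A₀ : Finset α, A₀ ⊆ C₀ → Sm (univ \ C₀) w μ (∑ c ∈ A₀, w c))
    (b m : ℕ) (B X : Fin b → Finset α) (hB : ∀ k, B k ⊆ C₀) (hBm : ∀ k, (B k).card ≤ m)
    (hdis : ∀ k l, k ≠ l → Disjoint (B k) (B l)) (hX : ∀ k, X k ⊆ B k)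
    (ψ : Fin b → V → ℝ) (h0 : ∀ k t, 0 ≤ ψ k t) (h1 : ∀ k t, ψ k t ≤ 1) :
    ∑ k, |EU univ (fun A => (if A ∈ S then ψ k (∑ c ∈ A, w c) else 0) *
      (2 ^ (B k).card * (if A ∩ B k = X k then (1 : ℝ) else 0) - 1))| ≤
      2 ^ m * Real.sqrt (b + b ^ 2 * μ) := by
  classical
  obtain ⟨ξ, hξ⟩ : ∃ ξ : Fin b → Finset α → ℝ, ξ = fun k A => 2 ^ (B k).card * g5x (X k) (B k \ X k) A - 1 := ⟨_, rfl⟩
  have hξe : ∀ k A, 2 ^ (B k).card * (if A ∩ B k = X k then (1 : ℝ) else 0) - 1 = ξ k A := by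
    intro k A
    rw [z3_ind _ _ _ (hX k), hξ]
  have hξb : ∀ k A, |ξ k A| ≤ 2 ^ m := by
    intro k A
    rw [hξ]
    exact z3_bd (hBm k) A
  simp only [hξe]
  obtain ⟨I, hI⟩ : ∃ I : Fin b → ℝ, I = fun k => EU univ (fun A => (if A ∈ S then ψ k (∑ c ∈ A, w c) else 0) * ξ k A) :=
    ⟨_, rfl⟩
  obtain ⟨σ, hσ⟩ : ∃ σ : Fin b → ℝ, σ = fun k => if 0 ≤ I k then 1 else -1 := ⟨_, rfl⟩
  have hσI : ∀ k, |I k| = σ k * I k := by
    intro k
    rw [hσ]
    simp only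
    split_ifs with h
    · rw [abs_of_nonneg h, one_mul]
    · rw [abs_of_neg (not_le.1 h)]; ring
  have hσ1 : ∀ k, |σ k| = 1 := by
    intro k
    rw [hσ]
    simp only
    split_ifs <;> simp
  obtain ⟨h, hh⟩ : ∃ h : Fin b → Finset α → ℝ, h = fun k A => ψ k (∑ c ∈ A, w c) * ξ k A := ⟨_, rfl⟩
  -- the sum as one average
  have hsum : ∑ k, |I k| = EU univ (fun A => (if A ∈ S then 1 else 0) * ∑ k, σ k * h k A) := by
    have e1 : (fun A : Finset α => (if A ∈ S then (1 : ℝ) else 0) * ∑ k, σ k * h k A) =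
        fun A => ∑ k, σ k * ((if A ∈ S then ψ k (∑ c ∈ A, w c) else 0) * ξ k A) := by
      funext A
      rw [mul_sum]
      refine sum_congr rfl fun k _ => ?_
      rw [hh]
      split_ifs <;> ring
    rw [e1, EU_sum]
    refine sum_congr rfl fun k _ => ?_
    rw [EU_mul_left, hσI, hI]
  have hsq : (∑ k, |I k|) ^ 2 ≤ 4 ^ m * (b + b ^ 2 * μ) := by
    rw [hsum]
    refine (EU_sq _ _).trans ?_
    have e1 : EU univ (fun A : Finset α => ((if A ∈ S then (1 : ℝ) else 0) * ∑ k, σ k * h k A) ^ 2) ≤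
        EU univ (fun A => ∑ k, ∑ l, (σ k * σ l) * (h k A * h l A)) := by
      refine EU_mono _ _ _ fun A => ?_
      have e2 : ∑ k, ∑ l, (σ k * σ l) * (h k A * h l A) = (∑ k, σ k * h k A) ^ 2 := by
        rw [sq, sum_mul_sum]
        exact sum_congr rfl fun k _ => sum_congr rfl fun l _ => by ring
      rw [e2, mul_pow]
      refine mul_le_of_le_one_left (sq_nonneg _) ?_
      split_ifs <;> norm_num
    refine e1.trans ?_
    rw [EU_sum]
    have e3 : ∀ k ∈ (univ : Finset (Fin b)), EU univ (fun A => ∑ l, (σ k * σ l) * (h k A * h l A)) ≤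
        4 ^ m * (1 + b * μ) := by
      intro k _
      rw [EU_sum]
      have e4 : ∀ l ∈ (univ : Finset (Fin b)), EU univ (fun A => (σ k * σ l) * (h k A * h l A)) ≤
          (if l = k then 4 ^ m else 0) + 4 ^ m * μ := by
        intro l _
        by_cases hlk : l = k
        · subst hlk
          rw [if_pos rfl]
          have e5 : EU univ (fun A => (σ l * σ l) * (h l A * h l A)) ≤ EU univ (fun _ : Finset α => (4 : ℝ) ^ m) := by
            refine EU_mono _ _ _ fun A => ?_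
            have e6 : σ l * σ l = 1 := by rw [← abs_mul_abs_self, hσ1]; norm_num
            rw [e6, one_mul, hh]
            simp only
            have e7 : (ψ l (∑ c ∈ A, w c) * ξ l A) * (ψ l (∑ c ∈ A, w c) * ξ l A) =
                (ψ l (∑ c ∈ A, w c)) ^ 2 * |ξ l A| ^ 2 := by rw [sq_abs]; ring
            rw [e7]
            have e8 : (ψ l (∑ c ∈ A, w c)) ^ 2 ≤ 1 := pow_le_one₀ (h0 _ _) (h1 _ _)
            have e9 : |ξ l A| ^ 2 ≤ (2 ^ m) ^ 2 := pow_le_pow_left₀ (abs_nonneg _) (hξb l A) 2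
            have e10 : ((2 : ℝ) ^ m) ^ 2 = 4 ^ m := by rw [← pow_mul, mul_comm, pow_mul]; norm_num
            rw [e10] at e9
            calc _ ≤ 1 * (4 : ℝ) ^ m := mul_le_mul e8 e9 (sq_nonneg _) zero_le_one
              _ = _ := one_mul _
          rw [EU_const] at e5
          have : 0 ≤ 4 ^ m * μ := by positivity
          linarith
        · rw [if_neg hlk, zero_add, EU_mul_left]
          have e5 := z3_pair w C₀ μ hμ hsm m (B k) (X k) (B l) (X l) (hB k) (hB l) (hBm k) (hBm l)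
            (hdis k l (fun h => hlk h.symm)) (hX k) (hX l) (fun t => ψ k t * ψ l t)
            (fun t => mul_nonneg (h0 _ _) (h0 _ _)) (fun t => mul_le_one₀ (h1 _ _) (h0 _ _) (h1 _ _))
          have e6 : (fun A => h k A * h l A) = fun A => (fun t => ψ k t * ψ l t) (∑ c ∈ A, w c) *
              ((2 ^ (B k).card * g5x (X k) (B k \ X k) A - 1) * (2 ^ (B l).card * g5x (X l) (B l \ X l) A - 1)) := by
            funext A
            rw [hh, hξ]
            simp only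
            ring
          rw [← e6] at e5
          calc _ ≤ |σ k * σ l * EU univ (fun A => h k A * h l A)| := le_abs_self _
            _ = |EU univ (fun A => h k A * h l A)| := by rw [abs_mul, abs_mul, hσ1, hσ1, one_mul, one_mul]
            _ ≤ _ := e5
      refine (sum_le_sum e4).trans (le_of_eq ?_)
      rw [sum_add_distrib, sum_ite_eq' univ k, if_pos (mem_univ _), sum_const, card_univ, Fintype.card_fin, nsmul_eq_mul]
      ring
    refine (sum_le_sum e3).trans (le_of_eq ?_)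
    rw [sum_const, card_univ, Fintype.card_fin, nsmul_eq_mul]
    ring
  have hIs : ∑ k, |EU univ (fun A => (if A ∈ S then ψ k (∑ c ∈ A, w c) else 0) * ξ k A)| = ∑ k, |I k| := by rw [hI]
  rw [hIs]
  have h4 : (4 : ℝ) ^ m = (2 ^ m) ^ 2 := by rw [← pow_mul, mul_comm, pow_mul]; norm_num
  rw [h4] at hsq
  have h5 := Real.le_sqrt_of_sq_le hsq
  rw [Real.sqrt_mul (by positivity), Real.sqrt_sq (by positivity)] at h5
  exact h5

end Pool.Agent.J4.H79.HS
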