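import Pool.Agent.J4.H79.HS.K4

namespace Pool.Agent.J4.H79.HS

open Finset

/-- the average over all sets with prescribed intersection with a block is near the average over the
subsets of `U` -/
theorem cond_avg {α V : Type} [DecidableEq α] [Fintype α] [AddCommGroup V] (w : α → V)
    (C₀ : Finset α) (μ : ℝ)
    (hsm : ∀ A₀ : Finset α, A₀ ⊆ C₀ → Sm (univ \ C₀) w μ (∑ c ∈ A₀, w c))
    (B X : Finset α) (hB : B ⊆ C₀) (hX : X ⊆ B) (ψ : V → ℝ) (h0 : ∀ t, 0 ≤ ψ t) (h1 : ∀ t, ψ t ≤ 1) :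
    |EU univ (fun A => ψ (∑ c ∈ A, w c) * (2 ^ B.card * (if A ∩ B = X then (1 : ℝ) else 0))) -
      EU (univ \ C₀) (fun A => ψ (∑ c ∈ A, w c))| ≤ μ := by
  classical
  set U : Finset α := univ \ C₀ with hU
  set E0 : ℝ := EU U (fun A => ψ (∑ c ∈ A, w c)) with hE0
  have hCU : Disjoint C₀ U := Finset.disjoint_sdiff
  have hCUu : C₀ ∪ U = univ := by rw [hU]; exact Finset.union_sdiff_of_subset (Finset.subset_univ _)
  have hcardCU : C₀.card + U.card = Fintype.card α := by
    rw [← Finset.card_union_of_disjoint hCU, hCUu, Finset.card_univ]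
  -- the contents of C₀ which meet B in X
  set 𝒜 : Finset (Finset α) := C₀.powerset.filter (fun A₀ => A₀ ∩ B = X) with h𝒜
  have h𝒜card : (𝒜.card : ℝ) * 2 ^ B.card = 2 ^ C₀.card := by
    have h2 : 𝒜.card = (C₀ \ B).powerset.card := by
      apply Finset.card_bij' (fun A₀ _ => A₀ \ B) (fun A₁ _ => A₁ ∪ X)
      · intro A₀ hA₀
        rw [h𝒜, Finset.mem_filter, Finset.mem_powerset] at hA₀
        rw [Finset.mem_powerset]
        exact Finset.sdiff_subset_sdiff hA₀.1 le_rfl
      · intro A₁ hA₁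
        rw [Finset.mem_powerset] at hA₁
        rw [h𝒜, Finset.mem_filter, Finset.mem_powerset]
        refine ⟨Finset.union_subset (hA₁.trans Finset.sdiff_subset) (hX.trans hB), ?_⟩
        ext x
        simp only [Finset.mem_inter, Finset.mem_union]
        constructor
        · rintro ⟨h | h, hx⟩
          · exact absurd hx (Finset.mem_sdiff.1 (hA₁ h)).2
          · exact h
        · intro h; exact ⟨Or.inr h, hX h⟩
      · intro A₀ hA₀
        rw [h𝒜, Finset.mem_filter] at hA₀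
        ext x
        simp only [Finset.mem_union, Finset.mem_sdiff]
        constructor
        · rintro (⟨h, _⟩ | h)
          · exact h
          · rw [← hA₀.2, Finset.mem_inter] at h; exact h.1
        · intro h
          by_cases hx : x ∈ B
          · right; rw [← hA₀.2, Finset.mem_inter]; exact ⟨h, hx⟩
          · left; exact ⟨h, hx⟩
      · intro A₁ hA₁
        rw [Finset.mem_powerset] at hA₁
        ext x
        simp only [Finset.mem_union, Finset.mem_sdiff]
        constructor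
        · rintro ⟨h | h, hx⟩
          · exact h
          · exact absurd (hX h) hx
        · intro h; exact ⟨Or.inl h, (Finset.mem_sdiff.1 (hA₁ h)).2⟩
    rw [h2, Finset.card_powerset, Finset.card_sdiff_of_subset hB]
    push_cast
    rw [← pow_add, Nat.sub_add_cancel (Finset.card_le_card hB)]
  have hsum : ∑ A ∈ (univ : Finset α).powerset,
      ψ (∑ c ∈ A, w c) * (2 ^ B.card * (if A ∩ B = X then (1 : ℝ) else 0)) =
      ∑ A₀ ∈ 𝒜, 2 ^ B.card * (2 ^ U.card * EU U (fun A => ψ (∑ c ∈ A, w c + ∑ c ∈ A₀, w c))) := by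
    rw [← hCUu, sum_powerset_split C₀ U hCU, h𝒜, Finset.sum_filter]
    refine Finset.sum_congr rfl fun A₀ hA₀ => ?_
    rw [Finset.mem_powerset] at hA₀
    have h3 : ∀ A₁ ∈ U.powerset, (A₀ ∪ A₁) ∩ B = A₀ ∩ B := by
      intro A₁ hA₁
      rw [Finset.mem_powerset] at hA₁
      ext x
      simp only [Finset.mem_inter, Finset.mem_union]
      constructor
      · rintro ⟨h | h, hx⟩
        · exact ⟨h, hx⟩
        · exact absurd (hB hx) (Finset.disjoint_right.1 hCU (hA₁ h))
      · rintro ⟨h, hx⟩; exact ⟨Or.inl h, hx⟩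
    have h4 : ∀ A₁ ∈ U.powerset, ∑ c ∈ A₀ ∪ A₁, w c = ∑ c ∈ A₁, w c + ∑ c ∈ A₀, w c := by
      intro A₁ hA₁
      rw [Finset.mem_powerset] at hA₁
      rw [Finset.sum_union (hCU.mono hA₀ hA₁), add_comm]
    by_cases hA : A₀ ∩ B = X
    · rw [if_pos hA]
      unfold EU
      rw [mul_div_cancel₀ _ (by positivity), Finset.mul_sum]
      refine Finset.sum_congr rfl fun A₁ hA₁ => ?_
      rw [h3 A₁ hA₁, h4 A₁ hA₁, if_pos hA]; ring
    · rw [if_neg hA]
      refine Finset.sum_eq_zero fun A₁ hA₁ => ?_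
      rw [h3 A₁ hA₁, if_neg hA]; ring
  have hmain : EU univ (fun A => ψ (∑ c ∈ A, w c) * (2 ^ B.card * (if A ∩ B = X then (1 : ℝ) else 0))) - E0
      = (∑ A₀ ∈ 𝒜, 2 ^ B.card * (2 ^ U.card * (EU U (fun A => ψ (∑ c ∈ A, w c + ∑ c ∈ A₀, w c)) - E0)))
        / 2 ^ Fintype.card α := by
    have h5 : ∑ A₀ ∈ 𝒜, 2 ^ B.card * (2 ^ U.card * (EU U (fun A => ψ (∑ c ∈ A, w c + ∑ c ∈ A₀, w c)) - E0)) =
        ∑ A₀ ∈ 𝒜, 2 ^ B.card * (2 ^ U.card * EU U (fun A => ψ (∑ c ∈ A, w c + ∑ c ∈ A₀, w c))) -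
          E0 * 2 ^ Fintype.card α := by
      rw [← hcardCU, pow_add, ← h𝒜card]
      rw [show E0 * ((𝒜.card : ℝ) * 2 ^ B.card * 2 ^ U.card) =
        ∑ A₀ ∈ 𝒜, E0 * (2 ^ B.card * 2 ^ U.card) by
          rw [Finset.sum_const, nsmul_eq_mul]; ring, ← Finset.sum_sub_distrib]
      refine Finset.sum_congr rfl fun A₀ _ => ?_
      ring
    rw [h5, ← hsum]
    have h6 : EU univ (fun A => ψ (∑ c ∈ A, w c) * (2 ^ B.card * (if A ∩ B = X then (1 : ℝ) else 0))) =
        (∑ A ∈ (univ : Finset α).powerset,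
      ψ (∑ c ∈ A, w c) * (2 ^ B.card * (if A ∩ B = X then (1 : ℝ) else 0))) / 2 ^ Fintype.card α := by
      unfold EU
      rw [Finset.card_univ]
    rw [h6, sub_div, mul_div_cancel_right₀ _ (by positivity)]
  rw [hmain, abs_div, abs_of_pos (by positivity : (0 : ℝ) < 2 ^ Fintype.card α),
    div_le_iff₀ (by positivity)]
  refine (Finset.abs_sum_le_sum_abs _ _).trans ?_
  calc ∑ A₀ ∈ 𝒜, |2 ^ B.card * (2 ^ U.card * (EU U (fun A => ψ (∑ c ∈ A, w c + ∑ c ∈ A₀, w c)) - E0))|
      ≤ ∑ A₀ ∈ 𝒜, 2 ^ B.card * (2 ^ U.card * μ) := by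
        refine Finset.sum_le_sum fun A₀ hA₀ => ?_
        rw [h𝒜, Finset.mem_filter, Finset.mem_powerset] at hA₀
        have := hsm A₀ hA₀.1 ψ h0 h1
        rw [abs_mul, abs_mul, abs_of_pos (by positivity : (0 : ℝ) < 2 ^ B.card),
          abs_of_pos (by positivity : (0 : ℝ) < 2 ^ U.card)]
        gcongr
    _ = μ * 2 ^ Fintype.card α := by
        rw [Finset.sum_const, nsmul_eq_mul, ← hcardCU, pow_add, ← h𝒜card]; ring

/-- The conclusion for one block. `S` has the proportion `p` on the levels of the weight. -/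
theorem majority_step {α V : Type} [DecidableEq α] [Fintype α] [AddCommGroup V] (w : α → V)
    (C₀ : Finset α) (S : Finset (Finset α)) (μ : ℝ) (hμ : 0 ≤ μ)
    (hsm : ∀ A₀ : Finset α, A₀ ⊆ C₀ → Sm (univ \ C₀) w μ (∑ c ∈ A₀, w c))
    (B : Finset α) (hB : B ⊆ C₀) (p : ℝ) (hp0 : 0 ≤ p) (hp1 : p ≤ 1)
    (ψ : V → ℝ) (h0 : ∀ t, 0 ≤ ψ t) (h1 : ∀ t, ψ t ≤ 1)
    (hψ : p * EU univ (fun A => ψ (∑ c ∈ A, w c)) ≤
        EU univ (fun A => if A ∈ S then ψ (∑ c ∈ A, w c) else 0))
    (hψ' : p * EU univ (fun A => ψ (∑ c ∈ A, w c - ∑ c ∈ B, w c)) ≤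
        EU univ (fun A => if A ∈ S then ψ (∑ c ∈ A, w c - ∑ c ∈ B, w c) else 0))
    (hno : ∀ A : Finset α, Disjoint A B → A ∈ S → A ∪ B ∉ S) :
    (2 * p - 1) * EU (univ \ C₀) (fun A => ψ (∑ c ∈ A, w c)) ≤ 4 * μ +
      |EU univ (fun A => (if A ∈ S then ψ (∑ c ∈ A, w c) else 0) *
        (2 ^ B.card * (if A ∩ B = ∅ then (1 : ℝ) else 0) - 1))| +
      |EU univ (fun A => (if A ∈ S then ψ (∑ c ∈ A, w c - ∑ c ∈ B, w c) else 0) *
        (2 ^ B.card * (if A ∩ B = B then (1 : ℝ) else 0) - 1))| := by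
  classical
  set t : V := ∑ c ∈ B, w c with ht
  set e0 : ℝ := EU (univ \ C₀) (fun A => ψ (∑ c ∈ A, w c)) with he0
  set g : Finset α → ℝ := fun A => if A ∈ S then ψ (∑ c ∈ A, w c) else 0 with hg
  set g' : Finset α → ℝ := fun A => if A ∈ S then ψ (∑ c ∈ A, w c - t) else 0 with hg'
  set i0 : Finset α → ℝ := fun A => 2 ^ B.card * (if A ∩ B = ∅ then (1 : ℝ) else 0) with hi0
  set i1 : Finset α → ℝ := fun A => 2 ^ B.card * (if A ∩ B = B then (1 : ℝ) else 0) with hi1
  have ha : EU univ (fun A => g A * (i0 A - 1)) = EU univ (fun A => g A * i0 A) - EU univ g := by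
    rw [← EU_sub]; congr 1; funext A; ring
  have ha' : EU univ (fun A => g' A * (i1 A - 1)) = EU univ (fun A => g' A * i1 A) - EU univ g' := by
    rw [← EU_sub]; congr 1; funext A; ring
  have hc1 := cond_avg w C₀ μ hsm ∅ ∅ (Finset.empty_subset _) (Finset.empty_subset _) ψ h0 h1
  have hc2 := cond_avg w C₀ μ hsm ∅ ∅ (Finset.empty_subset _) (Finset.empty_subset _)
    (fun v => ψ (v - t)) (fun v => h0 _) (fun v => h1 _)
  have hc3 := cond_avg w C₀ μ hsm B ∅ hB (Finset.empty_subset _) ψ h0 h1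
  simp only [Finset.inter_empty, if_true, Finset.card_empty, pow_zero, mul_one] at hc1 hc2
  have hc4 := Sm_neg (hsm B hB) ψ h0 h1
  simp only [← sub_eq_add_neg] at hc4
  rw [← he0] at hc1 hc3 hc4
  have k1 := (abs_le.1 hc1).1
  have k2 := (abs_le.1 hc2).1
  have k3 := (abs_le.1 hc3).2
  have k4 := (abs_le.1 hc4).1
  -- the upper bound
  have hswap : EU univ (fun A => g' A * i1 A) = EU univ (fun A => g' (A ∪ B) * i0 A) := by
    unfold EU
    congr 1
    rw [hi1, hi0]
    simp only [mul_ite, mul_one, mul_zero]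
    rw [← Finset.sum_filter, ← Finset.sum_filter]
    apply Finset.sum_bij' (fun A _ => A \ B) (fun A _ => A ∪ B)
    · intro A hA
      rw [Finset.mem_filter] at hA ⊢
      refine ⟨Finset.mem_powerset.2 (Finset.subset_univ _), ?_⟩
      exact Finset.sdiff_inter_self _ _
    · intro A hA
      rw [Finset.mem_filter] at hA ⊢
      refine ⟨Finset.mem_powerset.2 (Finset.subset_univ _), ?_⟩
      exact Finset.union_inter_cancel_right
    · intro A hA
      rw [Finset.mem_filter] at hA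
      exact Finset.sdiff_union_of_subset (Finset.inter_eq_right.1 hA.2)
    · intro A hA
      rw [Finset.mem_filter] at hA
      exact Finset.union_sdiff_cancel_right (Finset.disjoint_iff_inter_eq_empty.2 hA.2)
    · intro A hA
      rw [Finset.mem_filter] at hA
      rw [Finset.sdiff_union_of_subset (Finset.inter_eq_right.1 hA.2)]
  have hup : EU univ (fun A => g A * i0 A) + EU univ (fun A => g' A * i1 A) ≤
      EU univ (fun A => ψ (∑ c ∈ A, w c) * i0 A) := by
    rw [hswap, ← EU_add]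
    apply EU_mono
    intro A
    rw [← add_mul]
    by_cases hAB : A ∩ B = ∅
    · apply mul_le_mul_of_nonneg_right _ (by rw [hi0]; positivity)
      have hd : Disjoint A B := Finset.disjoint_iff_inter_eq_empty.2 hAB
      have hTA : ∑ c ∈ A ∪ B, w c - t = ∑ c ∈ A, w c := by
        rw [Finset.sum_union hd, ht, add_sub_cancel_right]
      rw [hg, hg']
      simp only
      rw [hTA]
      by_cases hA : A ∈ S
      · rw [if_pos hA, if_neg (hno A hd hA), add_zero]
      · rw [if_neg hA, zero_add]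
        split_ifs
        · exact le_rfl
        · exact h0 _
    · have : i0 A = 0 := by rw [hi0]; simp only; rw [if_neg hAB, mul_zero]
      rw [this]; simp
  have l1 := neg_abs_le (EU univ (fun A => g A * (i0 A - 1)))
  have l2 := neg_abs_le (EU univ (fun A => g' A * (i1 A - 1)))
  have hpe : p * e0 - p * μ ≤ p * EU univ (fun A => ψ (∑ c ∈ A, w c)) := by nlinarith
  have hpe' : p * e0 - 2 * (p * μ) ≤ p * EU univ (fun A => ψ (∑ c ∈ A, w c - t)) := by nlinarith
  have hpμ : p * μ ≤ μ := by nlinarith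
  nlinarith

end Pool.Agent.J4.H79.HS
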