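import Pool.Agent.J4.H79.HS.X13

/-!
X14: the vectors `z` of X13 for an arbitrary embedding of `Fin n`.
-/

namespace Pool.Agent.J4.H79.HS

open Finset

namespace X14

open Classical in
/-- extension by zero along `g`, with left inverse `h` -/
noncomputable def Th {d M N : ℕ} (g : Fin M → Fin N) (h : Fin N → Fin M) :
    (Fin d → (Fin d → Fin M) → ℤ) →+ (Fin d → (Fin d → Fin N) → ℤ) where
  toFun v := fun j u => if ∀ l, l ≠ j → g (h (u l)) = u l then v j (fun l => h (u l)) else 0
  map_zero' := by
    funext j u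
    simp
  map_add' v w := by
    funext j u
    simp only [Pi.add_apply]
    split_ifs
    · rfl
    · simp

theorem Th_lw {d M N : ℕ} {g : Fin M → Fin N} {h : Fin N → Fin M} (hg : ∀ a, h (g a) = a)
    (a : Fin d → Fin M) : Th g h (lw a) = lw (fun j => g (a j)) := by
  funext j u
  show (if ∀ l, l ≠ j → g (h (u l)) = u l then lw a j (fun l => h (u l)) else 0) = _
  unfold lw
  by_cases h1 : ∀ l, l ≠ j → u l = g (a l)
  · rw [if_pos h1, if_pos, if_pos]
    · intro l hl
      show h (u l) = a l
      rw [h1 l hl, hg]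
    · intro l hl
      rw [h1 l hl, hg]
  · rw [if_neg h1]
    split_ifs with h2 h3
    · exfalso
      apply h1
      intro l hl
      rw [← h3 l hl, h2 l hl]
    · rfl
    · rfl

end X14

/-- zvec (X13) for an arbitrary embedding f : Fin n ↪ Fin N and a point o outside of its range. -/
theorem zvec_emb (d n N : ℕ) (hd : 1 ≤ d) (f : Fin n ↪ Fin N) (o : Fin N) (ho : ∀ i, f i ≠ o) :
    ∃ z : (Fin (d - 1) → Fin n) → (Fin d → (Fin d → Fin N) → ℤ),
      (∀ c', ∃ (a : Fin (2 ^ d) → (Fin d → Fin N)) (s : Fin (2 ^ d) → ℤ),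
        (∀ t j, a t j = o ∨ ∃ i, a t j = f i) ∧ (∀ t, s t = 0 ∨ s t = 1 ∨ s t = -1) ∧
          z c' = ∑ t, s t • lw (a t)) ∧
      ∀ γ : Finset (Fin n),
        ∑ c ∈ Fintype.piFinset (fun _ : Fin d => γ.map f), lw c =
          γ.card • ∑ c' ∈ Fintype.piFinset (fun _ : Fin (d - 1) => γ), z c' := by
  classical
  obtain ⟨z, hz1, hz2⟩ := zvec d n (n + 1) hd (Nat.lt_succ_self n)
  let g : Fin (n + 1) → Fin N := Fin.lastCases o f
  have hgl : g (Fin.last n) = o := Fin.lastCases_last
  have hgc : ∀ i : Fin n, g i.castSucc = f i := fun i => Fin.lastCases_castSucc i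
  have hinj : Function.Injective g := by
    intro a b
    refine Fin.lastCases ?_ (fun i => ?_) a
    · refine Fin.lastCases ?_ (fun k => ?_) b
      · intro _
        rfl
      · intro h
        rw [hgl, hgc] at h
        exact absurd h.symm (ho k)
    · refine Fin.lastCases ?_ (fun k => ?_) b
      · intro h
        rw [hgl, hgc] at h
        exact absurd h (ho i)
      · intro h
        rw [hgc, hgc] at h
        rw [f.injective h]
  let h : Fin N → Fin (n + 1) := Function.invFun g
  have hh : ∀ a, h (g a) = a := Function.leftInverse_invFun hinj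
  refine ⟨fun c' => X14.Th g h (z c'), fun c' => ?_, fun γ => ?_⟩
  · obtain ⟨a, s, h1, h2, h3⟩ := hz1 c'
    refine ⟨fun t j => g (a t j), s, fun t j => ?_, h2, ?_⟩
    · show g (a t j) = o ∨ ∃ i, g (a t j) = f i
      refine Fin.lastCases (motive := fun x => g x = o ∨ ∃ i, g x = f i) ?_ (fun i => ?_) (a t j)
      · exact Or.inl hgl
      · exact Or.inr ⟨i, hgc i⟩
    · show X14.Th g h (z c') = _
      rw [h3, map_sum]
      refine Finset.sum_congr rfl fun t _ => ?_
      rw [map_zsmul, X14.Th_lw hh]
  · have e1 := congrArg (X14.Th g h) (hz2 γ)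
    rw [map_nsmul, map_sum, map_sum] at e1
    rw [← e1]
    symm
    refine Finset.sum_bij (fun c _ => fun j => g (c j)) ?_ ?_ ?_ ?_
    · intro c hc
      rw [Fintype.mem_piFinset] at hc ⊢
      intro j
      obtain ⟨i, hi, hij⟩ := Finset.mem_map.1 (hc j)
      rw [Finset.mem_map]
      refine ⟨i, hi, ?_⟩
      rw [← hij]
      exact (hgc i).symm
    · intro c _ c' _ hcc
      funext j
      exact hinj (congrFun hcc j)
    · intro b hb
      rw [Fintype.mem_piFinset] at hb
      choose i hi hib using fun j => Finset.mem_map.1 (hb j)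
      refine ⟨fun j => (i j).castSucc, ?_, ?_⟩
      · rw [Fintype.mem_piFinset]
        intro j
        rw [Finset.mem_map]
        exact ⟨i j, hi j, rfl⟩
      · funext j
        rw [← hib j]
        exact hgc (i j)
    · intro c _
      exact X14.Th_lw hh c

end Pool.Agent.J4.H79.HS
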