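import Pool.Agent.J4.H79.HS.K5

/-!
Definitions for the final statement of project HS.
-/

namespace Pool.Agent.J4.H79.HS

open Finset

/-- `S` is good: there are `A ∈ S` and a non-empty `γ` with `A ∩ γ^d = ∅` and `A ∪ γ^d ∈ S`. -/
def Good {d N : ℕ} (S : Finset (Finset (Fin d → Fin N))) : Prop :=
  ∃ A ∈ S, ∃ γ : Finset (Fin N), γ.Nonempty ∧ Disjoint A (cube d γ) ∧ A ∪ cube d γ ∈ S

/-- the number of points of `A` on the line through `u` in direction `j` -/
def lineCount {d N : ℕ} (A : Finset (Fin d → Fin N)) (j : Fin d) (u : Fin d → Fin N) : ℕ :=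
  (A.filter fun c => ∀ l, l ≠ j → c l = u l).card

/-- `A` and `B` agree outside `I^d` and have the same number of points on every line. -/
def SameLines {d N : ℕ} (I : Finset (Fin N)) (A B : Finset (Fin d → Fin N)) : Prop :=
  A \ cube d I = B \ cube d I ∧ ∀ j u, lineCount A j u = lineCount B j u

open Classical in
/-- `S` contains at least the proportion `p` of the sets `B` which agree with `A` outside `I^d` and
have the same number of points as `A` on every line. -/
def Majority {d N : ℕ} (p : ℝ) (I : Finset (Fin N)) (S : Finset (Finset (Fin d → Fin N)))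
    (A : Finset (Fin d → Fin N)) : Prop :=
  p * ((univ.filter fun B => SameLines I A B).card : ℝ) ≤ ((S.filter fun B => SameLines I A B).card : ℝ)

end Pool.Agent.J4.H79.HS
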