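import Pool.Agent.J4.H79.HS.Y7
import Pool.Agent.J4.H79.HS.X14
import Pool.Agent.J4.H79.HS.Z0

namespace Pool.Agent.J4.H79.HS

open Finset

/-- base block: all coordinates less than `n₀` -/
def base (d N n₀ : ℕ) : Finset (Fin d → Fin N) := univ.filter fun x => ∀ j, (x j : ℕ) < n₀

theorem card_base (d N n₀ : ℕ) (h : n₀ ≤ N) : (base d N n₀).card = n₀ ^ d := by
  have h1 : base d N n₀ = Fintype.piFinset (fun _ : Fin d =>
      (univ.filter fun a : Fin N => (a : ℕ) < n₀)) := by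
    ext x; simp [base, Fintype.mem_piFinset]
  rw [h1, Fintype.card_piFinset_const]
  congr 1
  have h2 : (univ.filter fun a : Fin N => (a : ℕ) < n₀) =
      (univ : Finset (Fin n₀)).map (Fin.castLEEmb h) := by
    ext a
    simp only [Finset.mem_filter, Finset.mem_univ, true_and, Finset.mem_map, Fin.castLEEmb_apply]
    constructor
    · intro h; exact ⟨⟨a, h⟩, by ext; rfl⟩
    · rintro ⟨b, rfl⟩; exact b.2
  rw [h2, Finset.card_map, Finset.card_univ, Fintype.card_fin]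

/-- the assembly for a block of indices given by an embedding `f` -/
theorem block_assembly (d : ℕ) (hd : 1 ≤ d) (ε' : ℝ) (hε'0 : 0 < ε') (hε'1 : ε' < 1) (n R : ℕ)
    (lam : Finset (Fin n) → ℝ) (hl0 : ∀ γ, 0 ≤ lam γ)
    (hl1 : ∀ γ, lam γ ≠ 0 → γ.Nonempty ∧ γ.card ≤ R) (hl2 : ∑ γ, lam γ ≤ 1)
    (hl3 : 1 - ε' ≤ ∑ γ, lam γ)
    (hl4 : ∀ θ : (Fin (d - 1) → Fin n) → ℝ,
      -ε' ≤ ∑ γ, lam γ * Real.cos (2 * Real.pi * ((γ.card : ℝ) *
        ∑ c ∈ Fintype.piFinset (fun _ : Fin (d - 1) => γ), θ c)))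
    (L : ℕ) (hLpos : 0 < L) (hRL : (R : ℝ) ^ d / L ≤ ε') (N n₀ : ℕ) (hn₀ : n₀ < N)
    (f : Fin n ↪ Fin N) (hf : ∀ i, (f i : ℕ) < n₀) (δ : ℝ) (hδ0 : 0 ≤ δ)
    (hsm : ∀ c ∈ base d N (n₀ + 1), Sm (univ \ base d N (n₀ + 1)) lw δ (lw c))
    (hKδ : (3 * ((n₀ : ℝ) + 1) ^ d + 3 * ((n : ℝ) ^ (d - 1) * L * 2 ^ d)) * δ ≤ ε')
    (S : Finset (Finset (Fin d → Fin N)))
    (hS : ∀ A B : Finset (Fin d → Fin N), ∑ c ∈ A, lw c = ∑ c ∈ B, lw c → (A ∈ S ↔ B ∈ S)) :
    ∃ γ : Finset (Fin n), γ.Nonempty ∧ γ.card ≤ R ∧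
      (((S.card : ℝ) / 2 ^ (N ^ d)) ^ 2 - 4 * ε') * 2 ^ (N ^ d - γ.card ^ d) ≤
        ((S.filter (fun A => Disjoint A (cube d (γ.map f)) ∧ A ∪ cube d (γ.map f) ∈ S)).card : ℝ) := by
  classical
  have hLp : (0 : ℝ) < L := by exact_mod_cast hLpos
  set C₀ : Finset (Fin d → Fin N) := base d N (n₀ + 1) with hC₀
  have hC₀c : C₀.card = (n₀ + 1) ^ d := card_base d N (n₀ + 1) hn₀
  set up : Finset (Fin n) → Finset (Fin N) := fun γ => γ.map f with hup
  obtain ⟨z, hz1, hz2⟩ := zvec_emb d n N hd f ⟨n₀, hn₀⟩ (fun i h => by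
    have := hf i
    rw [h] at this
    exact lt_irrefl _ this)
  set k : Finset (Fin n) → (Fin (d - 1) → Fin n) → ℕ :=
    fun γ c' => if c' ∈ Fintype.piFinset (fun _ : Fin (d - 1) => γ) then γ.card else 0 with hk
  have hk1 : ∀ γ i, i ∈ Fintype.piFinset (fun _ : Fin (d - 1) => γ) → k γ i = γ.card :=
    fun γ i hi => if_pos hi
  have hk0 : ∀ γ i, i ∉ Fintype.piFinset (fun _ : Fin (d - 1) => γ) → k γ i = 0 :=
    fun γ i hi => if_neg hi
  have hksum : ∀ (γ : Finset (Fin n)) (θ : (Fin (d - 1) → Fin n) → ℝ),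
      ∑ i, (k γ i : ℝ) * θ i =
        (γ.card : ℝ) * ∑ i ∈ Fintype.piFinset (fun _ : Fin (d - 1) => γ), θ i := by
    intro γ θ
    rw [Finset.mul_sum, ← Finset.sum_filter_add_sum_filter_not univ
      (fun i => i ∈ Fintype.piFinset (fun _ : Fin (d - 1) => γ))]
    rw [Finset.sum_eq_zero (s := univ.filter fun i => ¬ i ∈
      Fintype.piFinset (fun _ : Fin (d - 1) => γ)) (fun i hi => by
      rw [hk0 γ i (Finset.mem_filter.1 hi).2]; simp), add_zero]
    rw [Finset.filter_mem_eq_inter, Finset.univ_inter]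
    refine Finset.sum_congr rfl fun i hi => ?_
    rw [hk1 γ i hi]
  have s1 : ∀ γ, (fun γ => cube d (up γ)) γ ⊆ C₀ := by
    intro γ c hc
    rw [hC₀, base, Finset.mem_filter]
    refine ⟨Finset.mem_univ _, fun j => ?_⟩
    have hc' : c ∈ Fintype.piFinset (fun _ : Fin d => up γ) := hc
    rw [Fintype.mem_piFinset] at hc'
    have := hc' j
    rw [hup, Finset.mem_map] at this
    obtain ⟨b, _, hb⟩ := this
    rw [← hb]; exact Nat.lt_succ_of_lt (hf b)
  have s2 : ∀ γ, ∑ c ∈ (fun γ => cube d (up γ)) γ, lw c = ∑ i, k γ i • z i := by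
    intro γ
    have h1 := hz2 γ
    have h2 : ∑ c ∈ (fun γ => cube d (up γ)) γ, lw c =
        γ.card • ∑ c' ∈ Fintype.piFinset (fun _ : Fin (d - 1) => γ), z c' := h1
    rw [h2, Finset.smul_sum, ← Finset.sum_filter_add_sum_filter_not univ
      (fun i => i ∈ Fintype.piFinset (fun _ : Fin (d - 1) => γ))]
    rw [Finset.sum_eq_zero (s := univ.filter fun i => ¬ i ∈
      Fintype.piFinset (fun _ : Fin (d - 1) => γ)) (fun i hi => by
      rw [hk0 γ i (Finset.mem_filter.1 hi).2, zero_smul]), add_zero]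
    rw [Finset.filter_mem_eq_inter, Finset.univ_inter]
    refine Finset.sum_congr rfl fun i hi => ?_
    rw [hk1 γ i hi]
  have s3 : ∀ θ : (Fin (d - 1) → Fin n) → ℝ,
      -ε' ≤ ∑ γ, lam γ * Real.cos (2 * Real.pi * ∑ i, (k γ i : ℝ) * θ i) := by
    intro θ
    have h1 := hl4 θ
    refine le_trans h1 (le_of_eq ?_)
    refine Finset.sum_congr rfl fun γ _ => ?_
    rw [hksum]
  have s4 : ∀ γ, lam γ ≠ 0 → ∑ i, (k γ i : ℝ) ≤ (R : ℝ) ^ d := by
    intro γ hγ
    have h1 := hksum γ (fun _ => 1)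
    simp only [mul_one] at h1
    rw [h1, Finset.sum_const, nsmul_eq_mul, mul_one, Fintype.card_piFinset_const]
    have h2 : (γ.card : ℝ) ≤ R := by exact_mod_cast (hl1 γ hγ).2
    push_cast
    rw [← pow_succ', Nat.sub_add_cancel hd]
    gcongr
  have s5 : ∀ i, Sm (univ \ C₀) lw (2 ^ d * δ) (z i) := by
    intro i
    obtain ⟨a, s, ha, hs, hzi⟩ := hz1 i
    rw [hzi]
    have h1 : ∀ t ∈ (univ : Finset (Fin (2 ^ d))), Sm (univ \ C₀) lw δ (s t • lw (a t)) := by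
      intro t _
      have h2 : Sm (univ \ C₀) lw δ (lw (a t)) := by
        apply hsm
        rw [hC₀, base, Finset.mem_filter]
        refine ⟨Finset.mem_univ _, fun j => ?_⟩
        rcases ha t j with h | ⟨i, h⟩
        · rw [h]; exact Nat.lt_succ_self n₀
        · rw [h]; exact Nat.lt_succ_of_lt (hf i)
      rcases hs t with h | h | h
      · rw [h, zero_smul]
        exact Sm_mono Sm_zero hδ0
      · rw [h, one_smul]
        exact h2
      · rw [h, neg_smul, one_smul]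
        exact Sm_neg h2
    refine Sm_mono (Sm_sum univ (fun _ => δ) (fun t => s t • lw (a t)) h1) ?_
    rw [Finset.sum_const, nsmul_eq_mul, Finset.card_univ, Fintype.card_fin]
    push_cast
    exact le_rfl
  obtain ⟨γ, hγ, hmain⟩ := assembly (V := Fin d → (Fin d → Fin N) → ℤ) lw C₀ S
    hS
    z k (fun γ => cube d (up γ)) s1 s2 lam hl0 ε' hε'0 hε'1 hl2 hl3 s3 ((R : ℝ) ^ d) (by positivity)
    s4 L hLpos δ (2 ^ d * δ) hδ0 (by positivity) hsm s5
  have hup1 : (up γ).card = γ.card := Finset.card_map _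
  refine ⟨γ, (hl1 γ hγ).1, (hl1 γ hγ).2, ?_⟩
  have hcc : (cube d (up γ)).card = γ.card ^ d := by rw [card_cube, hup1]
  rw [Fintype.card_fun, Fintype.card_fin, Fintype.card_fin, hcc] at hmain
  refine le_trans ?_ hmain
  apply mul_le_mul_of_nonneg_right _ (by positivity)
  have h1 : 3 * ((C₀.card : ℝ) * δ) +
      3 * ((Fintype.card (Fin (d - 1) → Fin n) : ℝ) * L * (2 ^ d * δ)) =
        (3 * ((n₀ : ℝ) + 1) ^ d + 3 * ((n : ℝ) ^ (d - 1) * L * 2 ^ d)) * δ := by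
    rw [hC₀c, Fintype.card_fun, Fintype.card_fin, Fintype.card_fin]; push_cast; ring
  linarith

end Pool.Agent.J4.H79.HS
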