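import Pool.Agent.J4.H79.HS.Z1
import Pool.Agent.J4.H79.HS.Z3
import Pool.Agent.J4.H79.HS.Z4
import Pool.Agent.J4.H79.HS.Z5a

namespace Pool.Agent.J4.H79.HS

open Finset

theorem cube_univ (d N : ℕ) : cube d (univ : Finset (Fin N)) = univ := by
  unfold cube; exact Fintype.piFinset_univ

theorem sameLines_univ {d N : ℕ} (A B : Finset (Fin d → Fin N)) :
    SameLines univ A B ↔ ∑ c ∈ A, lw c = ∑ c ∈ B, lw c := by
  unfold SameLines
  rw [cube_univ]
  constructor
  · rintro ⟨-, h⟩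
    funext j u
    rw [sum_lw_apply, sum_lw_apply]
    have := h j u
    unfold lineCount at this
    exact_mod_cast this
  · intro h
    refine ⟨?_, fun j u => ?_⟩
    · rw [Finset.sdiff_eq_empty_iff_subset.2 (Finset.subset_univ A),
        Finset.sdiff_eq_empty_iff_subset.2 (Finset.subset_univ B)]
    · have := congrFun (congrFun h j) u
      rw [sum_lw_apply, sum_lw_apply] at this
      unfold lineCount
      exact_mod_cast this

open Classical in
/-- sums over the fibres of the weight -/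
theorem fibre_majority {α V : Type} [DecidableEq α] [Fintype α] [AddCommGroup V] (w : α → V)
    (S : Finset (Finset α)) (p : ℝ) (χ : V → ℝ) (h0 : ∀ t, 0 ≤ χ t)
    (hχ : ∀ t, χ t ≠ 0 → p * ((univ.filter fun A : Finset α => ∑ c ∈ A, w c = t).card : ℝ) ≤
      ((S.filter fun A : Finset α => ∑ c ∈ A, w c = t).card : ℝ)) :
    p * EU univ (fun A => χ (∑ c ∈ A, w c)) ≤
      EU univ (fun A => if A ∈ S then χ (∑ c ∈ A, w c) else 0) := by
  set T : Finset α → V := fun A => ∑ c ∈ A, w c with hT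
  unfold EU
  rw [← mul_div_assoc]
  apply div_le_div_of_nonneg_right _ (by positivity)
  rw [Finset.powerset_univ, Finset.sum_comp χ T, ← Finset.sum_filter, Finset.filter_mem_eq_inter,
    Finset.univ_inter, Finset.sum_comp χ T]
  have h1 : ∑ t ∈ S.image T, (S.filter fun A => T A = t).card • χ t =
      ∑ t ∈ (univ : Finset (Finset α)).image T, (S.filter fun A => T A = t).card • χ t := by
    apply Finset.sum_subset (Finset.image_subset_image (Finset.subset_univ _))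
    intro t _ ht
    have : S.filter (fun A => T A = t) = ∅ := by
      rw [Finset.filter_eq_empty_iff]
      intro A hA h
      exact ht (Finset.mem_image.2 ⟨A, hA, h⟩)
    rw [this]; simp
  rw [h1, Finset.mul_sum]
  refine Finset.sum_le_sum fun t _ => ?_
  rw [nsmul_eq_mul, nsmul_eq_mul, ← mul_assoc]
  by_cases ht : χ t = 0
  · rw [ht]; simp
  · exact mul_le_mul_of_nonneg_right (hχ t ht) (h0 t)

open Classical in
/-- **Global majority theorem.** -/
theorem majority_global (d : ℕ) (hd : 1 ≤ d) (ε δ : ℝ) (hε : 0 < ε) (hε1 : ε ≤ 1 / 2)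
    (hδ : 0 < δ) (hδ1 : δ ≤ 1) :
    ∃ N₀ : ℕ, ∀ N : ℕ, N₀ ≤ N → ∀ S : Finset (Finset (Fin d → Fin N)),
      δ * 2 ^ (N ^ d) ≤ ((univ.filter fun A => Majority (1 / 2 + ε) univ S A).card : ℝ) → Good S := by
  set ε' : ℝ := δ ^ 2 / 16 with hε'
  have hδ2 : δ ^ 2 ≤ 1 := by nlinarith
  have hε'0 : 0 < ε' := by positivity
  have hε'1 : ε' < 1 := by rw [hε']; linarith
  obtain ⟨n, R, hn, lam, hl0, hl1, hl2, hl3, hl4⟩ := kernel_lines (d - 1) ε' hε'0
  obtain ⟨L₀, hL₀⟩ := exists_nat_gt ((R : ℝ) ^ d / ε')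
  set L := L₀ + 1 with hL
  have hLpos : 0 < L := by omega
  have hLp : (0 : ℝ) < L := by exact_mod_cast hLpos
  have hRL : (R : ℝ) ^ d / L ≤ ε' := by
    have h1 : (R : ℝ) ^ d / ε' < L := by rw [hL]; push_cast; linarith
    rw [div_lt_iff₀ hε'0] at h1
    rw [div_le_iff₀ hLp]; linarith
  set m := R ^ d with hm
  set κ : ℝ := ε * δ ^ 2 with hκ
  have hκ0 : 0 < κ := by positivity
  -- number of blocks
  obtain ⟨b₀, hb₀⟩ := exists_nat_gt (2 * (2 * (2 : ℝ) ^ m) ^ 2 / (κ / 4) ^ 2)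
  set b := b₀ + 1 with hb
  have hbpos : 0 < b := by omega
  have hbp : (0 : ℝ) < b := by exact_mod_cast hbpos
  have hbsq : 2 * (2 * (2 : ℝ) ^ m) ^ 2 / (κ / 4) ^ 2 ≤ b := by rw [hb]; push_cast; linarith
  set n₀ := b * n with hn₀
  set θ : ℝ := min ε' (min (1 / b) (κ / 16)) with hθ
  have hθ0 : 0 < θ := by rw [hθ]; positivity
  set K : ℝ := 3 * ((n₀ : ℝ) + 1) ^ d + 3 * ((n : ℝ) ^ (d - 1) * L * 2 ^ d) with hK
  have hK0 : 0 ≤ K := by positivity
  obtain ⟨m₀, hm₀⟩ := exists_nat_gt (2 ^ (2 ^ d - 1) * (2 * K / θ) ^ 2)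
  set mg := m₀ + 1 with hmg
  have hmpos : 0 < mg := by omega
  have hmp : (0 : ℝ) < mg := by exact_mod_cast hmpos
  set s : ℝ := 2 * Real.sqrt (2 ^ (2 ^ d - 1) / mg) with hs
  have hs0 : 0 ≤ s := by positivity
  have hKs : K * s ≤ θ := by
    have h1 : (2 : ℝ) ^ (2 ^ d - 1) * (2 * K / θ) ^ 2 ≤ mg := by rw [hmg]; push_cast; linarith
    have h2 : (2 * K) ^ 2 * (2 ^ (2 ^ d - 1) / mg) ≤ θ ^ 2 := by
      rw [div_pow, ← mul_div_assoc, div_le_iff₀ (by positivity)] at h1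
      rw [← mul_div_assoc, div_le_iff₀ hmp]
      linarith
    have h3 : 2 * K * Real.sqrt (2 ^ (2 ^ d - 1) / mg) ≤ θ := by
      rw [← Real.sqrt_sq (by positivity : (0 : ℝ) ≤ 2 * K), ← Real.sqrt_mul (by positivity),
        ← Real.sqrt_sq hθ0.le]
      exact Real.sqrt_le_sqrt h2
    rw [hs]; linarith
  set μ : ℝ := ((n₀ : ℝ) + 1) ^ d * s with hμ
  have hμ0 : 0 ≤ μ := by positivity
  have hμθ : μ ≤ θ := by
    refine le_trans ?_ hKs
    rw [hμ, hK]
    apply mul_le_mul_of_nonneg_right _ hs0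
    have h1 : 0 ≤ 3 * ((n : ℝ) ^ (d - 1) * L * 2 ^ d) := by positivity
    have h2 : 0 ≤ ((n₀ : ℝ) + 1) ^ d := by positivity
    linarith
  have hμb : μ ≤ 1 / b := hμθ.trans ((min_le_right _ _).trans (min_le_left _ _))
  have hμκ : μ ≤ κ / 16 := hμθ.trans ((min_le_right _ _).trans (min_le_right _ _))
  refine ⟨n₀ + 1 + mg, ?_⟩
  intro N hN S hdens
  have hn₀N : n₀ < N := by omega
  set C₀ : Finset (Fin d → Fin N) := base d N (n₀ + 1) with hC₀
  have hC₀c : C₀.card = (n₀ + 1) ^ d := card_base d N (n₀ + 1) hn₀N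
  have hsm1 : ∀ c ∈ C₀, Sm (univ \ C₀) lw s (lw c) := fun c hc =>
    smooth_line d (n₀ + 1) mg N hd hmpos hN c (Finset.mem_filter.1 hc).2
  have hsm : ∀ A₀ : Finset (Fin d → Fin N), A₀ ⊆ C₀ → Sm (univ \ C₀) lw μ (∑ c ∈ A₀, lw c) := by
    intro A₀ hA₀
    refine Sm_mono (Sm_sum A₀ (fun _ => s) lw (fun c hc => hsm1 c (hA₀ hc))) ?_
    rw [Finset.sum_const, nsmul_eq_mul, hμ]
    have h1 : (A₀.card : ℝ) ≤ ((n₀ : ℝ) + 1) ^ d := by
      have : A₀.card ≤ (n₀ + 1) ^ d := by rw [← hC₀c]; exact Finset.card_le_card hA₀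
      exact_mod_cast this
    gcongr
  -- the family of the sets with a majority
  set 𝒮 : Finset (Finset (Fin d → Fin N)) :=
    univ.filter fun A => Majority (1 / 2 + ε) univ S A with h𝒮
  have h𝒮det : ∀ A B : Finset (Fin d → Fin N), ∑ c ∈ A, lw c = ∑ c ∈ B, lw c →
      (A ∈ 𝒮 ↔ B ∈ 𝒮) := by
    intro A B hAB
    rw [h𝒮, Finset.mem_filter, Finset.mem_filter]
    have h1 : ∀ C, SameLines univ A C ↔ SameLines univ B C := by
      intro C; rw [sameLines_univ, sameLines_univ, hAB]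
    unfold Majority
    simp only [h1]
    simp
  have hD : δ ≤ (𝒮.card : ℝ) / 2 ^ (N ^ d) := by
    rw [le_div_iff₀ (by positivity)]; exact hdens
  -- the embeddings of the blocks
  have hemb : ∀ (k : Fin b) (i : Fin n), (k : ℕ) * n + i < n₀ := by
    intro k i
    have h1 : ((k : ℕ) + 1) * n ≤ b * n := Nat.mul_le_mul_right _ k.2
    have h2 := i.2
    rw [Nat.add_mul, Nat.one_mul] at h1
    omega
  set f : Fin b → (Fin n ↪ Fin N) := fun k =>
    ⟨fun i => ⟨(k : ℕ) * n + i, (hemb k i).trans hn₀N⟩, fun i j hij => by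
      have := congrArg Fin.val hij
      simp only at this
      exact Fin.ext (by omega)⟩ with hf
  have hfv : ∀ k i, ((f k i : Fin N) : ℕ) = (k : ℕ) * n + i := fun k i => rfl
  have hblock : ∀ k : Fin b, ∃ γ : Finset (Fin n), γ.Nonempty ∧ γ.card ≤ R ∧
      (((𝒮.card : ℝ) / 2 ^ (N ^ d)) ^ 2 - 4 * ε') * 2 ^ (N ^ d - γ.card ^ d) ≤
        ((𝒮.filter (fun A => Disjoint A (cube d (γ.map (f k))) ∧
          A ∪ cube d (γ.map (f k)) ∈ 𝒮)).card : ℝ) := by
    intro k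
    exact block_assembly d hd ε' hε'0 hε'1 n R lam hl0 hl1 hl2 hl3 hl4 L hLpos hRL N n₀ hn₀N (f k)
      (fun i => by rw [hfv]; exact hemb k i) s hs0 hsm1 (hKs.trans (min_le_left _ _)) 𝒮 h𝒮det
  choose γ hγ1 hγ2 hγ3 using hblock
  set B : Fin b → Finset (Fin d → Fin N) := fun k => cube d ((γ k).map (f k)) with hB
  have hmemB : ∀ k c, c ∈ B k → ∀ j, ∃ i ∈ γ k, c j = f k i := by
    intro k c hc j
    have hc' : c ∈ Fintype.piFinset (fun _ : Fin d => (γ k).map (f k)) := hc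
    rw [Fintype.mem_piFinset] at hc'
    obtain ⟨i, hi, h⟩ := Finset.mem_map.1 (hc' j)
    exact ⟨i, hi, h.symm⟩
  have hBC : ∀ k, B k ⊆ C₀ := by
    intro k c hc
    rw [hC₀, base, Finset.mem_filter]
    refine ⟨Finset.mem_univ _, fun j => ?_⟩
    obtain ⟨i, _, h⟩ := hmemB k c hc j
    rw [h, hfv]
    exact Nat.lt_succ_of_lt (hemb k i)
  have hBcard : ∀ k, (B k).card = (γ k).card ^ d := by
    intro k
    show (cube d ((γ k).map (f k))).card = _
    rw [card_cube, Finset.card_map]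
  have hBm : ∀ k, (B k).card ≤ m := by
    intro k
    rw [hBcard, hm]
    exact Nat.pow_le_pow_left (hγ2 k) d
  have hBdis : ∀ k l, k ≠ l → Disjoint (B k) (B l) := by
    intro k l hkl
    rw [Finset.disjoint_left]
    intro c hc hc'
    obtain ⟨i, _, h⟩ := hmemB k c hc ⟨0, by omega⟩
    obtain ⟨i', _, h'⟩ := hmemB l c hc' ⟨0, by omega⟩
    have h1 : (k : ℕ) * n + i = (l : ℕ) * n + i' := by
      rw [← hfv, ← hfv, ← h, ← h']
    apply hkl
    apply Fin.ext
    have h2 := i.2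
    have h3 := i'.2
    have h4 : ((k : ℕ) * n + i) / n = k := by
      rw [mul_comm, Nat.mul_add_div (by omega), Nat.div_eq_of_lt h2, add_zero]
    have h5 : ((l : ℕ) * n + i') / n = l := by
      rw [mul_comm, Nat.mul_add_div (by omega), Nat.div_eq_of_lt h3, add_zero]
    rw [← h4, ← h5, h1]
  -- the functions
  set φ : (Fin d → (Fin d → Fin N) → ℤ) → ℝ :=
    fun t => if ∃ A, A ∈ 𝒮 ∧ ∑ c ∈ A, lw c = t then 1 else 0 with hφdef
  have hφ0 : ∀ t, 0 ≤ φ t := by intro t; rw [hφdef]; simp only; split_ifs <;> norm_num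
  have hφ1 : ∀ t, φ t ≤ 1 := by intro t; rw [hφdef]; simp only; split_ifs <;> norm_num
  have hφ : ∀ A : Finset (Fin d → Fin N), φ (∑ c ∈ A, lw c) = if A ∈ 𝒮 then 1 else 0 := by
    intro A
    rw [hφdef]
    simp only
    by_cases hA : A ∈ 𝒮
    · rw [if_pos ⟨A, hA, rfl⟩, if_pos hA]
    · rw [if_neg, if_neg hA]
      rintro ⟨A', hA', he⟩
      exact hA ((h𝒮det A' A he).1 hA')
  have hφmaj : ∀ t, φ t ≠ 0 → (1 / 2 + ε) *
      ((univ.filter fun A : Finset (Fin d → Fin N) => ∑ c ∈ A, lw c = t).card : ℝ) ≤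
      ((S.filter fun A : Finset (Fin d → Fin N) => ∑ c ∈ A, lw c = t).card : ℝ) := by
    intro t ht
    have h1 : ∃ A, A ∈ 𝒮 ∧ ∑ c ∈ A, lw c = t := by
      by_contra hcon
      apply ht
      rw [hφdef]; simp only; rw [if_neg hcon]
    obtain ⟨A, hA, hAt⟩ := h1
    rw [h𝒮, Finset.mem_filter] at hA
    have h2 := hA.2
    unfold Majority at h2
    have h3 : ∀ C, SameLines univ A C ↔ ∑ c ∈ C, lw c = t := by
      intro C; rw [sameLines_univ, hAt]; exact eq_comm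
    simp only [h3] at h2
    convert h2
  set tk : Fin b → (Fin d → (Fin d → Fin N) → ℤ) := fun k => ∑ c ∈ B k, lw c with htk
  set ψ : Fin b → (Fin d → (Fin d → Fin N) → ℤ) → ℝ := fun k t => φ t * φ (t + tk k) with hψ
  have hψ0 : ∀ k t, 0 ≤ ψ k t := fun k t => mul_nonneg (hφ0 _) (hφ0 _)
  have hψ1 : ∀ k t, ψ k t ≤ 1 := fun k t => mul_le_one₀ (hφ1 _) (hφ0 _) (hφ1 _)
  -- second moments
  have hsm2a := second_moment lw C₀ S μ hμ0 hsm b m B (fun _ => ∅) hBC hBm hBdis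
    (fun _ => Finset.empty_subset _) ψ hψ0 hψ1
  have hsm2b := second_moment lw C₀ S μ hμ0 hsm b m B B hBC hBm hBdis
    (fun _ => le_rfl) (fun k t => ψ k (t - tk k)) (fun k t => hψ0 _ _) (fun k t => hψ1 _ _)
  have hsqrt : 2 ^ m * Real.sqrt (b + b ^ 2 * μ) ≤ b * (κ / 8) := by
    have h1 : (b : ℝ) + b ^ 2 * μ ≤ 2 * b := by
      have : (b : ℝ) ^ 2 * μ ≤ b ^ 2 * (1 / b) := by gcongr
      have h2 : (b : ℝ) ^ 2 * (1 / b) = b := by field_simp
      linarith
    have h2 : (2 : ℝ) ^ m * Real.sqrt (b + b ^ 2 * μ) ≤ 2 ^ m * Real.sqrt (2 * b) := by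
      gcongr
    refine h2.trans ?_
    have h3 : 2 * (2 * (2 : ℝ) ^ m) ^ 2 ≤ b * (κ / 4) ^ 2 := by
      rw [div_le_iff₀ (by positivity)] at hbsq
      exact hbsq
    have h4 : ((2 : ℝ) ^ m * Real.sqrt (2 * b)) ^ 2 ≤ (b * (κ / 8)) ^ 2 := by
      rw [mul_pow, Real.sq_sqrt (by positivity)]
      nlinarith
    exact le_of_sq_le_sq h4 (by positivity)
  obtain ⟨k, hk⟩ : ∃ k : Fin b,
      |EU univ (fun A => (if A ∈ S then ψ k (∑ c ∈ A, lw c) else 0) *
        (2 ^ (B k).card * (if A ∩ B k = ∅ then (1 : ℝ) else 0) - 1))| +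
      |EU univ (fun A => (if A ∈ S then ψ k (∑ c ∈ A, lw c - tk k) else 0) *
        (2 ^ (B k).card * (if A ∩ B k = B k then (1 : ℝ) else 0) - 1))| ≤ κ / 4 := by
    by_contra hcon
    push Not at hcon
    have h1 : ∑ _k : Fin b, κ / 4 < ∑ k : Fin b,
        (|EU univ (fun A => (if A ∈ S then ψ k (∑ c ∈ A, lw c) else 0) *
          (2 ^ (B k).card * (if A ∩ B k = ∅ then (1 : ℝ) else 0) - 1))| +
        |EU univ (fun A => (if A ∈ S then ψ k (∑ c ∈ A, lw c - tk k) else 0) *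
          (2 ^ (B k).card * (if A ∩ B k = B k then (1 : ℝ) else 0) - 1))|) := by
      apply Finset.sum_lt_sum_of_nonempty
      · exact ⟨⟨0, hbpos⟩, Finset.mem_univ _⟩
      · intro k _; exact hcon k
    rw [Finset.sum_add_distrib, Finset.sum_const, Finset.card_univ, Fintype.card_fin,
      nsmul_eq_mul] at h1
    linarith
  by_contra hbad
  have hno : ∀ A : Finset (Fin d → Fin N), Disjoint A (B k) → A ∈ S → A ∪ B k ∉ S := by
    intro A hA hAS hAB
    exact hbad ⟨A, hAS, (γ k).map (f k), (hγ1 k).map, hA, hAB⟩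
  have hstep := majority_step lw C₀ S μ hμ0 hsm (B k) (hBC k) (1 / 2 + ε) (by linarith) (by linarith)
    (ψ k) (hψ0 k) (hψ1 k)
    (fibre_majority lw S (1 / 2 + ε) (ψ k) (hψ0 k) (fun t ht => by
      have h9 := hφmaj t (by
        intro h; apply ht; rw [hψ]; simp only; rw [h, zero_mul])
      convert h9))
    (by
      have := fibre_majority lw S (1 / 2 + ε) (fun t => ψ k (t - tk k)) (fun t => hψ0 k _)
        (fun t ht => by
          have h9 := hφmaj t (by
            intro h; apply ht; rw [hψ]; simp only; rw [sub_add_cancel, h, mul_zero])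
          convert h9)
      exact this)
    hno
  -- lower bound for the average of ψ
  have hcond := cond_avg lw C₀ μ hsm (B k) ∅ (hBC k) (Finset.empty_subset _) (ψ k) (hψ0 k) (hψ1 k)
  have hBle : (γ k).card ^ d ≤ N ^ d := by
    apply Nat.pow_le_pow_left
    have := Finset.card_le_univ (γ k)
    rw [Fintype.card_fin] at this
    have h1 : n ≤ b * n := Nat.le_mul_of_pos_left _ hbpos
    omega
  have hcount : EU univ (fun A => ψ k (∑ c ∈ A, lw c) *
      (2 ^ (B k).card * (if A ∩ B k = ∅ then (1 : ℝ) else 0))) * 2 ^ (N ^ d - (γ k).card ^ d) =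
      ((𝒮.filter (fun A => Disjoint A (B k) ∧ A ∪ B k ∈ 𝒮)).card : ℝ) := by
    unfold EU
    have h1 : ∑ A ∈ (univ : Finset (Fin d → Fin N)).powerset, ψ k (∑ c ∈ A, lw c) *
        (2 ^ (B k).card * (if A ∩ B k = ∅ then (1 : ℝ) else 0)) =
        2 ^ (B k).card * ((𝒮.filter (fun A => Disjoint A (B k) ∧ A ∪ B k ∈ 𝒮)).card : ℝ) := by
      rw [Finset.card_filter, Finset.powerset_univ]
      push_cast
      rw [Finset.mul_sum, ← Finset.sum_subset (Finset.subset_univ 𝒮)]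
      · refine Finset.sum_congr rfl fun A hA => ?_
        by_cases hd' : Disjoint A (B k)
        · have h2 : A ∩ B k = ∅ := Finset.disjoint_iff_inter_eq_empty.1 hd'
          rw [if_pos h2, hψ]
          simp only
          rw [htk]
          simp only
          rw [← Finset.sum_union hd', hφ, hφ, if_pos hA]
          by_cases hu : A ∪ B k ∈ 𝒮
          · rw [if_pos hu, if_pos ⟨hd', hu⟩]; ring
          · rw [if_neg hu, if_neg (fun h => hu h.2)]; ring
        · have h2 : ¬ A ∩ B k = ∅ := fun h => hd' (Finset.disjoint_iff_inter_eq_empty.2 h)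
          rw [if_neg h2, if_neg (fun h => hd' h.1)]; ring
      · intro A _ hA
        rw [hψ]
        simp only
        rw [hφ, if_neg hA]; ring
    rw [h1, Finset.card_univ, Fintype.card_fun, Fintype.card_fin, Fintype.card_fin, hBcard]
    have h3 : (2 : ℝ) ^ (N ^ d) = 2 ^ ((γ k).card ^ d) * 2 ^ (N ^ d - (γ k).card ^ d) := by
      rw [← pow_add, Nat.add_sub_cancel' hBle]
    rw [h3]
    field_simp
  have hlow : 3 * δ ^ 2 / 4 ≤ EU univ (fun A => ψ k (∑ c ∈ A, lw c) *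
      (2 ^ (B k).card * (if A ∩ B k = ∅ then (1 : ℝ) else 0))) := by
    have h1 := hγ3 k
    have h2 : (((𝒮.card : ℝ) / 2 ^ (N ^ d)) ^ 2 - 4 * ε') * 2 ^ (N ^ d - (γ k).card ^ d) ≤
        EU univ (fun A => ψ k (∑ c ∈ A, lw c) *
      (2 ^ (B k).card * (if A ∩ B k = ∅ then (1 : ℝ) else 0))) * 2 ^ (N ^ d - (γ k).card ^ d) := by
      rw [hcount]; exact h1
    have h3 := le_of_mul_le_mul_right h2 (by positivity)
    refine le_trans ?_ h3
    have h4 : δ ^ 2 ≤ ((𝒮.card : ℝ) / 2 ^ (N ^ d)) ^ 2 := by gcongr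
    rw [hε']
    linarith
  have hb1 := (abs_le.1 hcond).2
  have hκδ : κ / 16 ≤ δ ^ 2 / 4 := by
    rw [hκ]; nlinarith [sq_nonneg δ]
  have he0 : δ ^ 2 / 2 ≤ EU (univ \ C₀) (fun A => ψ k (∑ c ∈ A, lw c)) := by linarith
  have h2p : 2 * (1 / 2 + ε) - 1 = 2 * ε := by ring
  rw [h2p] at hstep
  have hfin : ε * δ ^ 2 ≤ 2 * ε * EU (univ \ C₀) (fun A => ψ k (∑ c ∈ A, lw c)) := by nlinarith
  have hstep' : 2 * ε * EU (univ \ C₀) (fun A => ψ k (∑ c ∈ A, lw c)) ≤ 4 * μ + κ / 4 := by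
    linarith
  rw [← hκ] at hfin
  linarith

end Pool.Agent.J4.H79.HS
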