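import Pool.Agent.J4.H79.HS.Z2
import Pool.Agent.J4.H79.HS.Z5

namespace Pool.Agent.J4.H79.HS

open Finset

open Classical in
theorem majority_mono {d N : ℕ} {p p' : ℝ} (h : p ≤ p') (I : Finset (Fin N))
    (S : Finset (Finset (Fin d → Fin N))) (A : Finset (Fin d → Fin N))
    (hA : Majority p' I S A) : Majority p I S A := by
  unfold Majority at hA ⊢
  refine le_trans ?_ hA
  gcongr

open Classical in
/-- **Local majority theorem.** -/
theorem majority_local (d : ℕ) (hd : 1 ≤ d) (ε δ : ℝ) (hε : 0 < ε) (hδ : 0 < δ) :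
    ∃ n₀ : ℕ, ∀ (N : ℕ) (I : Finset (Fin N)), I.card = n₀ →
      ∀ S : Finset (Finset (Fin d → Fin N)),
        δ * 2 ^ (N ^ d) ≤ ((univ.filter fun A => Majority (1 / 2 + ε) I S A).card : ℝ) → Good S := by
  have hδ' : 0 < min δ 1 := by positivity
  obtain ⟨n₀, h⟩ := local_of_global d hd (1 / 2 + min ε (1 / 2)) (min δ 1) hδ'
    (majority_global d hd (min ε (1 / 2)) (min δ 1) (by positivity) (min_le_right _ _) hδ'
      (min_le_right _ _))
  refine ⟨n₀, fun N I hI S hS => h N I hI S ?_⟩
  calc min δ 1 * 2 ^ (N ^ d) ≤ δ * 2 ^ (N ^ d) := by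
        apply mul_le_mul_of_nonneg_right (min_le_left _ _) (by positivity)
    _ ≤ ((univ.filter fun A => Majority (1 / 2 + ε) I S A).card : ℝ) := hS
    _ ≤ ((univ.filter fun A => Majority (1 / 2 + min ε (1 / 2)) I S A).card : ℝ) := by
        have : (univ.filter fun A => Majority (1 / 2 + ε) I S A) ⊆
            (univ.filter fun A => Majority (1 / 2 + min ε (1 / 2)) I S A) := by
          intro A hA
          rw [Finset.mem_filter] at hA ⊢
          exact ⟨hA.1, majority_mono (by have := min_le_left ε (1 / 2); linarith) I S A hA.2⟩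
        exact_mod_cast Finset.card_le_card this

end Pool.Agent.J4.H79.HS
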