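import Pool.Agent.J4.H79.HS.Defs

/-! Piece G6 of project HS (helper79), by helper46: existence of gadgets. -/

set_option autoImplicit false

namespace Pool.Agent.J4.H79.HS

open Finset

/-- **G6**: existence of gadgets. -/
theorem gadgets (d n m N : ℕ) (hd : 2 ≤ d) (hN : n + d * m ≤ N) (c : Fin d → Fin N)
    (hc : ∀ j, (c j : ℕ) < n) :
    ∃ P Q : Fin m → Finset (Fin d → Fin N),
      (∀ a, ∀ x ∈ P a ∪ Q a, ∃ j, n ≤ (x j : ℕ)) ∧
      (∀ a, Disjoint (P a) (Q a)) ∧
      (∀ a, (P a).card + (Q a).card = 2 * d - 1) ∧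
      (∀ a b, a ≠ b → Disjoint (P a ∪ Q a) (P b ∪ Q b)) ∧
      (∀ a, ∑ x ∈ P a, wt x = ∑ x ∈ Q a, wt x + wt c) := by
  classical
  obtain ⟨d', rfl⟩ : ∃ d', d = d' + 1 := ⟨d - 1, by omega⟩
  have hlt : ∀ (a : Fin m) (l : Fin (d' + 1)), n + (d' + 1) * (a : ℕ) + (l : ℕ) < N := by
    intro a l
    have h1 : (d' + 1) * ((a : ℕ) + 1) ≤ (d' + 1) * m := Nat.mul_le_mul_left _ a.2
    have h2 := l.2
    rw [Nat.mul_add, Nat.mul_one] at h1
    omega
  let u : Fin m → Fin (d' + 1) → Fin N := fun a l => ⟨n + (d' + 1) * (a : ℕ) + (l : ℕ), hlt a l⟩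
  have hu : ∀ a l, ((u a l : Fin N) : ℕ) = n + (d' + 1) * (a : ℕ) + (l : ℕ) := fun a l => rfl
  have huinj : ∀ a, Function.Injective (u a) := by
    intro a l l' h
    have := congrArg (fun z : Fin N => (z : ℕ)) h
    simp only [hu] at this
    exact Fin.ext (by omega)
  let p : Fin m → Fin (d' + 1) → (Fin (d' + 1) → Fin N) := fun a j => Function.update (fun _ => u a j) j (c j)
  let q : Fin m → Fin d' → (Fin (d' + 1) → Fin N) := fun a k => fun l => u a (l.succAbove k)
  have hp1 : ∀ a j, p a j j = c j := fun a j => Function.update_self j _ _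
  have hp2 : ∀ a j l, l ≠ j → p a j l = u a j := fun a j l h => Function.update_of_ne h _ _
  have hq : ∀ a k l, q a k l = u a (l.succAbove k) := fun a k l => rfl
  have hpinj : ∀ a, Function.Injective (p a) := by
    intro a j j' h
    by_contra hne
    have h1 := congrArg (fun z : Fin (d' + 1) → Fin N => ((z j : Fin N) : ℕ)) h
    simp only [hp1, hp2 a j' j hne, hu] at h1
    have := hc j
    omega
  have hqinj : ∀ a, Function.Injective (q a) := by
    intro a k k' h
    have h1 := congrFun h 0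
    rw [hq, hq] at h1
    exact Fin.succAbove_right_injective (huinj a h1)
  refine ⟨fun a => univ.image (p a), fun a => univ.image (q a), ?_, ?_, ?_, ?_, ?_⟩
  · intro a x hx
    rw [mem_union, mem_image, mem_image] at hx
    rcases hx with ⟨j, _, rfl⟩ | ⟨k, _, rfl⟩
    · obtain ⟨l, hl⟩ : ∃ l : Fin (d' + 1), l ≠ j := by
        have : Nontrivial (Fin (d' + 1)) := Fin.nontrivial_iff_two_le.2 hd
        exact exists_ne j
      refine ⟨l, ?_⟩
      rw [hp2 a j l hl, hu]; omega
    · refine ⟨0, ?_⟩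
      rw [hq, hu]; omega
  · intro a
    rw [disjoint_left]
    intro x hx hy
    obtain ⟨j, _, rfl⟩ := mem_image.1 hx
    obtain ⟨k, _, h⟩ := mem_image.1 hy
    have h1 := congrArg (fun z : Fin (d' + 1) → Fin N => ((z j : Fin N) : ℕ)) h
    simp only [hp1, hq, hu] at h1
    have := hc j
    omega
  · intro a
    rw [card_image_of_injective _ (hpinj a), card_image_of_injective _ (hqinj a), card_univ, card_univ,
      Fintype.card_fin, Fintype.card_fin]
    omega
  · -- blocks
    have A : ∀ a, ∀ x ∈ univ.image (p a) ∪ univ.image (q a), ∃ j, n + (d' + 1) * (a : ℕ) ≤ (x j : ℕ) ∧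
        (x j : ℕ) < n + (d' + 1) * (a : ℕ) + (d' + 1) := by
      intro a x hx
      rw [mem_union, mem_image, mem_image] at hx
      rcases hx with ⟨j, _, rfl⟩ | ⟨k, _, rfl⟩
      · obtain ⟨l, hl⟩ : ∃ l : Fin (d' + 1), l ≠ j := by
          have : Nontrivial (Fin (d' + 1)) := Fin.nontrivial_iff_two_le.2 hd
          exact exists_ne j
        refine ⟨l, ?_⟩
        rw [hp2 a j l hl, hu]
        have := j.2
        omega
      · refine ⟨0, ?_⟩
        rw [hq, hu]
        have := (Fin.succAbove 0 k).2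
        omega
    have B : ∀ a, ∀ x ∈ univ.image (p a) ∪ univ.image (q a), ∀ j, (x j : ℕ) < n ∨ (n + (d' + 1) * (a : ℕ) ≤ (x j : ℕ) ∧
        (x j : ℕ) < n + (d' + 1) * (a : ℕ) + (d' + 1)) := by
      intro a x hx i
      rw [mem_union, mem_image, mem_image] at hx
      rcases hx with ⟨j, _, rfl⟩ | ⟨k, _, rfl⟩
      · by_cases h : i = j
        · subst h
          left; rw [hp1]; exact hc i
        · right
          rw [hp2 a j i h, hu]
          have := j.2
          omega
      · right
        rw [hq, hu]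
        have := (Fin.succAbove i k).2
        omega
    intro a b hab
    rw [disjoint_left]
    intro x hx hy
    obtain ⟨j, h1, h2⟩ := A a x hx
    rcases B b x hy j with h3 | ⟨h3, h4⟩
    · omega
    · have hne : (a : ℕ) ≠ (b : ℕ) := fun h => hab (Fin.ext h)
      rcases Nat.lt_or_gt_of_ne hne with h | h
      · have := Nat.mul_le_mul_left (d' + 1) (Nat.succ_le_of_lt h)
        rw [Nat.succ_eq_add_one, Nat.mul_add, Nat.mul_one] at this
        omega
      · have := Nat.mul_le_mul_left (d' + 1) (Nat.succ_le_of_lt h)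
        rw [Nat.succ_eq_add_one, Nat.mul_add, Nat.mul_one] at this
        omega
  · intro a
    rw [sum_image (fun x _ y _ h => hpinj a h), sum_image (fun x _ y _ h => hqinj a h)]
    funext l i
    rw [Pi.add_apply, Pi.add_apply, Finset.sum_apply, Finset.sum_apply, Finset.sum_apply, Finset.sum_apply]
    rw [Fin.sum_univ_succAbove _ l]
    have e1 : wt (p a l) l i = wt c l i := by unfold wt; rw [hp1]
    have e2 : ∀ k : Fin d', wt (p a (l.succAbove k)) l i = wt (q a k) l i := by
      intro k
      unfold wt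
      rw [hp2 a _ l (Fin.succAbove_ne l k).symm, hq]
    rw [e1, sum_congr rfl (fun k _ => e2 k), add_comm]

end Pool.Agent.J4.H79.HS
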