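import Pool.Agent.J4.H79.HS.F4

namespace Pool.Agent.J4.H79.HS

open Finset ComplexConjugate

theorem char_re_gen {ι : Type} [Fintype ι] (H : Type) [AddCommGroup H] [Fintype H] (h : ι → H)
    (χ : AddChar H ℂ) :
    ∃ θ : ι → ℝ, ∀ k : ι → ℕ, (χ (∑ i, k i • h i)).re =
      Real.cos (2 * Real.pi * ∑ i, (k i : ℝ) * θ i) := by
  classical
  refine ⟨fun i => Complex.arg (χ (h i)) / (2 * Real.pi), fun k => ?_⟩
  have h1 : ∀ i, χ (h i) =
      Complex.exp (((2 * Real.pi * (Complex.arg (χ (h i)) / (2 * Real.pi)) : ℝ) : ℂ) * Complex.I) := by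
    intro i
    have h2 : 2 * Real.pi * (Complex.arg (χ (h i)) / (2 * Real.pi)) = Complex.arg (χ (h i)) := by
      have := Real.pi_ne_zero
      field_simp
    rw [h2]
    have h3 := Complex.norm_mul_exp_arg_mul_I (χ (h i))
    rw [AddChar.norm_apply, Complex.ofReal_one, one_mul] at h3
    exact h3.symm
  have h4 : χ (∑ i, k i • h i) =
      Complex.exp (((2 * Real.pi * (∑ i, (k i : ℝ) *
        (Complex.arg (χ (h i)) / (2 * Real.pi))) : ℝ) : ℂ) * Complex.I) := by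
    have h5 : ∀ s : Finset ι, χ (∑ i ∈ s, k i • h i) = ∏ i ∈ s, χ (h i) ^ k i := by
      intro s
      induction s using Finset.induction_on with
      | empty => simp
      | insert a s ha ih =>
        rw [sum_insert ha, prod_insert ha, AddChar.map_add_eq_mul, ih, AddChar.map_nsmul_eq_pow]
    rw [h5, prod_congr rfl fun i _ => by rw [h1 i, ← Complex.exp_nat_mul],
      ← Complex.exp_sum]
    congr 1
    push_cast
    rw [mul_sum, sum_mul]
    refine sum_congr rfl fun i _ => ?_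
    ring
  rw [h4, Complex.exp_ofReal_mul_I_re]

theorem khintchine_gen {ι Γ : Type} [Fintype ι] [Fintype Γ] {ε : ℝ} (hε : 0 ≤ ε) (k : Γ → ι → ℕ)
    (lam : Γ → ℝ)
    (hpos : ∀ θ : ι → ℝ, -ε ≤ ∑ γ, lam γ * Real.cos (2 * Real.pi * ∑ i, (k γ i : ℝ) * θ i))
    (H : Type) [AddCommGroup H] [Fintype H] (h : ι → H) (f : H → ℝ) :
    (∑ γ, lam γ) * ((∑ x, f x) / Fintype.card H) ^ 2 - ε * ((∑ x, f x ^ 2) / Fintype.card H) ≤
      ∑ γ, lam γ * ((∑ x, f x * f (x + ∑ i, k γ i • h i)) / Fintype.card H) := by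
  classical
  obtain ⟨N, hN⟩ : ∃ N : ℝ, N = Fintype.card H := ⟨_, rfl⟩
  have hN0 : 0 < N := by
    rw [hN]
    exact_mod_cast Fintype.card_pos
  obtain ⟨Q, hQ⟩ : ∃ Q : AddChar H ℂ → ℝ, Q = fun χ => ‖∑ x, (f x : ℂ) * χ x‖ ^ 2 := ⟨_, rfl⟩
  have hQ0 : ∀ χ, 0 ≤ Q χ := fun χ => by rw [hQ]; positivity
  have hP : ∀ g : H, ∑ χ : AddChar H ℂ, Q χ * (χ g).re = N * ∑ x, f x * f (x + g) := by
    intro g
    rw [hQ, hN]
    exact F4_parseval H f g
  have htot : ∑ χ : AddChar H ℂ, Q χ = N * ∑ x, f x ^ 2 := by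
    have h1 := hP 0
    simp only [AddChar.map_zero_eq_one, Complex.one_re, mul_one, add_zero] at h1
    rw [h1]
    congr 1
    refine sum_congr rfl fun x _ => ?_
    ring
  have htriv : Q 0 = (∑ x, f x) ^ 2 := by
    rw [hQ]
    simp only [AddChar.zero_apply, mul_one]
    rw [← Complex.ofReal_sum, Complex.norm_real, Real.norm_eq_abs, sq_abs]
  have hR : ∑ γ, lam γ * ((∑ x, f x * f (x + ∑ i, k γ i • h i)) / N) =
      (∑ χ : AddChar H ℂ, Q χ * ∑ γ, lam γ * (χ (∑ i, k γ i • h i)).re) / N ^ 2 := by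
    rw [eq_div_iff (by positivity)]
    rw [sum_mul]
    have h1 : ∀ γ : Γ, lam γ * ((∑ x, f x * f (x + ∑ i, k γ i • h i)) / N) * N ^ 2 =
        ∑ χ : AddChar H ℂ, Q χ * (lam γ * (χ (∑ i, k γ i • h i)).re) := by
      intro γ
      have h2 := hP (∑ i, k γ i • h i)
      have h3 : lam γ * ((∑ x, f x * f (x + ∑ i, k γ i • h i)) / N) * N ^ 2 =
          lam γ * (N * ∑ x, f x * f (x + ∑ i, k γ i • h i)) := by
        field_simp
      rw [h3, ← h2, mul_sum]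
      refine sum_congr rfl fun χ _ => ?_
      ring
    rw [sum_congr rfl fun γ _ => h1 γ, sum_comm]
    refine sum_congr rfl fun χ _ => ?_
    rw [mul_sum]
  rw [← hN, hR]
  have hL : (∑ γ, lam γ) * ((∑ x, f x) / N) ^ 2 - ε * ((∑ x, f x ^ 2) / N) =
      ((∑ γ, lam γ) * Q 0 - ε * ∑ χ : AddChar H ℂ, Q χ) / N ^ 2 := by
    rw [htot, htriv]
    field_simp
  rw [hL]
  apply div_le_div_of_nonneg_right _ (by positivity)
  have hterm : ∀ χ : AddChar H ℂ, -(ε * Q χ) ≤ Q χ * ∑ γ, lam γ * (χ (∑ i, k γ i • h i)).re := by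
    intro χ
    obtain ⟨θ, hθ⟩ := char_re_gen H h χ
    have h1 : ∑ γ, lam γ * (χ (∑ i, k γ i • h i)).re =
        ∑ γ, lam γ * Real.cos (2 * Real.pi * ∑ i, (k γ i : ℝ) * θ i) :=
      sum_congr rfl fun γ _ => by rw [hθ (k γ)]
    rw [h1]
    nlinarith [hpos θ, hQ0 χ, mul_le_mul_of_nonneg_left (hpos θ) (hQ0 χ)]
  have hsplit := add_sum_erase univ
    (fun χ : AddChar H ℂ => Q χ * ∑ γ, lam γ * (χ (∑ i, k γ i • h i)).re) (mem_univ (0 : AddChar H ℂ))
  have h0 : Q 0 * ∑ γ, lam γ * ((0 : AddChar H ℂ) (∑ i, k γ i • h i)).re = (∑ γ, lam γ) * Q 0 := by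
    simp only [AddChar.zero_apply, Complex.one_re, mul_one]
    ring
  beta_reduce at hsplit
  rw [h0] at hsplit
  rw [← hsplit]
  have h5 : -(ε * ∑ χ : AddChar H ℂ, Q χ) ≤
      ∑ χ ∈ univ.erase (0 : AddChar H ℂ), Q χ * ∑ γ, lam γ * (χ (∑ i, k γ i • h i)).re := by
    have h6 : -(ε * ∑ χ : AddChar H ℂ, Q χ) ≤ ∑ χ ∈ univ.erase (0 : AddChar H ℂ), -(ε * Q χ) := by
      rw [sum_neg_distrib, ← mul_sum, neg_le_neg_iff]
      apply mul_le_mul_of_nonneg_left _ hε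
      exact sum_le_sum_of_subset_of_nonneg (erase_subset _ _) fun χ _ _ => hQ0 χ
    exact h6.trans (sum_le_sum fun χ _ => hterm χ)
  linarith

end Pool.Agent.J4.H79.HS
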