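import Pool.Agent.J4.H79.HS.K1

namespace Pool.Agent.J4.H79.HS

open Finset

/-- average over the subsets of `U` -/
noncomputable def EU {α : Type*} (U : Finset α) (f : Finset α → ℝ) : ℝ :=
  (∑ A ∈ U.powerset, f A) / 2 ^ U.card

theorem EU_mono {α : Type*} (U : Finset α) (f g : Finset α → ℝ) (h : ∀ A, f A ≤ g A) :
    EU U f ≤ EU U g := by
  unfold EU
  exact div_le_div_of_nonneg_right (Finset.sum_le_sum fun A _ => h A) (by positivity)

theorem EU_const {α : Type*} (U : Finset α) (c : ℝ) : EU U (fun _ => c) = c := by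
  unfold EU
  rw [Finset.sum_const, Finset.card_powerset, nsmul_eq_mul]
  push_cast
  field_simp

theorem EU_add {α : Type*} (U : Finset α) (f g : Finset α → ℝ) :
    EU U (fun A => f A + g A) = EU U f + EU U g := by
  unfold EU
  rw [Finset.sum_add_distrib, add_div]

theorem EU_sub {α : Type*} (U : Finset α) (f g : Finset α → ℝ) :
    EU U (fun A => f A - g A) = EU U f - EU U g := by
  unfold EU
  rw [Finset.sum_sub_distrib, sub_div]

theorem EU_mul_left {α : Type*} (U : Finset α) (c : ℝ) (f : Finset α → ℝ) :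
    EU U (fun A => c * f A) = c * EU U f := by
  unfold EU
  rw [← Finset.mul_sum, mul_div_assoc]

theorem EU_div {α : Type*} (U : Finset α) (c : ℝ) (f : Finset α → ℝ) :
    EU U (fun A => f A / c) = EU U f / c := by
  unfold EU
  rw [← Finset.sum_div, div_right_comm]

theorem EU_sum {α β : Type*} (U : Finset α) (s : Finset β) (f : β → Finset α → ℝ) :
    EU U (fun A => ∑ b ∈ s, f b A) = ∑ b ∈ s, EU U (f b) := by
  unfold EU
  rw [Finset.sum_comm, Finset.sum_div]

theorem EU_nonneg {α : Type*} (U : Finset α) (f : Finset α → ℝ) (h : ∀ A, 0 ≤ f A) :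
    0 ≤ EU U f := by
  unfold EU
  exact div_nonneg (Finset.sum_nonneg fun A _ => h A) (by positivity)

theorem EU_sq {α : Type*} (U : Finset α) (f : Finset α → ℝ) :
    EU U f ^ 2 ≤ EU U (fun A => f A ^ 2) := by
  have h : 0 ≤ EU U (fun A => (f A - EU U f) ^ 2) := EU_nonneg _ _ fun A => sq_nonneg _
  have h2 : EU U (fun A => (f A - EU U f) ^ 2) =
      EU U (fun A => f A ^ 2) - EU U f ^ 2 := by
    have h3 : (fun A => (f A - EU U f) ^ 2) =
        fun A => (f A ^ 2 - (2 * EU U f) * f A) + EU U f ^ 2 := by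
      funext A; ring
    rw [h3, EU_add, EU_sub, EU_mul_left, EU_const]
    ring
  linarith

/-- the law of the sum of `w` over a random subset of `U` changes by at most `δ` under the
translation by `v` -/
def Sm {α V : Type*} [AddCommGroup V] (U : Finset α) (w : α → V) (δ : ℝ) (v : V) : Prop :=
  ∀ φ : V → ℝ, (∀ t, 0 ≤ φ t) → (∀ t, φ t ≤ 1) →
    |EU U (fun A => φ (∑ c ∈ A, w c + v)) - EU U (fun A => φ (∑ c ∈ A, w c))| ≤ δ

variable {α V : Type*} [AddCommGroup V] {U : Finset α} {w : α → V}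

theorem Sm_zero : Sm U w 0 0 := by
  intro φ _ _
  simp

theorem Sm_add {δ δ' : ℝ} {v v' : V} (h : Sm U w δ v) (h' : Sm U w δ' v') :
    Sm U w (δ + δ') (v + v') := by
  intro φ h0 h1
  have e1 := h (fun t => φ (t + v')) (fun t => h0 _) (fun t => h1 _)
  have e2 := h' φ h0 h1
  simp only [add_assoc] at e1
  rw [abs_le] at *
  constructor <;> linarith [e1.1, e1.2, e2.1, e2.2]

theorem Sm_neg {δ : ℝ} {v : V} (h : Sm U w δ v) : Sm U w δ (-v) := by
  intro φ h0 h1
  have e1 := h (fun t => φ (t + -v)) (fun t => h0 _) (fun t => h1 _)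
  simp only [add_neg_cancel_right] at e1
  rw [abs_sub_comm]
  exact e1

theorem Sm_nsmul {δ : ℝ} {v : V} (h : Sm U w δ v) (k : ℕ) : Sm U w (k * δ) (k • v) := by
  induction k with
  | zero => simpa using Sm_zero (U := U) (w := w)
  | succ k ih =>
    rw [succ_nsmul]
    have := Sm_add ih h
    convert this using 1
    push_cast; ring

theorem Sm_sum {β : Type*} (s : Finset β) (δ : β → ℝ) (v : β → V)
    (h : ∀ b ∈ s, Sm U w (δ b) (v b)) : Sm U w (∑ b ∈ s, δ b) (∑ b ∈ s, v b) := by
  classical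
  induction s using Finset.induction_on with
  | empty => simpa using Sm_zero (U := U) (w := w)
  | insert a s ha ih =>
    rw [Finset.sum_insert ha, Finset.sum_insert ha]
    exact Sm_add (h a (Finset.mem_insert_self _ _))
      (ih fun b hb => h b (Finset.mem_insert_of_mem hb))

theorem Sm_mono {δ δ' : ℝ} {v : V} (h : Sm U w δ v) (hd : δ ≤ δ') : Sm U w δ' v :=
  fun φ h0 h1 => (h φ h0 h1).trans hd

theorem sum_powerset_split {α : Type*} [DecidableEq α] (X Y : Finset α) (hXY : Disjoint X Y)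
    (f : Finset α → ℝ) :
    ∑ A ∈ (X ∪ Y).powerset, f A = ∑ A₀ ∈ X.powerset, ∑ A₁ ∈ Y.powerset, f (A₀ ∪ A₁) := by
  rw [← Finset.sum_product']
  refine Finset.sum_nbij' (fun A => (A ∩ X, A ∩ Y)) (fun p => p.1 ∪ p.2) ?_ ?_ ?_ ?_ ?_
  · intro A _
    simp only [Finset.mem_product, Finset.mem_powerset]
    exact ⟨Finset.inter_subset_right, Finset.inter_subset_right⟩
  · intro p hp
    simp only [Finset.mem_product, Finset.mem_powerset] at hp ⊢
    exact Finset.union_subset_union hp.1 hp.2
  · intro A hA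
    rw [Finset.mem_powerset] at hA
    show A ∩ X ∪ A ∩ Y = A
    rw [← Finset.inter_union_distrib_left]
    exact Finset.inter_eq_left.2 hA
  · intro p hp
    simp only [Finset.mem_product, Finset.mem_powerset] at hp
    show ((p.1 ∪ p.2) ∩ X, (p.1 ∪ p.2) ∩ Y) = p
    ext x
    · simp only [Finset.mem_inter, Finset.mem_union]
      constructor
      · rintro ⟨h | h, hx⟩
        · exact h
        · exact absurd hx (Finset.disjoint_right.1 hXY (hp.2 h))
      · intro h; exact ⟨Or.inl h, hp.1 h⟩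
    · simp only [Finset.mem_inter, Finset.mem_union]
      constructor
      · rintro ⟨h | h, hx⟩
        · exact absurd hx (Finset.disjoint_left.1 hXY (hp.1 h))
        · exact h
      · intro h; exact ⟨Or.inr h, hp.2 h⟩
  · intro A hA
    rw [Finset.mem_powerset] at hA
    show f A = f (A ∩ X ∪ A ∩ Y)
    rw [← Finset.inter_union_distrib_left, Finset.inter_eq_left.2 hA]

/-- the average over the contents of a set `X` of cells outside `U` -/
theorem split_avg {α V : Type*} [DecidableEq α] [AddCommGroup V] (X U : Finset α)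
    (hXU : Disjoint X U) (w : α → V) (φ : V → ℝ) :
    (∑ A ∈ (X ∪ U).powerset, φ (∑ c ∈ A, w c)) =
      ∑ A₀ ∈ X.powerset, 2 ^ U.card * EU U (fun A => φ (∑ c ∈ A, w c + ∑ c ∈ A₀, w c)) := by
  rw [sum_powerset_split X U hXU]
  refine Finset.sum_congr rfl fun A₀ hA₀ => ?_
  unfold EU
  rw [mul_div_cancel₀ _ (by positivity)]
  refine Finset.sum_congr rfl fun A₁ hA₁ => ?_
  rw [Finset.mem_powerset] at hA₀ hA₁
  rw [Finset.sum_union (hXU.mono hA₀ hA₁), add_comm]

end Pool.Agent.J4.H79.HS
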