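import Pool.Agent.J4.H79.HS.K2

namespace Pool.Agent.J4.H79.HS

open Finset

/-- few points of the box wrap around -/
theorem wrap_count (ι : Type) [Fintype ι] [DecidableEq ι] (L : ℕ) [NeZero L] (k : ι → ℕ) :
    ((univ.filter fun x : ι → ZMod L => ∃ i, L ≤ (x i).val + k i).card : ℝ) ≤
      (∑ i, (k i : ℝ)) / L * (Fintype.card (ι → ZMod L) : ℝ) := by
  have hL : (0 : ℝ) < L := by exact_mod_cast Nat.pos_of_ne_zero (NeZero.ne L)
  have h1 : ∀ i, ((univ.filter fun x : ι → ZMod L => L ≤ (x i).val + k i).card : ℝ) ≤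
      (k i : ℝ) / L * (Fintype.card (ι → ZMod L) : ℝ) := by
    intro i
    set X : Finset (ZMod L) := univ.filter fun a => L ≤ a.val + k i with hX
    have hXc : X.card ≤ k i := by
      rw [← Finset.card_range (k i)]
      apply Finset.card_le_card_of_injOn (fun a => L - 1 - a.val)
      · intro a ha
        rw [Finset.mem_coe, hX, Finset.mem_filter] at ha
        rw [Finset.mem_coe, Finset.mem_range]
        have h1 := ZMod.val_lt a
        have h2 := ha.2
        show L - 1 - a.val < k i
        omega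
      · intro a _ b _ hab
        have ha := ZMod.val_lt a
        have hb := ZMod.val_lt b
        simp only at hab
        apply ZMod.val_injective
        omega
    have h2 : (univ.filter fun x : ι → ZMod L => L ≤ (x i).val + k i) =
        Fintype.piFinset (fun j => if j = i then X else univ) := by
      ext x
      simp only [Finset.mem_filter, Finset.mem_univ, true_and, Fintype.mem_piFinset]
      constructor
      · intro h j
        by_cases hj : j = i
        · subst hj; simp [hX, h]
        · simp [hj]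
      · intro h
        have := h i
        simpa [hX] using this
    rw [h2, Fintype.card_piFinset, Fintype.card_pi]
    have h3 : (∏ j, (if j = i then X else (univ : Finset (ZMod L))).card) * L =
        X.card * ∏ _j : ι, Fintype.card (ZMod L) := by
      rw [← Finset.mul_prod_erase univ _ (Finset.mem_univ i),
        ← Finset.mul_prod_erase univ (fun _ : ι => Fintype.card (ZMod L)) (Finset.mem_univ i)]
      rw [if_pos rfl]
      have h4 : ∏ x ∈ univ.erase i, (if x = i then X else (univ : Finset (ZMod L))).card =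
          ∏ x ∈ univ.erase i, Fintype.card (ZMod L) := by
        refine Finset.prod_congr rfl fun x hx => ?_
        rw [if_neg (Finset.ne_of_mem_erase hx), Finset.card_univ]
      rw [h4]
      have h5 : Fintype.card (ZMod L) = L := ZMod.card L
      rw [h5]
      ring
    rw [div_mul_eq_mul_div, le_div_iff₀ hL]
    have h6 : ((∏ j, (if j = i then X else (univ : Finset (ZMod L))).card : ℕ) : ℝ) * L =
        X.card * ((∏ _j : ι, Fintype.card (ZMod L) : ℕ) : ℝ) := by exact_mod_cast h3
    rw [h6]
    have : (X.card : ℝ) ≤ k i := by exact_mod_cast hXc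
    gcongr
  calc ((univ.filter fun x : ι → ZMod L => ∃ i, L ≤ (x i).val + k i).card : ℝ)
      ≤ ((univ.biUnion fun i => univ.filter fun x : ι → ZMod L => L ≤ (x i).val + k i).card : ℝ) := by
        have : (univ.filter fun x : ι → ZMod L => ∃ i, L ≤ (x i).val + k i) ⊆
            univ.biUnion fun i => univ.filter fun x : ι → ZMod L => L ≤ (x i).val + k i := by
          intro x hx
          simpa using hx
        exact_mod_cast Finset.card_le_card this
    _ ≤ ∑ i, ((univ.filter fun x : ι → ZMod L => L ≤ (x i).val + k i).card : ℝ) := by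
        exact_mod_cast Finset.card_biUnion_le
    _ ≤ ∑ i, (k i : ℝ) / L * (Fintype.card (ι → ZMod L) : ℝ) := Finset.sum_le_sum fun i _ => h1 i
    _ = _ := by rw [← Finset.sum_mul, Finset.sum_div]

/-- one set `A`: comparison of the box average with the average over the finite group -/
theorem box_fourier {V ι Γ : Type} [AddCommGroup V] [Fintype ι] [DecidableEq ι] [Fintype Γ]
    (z : ι → V) (k : Γ → ι → ℕ) (lam : Γ → ℝ) (hlam : ∀ γ, 0 ≤ lam γ) (ε : ℝ) (hε : 0 < ε)
    (hlam1 : ∑ γ, lam γ ≤ 1) (hlam2 : 1 - ε ≤ ∑ γ, lam γ)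
    (hpos : ∀ θ : ι → ℝ, -ε ≤ ∑ γ, lam γ * Real.cos (2 * Real.pi * ∑ i, (k γ i : ℝ) * θ i))
    (R : ℝ) (hR0 : 0 ≤ R) (hR : ∀ γ, lam γ ≠ 0 → ∑ i, (k γ i : ℝ) ≤ R)
    (L : ℕ) [NeZero L] (φ : V → ℝ) (h0 : ∀ t, 0 ≤ φ t) (h1 : ∀ t, φ t ≤ 1) (T : V) :
    ((∑ x : ι → ZMod L, φ (T + ∑ i, (x i).val • z i)) / Fintype.card (ι → ZMod L)) ^ 2
        - 2 * ε - R / L ≤
      ∑ γ, lam γ * ((∑ x : ι → ZMod L, φ (T + ∑ i, (x i).val • z i) *
        φ (T + ∑ i, (x i).val • z i + ∑ i, k γ i • z i)) / Fintype.card (ι → ZMod L)) := by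
  have hLp : (0 : ℝ) < L := by exact_mod_cast Nat.pos_of_ne_zero (NeZero.ne L)
  set f : (ι → ZMod L) → ℝ := fun x => φ (T + ∑ i, (x i).val • z i) with hf
  set N : ℝ := (Fintype.card (ι → ZMod L) : ℝ) with hN
  have hNp : 0 < N := by rw [hN]; exact_mod_cast Fintype.card_pos
  have hk := khintchine_gen hε.le k lam hpos (ι → ZMod L) (fun i => Pi.single i (1 : ZMod L)) f
  rw [← hN] at hk
  have hf0 : ∀ x, 0 ≤ f x := fun x => h0 _
  have hf1 : ∀ x, f x ≤ 1 := fun x => h1 _
  have hcardN : (∑ _x : ι → ZMod L, (1 : ℝ)) = N := by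
    rw [Finset.sum_const, Finset.card_univ, nsmul_eq_mul, mul_one]
  -- bounds of averages
  have hE0 : 0 ≤ (∑ x, f x) / N := div_nonneg (Finset.sum_nonneg fun x _ => hf0 x) hNp.le
  have hE1 : (∑ x, f x) / N ≤ 1 := by
    rw [div_le_one hNp, ← hcardN]
    exact Finset.sum_le_sum fun x _ => hf1 x
  have hE2 : (∑ x, f x ^ 2) / N ≤ 1 := by
    rw [div_le_one hNp, ← hcardN]
    refine Finset.sum_le_sum fun x _ => ?_
    have := hf0 x; have := hf1 x
    nlinarith
  have hleft : ((∑ x, f x) / N) ^ 2 - 2 * ε ≤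
      (∑ γ, lam γ) * ((∑ x, f x) / N) ^ 2 - ε * ((∑ x, f x ^ 2) / N) := by
    have h2 : ((∑ x, f x) / N) ^ 2 ≤ 1 := by nlinarith
    have h3 : 0 ≤ ((∑ x, f x) / N) ^ 2 := sq_nonneg _
    nlinarith
  -- termwise comparison
  have hterm : ∀ γ, lam γ * ((∑ x, f x * f (x + ∑ i, k γ i • Pi.single i (1 : ZMod L))) / N) -
      lam γ * (R / L) ≤ lam γ * ((∑ x, f x * φ (T + ∑ i, (x i).val • z i + ∑ i, k γ i • z i)) / N) := by
    intro γ
    by_cases hl : lam γ = 0
    · rw [hl]; simp
    · rw [← mul_sub]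
      apply mul_le_mul_of_nonneg_left _ (hlam γ)
      have hg : ∀ (x : ι → ZMod L) (j : ι), (x + ∑ i, k γ i • Pi.single i (1 : ZMod L)) j =
          x j + (k γ j : ZMod L) := by
        intro x j
        rw [Pi.add_apply, Finset.sum_apply]
        congr 1
        rw [Finset.sum_eq_single j]
        · simp
        · intro b _ hb; simp [Ne.symm hb]
        · intro h; exact absurd (Finset.mem_univ j) h
      have hpt : ∀ x : ι → ZMod L, f x * f (x + ∑ i, k γ i • Pi.single i (1 : ZMod L)) -
          (if ∃ i, L ≤ (x i).val + k γ i then (1 : ℝ) else 0) ≤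
          f x * φ (T + ∑ i, (x i).val • z i + ∑ i, k γ i • z i) := by
        intro x
        by_cases hw : ∃ i, L ≤ (x i).val + k γ i
        · rw [if_pos hw]
          have e1 : f x * f (x + ∑ i, k γ i • Pi.single i (1 : ZMod L)) ≤ 1 :=
            mul_le_one₀ (hf1 _) (hf0 _) (hf1 _)
          have e2 : 0 ≤ f x * φ (T + ∑ i, (x i).val • z i + ∑ i, k γ i • z i) :=
            mul_nonneg (hf0 _) (h0 _)
          linarith
        · rw [if_neg hw, sub_zero]
          push Not at hw
          apply le_of_eq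
          congr 1
          rw [hf]
          simp only
          congr 1
          rw [add_assoc]
          congr 1
          rw [← Finset.sum_add_distrib]
          refine Finset.sum_congr rfl fun i _ => ?_
          rw [hg, ← add_smul]
          congr 1
          have h3 : (x i + (k γ i : ZMod L)) = (((x i).val + k γ i : ℕ) : ZMod L) := by
            push_cast
            rw [ZMod.natCast_zmod_val]
          rw [h3, ZMod.val_natCast, Nat.mod_eq_of_lt (hw i)]
      have hsum := Finset.sum_le_sum fun x (_ : x ∈ (univ : Finset (ι → ZMod L))) => hpt x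
      rw [Finset.sum_sub_distrib] at hsum
      have hwrap : (∑ x : ι → ZMod L, if ∃ i, L ≤ (x i).val + k γ i then (1 : ℝ) else 0) ≤
          R / L * N := by
        rw [← Finset.sum_filter, Finset.sum_const, nsmul_eq_mul, mul_one]
        refine (wrap_count ι L (k γ)).trans ?_
        rw [← hN]
        have := hR γ hl
        gcongr
      rw [sub_le_iff_le_add, div_le_iff₀ hNp, add_mul, div_mul_cancel₀ _ hNp.ne']
      linarith
  have hsum2 := Finset.sum_le_sum fun γ (_ : γ ∈ (univ : Finset Γ)) => hterm γ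
  rw [Finset.sum_sub_distrib, ← Finset.sum_mul] at hsum2
  have hRL : (∑ γ, lam γ) * (R / L) ≤ R / L := by
    have : 0 ≤ R / (L : ℝ) := div_nonneg hR0 hLp.le
    nlinarith
  calc ((∑ x, f x) / N) ^ 2 - 2 * ε - R / L
      ≤ (∑ γ, lam γ) * ((∑ x, f x) / N) ^ 2 - ε * ((∑ x, f x ^ 2) / N) - R / L := by linarith
    _ ≤ ∑ γ, lam γ * ((∑ x, f x * f (x + ∑ i, k γ i • Pi.single i (1 : ZMod L))) / N) - R / L := by
        linarith
    _ ≤ _ := by linarith

end Pool.Agent.J4.H79.HS
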