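import Pool.Agent.J4.H79.HS.P3c

namespace Pool.Agent.J4.H79.HS

open Finset

/-- the number of injective tuples -/
theorem inj_count (n r : ℕ) (hn : 0 < n) :
    (1 - (r : ℝ) ^ 2 / n) * (n : ℝ) ^ r ≤
      ((univ.filter fun τ : Fin r → Fin n => Function.Injective τ).card : ℝ) := by
  have hnp : (0 : ℝ) < n := by exact_mod_cast hn
  have hcard : (univ.filter fun τ : Fin r → Fin n => Function.Injective τ).card
      = n.descFactorial r := by
    rw [← Fintype.card_subtype, Fintype.card_congr (Equiv.subtypeInjectiveEquivEmbedding _ _),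
      Fintype.card_embedding_eq, Fintype.card_fin, Fintype.card_fin]
  rw [hcard]
  rcases le_or_gt r n with hrn | hrn
  · have h1 : ((n : ℝ) - r) ^ r ≤ (n.descFactorial r : ℝ) := by
      have h2 : (n - r) ^ r ≤ n.descFactorial r :=
        le_trans (Nat.pow_le_pow_left (by omega) r) (Nat.pow_sub_le_descFactorial n r)
      have h3 : (((n - r) ^ r : ℕ) : ℝ) ≤ (n.descFactorial r : ℝ) := by exact_mod_cast h2
      rw [Nat.cast_pow, Nat.cast_sub hrn] at h3
      exact h3
    refine le_trans ?_ h1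
    have h4 : ((n : ℝ) - r) ^ r = (1 + (-(r / n) : ℝ)) ^ r * (n : ℝ) ^ r := by
      rw [← mul_pow]; congr 1; field_simp; ring
    rw [h4]
    have h5 : 1 + (r : ℝ) * (-(r / n)) ≤ (1 + (-(r / n) : ℝ)) ^ r := by
      apply one_add_mul_le_pow
      have : (r : ℝ) / n ≤ 1 := by
        rw [div_le_one hnp]; exact_mod_cast hrn
      linarith
    apply mul_le_mul_of_nonneg_right _ (by positivity)
    refine le_trans (le_of_eq ?_) h5
    ring
  · have h1 : 1 - (r : ℝ) ^ 2 / n ≤ 0 := by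
      have h2 : (1 : ℝ) ≤ (r : ℝ) ^ 2 / n := by
        rw [le_div_iff₀ hnp, one_mul]
        have h3 : (n : ℝ) ≤ r := by exact_mod_cast hrn.le
        have h4 : (1 : ℝ) ≤ r := by
          have : 1 ≤ r := by omega
          exact_mod_cast this
        nlinarith
      linarith
    have h2 : (1 - (r : ℝ) ^ 2 / n) * (n : ℝ) ^ r ≤ 0 :=
      mul_nonpos_of_nonpos_of_nonneg h1 (by positivity)
    exact h2.trans (Nat.cast_nonneg _)

theorem phi_pow {n : ℕ} (D r : ℕ) (θ : Fin n → ℝ) :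
    (phi D r θ ^ r).re = (∑ τ : Fin r → Fin n,
      Real.cos (2 * Real.pi * ((r : ℝ) ^ D * ∑ t, θ (τ t)))) / (n : ℝ) ^ r := by
  unfold phi
  have h1 : (∑ i, e ((r : ℝ) ^ D * θ i)) ^ r =
      ∑ τ : Fin r → Fin n, e ((r : ℝ) ^ D * ∑ t, θ (τ t)) := by
    have h2 : (∑ i, e ((r : ℝ) ^ D * θ i)) ^ r =
        ∏ _t : Fin r, ∑ i, e ((r : ℝ) ^ D * θ i) := by simp
    rw [h2, Finset.prod_univ_sum, Fintype.piFinset_univ]
    refine Finset.sum_congr rfl fun τ _ => ?_
    have h3 : ∀ (s : Finset (Fin r)), ∏ t ∈ s, e ((r : ℝ) ^ D * θ (τ t)) =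
        e ((r : ℝ) ^ D * ∑ t ∈ s, θ (τ t)) := by
      intro s
      induction s using Finset.induction_on with
      | empty => simp [e_zero]
      | insert a s ha ih => rw [Finset.prod_insert ha, Finset.sum_insert ha, ih, mul_add, e_add]
    exact h3 univ
  rw [div_pow, h1]
  have h4 : ((n : ℂ) ^ r) = (((n : ℝ) ^ r : ℝ) : ℂ) := by push_cast; rfl
  rw [h4, Complex.div_ofReal_re, Complex.re_sum]
  congr 1
  exact Finset.sum_congr rfl fun τ _ => e_re _

/-- number of injective `r`-tuples with image `γ` -/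
noncomputable def cnt {n : ℕ} (r : ℕ) (γ : Finset (Fin n)) : ℝ := by
  classical
  exact ((univ.filter fun τ : Fin r → Fin n => Function.Injective τ ∧ univ.image τ = γ).card : ℝ)

theorem cnt_sum {n : ℕ} (r : ℕ) (g : Finset (Fin n) → ℝ) :
    ∑ γ, cnt r γ * g γ =
      ∑ τ ∈ univ.filter (fun τ : Fin r → Fin n => Function.Injective τ), g (univ.image τ) := by
  classical
  have h1 : ∀ γ : Finset (Fin n), cnt r γ * g γ =
      ∑ τ ∈ univ.filter (fun τ : Fin r → Fin n => Function.Injective τ),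
        if univ.image τ = γ then g (univ.image τ) else 0 := by
    intro γ
    rw [← Finset.sum_filter, Finset.filter_filter]
    rw [Finset.sum_congr rfl (g := fun _ => g γ)]
    · rw [Finset.sum_const, nsmul_eq_mul]
      unfold cnt
      congr!
    · intro τ hτ
      rw [(Finset.mem_filter.1 hτ).2.2]
  rw [Finset.sum_congr rfl fun γ _ => h1 γ, Finset.sum_comm]
  refine Finset.sum_congr rfl fun τ _ => ?_
  rw [Finset.sum_ite_eq, if_pos (Finset.mem_univ _)]

theorem cnt_nonneg {n : ℕ} (r : ℕ) (γ : Finset (Fin n)) : 0 ≤ cnt r γ := by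
  unfold cnt; exact Nat.cast_nonneg _

theorem cnt_ne_zero {n : ℕ} (r : ℕ) (γ : Finset (Fin n)) (h : cnt r γ ≠ 0) : γ.card = r := by
  classical
  unfold cnt at h
  have h1 : (univ.filter fun τ : Fin r → Fin n => Function.Injective τ ∧ univ.image τ = γ).card ≠ 0 := by
    intro h0
    apply h
    rw [Nat.cast_eq_zero]
    convert h0
  obtain ⟨τ, hτ⟩ := Finset.card_pos.1 (Nat.pos_of_ne_zero h1)
  rw [Finset.mem_filter] at hτ
  rw [← hτ.2.2, Finset.card_image_of_injective _ hτ.2.1, Finset.card_univ, Fintype.card_fin]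

theorem cnt_total {n : ℕ} (r : ℕ) :
    ∑ γ : Finset (Fin n), cnt r γ =
      ((univ.filter fun τ : Fin r → Fin n => Function.Injective τ).card : ℝ) := by
  have := cnt_sum (n := n) r (fun _ => 1)
  simp only [mul_one] at this
  rw [this]; simp

/-- comparison of injective and of all tuples -/
theorem cnt_cos {n : ℕ} (hn : 0 < n) (D r : ℕ) (θ : Fin n → ℝ) :
    (phi D r θ ^ r).re - (r : ℝ) ^ 2 / n ≤
      (∑ γ, cnt r γ * Real.cos (2 * Real.pi * ((γ.card : ℝ) ^ D * ∑ i ∈ γ, θ i))) / (n : ℝ) ^ r := by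
  have hnp : (0 : ℝ) < n := by exact_mod_cast hn
  have hnr : (0 : ℝ) < (n : ℝ) ^ r := by positivity
  rw [cnt_sum, phi_pow, sub_le_iff_le_add, div_le_iff₀ hnr, add_mul, div_mul_cancel₀ _ hnr.ne']
  have h1 : ∀ τ ∈ univ.filter (fun τ : Fin r → Fin n => Function.Injective τ),
      Real.cos (2 * Real.pi * (((univ.image τ).card : ℝ) ^ D * ∑ i ∈ univ.image τ, θ i)) =
      Real.cos (2 * Real.pi * ((r : ℝ) ^ D * ∑ t, θ (τ t))) := by
    intro τ hτ
    have hinj := (Finset.mem_filter.1 hτ).2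
    rw [Finset.card_image_of_injective _ hinj, Finset.card_univ, Fintype.card_fin,
      Finset.sum_image (fun a _ b _ h => hinj h)]
  rw [Finset.sum_congr rfl h1]
  have h2 : ∑ τ : Fin r → Fin n, Real.cos (2 * Real.pi * ((r : ℝ) ^ D * ∑ t, θ (τ t))) =
      ∑ τ ∈ univ.filter (fun τ : Fin r → Fin n => Function.Injective τ),
        Real.cos (2 * Real.pi * ((r : ℝ) ^ D * ∑ t, θ (τ t))) +
      ∑ τ ∈ univ.filter (fun τ : Fin r → Fin n => ¬ Function.Injective τ),
        Real.cos (2 * Real.pi * ((r : ℝ) ^ D * ∑ t, θ (τ t))) :=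
    (Finset.sum_filter_add_sum_filter_not _ _ _).symm
  rw [h2]
  have h3 : ∑ τ ∈ univ.filter (fun τ : Fin r → Fin n => ¬ Function.Injective τ),
        Real.cos (2 * Real.pi * ((r : ℝ) ^ D * ∑ t, θ (τ t))) ≤
      ((univ.filter (fun τ : Fin r → Fin n => ¬ Function.Injective τ)).card : ℝ) := by
    calc _ ≤ ∑ τ ∈ univ.filter (fun τ : Fin r → Fin n => ¬ Function.Injective τ), (1 : ℝ) :=
          Finset.sum_le_sum fun τ _ => Real.cos_le_one _
      _ = _ := by simp
  have h4 : ((univ.filter (fun τ : Fin r → Fin n => Function.Injective τ)).card : ℝ) +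
      ((univ.filter (fun τ : Fin r → Fin n => ¬ Function.Injective τ)).card : ℝ) = (n : ℝ) ^ r := by
    have := Finset.card_filter_add_card_filter_not (s := (univ : Finset (Fin r → Fin n)))
      (fun τ : Fin r → Fin n => Function.Injective τ)
    rw [Finset.card_univ, Fintype.card_fun, Fintype.card_fin, Fintype.card_fin] at this
    exact_mod_cast this
  have h5 := inj_count n r hn
  linarith

theorem kernel_positive (D : ℕ) (hD : 1 ≤ D) (ε : ℝ) (hε : 0 < ε) :
    ∃ n R : ℕ, 0 < n ∧ ∃ lam : Finset (Fin n) → ℝ, (∀ γ, 0 ≤ lam γ) ∧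
      (∀ γ, lam γ ≠ 0 → γ.Nonempty ∧ γ.card ≤ R) ∧ ∑ γ, lam γ ≤ 1 ∧ 1 - ε ≤ ∑ γ, lam γ ∧
      ∀ θ : Fin n → ℝ,
        -ε ≤ ∑ γ, lam γ * Real.cos (2 * Real.pi * ((γ.card : ℝ) ^ D * ∑ i ∈ γ, θ i)) := by
  obtain ⟨J, S, q, hJ, hS, hq, hmain⟩ := scale_sum D hD (ε / 4) (by positivity)
  have hSr : ∀ i, (0 : ℝ) < S i := fun i => by exact_mod_cast hS i
  have hJr : (0 : ℝ) < J := by exact_mod_cast hJ
  set R := ∑ i ∈ range J, q i * S i with hR
  obtain ⟨n₀, hn₀⟩ := exists_nat_gt ((R : ℝ) ^ 2 * 4 / ε)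
  set n := n₀ + 1 with hn
  have hn0 : 0 < n := by omega
  have hnp : (0 : ℝ) < n := by exact_mod_cast hn0
  have hnR : (R : ℝ) ^ 2 / n ≤ ε / 4 := by
    have h1 : (R : ℝ) ^ 2 * 4 / ε < n := by
      rw [hn]; push_cast; linarith
    rw [div_lt_iff₀ hε] at h1
    rw [div_le_iff₀ hnp]
    linarith
  have hrR : ∀ i ∈ range J, ∀ s ∈ range (S i), q i * (s + 1) ≤ R := by
    intro i hi s hs
    rw [Finset.mem_range] at hs
    calc q i * (s + 1) ≤ q i * S i := Nat.mul_le_mul_left _ hs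
      _ ≤ R := Finset.single_le_sum (f := fun i => q i * S i) (fun _ _ => Nat.zero_le _) hi
  have hr2 : ∀ i ∈ range J, ∀ s ∈ range (S i), ((q i * (s + 1) : ℕ) : ℝ) ^ 2 / n ≤ ε / 4 := by
    intro i hi s hs
    refine le_trans ?_ hnR
    have : ((q i * (s + 1) : ℕ) : ℝ) ≤ R := by exact_mod_cast hrR i hi s hs
    gcongr
  set lam : Finset (Fin n) → ℝ := fun γ =>
    (∑ i ∈ range J, (∑ s ∈ range (S i), cnt (q i * (s + 1)) γ / (n : ℝ) ^ (q i * (s + 1))) / S i) / J
    with hlam
  have hlin : ∀ g : Finset (Fin n) → ℝ, ∑ γ, lam γ * g γ =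
      (∑ i ∈ range J, (∑ s ∈ range (S i),
        (∑ γ, cnt (q i * (s + 1)) γ * g γ) / (n : ℝ) ^ (q i * (s + 1))) / S i) / J := by
    intro g
    rw [hlam]
    simp only [div_mul_eq_mul_div, Finset.sum_mul, Finset.sum_div]
    rw [Finset.sum_comm]
    refine Finset.sum_congr rfl fun i _ => ?_
    rw [Finset.sum_comm]
  have hlin1 : ∑ γ, lam γ =
      (∑ i ∈ range J, (∑ s ∈ range (S i),
        (∑ γ : Finset (Fin n), cnt (q i * (s + 1)) γ) / (n : ℝ) ^ (q i * (s + 1))) / S i) / J := by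
    have := hlin (fun _ => 1)
    simpa using this
  have havg : ∀ (b : ℝ) (F : ℕ → ℕ → ℝ), (∀ i ∈ range J, ∀ s ∈ range (S i), b ≤ F i s) →
      b ≤ (∑ i ∈ range J, (∑ s ∈ range (S i), F i s) / S i) / J := by
    intro b F hF
    rw [le_div_iff₀ hJr]
    calc b * J = ∑ i ∈ range J, b := by simp; ring
      _ ≤ _ := by
        refine Finset.sum_le_sum fun i hi => ?_
        rw [le_div_iff₀ (hSr i)]
        calc b * S i = ∑ s ∈ range (S i), b := by simp; ring
          _ ≤ _ := Finset.sum_le_sum fun s hs => hF i hi s hs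
  have havg' : ∀ (b : ℝ) (F : ℕ → ℕ → ℝ), (∀ i ∈ range J, ∀ s ∈ range (S i), F i s ≤ b) →
      (∑ i ∈ range J, (∑ s ∈ range (S i), F i s) / S i) / J ≤ b := by
    intro b F hF
    rw [div_le_iff₀ hJr]
    calc ∑ i ∈ range J, (∑ s ∈ range (S i), F i s) / S i ≤ ∑ i ∈ range J, b := by
          refine Finset.sum_le_sum fun i hi => ?_
          rw [div_le_iff₀ (hSr i)]
          calc ∑ s ∈ range (S i), F i s ≤ ∑ s ∈ range (S i), b :=
                Finset.sum_le_sum fun s hs => hF i hi s hs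
            _ = b * S i := by simp; ring
      _ = b * J := by simp; ring
  refine ⟨n, R, hn0, lam, ?_, ?_, ?_, ?_, ?_⟩
  · intro γ
    rw [hlam]
    simp only
    exact div_nonneg (Finset.sum_nonneg fun i _ => div_nonneg (Finset.sum_nonneg fun s _ =>
      div_nonneg (cnt_nonneg _ _) (by positivity)) (hSr i).le) hJr.le
  · intro γ hγ
    by_contra hcon
    apply hγ
    rw [hlam]
    simp only
    rw [div_eq_zero_iff]; left
    refine Finset.sum_eq_zero fun i hi => ?_
    rw [div_eq_zero_iff]; left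
    refine Finset.sum_eq_zero fun s hs => ?_
    rw [div_eq_zero_iff]; left
    by_contra hne
    have h1 := cnt_ne_zero _ _ hne
    apply hcon
    constructor
    · rw [← Finset.card_pos, h1]
      exact Nat.mul_pos (hq i) (Nat.succ_pos _)
    · rw [h1]; exact hrR i hi s hs
  · rw [hlin1]
    apply havg'
    intro i hi s hs
    rw [cnt_total, div_le_one (by positivity)]
    have h1 : (univ.filter fun τ : Fin (q i * (s + 1)) → Fin n => Function.Injective τ).card
        ≤ n ^ (q i * (s + 1)) := by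
      refine (Finset.card_le_univ _).trans ?_
      rw [Fintype.card_fun, Fintype.card_fin, Fintype.card_fin]
    exact_mod_cast h1
  · rw [hlin1]
    apply havg
    intro i hi s hs
    rw [cnt_total, le_div_iff₀ (by positivity)]
    refine le_trans ?_ (inj_count n (q i * (s + 1)) hn0)
    have h1 := hr2 i hi s hs
    apply mul_le_mul_of_nonneg_right _ (by positivity)
    linarith
  · intro θ
    rw [hlin]
    have h1 := hmain n hn0 θ
    have h2 : (∑ i ∈ range J, (∑ s ∈ range (S i),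
        ((phi D (q i * (s + 1)) θ ^ (q i * (s + 1))).re
          - ((q i * (s + 1) : ℕ) : ℝ) ^ 2 / n)) / S i) / J ≤
        (∑ i ∈ range J, (∑ s ∈ range (S i),
        (∑ γ : Finset (Fin n), cnt (q i * (s + 1)) γ *
          Real.cos (2 * Real.pi * ((γ.card : ℝ) ^ D * ∑ i ∈ γ, θ i))) /
            (n : ℝ) ^ (q i * (s + 1))) / S i) / J := by
      apply div_le_div_of_nonneg_right _ hJr.le
      refine Finset.sum_le_sum fun i _ => ?_
      apply div_le_div_of_nonneg_right _ (hSr i).le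
      exact Finset.sum_le_sum fun s _ => cnt_cos hn0 D _ θ
    refine le_trans ?_ h2
    have h3 : ∀ i ∈ range J,
        ((∑ s ∈ range (S i), phi D (q i * (s + 1)) θ ^ (q i * (s + 1))) / (S i : ℂ)).re - ε / 4 ≤
        (∑ s ∈ range (S i), ((phi D (q i * (s + 1)) θ ^ (q i * (s + 1))).re
          - ((q i * (s + 1) : ℕ) : ℝ) ^ 2 / n)) / S i := by
      intro i hi
      rw [← Complex.ofReal_natCast, Complex.div_ofReal_re, Complex.re_sum,
        Finset.sum_sub_distrib, sub_div]
      have h4 : (∑ s ∈ range (S i), ((q i * (s + 1) : ℕ) : ℝ) ^ 2 / n) / S i ≤ ε / 4 := by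
        rw [div_le_iff₀ (hSr i)]
        calc ∑ s ∈ range (S i), ((q i * (s + 1) : ℕ) : ℝ) ^ 2 / n
            ≤ ∑ s ∈ range (S i), ε / 4 := Finset.sum_le_sum fun s hs => hr2 i hi s hs
          _ = ε / 4 * S i := by simp; ring
      linarith
    rw [le_div_iff₀ hJr]
    refine le_trans ?_ (Finset.sum_le_sum h3)
    rw [Finset.sum_sub_distrib]
    simp only [Finset.sum_const, Finset.card_range, nsmul_eq_mul]
    linarith

end Pool.Agent.J4.H79.HS
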