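import Pool.Agent.J4.H79.HS.K4
import Pool.Agent.J4.H79.HS.G5
import Pool.Agent.J4.H79.HS.G6
import Pool.Agent.J4.H79.HS.P3d

namespace Pool.Agent.J4.H79.HS

open Finset

/-- `γ^d` -/
def cube {N : ℕ} (d : ℕ) (γ : Finset (Fin N)) : Finset (Fin d → Fin N) :=
  Fintype.piFinset (fun _ : Fin d => γ)

theorem card_cube {N : ℕ} (d : ℕ) (γ : Finset (Fin N)) : (cube d γ).card = γ.card ^ d := by
  unfold cube
  rw [Fintype.card_piFinset_const]

/-- hyperplane counts of a cube -/
theorem sum_wt_cube {N : ℕ} (d : ℕ) (γ : Finset (Fin N)) (j : Fin d) (a : Fin N) :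
    (∑ c ∈ cube d γ, wt c) j a = if a ∈ γ then (γ.card : ℤ) ^ (d - 1) else 0 := by
  classical
  have h1 : (∑ c ∈ cube d γ, wt c) j a = ∑ c ∈ cube d γ, (if c j = a then (1 : ℤ) else 0) := by
    rw [Finset.sum_apply, Finset.sum_apply]
    rfl
  rw [h1, ← Finset.sum_filter, Finset.sum_const, nsmul_eq_mul, mul_one]
  by_cases ha : a ∈ γ
  · rw [if_pos ha]
    have h2 : (cube d γ).filter (fun c => c j = a) =
        Fintype.piFinset (fun l : Fin d => if l = j then {a} else γ) := by
      ext c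
      simp only [cube, Finset.mem_filter, Fintype.mem_piFinset]
      constructor
      · rintro ⟨h, h'⟩ l
        by_cases hl : l = j
        · subst hl; simp [h']
        · simp [hl, h l]
      · intro h
        refine ⟨fun l => ?_, ?_⟩
        · by_cases hl : l = j
          · subst hl
            have := h l
            simp at this
            rw [this]; exact ha
          · have := h l
            simpa [hl] using this
        · have := h j
          simpa using this
    rw [h2, Fintype.card_piFinset, ← Finset.mul_prod_erase univ _ (Finset.mem_univ j), if_pos rfl,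
      Finset.card_singleton, one_mul,
      Finset.prod_congr rfl (g := fun _ => γ.card) (fun x hx => by
        rw [if_neg (Finset.ne_of_mem_erase hx)]),
      Finset.prod_const, Finset.card_erase_of_mem (Finset.mem_univ _), Finset.card_univ,
      Fintype.card_fin]
    push_cast; rfl
  · rw [if_neg ha]
    have h2 : (cube d γ).filter (fun c => c j = a) = ∅ := by
      rw [Finset.filter_eq_empty_iff]
      intro c hc h
      rw [cube, Fintype.mem_piFinset] at hc
      exact ha (h ▸ hc j)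
    rw [h2]; simp

/-- equality of the hyperplane counts is equality of the weight vectors -/
theorem sum_wt_apply {d N : ℕ} (A : Finset (Fin d → Fin N)) (j : Fin d) (a : Fin N) :
    (∑ c ∈ A, wt c) j a = ((A.filter fun c => c j = a).card : ℤ) := by
  rw [Finset.sum_apply, Finset.sum_apply, Finset.card_filter]
  push_cast
  rfl

theorem smooth_cell (d n m N : ℕ) (hd : 2 ≤ d) (hm : 0 < m) (hN : n + d * m ≤ N)
    (c : Fin d → Fin N) (hc : ∀ j, (c j : ℕ) < n) :
    Sm (univ \ univ.filter fun x : Fin d → Fin N => ∀ j, (x j : ℕ) < n) wt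
      (2 * Real.sqrt (2 ^ (2 * d - 1) / m)) (wt c) := by
  classical
  obtain ⟨P, Q, h1, h2, h3, h4, h5⟩ := gadgets d n m N hd hN c hc
  intro φ h0 h1'
  have hs := smoothing (univ \ univ.filter fun x : Fin d → Fin N => ∀ j, (x j : ℕ) < n) wt (wt c)
    (2 * d - 1) m hm P Q ?_ h2 h3 h4 h5 φ h0 h1'
  · unfold EU
    rw [← sub_div, abs_div, abs_of_pos (by positivity :
      (0 : ℝ) < 2 ^ (univ \ univ.filter fun x : Fin d → Fin N => ∀ j, (x j : ℕ) < n).card),
      div_le_iff₀ (by positivity)]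
    exact hs
  · intro a x hx
    obtain ⟨j, hj⟩ := h1 a x hx
    rw [Finset.mem_sdiff, Finset.mem_filter]
    refine ⟨Finset.mem_univ _, ?_⟩
    rintro ⟨-, h⟩
    exact absurd (h j) (by omega)

/-- **Families determined by the hyperplane counts.** -/
theorem hyperplane (d : ℕ) (hd : 2 ≤ d) (ε : ℝ) (hε : 0 < ε) :
    ∃ R N₀ : ℕ, ∀ N : ℕ, N₀ ≤ N → ∀ S : Finset (Finset (Fin d → Fin N)),
      (∀ A B : Finset (Fin d → Fin N),
        (∀ j i, (A.filter fun c => c j = i).card = (B.filter fun c => c j = i).card) →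
          (A ∈ S ↔ B ∈ S)) →
      ∃ γ : Finset (Fin N), γ.Nonempty ∧ γ.card ≤ R ∧
        (((S.card : ℝ) / 2 ^ (N ^ d)) ^ 2 - ε) * 2 ^ (N ^ d - γ.card ^ d) ≤
          ((S.filter (fun A => Disjoint A (cube d γ) ∧ A ∪ cube d γ ∈ S)).card : ℝ) := by
  classical
  set ε' : ℝ := min (ε / 4) (1 / 2) with hε'
  have hε'0 : 0 < ε' := by rw [hε']; positivity
  have hε'1 : ε' < 1 := lt_of_le_of_lt (min_le_right _ _) (by norm_num)
  have hε'2 : 4 * ε' ≤ ε := by have := min_le_left (ε / 4) (1 / 2); linarith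
  obtain ⟨n, R, hn, lam, hl0, hl1, hl2, hl3, hl4⟩ := kernel_positive (d - 1) (by omega) ε' hε'0
  obtain ⟨L₀, hL₀⟩ := exists_nat_gt ((R : ℝ) ^ d / ε')
  set L := L₀ + 1 with hL
  have hLpos : 0 < L := by omega
  have hLp : (0 : ℝ) < L := by exact_mod_cast hLpos
  have hRL : (R : ℝ) ^ d / L ≤ ε' := by
    have h1 : (R : ℝ) ^ d / ε' < L := by rw [hL]; push_cast; linarith
    rw [div_lt_iff₀ hε'0] at h1
    rw [div_le_iff₀ hLp]; linarith
  set K : ℝ := 3 * (n : ℝ) ^ d + 3 * (n * L) with hK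
  have hK0 : 0 ≤ K := by positivity
  obtain ⟨m₀, hm₀⟩ := exists_nat_gt (2 ^ (2 * d - 1) * (2 * K / ε') ^ 2)
  set m := m₀ + 1 with hm
  have hmpos : 0 < m := by omega
  have hmp : (0 : ℝ) < m := by exact_mod_cast hmpos
  set δ : ℝ := 2 * Real.sqrt (2 ^ (2 * d - 1) / m) with hδ
  have hδ0 : 0 ≤ δ := by positivity
  have hKδ : K * δ ≤ ε' := by
    have h1 : (2 : ℝ) ^ (2 * d - 1) * (2 * K / ε') ^ 2 ≤ m := by rw [hm]; push_cast; linarith
    have h2 : (2 * K) ^ 2 * (2 ^ (2 * d - 1) / m) ≤ ε' ^ 2 := by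
      rw [div_pow, ← mul_div_assoc, div_le_iff₀ (by positivity)] at h1
      rw [← mul_div_assoc, div_le_iff₀ hmp]
      linarith
    have h3 : 2 * K * Real.sqrt (2 ^ (2 * d - 1) / m) ≤ ε' := by
      rw [← Real.sqrt_sq (by positivity : (0 : ℝ) ≤ 2 * K), ← Real.sqrt_mul (by positivity),
        ← Real.sqrt_sq hε'0.le]
      exact Real.sqrt_le_sqrt h2
    rw [hδ]; linarith
  refine ⟨R, n + d * m, ?_⟩
  intro N hN S hS
  have hnN : n ≤ N := by omega
  set C₀ : Finset (Fin d → Fin N) := univ.filter fun x : Fin d → Fin N => ∀ j, (x j : ℕ) < n with hC₀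
  have hC₀c : C₀.card = n ^ d := by
    have h1 : C₀ = Fintype.piFinset (fun _ : Fin d => (univ.filter fun a : Fin N => (a : ℕ) < n)) := by
      ext x; simp [hC₀, Fintype.mem_piFinset]
    rw [h1, Fintype.card_piFinset_const]
    congr 1
    have h2 : (univ.filter fun a : Fin N => (a : ℕ) < n) = (univ : Finset (Fin n)).map (Fin.castLEEmb hnN) := by
      ext a
      simp only [Finset.mem_filter, Finset.mem_univ, true_and, Finset.mem_map, Fin.castLEEmb_apply]
      constructor
      · intro h; exact ⟨⟨a, h⟩, by ext; rfl⟩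
      · rintro ⟨b, rfl⟩; exact b.2
    rw [h2, Finset.card_map, Finset.card_univ, Fintype.card_fin]
  set up : Finset (Fin n) → Finset (Fin N) := fun γ => γ.map (Fin.castLEEmb hnN) with hup
  have hsm : ∀ c ∈ C₀, Sm (univ \ C₀) wt δ (wt c) := fun c hc =>
    smooth_cell d n m N hd hmpos hN c (Finset.mem_filter.1 hc).2
  set z : Fin n → (Fin d → Fin N → ℤ) := fun i => wt (fun _ => Fin.castLE hnN i) with hz
  set k : Finset (Fin n) → Fin n → ℕ := fun γ i => if i ∈ γ then γ.card ^ (d - 1) else 0 with hk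
  have hksum : ∀ (γ : Finset (Fin n)) (θ : Fin n → ℝ),
      ∑ i, (k γ i : ℝ) * θ i = (γ.card : ℝ) ^ (d - 1) * ∑ i ∈ γ, θ i := by
    intro γ θ
    rw [hk, Finset.mul_sum, ← Finset.sum_filter_add_sum_filter_not univ (fun i => i ∈ γ)]
    rw [Finset.sum_eq_zero (s := univ.filter fun i => ¬ i ∈ γ) (fun i hi => by
      simp [(Finset.mem_filter.1 hi).2]), add_zero]
    rw [Finset.filter_mem_eq_inter, Finset.univ_inter]
    refine Finset.sum_congr rfl fun i hi => ?_
    simp [hi]
  have s1 : ∀ γ, (fun γ => cube d (up γ)) γ ⊆ C₀ := by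
    intro γ c hc
    rw [hC₀, Finset.mem_filter]
    refine ⟨Finset.mem_univ _, fun j => ?_⟩
    have hc' : c ∈ Fintype.piFinset (fun _ : Fin d => up γ) := hc
    rw [Fintype.mem_piFinset] at hc'
    have := hc' j
    rw [hup, Finset.mem_map] at this
    obtain ⟨b, _, hb⟩ := this
    rw [← hb]; exact b.2
  have s2 : ∀ γ, ∑ c ∈ (fun γ => cube d (up γ)) γ, wt c = ∑ i, k γ i • z i := by
    intro γ
    funext j a
    rw [sum_wt_cube d]
    have h1 : (∑ i, k γ i • z i) j a = ∑ i, (k γ i : ℤ) * (if Fin.castLE hnN i = a then (1 : ℤ) else 0) := by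
      rw [Finset.sum_apply, Finset.sum_apply]
      refine Finset.sum_congr rfl fun i _ => ?_
      rw [Pi.smul_apply, Pi.smul_apply, nsmul_eq_mul]
      rfl
    rw [h1, hup]
    simp only
    by_cases ha : a ∈ γ.map (Fin.castLEEmb hnN)
    · rw [if_pos ha]
      rw [Finset.mem_map] at ha
      obtain ⟨b, hb, hba⟩ := ha
      rw [Finset.sum_eq_single b]
      · rw [← hba]
        simp [hk, hb]
      · intro i _ hib
        rw [if_neg, mul_zero]
        intro h
        rw [← hba] at h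
        exact hib (Fin.castLE_injective hnN h)
      · intro h; exact absurd (Finset.mem_univ b) h
    · rw [if_neg ha]
      symm
      refine Finset.sum_eq_zero fun i _ => ?_
      by_cases h : Fin.castLE hnN i = a
      · have hi : i ∉ γ := fun hi => ha (Finset.mem_map.2 ⟨i, hi, h⟩)
        simp [hk, hi]
      · rw [if_neg h, mul_zero]
  have s3 : ∀ θ : Fin n → ℝ,
      -ε' ≤ ∑ γ, lam γ * Real.cos (2 * Real.pi * ∑ i, (k γ i : ℝ) * θ i) := by
    intro θ
    have h1 := hl4 θ
    refine le_trans h1 (le_of_eq ?_)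
    refine Finset.sum_congr rfl fun γ _ => ?_
    rw [hksum]
  have s4 : ∀ γ, lam γ ≠ 0 → ∑ i, (k γ i : ℝ) ≤ (R : ℝ) ^ d := by
    intro γ hγ
    have h1 := hksum γ (fun _ => 1)
    simp only [mul_one] at h1
    rw [h1, Finset.sum_const, nsmul_eq_mul, mul_one, ← pow_succ, Nat.sub_add_cancel (by omega)]
    have : (γ.card : ℝ) ≤ R := by exact_mod_cast (hl1 γ hγ).2
    gcongr
  have s5 : ∀ i, Sm (univ \ C₀) wt δ (z i) := by
    intro i
    apply hsm
    rw [hC₀, Finset.mem_filter]
    exact ⟨Finset.mem_univ _, fun _ => i.2⟩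
  obtain ⟨γ, hγ, hmain⟩ := assembly (V := Fin d → Fin N → ℤ) wt C₀ S
    (fun A B hAB => hS A B (fun j i => by
      have := congrFun (congrFun hAB j) i
      rw [sum_wt_apply, sum_wt_apply] at this
      exact_mod_cast this))
    z k (fun γ => cube d (up γ)) s1 s2 lam hl0 ε' hε'0 hε'1 hl2 hl3 s3 ((R : ℝ) ^ d) (by positivity)
    s4 L hLpos δ δ hδ0 hδ0 hsm s5
  have hup1 : (up γ).card = γ.card := Finset.card_map _
  refine ⟨up γ, ?_, ?_, ?_⟩
  · rw [← Finset.card_pos, hup1, Finset.card_pos]; exact (hl1 γ hγ).1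
  · rw [hup1]; exact (hl1 γ hγ).2
  · rw [Fintype.card_fun, Fintype.card_fin, Fintype.card_fin] at hmain
    rw [← card_cube]
    refine le_trans ?_ hmain
    apply mul_le_mul_of_nonneg_right _ (by positivity)
    have h1 : 3 * ((C₀.card : ℝ) * δ) + 3 * ((Fintype.card (Fin n) : ℝ) * L * δ) = K * δ := by
      rw [hC₀c, Fintype.card_fin, hK]; push_cast; ring
    linarith

end Pool.Agent.J4.H79.HS
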