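import Pool.Agent.J4.H79.HS.Defs

/-!
Definitions for the second round: k-fold differences of functions of multisets, line counts.
-/

namespace Pool.Agent.J4.H79.HS

open Finset

/-- the `k`-fold difference of a symmetric function (= function of multisets) at `k` pairs of points -/
noncomputable def diff (k : ℕ) {X : Type} (F : Multiset X → ℝ) (p : Fin k → X × X) : ℝ :=
  ∑ I : Finset (Fin k), (-1 : ℝ) ^ I.card *
    F ((univ : Finset (Fin k)).val.map fun a => if a ∈ I then (p a).2 else (p a).1)

/-- incidences of a cell with the lines: direction `j`, the line through `u` -/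
def lw {d N : ℕ} (c : Fin d → Fin N) : Fin d → (Fin d → Fin N) → ℤ :=
  fun j u => if ∀ l, l ≠ j → u l = c l then 1 else 0

end Pool.Agent.J4.H79.HS
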