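import Pool.Agent.J4.H79.HS.W1

namespace Pool.Agent.J4.H79.HS

open Finset

theorem norm_pow_sub_one_le (z : ℂ) (hz : ‖z‖ = 1) (m : ℕ) : ‖z ^ m - 1‖ ≤ m * ‖z - 1‖ := by
  rw [← geom_sum_mul, norm_mul]
  gcongr
  calc ‖∑ i ∈ range m, z ^ i‖ ≤ ∑ i ∈ range m, ‖z ^ i‖ := norm_sum_le _ _
    _ = m := by simp [norm_pow, hz]

theorem norm_e_sub_one_sq (x : ℝ) : ‖e x - 1‖ ^ 2 = 2 * (1 - Real.cos (2 * Real.pi * x)) := by
  rw [← e_re, ← Complex.normSq_eq_norm_sq]
  have h := norm_e x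
  have h2 : Complex.normSq (e x) = 1 := by rw [Complex.normSq_eq_norm_sq, h]; norm_num
  rw [Complex.normSq_apply] at h2 ⊢
  simp only [Complex.sub_re, Complex.sub_im, Complex.one_re, Complex.one_im]
  nlinarith

theorem fejer_lower (x : ℝ) (M : ℕ) (hM : 0 < M) :
    (M : ℝ) ^ 2 / 2 - 4 * M ^ 4 * (1 - Real.cos (2 * Real.pi * x)) ≤
      ‖∑ m ∈ range M, e x ^ m‖ ^ 2 := by
  set t := ‖e x - 1‖ with ht
  have ht0 : 0 ≤ t := norm_nonneg _
  have ht2 : t ^ 2 = 2 * (1 - Real.cos (2 * Real.pi * x)) := norm_e_sub_one_sq x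
  have h1 : (M : ℝ) - M ^ 2 * t ≤ ‖∑ m ∈ range M, e x ^ m‖ := by
    have h2 : (M : ℂ) = ∑ m ∈ range M, e x ^ m - ∑ m ∈ range M, (e x ^ m - 1) := by
      rw [← Finset.sum_sub_distrib]; simp
    have h3 : (M : ℝ) ≤ ‖∑ m ∈ range M, e x ^ m‖ + ‖∑ m ∈ range M, (e x ^ m - 1)‖ := by
      calc (M : ℝ) = ‖(M : ℂ)‖ := by simp
        _ = ‖∑ m ∈ range M, e x ^ m - ∑ m ∈ range M, (e x ^ m - 1)‖ := by rw [← h2]
        _ ≤ _ := norm_sub_le _ _
    have h4 : ‖∑ m ∈ range M, (e x ^ m - 1)‖ ≤ M ^ 2 * t := by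
      calc ‖∑ m ∈ range M, (e x ^ m - 1)‖ ≤ ∑ m ∈ range M, ‖e x ^ m - 1‖ := norm_sum_le _ _
        _ ≤ ∑ m ∈ range M, (M : ℝ) * t := by
            refine Finset.sum_le_sum fun m hm => ?_
            refine (norm_pow_sub_one_le _ (norm_e x) m).trans ?_
            have : (m : ℝ) ≤ M := by exact_mod_cast (Finset.mem_range.1 hm).le
            exact mul_le_mul_of_nonneg_right this ht0
        _ = M ^ 2 * t := by simp; ring
    linarith
  have hF0 : 0 ≤ ‖∑ m ∈ range M, e x ^ m‖ := norm_nonneg _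
  have hMp : (0 : ℝ) < M := by exact_mod_cast hM
  -- M^2 - 2 M^3 t ≤ F^2
  have h5 : (M : ℝ) ^ 2 - 2 * M ^ 3 * t ≤ ‖∑ m ∈ range M, e x ^ m‖ ^ 2 := by
    rcases le_or_gt ((M : ℝ) - M ^ 2 * t) 0 with h | h
    · have : (M : ℝ) ≤ M ^ 2 * t := by linarith
      have h6 : (M : ℝ) * M ≤ M * (M ^ 2 * t) := mul_le_mul_of_nonneg_left this hMp.le
      have h7 : 0 ≤ (M : ℝ) ^ 3 * t := by positivity
      nlinarith [sq_nonneg ‖∑ m ∈ range M, e x ^ m‖]
    · have h6 : ((M : ℝ) - M ^ 2 * t) ^ 2 ≤ ‖∑ m ∈ range M, e x ^ m‖ ^ 2 := by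
        apply pow_le_pow_left₀ h.le h1
      nlinarith [sq_nonneg ((M : ℝ) ^ 2 * t)]
  have h8 : 2 * (M : ℝ) ^ 3 * t ≤ M ^ 2 / 2 + 2 * M ^ 4 * t ^ 2 := by
    nlinarith [sq_nonneg ((M : ℝ) * (1 - 2 * M * t))]
  rw [ht2] at h8
  nlinarith

theorem fejer_sum_upper (S : ℕ) (x : ℕ → ℝ) (M : ℕ) (B : ℝ)
    (hB : ∀ m : ℕ, 1 ≤ m → m < M → ‖∑ s ∈ range S, e (m * x s)‖ ≤ B) (hB0 : 0 ≤ B) :
    ∑ s ∈ range S, ‖∑ m ∈ range M, e (x s) ^ m‖ ^ 2 ≤ M * S + M ^ 2 * B := by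
  have key : ((∑ s ∈ range S, ‖∑ m ∈ range M, e (x s) ^ m‖ ^ 2 : ℝ) : ℂ)
      = ∑ m ∈ range M, ∑ m' ∈ range M, ∑ s ∈ range S, e (((m : ℝ) - m') * x s) := by
    rw [Complex.ofReal_sum]
    have h1 : ∀ s ∈ range S, ((‖∑ m ∈ range M, e (x s) ^ m‖ ^ 2 : ℝ) : ℂ)
        = ∑ m ∈ range M, ∑ m' ∈ range M, e (((m : ℝ) - m') * x s) := by
      intro s _
      rw [← Complex.normSq_eq_norm_sq, Complex.normSq_eq_conj_mul_self, map_sum,
        Finset.sum_mul_sum, Finset.sum_comm]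
      refine Finset.sum_congr rfl fun m _ => Finset.sum_congr rfl fun m' _ => ?_
      rw [sub_mul, e_sub, e_nat_mul, e_nat_mul, map_pow, mul_comm]
    rw [Finset.sum_congr rfl h1, Finset.sum_comm]
    refine Finset.sum_congr rfl fun m _ => ?_
    rw [Finset.sum_comm]
  have h2 : ∑ s ∈ range S, ‖∑ m ∈ range M, e (x s) ^ m‖ ^ 2 =
      ‖∑ m ∈ range M, ∑ m' ∈ range M, ∑ s ∈ range S, e (((m : ℝ) - m') * x s)‖ := by
    rw [← key, Complex.norm_real, Real.norm_of_nonneg]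
    positivity
  rw [h2]
  calc ‖∑ m ∈ range M, ∑ m' ∈ range M, ∑ s ∈ range S, e (((m : ℝ) - m') * x s)‖
      ≤ ∑ m ∈ range M, ∑ m' ∈ range M, ‖∑ s ∈ range S, e (((m : ℝ) - m') * x s)‖ := by
        refine (norm_sum_le _ _).trans (Finset.sum_le_sum fun m _ => norm_sum_le _ _)
    _ ≤ ∑ m ∈ range M, ∑ m' ∈ range M, ((if m = m' then (S : ℝ) else 0) + B) := by
        refine Finset.sum_le_sum fun m hm => Finset.sum_le_sum fun m' hm' => ?_
        rw [Finset.mem_range] at hm hm'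
        rcases lt_trichotomy m m' with h | h | h
        · rw [if_neg h.ne]
          have h3 : ∀ s ∈ range S, e (((m : ℝ) - m') * x s)
              = (starRingEnd ℂ) (e (((m' - m : ℕ) : ℝ) * x s)) := by
            intro s _
            rw [← e_neg, Nat.cast_sub h.le]
            congr 1; ring
          rw [Finset.sum_congr rfl h3, ← map_sum, Complex.norm_conj]
          have := hB (m' - m) (by omega) (by omega)
          linarith
        · subst h
          rw [if_pos rfl]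
          have : ‖∑ s ∈ range S, e (((m : ℝ) - m) * x s)‖ ≤ S := by
            refine (norm_sum_le _ _).trans ?_
            simp [norm_e]
          linarith
        · rw [if_neg h.ne']
          have h3 : ∀ s ∈ range S, e (((m : ℝ) - m') * x s)
              = e (((m - m' : ℕ) : ℝ) * x s) := by
            intro s _
            rw [Nat.cast_sub h.le]
          rw [Finset.sum_congr rfl h3]
          have := hB (m - m') (by omega) (by omega)
          linarith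
    _ = M * S + M ^ 2 * B := by
        simp only [Finset.sum_add_distrib, Finset.sum_ite_eq, Finset.sum_const, Finset.card_range,
          nsmul_eq_mul]
        rw [Finset.sum_ite_of_true]
        · simp; ring
        · intro i hi; exact hi

theorem dense_return (D : ℕ) (hD : 1 ≤ D) (a : ℝ) (ha : 0 < a) :
    ∃ (c₁ : ℝ) (C : ℕ), 0 < c₁ ∧ 0 < C ∧ ∀ (S : ℕ) (β : ℝ) (G : Finset ℕ), 0 < S →
      G ⊆ Finset.range S → a * S ≤ G.card →
      ∑ s ∈ G, (1 - Real.cos (2 * Real.pi * (β * ((s : ℝ) + 1) ^ D))) ≤ c₁ * G.card →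
      ∃ h : ℕ, 1 ≤ h ∧ h ≤ C ∧ nn (h * β) ≤ C / S := by
  obtain ⟨M, hM⟩ := exists_nat_gt (8 / a)
  have hM0 : 0 < M := by
    have : (0 : ℝ) < M := lt_trans (by positivity) hM
    exact_mod_cast this
  have hMp : (0 : ℝ) < M := by exact_mod_cast hM0
  obtain ⟨C', hC', hW⟩ := weyl_inverse D hD (1 / M) (by positivity)
  refine ⟨1 / (16 * M ^ 2), C' * M, by positivity, by positivity, ?_⟩
  intro S β G hS hG hGc hsum
  have hSp : (0 : ℝ) < S := by exact_mod_cast hS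
  by_cases hcase : ∃ m : ℕ, 1 ≤ m ∧ m < M ∧
      (1 / (M : ℝ)) * S ≤ ‖∑ s ∈ range S, e (m * (β * ((s : ℝ) + 1) ^ D))‖
  · obtain ⟨m, hm1, hm2, hm3⟩ := hcase
    set p : Polynomial ℝ := Polynomial.C (m * β) * (Polynomial.X + Polynomial.C 1) ^ D with hp
    have hpe : ∀ s : ℝ, p.eval s = m * (β * (s + 1) ^ D) := by
      intro s; simp [hp]; ring
    have hpd : p.natDegree ≤ D := by
      rw [hp]
      refine (Polynomial.natDegree_C_mul_le _ _).trans ?_
      refine Polynomial.natDegree_pow_le.trans ?_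
      rw [Polynomial.natDegree_X_add_C, mul_one]
    have hpc : p.coeff D = m * β := by
      rw [hp, Polynomial.coeff_C_mul]
      have : ((Polynomial.X + Polynomial.C (1 : ℝ)) ^ D).coeff D = 1 := by
        rw [Polynomial.coeff_X_add_C_pow]; simp
      rw [this, mul_one]
    obtain ⟨h, hh1, hh2, hh3⟩ := hW S p hS hpd (by simpa only [hpe] using hm3)
    refine ⟨h * m, Nat.mul_pos hh1 hm1 , Nat.mul_le_mul hh2 hm2.le, ?_⟩
    rw [hpc] at hh3
    rw [Nat.cast_mul, mul_assoc]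
    refine hh3.trans ?_
    rw [Nat.cast_mul]
    gcongr
    have h1M : (1 : ℝ) ≤ M := by exact_mod_cast hM0
    have : (0 : ℝ) ≤ C' := Nat.cast_nonneg _
    nlinarith
  · exfalso
    push Not at hcase
    have hup := fejer_sum_upper S (fun s => β * ((s : ℝ) + 1) ^ D) M ((1 / (M : ℝ)) * S)
      (fun m h1 h2 => (hcase m h1 h2).le) (by positivity)
    have hlow : (G.card : ℝ) * (M ^ 2 / 4) ≤
        ∑ s ∈ range S, ‖∑ m ∈ range M, e (β * ((s : ℝ) + 1) ^ D) ^ m‖ ^ 2 := by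
      calc (G.card : ℝ) * (M ^ 2 / 4)
          = G.card * (M ^ 2 / 2) - 4 * M ^ 4 * (1 / (16 * M ^ 2) * G.card) := by
            field_simp; ring
        _ ≤ G.card * (M ^ 2 / 2) - 4 * M ^ 4 *
              ∑ s ∈ G, (1 - Real.cos (2 * Real.pi * (β * ((s : ℝ) + 1) ^ D))) := by
            have : (0 : ℝ) ≤ 4 * M ^ 4 := by positivity
            nlinarith [mul_le_mul_of_nonneg_left hsum this]
        _ = ∑ s ∈ G, ((M : ℝ) ^ 2 / 2 - 4 * M ^ 4 *
              (1 - Real.cos (2 * Real.pi * (β * ((s : ℝ) + 1) ^ D)))) := by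
            rw [Finset.mul_sum, Finset.sum_sub_distrib, Finset.sum_const, nsmul_eq_mul]
        _ ≤ ∑ s ∈ G, ‖∑ m ∈ range M, e (β * ((s : ℝ) + 1) ^ D) ^ m‖ ^ 2 :=
            Finset.sum_le_sum fun s _ => fejer_lower _ M hM0
        _ ≤ _ := Finset.sum_le_sum_of_subset_of_nonneg hG fun _ _ _ => by positivity
    have h1 : (a * S) * (M ^ 2 / 4) ≤ G.card * (M ^ 2 / 4) := by
      apply mul_le_mul_of_nonneg_right hGc (by positivity)
    have h2 : (a * S) * (M ^ 2 / 4) ≤ 2 * M * S := by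
      calc (a * S) * (M ^ 2 / 4) ≤ M * S + M ^ 2 * ((1 / (M : ℝ)) * S) := h1.trans (hlow.trans hup)
        _ = 2 * M * S := by field_simp; ring
    have h3 : 8 < a * M := by
      rw [div_lt_iff₀ ha] at hM; linarith
    have h4 : 0 < M * (S : ℝ) := by positivity
    nlinarith

end Pool.Agent.J4.H79.HS
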