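import Pool.Agent.J4.H79.HS.P2

namespace Pool.Agent.J4.H79.HS

open Finset

/-- the average of the characters -/
noncomputable def phi {n : ℕ} (D r : ℕ) (θ : Fin n → ℝ) : ℂ :=
  (∑ i, e ((r : ℝ) ^ D * θ i)) / n

theorem norm_phi_le {n : ℕ} (D r : ℕ) (θ : Fin n → ℝ) : ‖phi D r θ‖ ≤ 1 := by
  unfold phi
  rw [norm_div]
  have h : ‖∑ i, e ((r : ℝ) ^ D * θ i)‖ ≤ n := by
    refine (norm_sum_le _ _).trans ?_
    simp [norm_e]
  rw [Complex.norm_natCast]
  exact div_le_one_of_le₀ h (Nat.cast_nonneg _)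

theorem norm_phi_sq {n : ℕ} (hn : 0 < n) (D r : ℕ) (θ : Fin n → ℝ) :
    ∑ x, ∑ y, (1 - Real.cos (2 * Real.pi * ((r : ℝ) ^ D * (θ y - θ x)))) =
      (n : ℝ) ^ 2 * (1 - ‖phi D r θ‖ ^ 2) := by
  have hnp : (0 : ℝ) < n := by exact_mod_cast hn
  have h1 : ((‖∑ i, e ((r : ℝ) ^ D * θ i)‖ ^ 2 : ℝ) : ℂ) =
      ∑ x, ∑ y, e ((r : ℝ) ^ D * (θ y - θ x)) := by
    rw [← Complex.normSq_eq_norm_sq, Complex.normSq_eq_conj_mul_self, map_sum,
      Finset.sum_mul_sum]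
    refine Finset.sum_congr rfl fun x _ => Finset.sum_congr rfl fun y _ => ?_
    rw [mul_sub, e_sub, mul_comm]
  have h2 : ‖∑ i, e ((r : ℝ) ^ D * θ i)‖ ^ 2 =
      ∑ x, ∑ y, Real.cos (2 * Real.pi * ((r : ℝ) ^ D * (θ y - θ x))) := by
    have := congrArg Complex.re h1
    rw [Complex.ofReal_re] at this
    rw [this, Complex.re_sum]
    refine Finset.sum_congr rfl fun x _ => ?_
    rw [Complex.re_sum]
    refine Finset.sum_congr rfl fun y _ => ?_
    rw [e_re]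
  simp only [Finset.sum_sub_distrib]
  rw [← h2]
  unfold phi
  rw [norm_div, Complex.norm_natCast]
  simp
  field_simp

theorem exists_base {n : ℕ} (hn : 0 < n) (D : ℕ) (a c₁ : ℝ) (C : ℕ) (ha : 0 < a) (hc₁ : 0 < c₁)
    (hret : ∀ (S : ℕ) (β : ℝ) (G : Finset ℕ), 0 < S →
      G ⊆ Finset.range S → a * S ≤ G.card →
      ∑ s ∈ G, (1 - Real.cos (2 * Real.pi * (β * ((s : ℝ) + 1) ^ D))) ≤ c₁ * G.card →
      ∃ h : ℕ, 1 ≤ h ∧ h ≤ C ∧ nn (h * β) ≤ C / S)
    (θ : Fin n → ℝ) (S : ℕ) (hS : 0 < S) (q : ℕ) (G : Finset ℕ) (hG : G ⊆ range S)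
    (hGc : a * S ≤ G.card) (κ : ℝ)
    (hκ : ∀ s ∈ G, 1 - ‖phi D (q * (s + 1)) θ‖ ^ 2 ≤ κ) :
    ∃ (x₀ : Fin n) (B : Finset (Fin n)), (B.card : ℝ) ≤ κ / c₁ * n ∧
      ∀ y, y ∉ B → ∃ h : ℕ, 1 ≤ h ∧ h ≤ C ∧ nn (h * ((q : ℝ) ^ D * (θ y - θ x₀))) ≤ C / S := by
  have hnp : (0 : ℝ) < n := by exact_mod_cast hn
  have hSp : (0 : ℝ) < S := by exact_mod_cast hS
  have hGp : (0 : ℝ) < G.card := lt_of_lt_of_le (by positivity) hGc
  -- the function
  set F : Fin n → Fin n → ℝ := fun x y =>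
    ∑ s ∈ G, (1 - Real.cos (2 * Real.pi * (((q : ℝ) ^ D * (θ y - θ x)) * ((s : ℝ) + 1) ^ D))) with hF
  have hF0 : ∀ x y, 0 ≤ F x y := fun x y =>
    Finset.sum_nonneg fun s _ => by linarith [Real.cos_le_one (2 * Real.pi * (((q : ℝ) ^ D * (θ y - θ x)) * ((s : ℝ) + 1) ^ D))]
  have htot : ∑ x, ∑ y, F x y ≤ n * (κ * n * G.card) := by
    have h1 : ∑ x, ∑ y, F x y = ∑ s ∈ G, (n : ℝ) ^ 2 * (1 - ‖phi D (q * (s + 1)) θ‖ ^ 2) := by
      calc ∑ x, ∑ y, F x y = ∑ x, ∑ s ∈ G, ∑ y,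
            (1 - Real.cos (2 * Real.pi * (((q : ℝ) ^ D * (θ y - θ x)) * ((s : ℝ) + 1) ^ D))) :=
            Finset.sum_congr rfl fun x _ => Finset.sum_comm
        _ = ∑ s ∈ G, ∑ x, ∑ y,
            (1 - Real.cos (2 * Real.pi * (((q : ℝ) ^ D * (θ y - θ x)) * ((s : ℝ) + 1) ^ D))) :=
            Finset.sum_comm
        _ = _ := by
            refine Finset.sum_congr rfl fun s _ => ?_
            rw [← norm_phi_sq hn]
            refine Finset.sum_congr rfl fun x _ => Finset.sum_congr rfl fun y _ => ?_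
            push_cast
            congr 3
            rw [mul_pow]; ring
    rw [h1]
    calc ∑ s ∈ G, (n : ℝ) ^ 2 * (1 - ‖phi D (q * (s + 1)) θ‖ ^ 2)
        ≤ ∑ s ∈ G, (n : ℝ) ^ 2 * κ := Finset.sum_le_sum fun s hs =>
          mul_le_mul_of_nonneg_left (hκ s hs) (by positivity)
      _ = n * (κ * n * G.card) := by rw [Finset.sum_const, nsmul_eq_mul]; ring
  haveI : Nonempty (Fin n) := ⟨⟨0, hn⟩⟩
  obtain ⟨x₀, -, hx₀⟩ : ∃ x ∈ (univ : Finset (Fin n)), ∑ y, F x y ≤ κ * n * G.card := by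
    apply Finset.exists_le_of_sum_le Finset.univ_nonempty
    rw [Finset.sum_const, nsmul_eq_mul, Finset.card_univ, Fintype.card_fin]
    exact htot
  refine ⟨x₀, univ.filter fun y => c₁ * G.card < F x₀ y, ?_, ?_⟩
  · have h1 : ((univ.filter fun y => c₁ * G.card < F x₀ y).card : ℝ) * (c₁ * G.card)
        ≤ κ * n * G.card := by
      calc ((univ.filter fun y => c₁ * G.card < F x₀ y).card : ℝ) * (c₁ * G.card)
          = ∑ y ∈ univ.filter (fun y => c₁ * G.card < F x₀ y), (c₁ * G.card) := by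
            rw [Finset.sum_const, nsmul_eq_mul]
        _ ≤ ∑ y ∈ univ.filter (fun y => c₁ * G.card < F x₀ y), F x₀ y :=
            Finset.sum_le_sum fun y hy => (Finset.mem_filter.1 hy).2.le
        _ ≤ ∑ y, F x₀ y := Finset.sum_le_sum_of_subset_of_nonneg (Finset.filter_subset _ _)
            fun y _ _ => hF0 x₀ y
        _ ≤ _ := hx₀
    have h2 : ((univ.filter fun y => c₁ * G.card < F x₀ y).card : ℝ) * c₁ ≤ κ * n := by
      have h3 : (((univ.filter fun y => c₁ * G.card < F x₀ y).card : ℝ) * c₁) * G.card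
          ≤ (κ * n) * G.card := by linarith
      exact le_of_mul_le_mul_right h3 hGp
    rw [div_mul_eq_mul_div, le_div_iff₀ hc₁]
    exact h2
  · intro y hy
    rw [Finset.mem_filter] at hy
    push Not at hy
    exact hret S _ G hS hG hGc (hy (Finset.mem_univ _))

theorem phi_close {n : ℕ} (hn : 0 < n) (D r : ℕ) (θ : Fin n → ℝ) (x₀ : Fin n) (B : Finset (Fin n))
    (b η : ℝ) (hη : 0 ≤ η) (hB : (B.card : ℝ) ≤ b * n)
    (hy : ∀ y, y ∉ B → nn ((r : ℝ) ^ D * (θ y - θ x₀)) ≤ η) :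
    ‖phi D r θ ^ r - e ((r : ℝ) ^ (D + 1) * θ x₀)‖ ≤ r * (2 * b + 2 * Real.pi * η) := by
  have hnp : (0 : ℝ) < n := by exact_mod_cast hn
  have h1 : ‖phi D r θ - e ((r : ℝ) ^ D * θ x₀)‖ ≤ 2 * b + 2 * Real.pi * η := by
    have h2 : phi D r θ - e ((r : ℝ) ^ D * θ x₀) =
        (∑ y, (e ((r : ℝ) ^ D * θ y) - e ((r : ℝ) ^ D * θ x₀))) / n := by
      unfold phi
      have hn0 : (n : ℂ) ≠ 0 := by exact_mod_cast hn.ne'
      rw [Finset.sum_sub_distrib]
      simp only [Finset.sum_const, Finset.card_univ, Fintype.card_fin, nsmul_eq_mul]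
      field_simp
    rw [h2, norm_div, Complex.norm_natCast, div_le_iff₀ hnp]
    calc ‖∑ y, (e ((r : ℝ) ^ D * θ y) - e ((r : ℝ) ^ D * θ x₀))‖
        ≤ ∑ y, ‖e ((r : ℝ) ^ D * θ y) - e ((r : ℝ) ^ D * θ x₀)‖ := norm_sum_le _ _
      _ ≤ ∑ y, ((if y ∈ B then (2 : ℝ) else 0) + 2 * Real.pi * η) := by
          refine Finset.sum_le_sum fun y _ => ?_
          by_cases hyB : y ∈ B
          · rw [if_pos hyB]
            have : ‖e ((r : ℝ) ^ D * θ y) - e ((r : ℝ) ^ D * θ x₀)‖ ≤ 1 + 1 :=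
              (norm_sub_le _ _).trans (by rw [norm_e, norm_e])
            have : 0 ≤ 2 * Real.pi * η := by positivity
            linarith
          · rw [if_neg hyB, zero_add]
            have h3 : e ((r : ℝ) ^ D * θ y) - e ((r : ℝ) ^ D * θ x₀) =
                e ((r : ℝ) ^ D * θ x₀) * (e ((r : ℝ) ^ D * (θ y - θ x₀)) - 1) := by
              rw [mul_sub, mul_one, ← e_add]
              congr 2; ring
            rw [h3, norm_mul, norm_e, one_mul]
            refine (norm_e_sub_one_le _).trans ?_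
            have := hy y hyB
            gcongr
      _ = 2 * B.card + n * (2 * Real.pi * η) := by
          rw [Finset.sum_add_distrib, Finset.sum_const, Finset.card_univ, Fintype.card_fin,
            nsmul_eq_mul, Finset.sum_ite_mem, Finset.univ_inter, Finset.sum_const, nsmul_eq_mul]
          ring
      _ ≤ (2 * b + 2 * Real.pi * η) * n := by nlinarith
  have h4 : e ((r : ℝ) ^ (D + 1) * θ x₀) = e ((r : ℝ) ^ D * θ x₀) ^ r := by
    rw [← e_nat_mul]; congr 1; ring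
  rw [h4]
  have h5 : ∀ (z w : ℂ), ‖z‖ ≤ 1 → ‖w‖ ≤ 1 → ∀ m : ℕ, ‖z ^ m - w ^ m‖ ≤ m * ‖z - w‖ := by
    intro z w hz hw m
    induction m with
    | zero => simp
    | succ m ih =>
      have : z ^ (m + 1) - w ^ (m + 1) = z ^ m * (z - w) + (z ^ m - w ^ m) * w := by ring
      rw [this]
      calc ‖z ^ m * (z - w) + (z ^ m - w ^ m) * w‖
          ≤ ‖z ^ m * (z - w)‖ + ‖(z ^ m - w ^ m) * w‖ := norm_add_le _ _
        _ = ‖z‖ ^ m * ‖z - w‖ + ‖z ^ m - w ^ m‖ * ‖w‖ := by rw [norm_mul, norm_mul, norm_pow]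
        _ ≤ 1 * ‖z - w‖ + (m * ‖z - w‖) * 1 := by
            gcongr
            exact pow_le_one₀ (norm_nonneg _) hz
        _ = ((m + 1 : ℕ) : ℝ) * ‖z - w‖ := by push_cast; ring
  refine (h5 _ _ (norm_phi_le _ _ _) (norm_e _).le r).trans ?_
  gcongr

/-- Bernoulli type estimate -/
theorem small_defect (u δ : ℝ) (m : ℕ) (hu0 : 0 ≤ u) (hu1 : u ≤ 1) (hδ : 0 < δ)
    (h : δ ≤ (1 - u) ^ m) : m * u ≤ 1 / δ := by
  have h1 : 1 + m * u ≤ (1 + u) ^ m := one_add_mul_le_pow (by linarith) m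
  have h2 : (1 - u) ^ m * (1 + u) ^ m ≤ 1 := by
    rw [← mul_pow]
    apply pow_le_one₀
    · apply mul_nonneg <;> linarith
    · nlinarith
  have h3 : δ * (1 + m * u) ≤ 1 := by
    calc δ * (1 + m * u) ≤ (1 - u) ^ m * (1 + u) ^ m := by
          apply mul_le_mul h h1 (by positivity) (le_trans hδ.le h)
      _ ≤ 1 := h2
  rw [le_div_iff₀ hδ]
  nlinarith

/-- two-step summation over scales -/
theorem top_scale (a : ℕ → ℝ) (P : ℕ → Prop) (ε c : ℝ) (hε : 0 ≤ ε) (hc : 0 ≤ c) (J : ℕ)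
    (h1 : ∀ i < J, -1 ≤ a i) (h2 : ∀ i < J, ¬ P i → -ε ≤ a i)
    (h3 : ∀ j < J, P j → -(c + ε * j) ≤ ∑ i ∈ range j, a i) :
    ∀ j ≤ J, -(c + 1 + ε * j) ≤ ∑ i ∈ range j, a i := by
  intro j
  induction j with
  | zero => intro _; simp; linarith
  | succ j ih =>
    intro hj
    rw [Finset.sum_range_succ]
    push_cast
    by_cases hP : P j
    · have := h3 j (by omega) hP
      have := h1 j (by omega)
      nlinarith
    · have := h2 j (by omega) hP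
      have := ih (by omega)
      nlinarith

end Pool.Agent.J4.H79.HS
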