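import Pool.Agent.J4.H79.HS.P3a

namespace Pool.Agent.J4.H79.HS

open Finset

theorem nn_scale (E : ℕ) (hE : 1 ≤ E) (qi qj m h t Q Si : ℕ) (hh : 1 ≤ h) (hdvd : h ∣ m)
    (hq : qi = qj * m) (ht : t ≤ Si) (hm : m ≤ Q) (x y : ℝ)
    (hx : nn (h * ((qj : ℝ) ^ E * x)) ≤ y) :
    nn (((qi * t : ℕ) : ℝ) ^ E * x) ≤ ((Q : ℝ) * Si) ^ E * y := by
  obtain ⟨k, hk⟩ := hdvd
  have h1 : ((qi * t : ℕ) : ℝ) ^ E * x =
      ((k * m ^ (E - 1) * t ^ E : ℕ) : ℝ) * (h * ((qj : ℝ) ^ E * x)) := by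
    have hm' : ((m : ℝ)) ^ E = (h * k) * (m : ℝ) ^ (E - 1) := by
      obtain ⟨E', rfl⟩ : ∃ E', E = E' + 1 := ⟨E - 1, by omega⟩
      rw [Nat.add_sub_cancel, pow_succ, mul_comm]
      congr 1
      rw [hk]; push_cast; ring
    rw [hq]
    push_cast
    rw [mul_pow, mul_pow, hm']
    ring
  have hy0 : 0 ≤ y := le_trans (nn_nonneg _) hx
  rw [h1]
  refine (nn_nat_mul _ _).trans ?_
  have h2 : k * m ^ (E - 1) * t ^ E ≤ (Q * Si) ^ E := by
    have hkm : k ≤ m := by rw [hk]; exact Nat.le_mul_of_pos_left _ hh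
    calc k * m ^ (E - 1) * t ^ E ≤ m * m ^ (E - 1) * t ^ E := by gcongr
      _ = m ^ E * t ^ E := by
          obtain ⟨E', rfl⟩ : ∃ E', E = E' + 1 := ⟨E - 1, by omega⟩
          rw [Nat.add_sub_cancel, pow_succ m, mul_comm m]
      _ ≤ Q ^ E * Si ^ E := by gcongr
      _ = (Q * Si) ^ E := by rw [mul_pow]
  have h3 : ((k * m ^ (E - 1) * t ^ E : ℕ) : ℝ) ≤ ((Q : ℝ) * Si) ^ E := by
    have : ((k * m ^ (E - 1) * t ^ E : ℕ) : ℝ) ≤ (((Q * Si) ^ E : ℕ) : ℝ) := by exact_mod_cast h2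
    refine this.trans (le_of_eq ?_)
    push_cast; ring
  calc ((k * m ^ (E - 1) * t ^ E : ℕ) : ℝ) * nn (h * ((qj : ℝ) ^ E * x))
      ≤ ((Q : ℝ) * Si) ^ E * y := by
        apply mul_le_mul h3 hx (nn_nonneg _) (by positivity)

/-- the sequence of scales -/
def sc (W D : ℕ) : ℕ → ℕ
  | 0 => 1
  | i + 1 => W * sc W D i ^ (D + 1)

theorem sc_pos (W D : ℕ) (hW : 0 < W) : ∀ i, 0 < sc W D i
  | 0 => Nat.one_pos
  | i + 1 => Nat.mul_pos hW (Nat.pow_pos (sc_pos W D hW i))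

theorem sc_succ_le (W D : ℕ) (hW : 0 < W) (i : ℕ) : sc W D i ≤ sc W D (i + 1) := by
  have h1 := sc_pos W D hW i
  calc sc W D i = sc W D i ^ 1 := (pow_one _).symm
    _ ≤ sc W D i ^ (D + 1) := Nat.pow_le_pow_right h1 (by omega)
    _ ≤ W * sc W D i ^ (D + 1) := Nat.le_mul_of_pos_left _ hW

theorem sc_lt (W D : ℕ) (hW : 0 < W) (i j : ℕ) (hij : i < j) :
    W * sc W D i ^ (D + 1) ≤ sc W D j := by
  have hmono : Monotone (sc W D) := monotone_nat_of_le_succ (sc_succ_le W D hW)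
  exact hmono (Nat.succ_le_of_lt hij)

theorem re_e_nonneg (x : ℝ) (h : nn x ≤ 1 / 7) : 0 ≤ (e x).re := by
  have h1 := norm_e_sub_one_le x
  have h2 : ‖e x - 1‖ ≤ 1 := by
    refine h1.trans ?_
    have h3 := Real.pi_lt_d2
    have h4 : 0 ≤ nn x := nn_nonneg x
    nlinarith [Real.pi_pos]
  have h3 := Complex.abs_re_le_norm (e x - 1)
  have h4 := abs_le.1 (h3.trans h2)
  simp only [Complex.sub_re, Complex.one_re] at h4
  linarith [h4.1]

theorem scale_inner (D : ℕ) (ε : ℝ) (hε : 0 < ε) (C₂ : ℕ)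
    (hW : ∀ (S : ℕ) (p : Polynomial ℝ), 0 < S → p.natDegree ≤ D + 1 →
      ε * S ≤ ‖∑ s ∈ Finset.range S, e (p.eval (s : ℝ))‖ →
      ∃ h : ℕ, 1 ≤ h ∧ h ≤ C₂ ∧ nn (h * p.coeff (D + 1)) ≤ C₂ / S)
    (J : ℕ) (S q : ℕ → ℕ) (hS : ∀ i, 0 < S i) (Q : ℕ)
    (hq : ∀ i j, i < j → j < J → ∃ m, q i = q j * m ∧ m ≤ Q ∧ ∀ h, 1 ≤ h → h ≤ C₂ → h ∣ m)
    (hsep : ∀ i j, i < j → j < J → 7 * ((Q : ℝ) * S i) ^ (D + 1) * C₂ ≤ S j) (α : ℝ) :
    ∀ j ≤ J, -(1 + ε * j) ≤ ∑ i ∈ range j,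
      ((∑ s ∈ range (S i), e (((q i * (s + 1) : ℕ) : ℝ) ^ (D + 1) * α)) / (S i : ℂ)).re := by
  set w : ℕ → ℂ := fun i =>
    (∑ s ∈ range (S i), e (((q i * (s + 1) : ℕ) : ℝ) ^ (D + 1) * α)) / (S i : ℂ) with hw
  have hSr : ∀ i, (0 : ℝ) < S i := fun i => by exact_mod_cast hS i
  have hnorm : ∀ i, ‖w i‖ ≤ 1 := by
    intro i
    rw [hw]
    simp only [norm_div, Complex.norm_natCast]
    rw [div_le_one (hSr i)]
    refine (norm_sum_le _ _).trans ?_
    simp [norm_e]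
  have h := top_scale (fun i => (w i).re) (fun i => ε ≤ ‖w i‖) ε 0 hε.le le_rfl J ?_ ?_ ?_
  · intro j hj
    have := h j hj
    rw [zero_add] at this
    exact this
  · intro i _
    have h1 := Complex.abs_re_le_norm (w i)
    exact (abs_le.1 (h1.trans (hnorm i))).1
  · intro i _ hi
    have h1 := Complex.abs_re_le_norm (w i)
    push Not at hi
    exact (abs_le.1 (h1.trans hi.le)).1
  · intro j hj hP
    have hpos : 0 ≤ ∑ i ∈ range j, (w i).re := by
      -- apply the inverse theorem at scale j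
      set p : Polynomial ℝ := Polynomial.C ((q j : ℝ) ^ (D + 1) * α) *
        (Polynomial.X + Polynomial.C 1) ^ (D + 1) with hp
      have hpe : ∀ s : ℝ, p.eval s = ((q j : ℝ) * (s + 1)) ^ (D + 1) * α := by
        intro s
        rw [hp, Polynomial.eval_mul, Polynomial.eval_C, Polynomial.eval_pow, Polynomial.eval_add,
          Polynomial.eval_X, Polynomial.eval_C, mul_pow]
        ring
      have hpd : p.natDegree ≤ D + 1 := by
        rw [hp]
        refine (Polynomial.natDegree_C_mul_le _ _).trans ?_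
        refine Polynomial.natDegree_pow_le.trans ?_
        rw [Polynomial.natDegree_X_add_C, mul_one]
      have hpc : p.coeff (D + 1) = (q j : ℝ) ^ (D + 1) * α := by
        rw [hp, Polynomial.coeff_C_mul]
        have : ((Polynomial.X + Polynomial.C (1 : ℝ)) ^ (D + 1)).coeff (D + 1) = 1 := by
          rw [Polynomial.coeff_X_add_C_pow]; simp
        rw [this, mul_one]
      have hlarge : ε * S j ≤ ‖∑ s ∈ range (S j), e (p.eval (s : ℝ))‖ := by
        have h2 : ‖∑ s ∈ range (S j), e (p.eval (s : ℝ))‖ = ‖w j‖ * S j := by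
          rw [hw]
          simp only [norm_div, Complex.norm_natCast]
          rw [div_mul_cancel₀ _ (hSr j).ne']
          congr 1
          refine Finset.sum_congr rfl fun s _ => ?_
          rw [hpe]; push_cast; rfl
        rw [h2]
        exact mul_le_mul_of_nonneg_right hP (hSr j).le
      obtain ⟨h, hh1, hh2, hh3⟩ := hW (S j) p (hS j) hpd hlarge
      rw [hpc] at hh3
      refine Finset.sum_nonneg fun i hi => ?_
      rw [Finset.mem_range] at hi
      obtain ⟨m, hm1, hm2, hm3⟩ := hq i j hi hj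
      have h4 : ∀ s ∈ range (S i), 0 ≤ (e (((q i * (s + 1) : ℕ) : ℝ) ^ (D + 1) * α)).re := by
        intro s hs
        apply re_e_nonneg
        refine (nn_scale (D + 1) (by omega) (q i) (q j) m h (s + 1) Q (S i) hh1
          (hm3 h hh1 hh2) hm1 (Finset.mem_range.1 hs) hm2 α (C₂ / S j) hh3).trans ?_
        rw [← mul_div_assoc, div_le_iff₀ (hSr j)]
        have := hsep i j hi hj
        nlinarith
      have h5 : (w i).re = (∑ s ∈ range (S i), (e (((q i * (s + 1) : ℕ) : ℝ) ^ (D + 1) * α)).re) / S i := by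
        rw [hw]
        simp only
        rw [← Complex.ofReal_natCast, Complex.div_ofReal_re, Complex.re_sum]
      show 0 ≤ (w i).re
      rw [h5]
      exact div_nonneg (Finset.sum_nonneg h4) (hSr i).le
    have : 0 ≤ ε * j := by positivity
    linarith

end Pool.Agent.J4.H79.HS
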