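import Pool.Agent.J4.H79.HS.P3b

namespace Pool.Agent.J4.H79.HS

open Finset

theorem good_steps (S q : ℕ) (hS : 0 < S) (hq : 0 < q) (ε : ℝ) (hε : 0 < ε) (f : ℕ → ℂ)
    (hf : ∀ s, ‖f s‖ ≤ 1) (h : ε * S ≤ ‖∑ s ∈ range S, f s ^ (q * (s + 1))‖) :
    ∃ G : Finset ℕ, G ⊆ range S ∧ ε / 4 * S ≤ G.card ∧
      ∀ s ∈ G, 1 - ‖f s‖ ^ 2 ≤ 16 / (ε ^ 2 * S) := by
  have hSp : (0 : ℝ) < S := by exact_mod_cast hS
  refine ⟨(range S).filter (fun s => ε / 2 ≤ ‖f s‖ ^ (q * (s + 1)) ∧ ε / 4 * S ≤ (s : ℝ) + 1),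
    Finset.filter_subset _ _, ?_, ?_⟩
  · set G := (range S).filter (fun s => ε / 2 ≤ ‖f s‖ ^ (q * (s + 1)) ∧ ε / 4 * S ≤ (s : ℝ) + 1)
      with hG
    set L := (range S).filter (fun s : ℕ => (s : ℝ) + 1 < ε / 4 * S) with hL
    have hLc : (L.card : ℝ) ≤ ε / 4 * S := by
      have h1 : L ⊆ range ⌊ε / 4 * S⌋₊ := by
        intro s hs
        rw [hL, Finset.mem_filter] at hs
        rw [Finset.mem_range]
        have h2 : ((s + 1 : ℕ) : ℝ) ≤ ε / 4 * S := by push_cast; exact hs.2.le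
        have h3 := Nat.le_floor h2
        omega
      have h2 : (L.card : ℝ) ≤ (⌊ε / 4 * S⌋₊ : ℝ) := by
        have := Finset.card_le_card h1
        rw [Finset.card_range] at this
        exact_mod_cast this
      exact h2.trans (Nat.floor_le (by positivity))
    have h1 : ε * S ≤ G.card + L.card + ε / 2 * S := by
      calc ε * S ≤ ‖∑ s ∈ range S, f s ^ (q * (s + 1))‖ := h
        _ ≤ ∑ s ∈ range S, ‖f s ^ (q * (s + 1))‖ := norm_sum_le _ _
        _ ≤ ∑ s ∈ range S, ((if s ∈ G then (1 : ℝ) else 0) + (if s ∈ L then (1 : ℝ) else 0)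
              + ε / 2) := by
            refine Finset.sum_le_sum fun s hs => ?_
            rw [norm_pow]
            have hle1 : ‖f s‖ ^ (q * (s + 1)) ≤ 1 := pow_le_one₀ (norm_nonneg _) (hf s)
            by_cases hsG : s ∈ G
            · rw [if_pos hsG]
              have : (0 : ℝ) ≤ if s ∈ L then (1 : ℝ) else 0 := by split_ifs <;> norm_num
              linarith
            · rw [if_neg hsG]
              by_cases hsL : s ∈ L
              · rw [if_pos hsL]; linarith
              · rw [if_neg hsL]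
                rw [hG, Finset.mem_filter] at hsG
                rw [hL, Finset.mem_filter] at hsL
                push Not at hsG hsL
                have h2 := hsL hs
                by_contra hcon
                push Not at hcon
                have h3 := hsG hs (by linarith)
                linarith
        _ = G.card + L.card + ε / 2 * S := by
            rw [Finset.sum_add_distrib, Finset.sum_add_distrib, Finset.sum_ite_mem,
              Finset.sum_ite_mem, Finset.inter_eq_right.2 (Finset.filter_subset _ _),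
              Finset.inter_eq_right.2 (Finset.filter_subset _ _)]
            simp
            ring
    linarith
  · intro s hs
    rw [Finset.mem_filter] at hs
    obtain ⟨-, hs1, hs2⟩ := hs
    set u := 1 - ‖f s‖ with hu
    have hu0 : 0 ≤ u := by have := hf s; linarith
    have hu1 : u ≤ 1 := by have := norm_nonneg (f s); linarith
    have h1 := small_defect u (ε / 2) (q * (s + 1)) hu0 hu1 (by positivity)
      (by rw [hu, sub_sub_cancel]; exact hs1)
    have h2 : ε / 4 * S ≤ ((q * (s + 1) : ℕ) : ℝ) := by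
      refine hs2.trans ?_
      push_cast
      have : (1 : ℝ) ≤ q := by exact_mod_cast hq
      nlinarith [(Nat.cast_nonneg s : (0 : ℝ) ≤ s)]
    have h3 : ε / 4 * S * u ≤ 1 / (ε / 2) := (mul_le_mul_of_nonneg_right h2 hu0).trans h1
    have h4 : ‖f s‖ = 1 - u := by rw [hu]; ring
    have h5 : u ≤ 8 / (ε ^ 2 * S) := by
      rw [le_div_iff₀ (by positivity)]
      rw [le_div_iff₀ (by positivity)] at h3
      nlinarith
    have h6 : 1 - ‖f s‖ ^ 2 ≤ 2 * u := by rw [h4]; nlinarith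
    calc 1 - ‖f s‖ ^ 2 ≤ 2 * u := h6
      _ ≤ 2 * (8 / (ε ^ 2 * S)) := by linarith
      _ = 16 / (ε ^ 2 * S) := by ring

theorem scale_sum (D : ℕ) (hD : 1 ≤ D) (ε : ℝ) (hε : 0 < ε) :
    ∃ (J : ℕ) (S q : ℕ → ℕ), 0 < J ∧ (∀ i, 0 < S i) ∧ (∀ i, 0 < q i) ∧
      ∀ (n : ℕ), 0 < n → ∀ θ : Fin n → ℝ,
        -(3 * ε) * J ≤ ∑ i ∈ range J,
          ((∑ s ∈ range (S i), phi D (q i * (s + 1)) θ ^ (q i * (s + 1))) / (S i : ℂ)).re := by
  obtain ⟨c₁, C₁, hc₁, hC₁, hret⟩ := dense_return D hD (ε / 4) (by positivity)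
  obtain ⟨C₂, hC₂, hW⟩ := weyl_inverse (D + 1) (by omega) ε hε
  obtain ⟨J, hJ⟩ := exists_nat_gt (2 / ε)
  have hJ0 : 0 < J := by
    have : (0 : ℝ) < J := lt_trans (by positivity) hJ
    exact_mod_cast this
  set B := (C₁ + C₂).factorial with hB
  have hB0 : 0 < B := Nat.factorial_pos _
  set Q := B ^ J with hQ
  have hQ0 : 0 < Q := Nat.pow_pos hB0
  set K : ℝ := (Q : ℝ) ^ (D + 1) * (32 / (ε ^ 2 * c₁) + 7 * C₁) / ε + 7 * (Q : ℝ) ^ (D + 1) * C₂ with hK
  obtain ⟨W, hWK⟩ := exists_nat_gt K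
  have hK0 : 0 < K := by positivity
  have hW0 : 0 < W := by
    have : (0 : ℝ) < W := lt_trans hK0 hWK
    exact_mod_cast this
  set S := sc W D with hSdef
  set q : ℕ → ℕ := fun i => B ^ (J - i) with hqdef
  have hS0 : ∀ i, 0 < S i := sc_pos W D hW0
  have hSr : ∀ i, (0 : ℝ) < S i := fun i => by exact_mod_cast hS0 i
  have hq0 : ∀ i, 0 < q i := fun i => Nat.pow_pos hB0
  have hqQ : ∀ i, q i ≤ Q := fun i => Nat.pow_le_pow_right hB0 (by omega)
  have hsep0 : ∀ i j, i < j → K * (S i : ℝ) ^ (D + 1) ≤ S j := by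
    intro i j hij
    have h1 : ((W * S i ^ (D + 1) : ℕ) : ℝ) ≤ S j := by exact_mod_cast sc_lt W D hW0 i j hij
    refine le_trans ?_ h1
    push_cast
    gcongr
  have hqq : ∀ i j, i < j → j < J → ∃ m, q i = q j * m ∧ m ≤ Q ∧
      ∀ h, 1 ≤ h → h ≤ C₁ + C₂ → h ∣ m := by
    intro i j hij hj
    refine ⟨B ^ (j - i), ?_, Nat.pow_le_pow_right hB0 (by omega), ?_⟩
    · rw [hqdef]; simp only
      rw [← pow_add]; congr 1; omega
    · intro h hh1 hh2
      exact (Nat.dvd_factorial hh1 hh2).trans (dvd_pow_self _ (by omega))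
  refine ⟨J, S, q, hJ0, hS0, hq0, ?_⟩
  intro n hn θ
  have hsepC : ∀ i j, i < j → j < J → 7 * ((Q : ℝ) * S i) ^ (D + 1) * C₂ ≤ S j := by
    intro i j hij _
    refine le_trans ?_ (hsep0 i j hij)
    rw [hK, add_mul]
    have h1 : 0 ≤ (Q : ℝ) ^ (D + 1) * (32 / (ε ^ 2 * c₁) + 7 * C₁) / ε * (S i : ℝ) ^ (D + 1) := by
      positivity
    rw [mul_pow]
    linarith
  have hinner := fun α => scale_inner D ε hε C₂ hW J S q hS0 Q
    (fun i j hij hj => by
      obtain ⟨m, h1, h2, h3⟩ := hqq i j hij hj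
      exact ⟨m, h1, h2, fun h hh1 hh2 => h3 h hh1 (by omega)⟩) hsepC α
  set av : ℕ → ℂ := fun i =>
    (∑ s ∈ range (S i), phi D (q i * (s + 1)) θ ^ (q i * (s + 1))) / (S i : ℂ) with hav
  have hnorm : ∀ i, ‖av i‖ ≤ 1 := by
    intro i
    rw [hav]
    simp only [norm_div, Complex.norm_natCast]
    rw [div_le_one (hSr i)]
    calc ‖∑ s ∈ range (S i), phi D (q i * (s + 1)) θ ^ (q i * (s + 1))‖
        ≤ ∑ s ∈ range (S i), ‖phi D (q i * (s + 1)) θ ^ (q i * (s + 1))‖ := norm_sum_le _ _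
      _ ≤ ∑ s ∈ range (S i), (1 : ℝ) := by
          refine Finset.sum_le_sum fun s _ => ?_
          rw [norm_pow]
          exact pow_le_one₀ (norm_nonneg _) (norm_phi_le _ _ _)
      _ = S i := by simp
  have hmain := top_scale (fun i => (av i).re) (fun i => ε ≤ ‖av i‖) (2 * ε) 1 (by positivity)
    zero_le_one J ?_ ?_ ?_
  · have h1 := hmain J le_rfl
    have h2 : 2 ≤ ε * J := by
      rw [div_lt_iff₀ hε] at hJ; linarith
    show -(3 * ε) * J ≤ ∑ i ∈ range J, (av i).re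
    linarith
  · intro i _
    have h1 := Complex.abs_re_le_norm (av i)
    exact (abs_le.1 (h1.trans (hnorm i))).1
  · intro i _ hi
    have h1 := Complex.abs_re_le_norm (av i)
    push Not at hi
    have := (abs_le.1 (h1.trans hi.le)).1
    linarith
  · intro j hj hP
    have hlarge : ε * S j ≤ ‖∑ s ∈ range (S j), phi D (q j * (s + 1)) θ ^ (q j * (s + 1))‖ := by
      have h2 : ‖∑ s ∈ range (S j), phi D (q j * (s + 1)) θ ^ (q j * (s + 1))‖ = ‖av j‖ * S j := by
        rw [hav]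
        simp only [norm_div, Complex.norm_natCast]
        rw [div_mul_cancel₀ _ (hSr j).ne']
      rw [h2]
      exact mul_le_mul_of_nonneg_right hP (hSr j).le
    obtain ⟨G, hG1, hG2, hG3⟩ := good_steps (S j) (q j) (hS0 j) (hq0 j) ε hε
      (fun s => phi D (q j * (s + 1)) θ) (fun s => norm_phi_le _ _ _) hlarge
    obtain ⟨x₀, Bd, hBd, hx₀⟩ := exists_base hn D (ε / 4) c₁ C₁ (by positivity) hc₁ hret θ (S j)
      (hS0 j) (q j) G hG1 hG2 _ hG3
    have hin := hinner (θ x₀) j hj.le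
    have hclose : ∀ i ∈ range j, ((∑ s ∈ range (S i),
        e (((q i * (s + 1) : ℕ) : ℝ) ^ (D + 1) * θ x₀)) / (S i : ℂ)).re - ε ≤ (av i).re := by
      intro i hi
      rw [Finset.mem_range] at hi
      obtain ⟨m, hm1, hm2, hm3⟩ := hqq i j hi hj
      have hterm : ∀ s ∈ range (S i), ‖e (((q i * (s + 1) : ℕ) : ℝ) ^ (D + 1) * θ x₀) -
          phi D (q i * (s + 1)) θ ^ (q i * (s + 1))‖ ≤ ε := by
        intro s hs
        rw [norm_sub_rev]
        have h1 := phi_close hn D (q i * (s + 1)) θ x₀ Bd (16 / (ε ^ 2 * S j) / c₁)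
          (((Q : ℝ) * S i) ^ D * (C₁ / S j)) (by positivity) hBd ?_
        · refine h1.trans ?_
          have hr : ((q i * (s + 1) : ℕ) : ℝ) ≤ (Q : ℝ) * S i := by
            have : q i * (s + 1) ≤ Q * S i := Nat.mul_le_mul (hqQ i) (Finset.mem_range.1 hs)
            exact_mod_cast this
          have hQS1 : (1 : ℝ) ≤ (Q : ℝ) * S i := by
            have : 1 ≤ Q * S i := Nat.mul_pos hQ0 (hS0 i)
            exact_mod_cast this
          have hpi : 2 * Real.pi ≤ 7 := by linarith [Real.pi_lt_d2]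
          have hpow1 : (1 : ℝ) ≤ ((Q : ℝ) * S i) ^ D := one_le_pow₀ hQS1
          have h2 : 2 * (16 / (ε ^ 2 * S j) / c₁) + 2 * Real.pi * (((Q : ℝ) * S i) ^ D * (C₁ / S j))
              ≤ ((Q : ℝ) * S i) ^ D * (32 / (ε ^ 2 * c₁) + 7 * C₁) / S j := by
            have e1 : 2 * (16 / (ε ^ 2 * S j) / c₁) = 1 * (32 / (ε ^ 2 * c₁) / S j) := by
              field_simp; norm_num
            have e2 : ((Q : ℝ) * S i) ^ D * (32 / (ε ^ 2 * c₁) + 7 * C₁) / S j =
                ((Q : ℝ) * S i) ^ D * (32 / (ε ^ 2 * c₁) / S j) +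
                7 * (((Q : ℝ) * S i) ^ D * (C₁ / S j)) := by ring
            rw [e1, e2]
            gcongr
          have h3 : ((Q : ℝ) * S i) ^ (D + 1) * (32 / (ε ^ 2 * c₁) + 7 * C₁) ≤ ε * S j := by
            have h4 := hsep0 i j hi
            rw [hK, add_mul] at h4
            have h5 : 0 ≤ 7 * (Q : ℝ) ^ (D + 1) * C₂ * (S i : ℝ) ^ (D + 1) := by positivity
            have h6 : (Q : ℝ) ^ (D + 1) * (32 / (ε ^ 2 * c₁) + 7 * C₁) / ε * (S i : ℝ) ^ (D + 1)
                ≤ S j := by linarith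
            rw [div_mul_eq_mul_div, div_le_iff₀ hε] at h6
            rw [mul_pow]
            linarith
          calc ((q i * (s + 1) : ℕ) : ℝ) * (2 * (16 / (ε ^ 2 * S j) / c₁) +
                2 * Real.pi * (((Q : ℝ) * S i) ^ D * (C₁ / S j)))
              ≤ ((Q : ℝ) * S i) * (((Q : ℝ) * S i) ^ D * (32 / (ε ^ 2 * c₁) + 7 * C₁) / S j) := by
                apply mul_le_mul hr h2 (by positivity) (by positivity)
            _ = ((Q : ℝ) * S i) ^ (D + 1) * (32 / (ε ^ 2 * c₁) + 7 * C₁) / S j := by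
                rw [pow_succ]; ring
            _ ≤ ε := by rw [div_le_iff₀ (hSr j)]; exact h3
        · intro y hy
          obtain ⟨h, hh1, hh2, hh3⟩ := hx₀ y hy
          exact nn_scale D hD (q i) (q j) m h (s + 1) Q (S i) hh1
            (hm3 h hh1 (by omega)) hm1 (Finset.mem_range.1 hs) hm2 _ _ hh3
      have hdiff : ‖(∑ s ∈ range (S i),
          e (((q i * (s + 1) : ℕ) : ℝ) ^ (D + 1) * θ x₀)) / (S i : ℂ) - av i‖ ≤ ε := by
        rw [hav]
        simp only
        rw [← sub_div, ← Finset.sum_sub_distrib, norm_div, Complex.norm_natCast,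
          div_le_iff₀ (hSr i)]
        calc ‖∑ s ∈ range (S i), (e (((q i * (s + 1) : ℕ) : ℝ) ^ (D + 1) * θ x₀) -
              phi D (q i * (s + 1)) θ ^ (q i * (s + 1)))‖
            ≤ ∑ s ∈ range (S i), ‖e (((q i * (s + 1) : ℕ) : ℝ) ^ (D + 1) * θ x₀) -
              phi D (q i * (s + 1)) θ ^ (q i * (s + 1))‖ := norm_sum_le _ _
          _ ≤ ∑ s ∈ range (S i), ε := Finset.sum_le_sum hterm
          _ = ε * S i := by simp; ring
      have h1 := (abs_le.1 ((Complex.abs_re_le_norm _).trans hdiff)).2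
      rw [Complex.sub_re] at h1
      linarith
    have hsum := Finset.sum_le_sum hclose
    rw [Finset.sum_sub_distrib] at hsum
    simp only [Finset.sum_const, Finset.card_range, nsmul_eq_mul] at hsum
    show -(1 + 2 * ε * (j : ℝ)) ≤ ∑ i ∈ range j, (av i).re
    linarith

end Pool.Agent.J4.H79.HS
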