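import Pool.Agent.J4.H79.HS.Z0

/-!
Block structured sets: every cell `c` of `A ⊆ [n]^d` is replaced by the product of the blocks
`e (c j, γ)`.
-/

namespace Pool.Agent.J4.H79.HS

open Finset

/-- the embedding of the pairs of cells -/
def cellEmb {d n r N : ℕ} (e : Fin n × Fin r ↪ Fin N) :
    (Fin d → Fin n) × (Fin d → Fin r) ↪ (Fin d → Fin N) where
  toFun := fun p j => e (p.1 j, p.2 j)
  inj' := by
    intro p q h
    have h1 : ∀ j, p.1 j = q.1 j ∧ p.2 j = q.2 j := by
      intro j
      have := congrFun h j
      simpa [Prod.ext_iff] using e.injective this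
    exact Prod.ext (funext fun j => (h1 j).1) (funext fun j => (h1 j).2)

/-- the block structured set -/
def blk {d n r N : ℕ} (e : Fin n × Fin r ↪ Fin N) (γ : Finset (Fin r))
    (A : Finset (Fin d → Fin n)) : Finset (Fin d → Fin N) :=
  (A ×ˢ cube d γ).map (cellEmb e)

end Pool.Agent.J4.H79.HS
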