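import Pool.Agent.J4.H79.HS.U0
import Pool.Agent.H720R3.Poly
namespace Pool.Agent.J4.H79.HS
open Finset

theorem blocks_return (d n : ℕ) (hd : 1 ≤ d) (G : Type) [AddCommGroup G] [Fintype G] :
    ∃ r : ℕ, ∀ g : (Fin d → Fin n) → (Fin d → Fin r) → G,
      ∃ γ : Finset (Fin r), γ.Nonempty ∧ ∀ c₀ : Fin d → Fin n, ∑ c ∈ cube d γ, g c₀ c = 0 := by
  classical
  obtain ⟨r, hr⟩ := Pool.Agent.H720R3.exists_return d ((Fin d → Fin n) → G)
  refine ⟨r, fun g => ?_⟩
  obtain ⟨γ, _, hne, he⟩ := hr (Fin r) univ (fun γ c₀ => ∑ c ∈ cube d γ, g c₀ c) (by simp) (by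
    refine Pool.Agent.H720R3.Deg.pi (ψ := fun c₀ γ => ∑ c ∈ cube d γ, g c₀ c) fun c₀ => ?_
    refine Pool.Agent.H720R3.deg_of_sum (univ : Finset (Fin d → Fin r)) (fun c => univ.image c)
      (g c₀) ?_ _ _ ?_
    · intro c _
      exact Finset.card_image_le.trans (by simp)
    · intro γ _
      rw [← Finset.sum_filter]
      refine Finset.sum_congr ?_ fun _ _ => rfl
      ext c
      simp only [cube, Fintype.mem_piFinset, Finset.mem_filter, Finset.mem_univ, true_and]
      constructor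
      · intro h x hx
        obtain ⟨j, _, rfl⟩ := Finset.mem_image.1 hx
        exact h j
      · intro h j
        exact h (Finset.mem_image_of_mem c (Finset.mem_univ j)))
  refine ⟨γ, hne, fun c₀ => ?_⟩
  have h1 : ∑ c ∈ cube d γ, g c₀ c = ∑ c ∈ cube d (∅ : Finset (Fin r)), g c₀ c := congrFun he c₀
  rw [h1]
  have h2 : cube d (∅ : Finset (Fin r)) = ∅ := by
    ext c
    simp only [cube, Fintype.mem_piFinset, Finset.notMem_empty, iff_false]
    intro h
    exact h ⟨0, hd⟩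
  rw [h2, Finset.sum_empty]

end Pool.Agent.J4.H79.HS
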