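import Pool.Agent.H720R3.Conc

/-!
# A place with many good patterns
-/

namespace Pool.Agent.J4.H79.HS
open Finset

namespace U2

lemma sqrt_bd {μ δ : ℝ} (hδ : 0 < δ) (h : 4 / δ ^ 2 ≤ μ) : Real.sqrt μ ≤ μ * (δ / 2) := by
  have hμ : 0 ≤ μ := le_trans (by positivity) h
  have h1 : 2 / δ ≤ Real.sqrt μ := by
    apply Real.le_sqrt_of_sq_le
    rw [div_pow]
    calc (2 : ℝ) ^ 2 / δ ^ 2 = 4 / δ ^ 2 := by norm_num
      _ ≤ μ := h
  have h2 : 1 ≤ Real.sqrt μ * (δ / 2) := by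
    rw [div_le_iff₀ hδ] at h1
    linarith
  calc Real.sqrt μ = Real.sqrt μ * 1 := (mul_one _).symm
    _ ≤ Real.sqrt μ * (Real.sqrt μ * (δ / 2)) :=
        mul_le_mul_of_nonneg_left h2 (Real.sqrt_nonneg _)
    _ = (Real.sqrt μ * Real.sqrt μ) * (δ / 2) := by ring
    _ = μ * (δ / 2) := by rw [Real.mul_self_sqrt hμ]

open Classical in
lemma card_le {E : Type} [Fintype E] [DecidableEq E] (C P : Finset E) (F : Finset (Finset E)) :
    (F.filter (fun A => A ∩ C = P)).card ≤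
      ((Cᶜ).powerset.filter (fun ρ => ρ ∪ P ∈ F)).card := by
  apply card_le_card_of_injOn (fun A => A \ C)
  · intro A hA
    rw [mem_coe, mem_filter] at hA
    rw [mem_coe, mem_filter, mem_powerset]
    constructor
    · intro x hx
      rw [mem_compl]
      exact (mem_sdiff.1 hx).2
    · have e : A \ C ∪ P = A := by
        rw [← hA.2, Finset.sdiff_union_inter]
      show A \ C ∪ P ∈ F
      rw [e]
      exact hA.1
  · intro A hA A' hA' h
    rw [mem_coe, mem_filter] at hA hA'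
    have h' : A \ C = A' \ C := h
    rw [← Finset.sdiff_union_inter A C, ← Finset.sdiff_union_inter A' C, h', hA.2, hA'.2]

end U2

open Classical in
/-- Proof: for every ξ : Ξ apply Pool.Agent.H720R3.conc (starting file; second moment bound) to the prescribed contents
P · ξ, with μ = K / 2^c: ∑ A ∈ F, cnt C (P · ξ) A ≥ μ |F| - sqrt μ 2^|E| ≥ μ |F| / 2 because of hK (sqrt μ ≥ 2 / δ).
Sum over ξ, exchange the sums: there is k with ∑ ξ, #{A ∈ F : A ∩ C k = P k ξ} ≥ |Ξ| |F| / (2 · 2^c) ≥ |Ξ| (δ/2) 2^(|E| - c).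
The sets A with A ∩ C k = P k ξ are ρ ∪ P k ξ with ρ ⊆ univ \ C k, and there are 2^(|E| - c) sets ρ: choose the best ρ. -/
theorem find_place {E Ξ : Type} [Fintype E] [DecidableEq E] [Fintype Ξ] (K c : ℕ) (C : Fin K → Finset E)
    (hC : ∀ k, (C k).card = c) (hdis : ∀ j k, j ≠ k → Disjoint (C j) (C k))
    (P : Fin K → Ξ → Finset E) (hP : ∀ k ξ, P k ξ ⊆ C k) (δ : ℝ) (hδ : 0 < δ)
    (hK : 4 / δ ^ 2 * 2 ^ c ≤ (K : ℝ)) (F : Finset (Finset E))
    (hF : δ * 2 ^ Fintype.card E ≤ (F.card : ℝ)) :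
    ∃ (k : Fin K) (ρ : Finset E), Disjoint ρ (C k) ∧
      δ / 2 * (Fintype.card Ξ : ℝ) ≤ ((univ.filter fun ξ : Ξ => ρ ∪ P k ξ ∈ F).card : ℝ) := by
  have h2c : (0 : ℝ) < 2 ^ c := by positivity
  obtain ⟨μ, hμ⟩ : ∃ μ : ℝ, μ = (K : ℝ) / 2 ^ c := ⟨_, rfl⟩
  have hμ4 : 4 / δ ^ 2 ≤ μ := by
    rw [hμ, le_div_iff₀ h2c]
    exact hK
  have hμ0 : 0 < μ := lt_of_lt_of_le (by positivity) hμ4
  have hK0 : 0 < K := by
    have : (0 : ℝ) < K := lt_of_lt_of_le (by positivity) hK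
    exact_mod_cast this
  have hT : (0 : ℝ) < 2 ^ Fintype.card E := by positivity
  -- one ξ
  have h1 : ∀ ξ : Ξ, μ * F.card / 2 ≤
      ∑ A ∈ F, Pool.Agent.H720R3.cnt C (fun k => P k ξ) A := by
    intro ξ
    have h := Pool.Agent.H720R3.conc C (fun k => P k ξ) (fun k => hP k ξ) hC hdis F
    rw [← hμ] at h
    have hs := U2.sqrt_bd hδ hμ4
    have h3 : Real.sqrt μ * 2 ^ Fintype.card E ≤ μ * F.card / 2 := by
      calc Real.sqrt μ * 2 ^ Fintype.card E ≤ μ * (δ / 2) * 2 ^ Fintype.card E := by gcongr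
        _ = μ / 2 * (δ * 2 ^ Fintype.card E) := by ring
        _ ≤ μ / 2 * F.card := by gcongr
        _ = μ * F.card / 2 := by ring
    linarith
  -- the number of pairs at the place k
  obtain ⟨G, hG⟩ : ∃ G : Fin K → ℝ, G = fun k =>
    ∑ ξ : Ξ, ((F.filter (fun A => A ∩ C k = P k ξ)).card : ℝ) := ⟨_, rfl⟩
  have h2 : (Fintype.card Ξ : ℝ) * (μ * F.card / 2) ≤ ∑ k, G k := by
    have e1 : ∑ k, G k = ∑ ξ : Ξ, ∑ A ∈ F, Pool.Agent.H720R3.cnt C (fun k => P k ξ) A := by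
      rw [hG, sum_comm]
      apply sum_congr rfl
      intro ξ _
      unfold Pool.Agent.H720R3.cnt
      rw [sum_comm]
      apply sum_congr rfl
      intro k _
      rw [Finset.sum_boole]
    rw [e1]
    have e2 : (Fintype.card Ξ : ℝ) * (μ * F.card / 2) = ∑ _ξ : Ξ, (μ * F.card / 2) := by
      rw [sum_const, card_univ, nsmul_eq_mul]
    rw [e2]
    exact sum_le_sum fun ξ _ => h1 ξ
  obtain ⟨k, -, hk⟩ : ∃ k ∈ (univ : Finset (Fin K)),
      (Fintype.card Ξ : ℝ) * F.card / (2 * 2 ^ c) ≤ G k := by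
    apply Finset.exists_le_of_sum_le (f := fun _ : Fin K => (Fintype.card Ξ : ℝ) * F.card / (2 * 2 ^ c))
      (g := G)
    · exact ⟨⟨0, hK0⟩, mem_univ _⟩
    · rw [sum_const, card_univ, Fintype.card_fin, nsmul_eq_mul]
      refine le_trans (le_of_eq ?_) h2
      rw [hμ]
      field_simp
  refine ⟨k, ?_⟩
  -- the best ρ
  have hcE : c ≤ Fintype.card E := by
    rw [← hC k]
    exact card_le_univ _
  have hpow : ((2 : ℝ) ^ (Fintype.card E - c)) * 2 ^ c = 2 ^ Fintype.card E := by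
    rw [← pow_add, Nat.sub_add_cancel hcE]
  obtain ⟨ρ, hρ, hρ2⟩ : ∃ ρ ∈ ((C k)ᶜ).powerset, δ / 2 * (Fintype.card Ξ : ℝ) ≤
      ((univ.filter fun ξ : Ξ => ρ ∪ P k ξ ∈ F).card : ℝ) := by
    apply Finset.exists_le_of_sum_le (f := fun _ : Finset E => δ / 2 * (Fintype.card Ξ : ℝ))
      (g := fun ρ => ((univ.filter fun ξ : Ξ => ρ ∪ P k ξ ∈ F).card : ℝ))
    · exact ⟨∅, by rw [mem_powerset]; exact empty_subset _⟩
    · rw [sum_const, card_powerset, card_compl, hC k, nsmul_eq_mul]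
      have e3 : ∑ ρ ∈ ((C k)ᶜ).powerset, ((univ.filter fun ξ : Ξ => ρ ∪ P k ξ ∈ F).card : ℝ) =
          ∑ ξ : Ξ, ((((C k)ᶜ).powerset.filter (fun ρ => ρ ∪ P k ξ ∈ F)).card : ℝ) := by
        have e4 : ∀ ρ ∈ ((C k)ᶜ).powerset, ((univ.filter fun ξ : Ξ => ρ ∪ P k ξ ∈ F).card : ℝ) =
            ∑ ξ : Ξ, if ρ ∪ P k ξ ∈ F then (1 : ℝ) else 0 := by
          intro ρ _
          rw [Finset.sum_boole]
        rw [sum_congr rfl e4, sum_comm]
        apply sum_congr rfl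
        intro ξ _
        rw [Finset.sum_boole]
      rw [e3]
      have e5 : G k ≤ ∑ ξ : Ξ, ((((C k)ᶜ).powerset.filter (fun ρ => ρ ∪ P k ξ ∈ F)).card : ℝ) := by
        rw [hG]
        apply sum_le_sum
        intro ξ _
        exact_mod_cast U2.card_le (C k) (P k ξ) F
      refine le_trans ?_ (hk.trans e5)
      rw [le_div_iff₀ (by positivity)]
      calc ((2 ^ (Fintype.card E - c) : ℕ) : ℝ) * (δ / 2 * (Fintype.card Ξ : ℝ)) * (2 * 2 ^ c)
          = (((2 : ℝ) ^ (Fintype.card E - c)) * 2 ^ c) * δ * (Fintype.card Ξ : ℝ) := by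
            push_cast
            ring
        _ = (δ * 2 ^ Fintype.card E) * (Fintype.card Ξ : ℝ) := by rw [hpow]; ring
        _ ≤ F.card * (Fintype.card Ξ : ℝ) := by gcongr
        _ = (Fintype.card Ξ : ℝ) * F.card := by ring
  refine ⟨ρ, ?_, hρ2⟩
  rw [mem_powerset] at hρ
  exact le_compl_iff_disjoint_right.1 hρ

end Pool.Agent.J4.H79.HS
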