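import Pool.Agent.H720R3.Conc

/-!
# A place with many good patterns, two families
-/

namespace Pool.Agent.J4.H79.HS
open Finset

namespace U2b

lemma sqrt_bd {μ δ : ℝ} (hδ : 0 < δ) (h : 4 / δ ^ 2 ≤ μ) : Real.sqrt μ ≤ μ * (δ / 2) := by
  have hμ : 0 ≤ μ := le_trans (by positivity) h
  have h1 : 2 / δ ≤ Real.sqrt μ := by
    apply Real.le_sqrt_of_sq_le
    rw [div_pow]
    calc (2 : ℝ) ^ 2 / δ ^ 2 = 4 / δ ^ 2 := by norm_num
      _ ≤ μ := h
  have h2 : 1 ≤ Real.sqrt μ * (δ / 2) := by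
    rw [div_le_iff₀ hδ] at h1
    linarith
  calc Real.sqrt μ = Real.sqrt μ * 1 := (mul_one _).symm
    _ ≤ Real.sqrt μ * (Real.sqrt μ * (δ / 2)) :=
        mul_le_mul_of_nonneg_left h2 (Real.sqrt_nonneg _)
    _ = (Real.sqrt μ * Real.sqrt μ) * (δ / 2) := by ring
    _ = μ * (δ / 2) := by rw [Real.mul_self_sqrt hμ]

open Classical in
lemma card_eq {E : Type} [Fintype E] [DecidableEq E] (C P : Finset E) (hP : P ⊆ C)
    (F : Finset (Finset E)) :
    (F.filter (fun A => A ∩ C = P)).card =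
      ((Cᶜ).powerset.filter (fun ρ => ρ ∪ P ∈ F)).card := by
  refine Finset.card_bij' (fun A _ => A \ C) (fun ρ _ => ρ ∪ P) ?_ ?_ ?_ ?_
  · intro A hA
    rw [mem_filter] at hA
    rw [mem_filter, mem_powerset]
    constructor
    · intro x hx
      rw [mem_compl]
      exact (mem_sdiff.1 hx).2
    · have e : A \ C ∪ P = A := by
        rw [← hA.2, Finset.sdiff_union_inter]
      rw [e]
      exact hA.1
  · intro ρ hρ
    rw [mem_filter, mem_powerset] at hρ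
    rw [mem_filter]
    refine ⟨hρ.2, ?_⟩
    ext x
    rw [mem_inter, mem_union]
    constructor
    · rintro ⟨h | h, h'⟩
      · exact absurd h' (mem_compl.1 (hρ.1 h))
      · exact h
    · intro h
      exact ⟨Or.inr h, hP h⟩
  · intro A hA
    rw [mem_filter] at hA
    show A \ C ∪ P = A
    rw [← hA.2, Finset.sdiff_union_inter]
  · intro ρ hρ
    rw [mem_filter, mem_powerset] at hρ
    show (ρ ∪ P) \ C = ρ
    ext x
    rw [mem_sdiff, mem_union]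
    constructor
    · rintro ⟨h | h, h'⟩
      · exact h
      · exact absurd (hP h) h'
    · intro h
      exact ⟨Or.inl h, mem_compl.1 (hρ.1 h)⟩

open Classical in
/-- the sum over the places and the sum over the patterns -/
lemma swap {E Ξ : Type} [Fintype E] [DecidableEq E] [Fintype Ξ] (C : Finset E) (P : Ξ → Finset E)
    (hP : ∀ ξ, P ξ ⊆ C) (F : Finset (Finset E)) :
    ∑ ρ ∈ (Cᶜ).powerset, ((univ.filter fun ξ : Ξ => ρ ∪ P ξ ∈ F).card : ℝ) =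
      ∑ ξ : Ξ, ((F.filter (fun A => A ∩ C = P ξ)).card : ℝ) := by
  have e4 : ∀ ρ ∈ (Cᶜ).powerset, ((univ.filter fun ξ : Ξ => ρ ∪ P ξ ∈ F).card : ℝ) =
      ∑ ξ : Ξ, if ρ ∪ P ξ ∈ F then (1 : ℝ) else 0 := by
    intro ρ _
    rw [Finset.sum_boole]
  rw [sum_congr rfl e4, sum_comm]
  apply sum_congr rfl
  intro ξ _
  rw [Finset.sum_boole, card_eq C (P ξ) (hP ξ) F]

end U2b

open Classical in
/-- General form of find_place (two families, F₁ compared with p F₂). Proof: μ = K / 2^c. conc for F₁ gives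
∑ A ∈ F₁, cnt ≥ μ |F₁| - sqrt μ W; conc for the complement of F₂ and sum_cnt give ∑ A ∈ F₂, cnt ≤ μ |F₂| + sqrt μ W.
So ∑_{F₁} cnt - p ∑_{F₂} cnt ≥ μ η W - 2 sqrt μ W ≥ μ (η/2) W by hK. Sum over ξ, choose k, then ρ ⊆ univ \ C k
(2^(|E|-c) of them). -/
theorem find_place2 {E Ξ : Type} [Fintype E] [DecidableEq E] [Fintype Ξ] (K c : ℕ) (C : Fin K → Finset E)
    (hC : ∀ k, (C k).card = c) (hdis : ∀ j k, j ≠ k → Disjoint (C j) (C k))
    (P : Fin K → Ξ → Finset E) (hP : ∀ k ξ, P k ξ ⊆ C k) (p η : ℝ) (hp0 : 0 ≤ p) (hp1 : p ≤ 1) (hη : 0 < η)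
    (hK : 16 / η ^ 2 * 2 ^ c ≤ (K : ℝ)) (F₁ F₂ : Finset (Finset E))
    (hF : p * (F₂.card : ℝ) + η * 2 ^ Fintype.card E ≤ (F₁.card : ℝ)) :
    ∃ (k : Fin K) (ρ : Finset E), Disjoint ρ (C k) ∧
      p * ((univ.filter fun ξ : Ξ => ρ ∪ P k ξ ∈ F₂).card : ℝ) + η / 2 * (Fintype.card Ξ : ℝ) ≤
        ((univ.filter fun ξ : Ξ => ρ ∪ P k ξ ∈ F₁).card : ℝ) := by
  have h2c : (0 : ℝ) < 2 ^ c := by positivity
  obtain ⟨μ, hμ⟩ : ∃ μ : ℝ, μ = (K : ℝ) / 2 ^ c := ⟨_, rfl⟩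
  obtain ⟨W, hW⟩ : ∃ W : ℝ, W = 2 ^ Fintype.card E := ⟨_, rfl⟩
  have hW0 : 0 < W := by rw [hW]; positivity
  rw [← hW] at hF
  have hμ4 : 4 / (η / 2) ^ 2 ≤ μ := by
    rw [hμ, le_div_iff₀ h2c]
    refine le_trans (le_of_eq ?_) hK
    field_simp
    norm_num
  have hμ0 : 0 < μ := lt_of_lt_of_le (by positivity) hμ4
  have hK0 : 0 < K := by
    have : (0 : ℝ) < K := lt_of_lt_of_le (by positivity) hK
    exact_mod_cast this
  have hs : Real.sqrt μ ≤ μ * (η / 2 / 2) := U2b.sqrt_bd (by positivity) hμ4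
  -- one ξ
  have h1 : ∀ ξ : Ξ, μ * (η / 2) * W ≤
      ∑ A ∈ F₁, Pool.Agent.H720R3.cnt C (fun k => P k ξ) A -
      p * ∑ A ∈ F₂, Pool.Agent.H720R3.cnt C (fun k => P k ξ) A := by
    intro ξ
    have c1 := Pool.Agent.H720R3.conc C (fun k => P k ξ) (fun k => hP k ξ) hC hdis F₁
    have c2 := Pool.Agent.H720R3.conc C (fun k => P k ξ) (fun k => hP k ξ) hC hdis F₂ᶜ
    have c3 := Pool.Agent.H720R3.sum_cnt C (fun k => P k ξ) (fun k => hP k ξ) hC
    have c4 : ∑ A ∈ F₂, Pool.Agent.H720R3.cnt C (fun k => P k ξ) A +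
        ∑ A ∈ F₂ᶜ, Pool.Agent.H720R3.cnt C (fun k => P k ξ) A =
        ∑ A : Finset E, Pool.Agent.H720R3.cnt C (fun k => P k ξ) A :=
      Finset.sum_add_sum_compl F₂ _
    have c5 : ((F₂ᶜ).card : ℝ) = W - F₂.card := by
      have h := Finset.card_add_card_compl F₂
      rw [Fintype.card_finset] at h
      have h' : ((F₂.card : ℕ) : ℝ) + ((F₂ᶜ).card : ℝ) = W := by
        rw [hW]
        exact_mod_cast h
      linarith
    rw [← hμ, ← hW] at c1 c2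
    rw [← hμ, ← hW] at c3
    rw [c5] at c2
    have c6 : ∑ A ∈ F₂, Pool.Agent.H720R3.cnt C (fun k => P k ξ) A ≤
        μ * F₂.card + Real.sqrt μ * W := by linarith
    have c7 : p * ∑ A ∈ F₂, Pool.Agent.H720R3.cnt C (fun k => P k ξ) A ≤
        p * (μ * F₂.card + Real.sqrt μ * W) := mul_le_mul_of_nonneg_left c6 hp0
    have c8 : p * (Real.sqrt μ * W) ≤ 1 * (Real.sqrt μ * W) :=
      mul_le_mul_of_nonneg_right hp1 (by positivity)
    have c9 : Real.sqrt μ * W ≤ μ * (η / 2 / 2) * W := by gcongr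
    have c10 : μ * (p * F₂.card + η * W) ≤ μ * F₁.card := by gcongr
    linarith
  -- the number of pairs at the place k
  obtain ⟨G, hG⟩ : ∃ G : Finset (Finset E) → Fin K → ℝ, G = fun F k =>
    ∑ ξ : Ξ, ((F.filter (fun A => A ∩ C k = P k ξ)).card : ℝ) := ⟨_, rfl⟩
  have e1 : ∀ F : Finset (Finset E), ∑ k, G F k =
      ∑ ξ : Ξ, ∑ A ∈ F, Pool.Agent.H720R3.cnt C (fun k => P k ξ) A := by
    intro F
    rw [hG, sum_comm]
    apply sum_congr rfl
    intro ξ _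
    unfold Pool.Agent.H720R3.cnt
    rw [sum_comm]
    apply sum_congr rfl
    intro k _
    rw [Finset.sum_boole]
  have h2 : (Fintype.card Ξ : ℝ) * (μ * (η / 2) * W) ≤ ∑ k, (G F₁ k - p * G F₂ k) := by
    rw [sum_sub_distrib, ← mul_sum, e1, e1, mul_sum, ← sum_sub_distrib]
    have e2 : (Fintype.card Ξ : ℝ) * (μ * (η / 2) * W) = ∑ _ξ : Ξ, (μ * (η / 2) * W) := by
      rw [sum_const, card_univ, nsmul_eq_mul]
    rw [e2]
    exact sum_le_sum fun ξ _ => h1 ξ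
  obtain ⟨k, -, hk⟩ : ∃ k ∈ (univ : Finset (Fin K)),
      (Fintype.card Ξ : ℝ) * ((η / 2) * W / 2 ^ c) ≤ G F₁ k - p * G F₂ k := by
    apply Finset.exists_le_of_sum_le
      (f := fun _ : Fin K => (Fintype.card Ξ : ℝ) * ((η / 2) * W / 2 ^ c))
      (g := fun k => G F₁ k - p * G F₂ k)
    · exact ⟨⟨0, hK0⟩, mem_univ _⟩
    · rw [sum_const, card_univ, Fintype.card_fin, nsmul_eq_mul]
      refine le_trans (le_of_eq ?_) h2
      rw [hμ]
      field_simp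
  refine ⟨k, ?_⟩
  -- the best ρ
  have hcE : c ≤ Fintype.card E := by
    rw [← hC k]
    exact card_le_univ _
  have hpow : ((2 : ℝ) ^ (Fintype.card E - c)) * 2 ^ c = W := by
    rw [hW, ← pow_add, Nat.sub_add_cancel hcE]
  obtain ⟨ρ, hρ, hρ2⟩ : ∃ ρ ∈ ((C k)ᶜ).powerset, η / 2 * (Fintype.card Ξ : ℝ) ≤
      ((univ.filter fun ξ : Ξ => ρ ∪ P k ξ ∈ F₁).card : ℝ) -
      p * ((univ.filter fun ξ : Ξ => ρ ∪ P k ξ ∈ F₂).card : ℝ) := by
    apply Finset.exists_le_of_sum_le (f := fun _ : Finset E => η / 2 * (Fintype.card Ξ : ℝ))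
      (g := fun ρ => ((univ.filter fun ξ : Ξ => ρ ∪ P k ξ ∈ F₁).card : ℝ) -
        p * ((univ.filter fun ξ : Ξ => ρ ∪ P k ξ ∈ F₂).card : ℝ))
    · exact ⟨∅, by rw [mem_powerset]; exact empty_subset _⟩
    · rw [sum_const, card_powerset, card_compl, hC k, nsmul_eq_mul, sum_sub_distrib, ← mul_sum,
        U2b.swap (C k) (P k) (hP k) F₁, U2b.swap (C k) (P k) (hP k) F₂]
      have e3 : G F₁ k - p * G F₂ k =
          ∑ ξ : Ξ, ((F₁.filter (fun A => A ∩ C k = P k ξ)).card : ℝ) -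
          p * ∑ ξ : Ξ, ((F₂.filter (fun A => A ∩ C k = P k ξ)).card : ℝ) := by
        rw [hG]
      rw [e3] at hk
      refine le_trans (le_of_eq ?_) hk
      rw [← hpow]
      push_cast
      field_simp
  refine ⟨ρ, ?_, by linarith⟩
  rw [mem_powerset] at hρ
  exact le_compl_iff_disjoint_right.1 hρ

end Pool.Agent.J4.H79.HS
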