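import Pool.Agent.J4.H79.HS.U0

/-!
Line counts of block structured sets.
-/

namespace Pool.Agent.J4.H79.HS

open Finset

/-- the line count of a block structured set is a sum over the inner cells -/
theorem lineCount_blk_eq {d n r N : ℕ} (e : Fin n × Fin r ↪ Fin N) (γ : Finset (Fin r))
    (A : Finset (Fin d → Fin n)) (j : Fin d) (u : Fin d → Fin N) :
    lineCount (blk e γ A) j u =
      ∑ g ∈ cube d γ, (A.filter fun a => ∀ l, l ≠ j → e (a l, g l) = u l).card := by
  unfold lineCount blk
  rw [Finset.filter_map, Finset.card_map, Finset.card_filter, Finset.sum_product_right]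
  refine Finset.sum_congr rfl fun g _ => ?_
  rw [Finset.card_filter]
  rfl

/-- The line counts of the block structured set are determined by those of A: if all u l (l ≠ j) are of the form
e (b l, t l) with t l ∈ γ then lineCount (blk e γ A) j u = γ.card * lineCount A j b (any b j), otherwise it is 0
(blk, cellEmb are in U0.lean, lineCount, cube in Z0/K5). -/
theorem lineCount_blk {d n r N : ℕ} (e : Fin n × Fin r ↪ Fin N) (γ : Finset (Fin r))
    (A B : Finset (Fin d → Fin n)) (h : ∀ j u, lineCount A j u = lineCount B j u) :
    ∀ j u, lineCount (blk e γ A) j u = lineCount (blk e γ B) j u := by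
  intro j u
  rw [lineCount_blk_eq, lineCount_blk_eq]
  refine Finset.sum_congr rfl fun g _ => ?_
  by_cases hb : ∃ b : Fin d → Fin n, ∀ l, l ≠ j → e (b l, g l) = u l
  · obtain ⟨b, hb⟩ := hb
    have key : ∀ S : Finset (Fin d → Fin n),
        (S.filter fun a => ∀ l, l ≠ j → e (a l, g l) = u l).card = lineCount S j b := by
      intro S
      unfold lineCount
      congr 1
      refine Finset.filter_congr fun a _ => ?_
      refine forall_congr' fun l => forall_congr' fun hl => ?_
      rw [← hb l hl]
      constructor
      · intro h1
        have h2 := e.injective h1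
        exact (Prod.ext_iff.mp h2).1
      · intro h1
        rw [h1]
    rw [key A, key B, h j b]
  · have key : ∀ S : Finset (Fin d → Fin n),
        (S.filter fun a => ∀ l, l ≠ j → e (a l, g l) = u l).card = 0 := by
      intro S
      rw [Finset.card_eq_zero, Finset.filter_eq_empty_iff]
      intro a _ ha
      exact hb ⟨a, ha⟩
    rw [key A, key B]

end Pool.Agent.J4.H79.HS
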