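import Pool.Agent.J4.H79.HS.U0

/-!
Elementary facts on block structured sets.
-/

namespace Pool.Agent.J4.H79.HS

open Finset

variable {d n r N : ℕ}

theorem blk_union (e : Fin n × Fin r ↪ Fin N) (γ : Finset (Fin r)) (A B : Finset (Fin d → Fin n)) :
    blk e γ (A ∪ B) = blk e γ A ∪ blk e γ B := by
  unfold blk
  rw [Finset.union_product, Finset.map_union]

theorem blk_disjoint (e : Fin n × Fin r ↪ Fin N) (γ : Finset (Fin r))
    {A B : Finset (Fin d → Fin n)} (h : Disjoint A B) : Disjoint (blk e γ A) (blk e γ B) := by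
  unfold blk
  rw [Finset.disjoint_map, Finset.disjoint_product]
  exact Or.inl h

theorem blk_cube (e : Fin n × Fin r ↪ Fin N) (γ : Finset (Fin r)) (γ' : Finset (Fin n)) :
    blk e γ (cube d γ') = cube d ((γ' ×ˢ γ).map e) := by
  ext x
  simp only [blk, cube, Finset.mem_map, Finset.mem_product, Fintype.mem_piFinset, Prod.exists]
  constructor
  · rintro ⟨a, b, ⟨ha, hb⟩, rfl⟩
    intro j
    exact ⟨a j, b j, ⟨ha j, hb j⟩, rfl⟩
  · intro h
    choose a b hab he using h
    exact ⟨a, b, ⟨fun j => (hab j).1, fun j => (hab j).2⟩, funext he⟩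

theorem sum_blk {G : Type} [AddCommGroup G] (e : Fin n × Fin r ↪ Fin N) (γ : Finset (Fin r))
    (g : (Fin d → Fin N) → G)
    (h : ∀ c₀ : Fin d → Fin n, ∑ c ∈ cube d γ, g (fun j => e (c₀ j, c j)) = 0)
    (A : Finset (Fin d → Fin n)) : ∑ x ∈ blk e γ A, g x = 0 := by
  unfold blk
  rw [Finset.sum_map, Finset.sum_product]
  exact Finset.sum_eq_zero fun c₀ _ => h c₀

theorem blk_subset (e : Fin n × Fin r ↪ Fin N) (γ : Finset (Fin r)) (A : Finset (Fin d → Fin n)) :
    blk e γ A ⊆ cube d (univ.map e) := by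
  intro x hx
  unfold blk at hx
  rw [Finset.mem_map] at hx
  obtain ⟨p, _, rfl⟩ := hx
  rw [cube, Fintype.mem_piFinset]
  intro j
  rw [Finset.mem_map]
  exact ⟨(p.1 j, p.2 j), Finset.mem_univ _, rfl⟩

end Pool.Agent.J4.H79.HS
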