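import Pool.Agent.J4.H79.HS.Z0

/-!
Sums over classes, and the classes given by the line counts and an additive function.
-/

namespace Pool.Agent.J4.H79.HS

open Finset

open Classical in
theorem card_classes {X : Type} [Fintype X] [DecidableEq X] (R : X → X → Prop) (hR : Equivalence R)
    (F S : Finset X) (hF : ∀ A ∈ F, ∀ B, R A B → B ∈ F) :
    ((F.card : ℝ) = ∑ T ∈ F.image (fun A => univ.filter (R A)), (T.card : ℝ)) ∧
    (((S ∩ F).card : ℝ) = ∑ T ∈ F.image (fun A => univ.filter (R A)), ((S ∩ T).card : ℝ)) := by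
  set f : X → Finset X := fun A => univ.filter (R A) with hf
  have key : ∀ A₀ ∈ F, ∀ A, (A ∈ F ∧ f A = f A₀) ↔ R A₀ A := by
    intro A₀ hA₀ A
    constructor
    · rintro ⟨_, h⟩
      have h1 : A ∈ f A := by rw [hf, Finset.mem_filter]; exact ⟨Finset.mem_univ _, hR.refl A⟩
      rw [h, hf, Finset.mem_filter] at h1
      exact h1.2
    · intro h
      refine ⟨hF A₀ hA₀ A h, ?_⟩
      ext B
      rw [hf, Finset.mem_filter, Finset.mem_filter]
      exact ⟨fun h' => ⟨h'.1, hR.trans h h'.2⟩, fun h' => ⟨h'.1, hR.trans (hR.symm h) h'.2⟩⟩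
  constructor
  · have h1 := Finset.card_eq_sum_card_image f F
    rw [h1]
    push_cast
    refine Finset.sum_congr rfl fun T hT => ?_
    obtain ⟨A₀, hA₀, rfl⟩ := Finset.mem_image.1 hT
    congr 2
    ext A
    rw [Finset.mem_filter, key A₀ hA₀ A, hf, Finset.mem_filter]
    exact ⟨fun h => ⟨Finset.mem_univ _, h⟩, fun h => h.2⟩
  · have h1 := Finset.card_eq_sum_card_fiberwise (s := S ∩ F) (t := F.image f) (f := f)
      (fun A hA => Finset.mem_coe.2 (Finset.mem_image_of_mem f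
        (Finset.mem_inter.1 (Finset.mem_coe.1 hA)).2))
    rw [h1]
    push_cast
    refine Finset.sum_congr rfl fun T hT => ?_
    obtain ⟨A₀, hA₀, rfl⟩ := Finset.mem_image.1 hT
    congr 2
    ext A
    have := key A₀ hA₀ A
    simp only [Finset.mem_filter, Finset.mem_inter]
    constructor
    · rintro ⟨⟨h1, h2⟩, h3⟩
      exact ⟨h1, Finset.mem_filter.2 ⟨Finset.mem_univ _, this.1 ⟨h2, h3⟩⟩⟩
    · rintro ⟨h1, h2⟩
      have h3 := this.2 (Finset.mem_filter.1 h2).2
      exact ⟨⟨h1, h3.1⟩, h3.2⟩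

open Classical in
theorem class_sum_ge {X : Type} [Fintype X] [DecidableEq X] (R : X → X → Prop) (hR : Equivalence R)
    (F S : Finset X) (hF : ∀ A ∈ F, ∀ B, R A B → B ∈ F) (p : ℝ)
    (h : ∀ A ∈ F, p * ((univ.filter (R A)).card : ℝ) ≤ ((S.filter (R A)).card : ℝ)) :
    p * (F.card : ℝ) ≤ ((S ∩ F).card : ℝ) := by
  obtain ⟨h1, h2⟩ := card_classes R hR F S hF
  rw [h1, h2, Finset.mul_sum]
  refine Finset.sum_le_sum fun T hT => ?_
  obtain ⟨A₀, hA₀, rfl⟩ := Finset.mem_image.1 hT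
  refine (h A₀ hA₀).trans (le_of_eq ?_)
  congr 2
  ext A
  simp

open Classical in
theorem class_sum_le {X : Type} [Fintype X] [DecidableEq X] (R : X → X → Prop) (hR : Equivalence R)
    (F S : Finset X) (hF : ∀ A ∈ F, ∀ B, R A B → B ∈ F) (p : ℝ)
    (h : ∀ A ∈ F, ((S.filter (R A)).card : ℝ) ≤ p * ((univ.filter (R A)).card : ℝ)) :
    ((S ∩ F).card : ℝ) ≤ p * (F.card : ℝ) := by
  obtain ⟨h1, h2⟩ := card_classes R hR F S hF
  rw [h1, h2, Finset.mul_sum]
  refine Finset.sum_le_sum fun T hT => ?_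
  obtain ⟨A₀, hA₀, rfl⟩ := Finset.mem_image.1 hT
  refine le_trans (le_of_eq ?_) (h A₀ hA₀)
  congr 2
  ext A
  simp

/-- `A` and `B` agree outside `I^d`, have the same number of points on every line and the same sum
of `g`. -/
def SameClass {d N : ℕ} {G : Type} [AddCommGroup G] (I : Finset (Fin N))
    (g : (Fin d → Fin N) → G) (A B : Finset (Fin d → Fin N)) : Prop :=
  A \ cube d I = B \ cube d I ∧ (∀ j u, lineCount A j u = lineCount B j u) ∧
    ∑ c ∈ A, g c = ∑ c ∈ B, g c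

open Classical in
/-- `S` contains at least the proportion `p` of the class of `A`. -/
def MajorityG {d N : ℕ} {G : Type} [AddCommGroup G] (p : ℝ) (I : Finset (Fin N))
    (g : (Fin d → Fin N) → G) (S : Finset (Finset (Fin d → Fin N)))
    (A : Finset (Fin d → Fin N)) : Prop :=
  p * ((univ.filter fun B => SameClass I g A B).card : ℝ) ≤
    ((S.filter fun B => SameClass I g A B).card : ℝ)

theorem sameClass_equiv {d N : ℕ} {G : Type} [AddCommGroup G] (I : Finset (Fin N))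
    (g : (Fin d → Fin N) → G) : Equivalence (SameClass I g) :=
  ⟨fun _ => ⟨rfl, fun _ _ => rfl, rfl⟩,
    fun h => ⟨h.1.symm, fun j u => (h.2.1 j u).symm, h.2.2.symm⟩,
    fun h h' => ⟨h.1.trans h'.1, fun j u => (h.2.1 j u).trans (h'.2.1 j u), h.2.2.trans h'.2.2⟩⟩

theorem sameLines_equiv {d N : ℕ} (I : Finset (Fin N)) :
    Equivalence (SameLines (d := d) I) :=
  ⟨fun _ => ⟨rfl, fun _ _ => rfl⟩,
    fun h => ⟨h.1.symm, fun j u => (h.2 j u).symm⟩,
    fun h h' => ⟨h.1.trans h'.1, fun j u => (h.2 j u).trans (h'.2 j u)⟩⟩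

end Pool.Agent.J4.H79.HS
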