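import Pool.Agent.J4.H79.HS.Final
import Pool.Agent.J4.H79.HS.U1
import Pool.Agent.J4.H79.HS.U2b
import Pool.Agent.J4.H79.HS.U3
import Pool.Agent.J4.H79.HS.U4
import Pool.Agent.J4.H79.HS.U6

/-!
The majority theorem for the classes given by the line counts and an additive function with values
in a finite group.
-/

namespace Pool.Agent.J4.H79.HS

open Finset

open Classical in
theorem majorityG_mono {d N : ℕ} {G : Type} [AddCommGroup G] {p p' : ℝ} (h : p ≤ p')
    (I : Finset (Fin N)) (g : (Fin d → Fin N) → G) (S : Finset (Finset (Fin d → Fin N)))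
    (A : Finset (Fin d → Fin N)) (hA : MajorityG p' I g S A) : MajorityG p I g S A := by
  unfold MajorityG at hA ⊢
  refine le_trans ?_ hA
  gcongr

open Classical in
theorem majorityG_class {d N : ℕ} {G : Type} [AddCommGroup G] {p : ℝ}
    (I : Finset (Fin N)) (g : (Fin d → Fin N) → G) (S : Finset (Finset (Fin d → Fin N)))
    (A B : Finset (Fin d → Fin N)) (hAB : SameClass I g A B) (hA : MajorityG p I g S A) :
    MajorityG p I g S B := by
  have key : ∀ B', SameClass I g B B' ↔ SameClass I g A B' := fun B' =>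
    ⟨fun h => (sameClass_equiv I g).trans hAB h,
      fun h => (sameClass_equiv I g).trans ((sameClass_equiv I g).symm hAB) h⟩
  unfold MajorityG at hA ⊢
  simpa only [key] using hA

open Classical in
theorem majority_class {d N : ℕ} {p : ℝ}
    (I : Finset (Fin N)) (S : Finset (Finset (Fin d → Fin N)))
    (A B : Finset (Fin d → Fin N)) (hAB : SameLines I A B) (hA : Majority p I S A) :
    Majority p I S B := by
  have key : ∀ B', SameLines I B B' ↔ SameLines I A B' := fun B' =>
    ⟨fun h => (sameLines_equiv I).trans hAB h,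
      fun h => (sameLines_equiv I).trans ((sameLines_equiv I).symm hAB) h⟩
  unfold Majority at hA ⊢
  simpa only [key] using hA

open Classical in
/-- many sets have the majority property if the family contains more than half of a union of
classes -/
theorem majority_of_slack {d n : ℕ} (p p' η : ℝ) (hpp : p' ≤ p) (hp' : 0 ≤ p')
    (F' S' : Finset (Finset (Fin d → Fin n)))
    (hF : ∀ A ∈ F', ∀ B, SameLines univ A B → B ∈ F') (hSF : S' ⊆ F')
    (h : p * (F'.card : ℝ) + η ≤ (S'.card : ℝ)) :
    η ≤ ((univ.filter fun A => Majority p' univ S' A).card : ℝ) := by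
  set T : Finset (Finset (Fin d → Fin n)) := univ.filter fun A => Majority p' univ S' A with hT
  have h1 := class_sum_le (SameLines (d := d) (univ : Finset (Fin n))) (sameLines_equiv univ)
    (F' \ T) S' (by
      intro A hA B hAB
      rw [Finset.mem_sdiff] at hA ⊢
      refine ⟨hF A hA.1 B hAB, fun hB => hA.2 ?_⟩
      rw [hT, Finset.mem_filter] at hB ⊢
      exact ⟨Finset.mem_univ _, majority_class univ S' B A ((sameLines_equiv univ).symm hAB) hB.2⟩)
    p' (by
      intro A hA
      rw [Finset.mem_sdiff, hT, Finset.mem_filter] at hA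
      have h2 : ¬ Majority p' univ S' A := fun h => hA.2 ⟨Finset.mem_univ _, h⟩
      unfold Majority at h2
      exact (not_le.1 h2).le)
  have h2 : (S'.card : ℝ) ≤ ((S' ∩ (F' \ T)).card : ℝ) + (T.card : ℝ) := by
    have : S' ⊆ (S' ∩ (F' \ T)) ∪ T := by
      intro A hA
      by_cases hAT : A ∈ T
      · exact Finset.mem_union_right _ hAT
      · exact Finset.mem_union_left _ (Finset.mem_inter.2 ⟨hA, Finset.mem_sdiff.2 ⟨hSF hA, hAT⟩⟩)
    exact_mod_cast (Finset.card_le_card this).trans (Finset.card_union_le _ _)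
  have h3 : p' * ((F' \ T).card : ℝ) ≤ p * (F'.card : ℝ) := by
    have : ((F' \ T).card : ℝ) ≤ (F'.card : ℝ) := by
      exact_mod_cast Finset.card_le_card Finset.sdiff_subset
    have h4 : (0 : ℝ) ≤ ((F' \ T).card : ℝ) := Nat.cast_nonneg _
    nlinarith
  linarith

open Classical in
/-- **Majority theorem with an additive function.** -/
theorem majority_additive (d : ℕ) (hd : 1 ≤ d) (G : Type) [AddCommGroup G] [Fintype G] (ε δ : ℝ)
    (hε : 0 < ε) (hδ : 0 < δ) :
    ∃ n₀ : ℕ, ∀ (N : ℕ) (I : Finset (Fin N)), I.card = n₀ →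
      ∀ (g : (Fin d → Fin N) → G) (S : Finset (Finset (Fin d → Fin N))),
        δ * 2 ^ (N ^ d) ≤ ((univ.filter fun A => MajorityG (1 / 2 + ε) I g S A).card : ℝ) →
          Good S := by
  set ε₁ : ℝ := min ε (1 / 2) with hε₁
  set δ₁ : ℝ := min δ 1 with hδ₁
  have he0 : 0 < ε₁ := by rw [hε₁]; positivity
  have he1 : ε₁ ≤ 1 / 2 := min_le_right _ _
  have he2 : ε₁ ≤ ε := min_le_left _ _
  have hd0 : 0 < δ₁ := by rw [hδ₁]; positivity
  have hd1 : δ₁ ≤ 1 := min_le_right _ _
  have hd2 : δ₁ ≤ δ := min_le_left _ _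
  set η : ℝ := ε₁ * δ₁ / 2 with hη
  have hη0 : 0 < η := by positivity
  have hη1 : η / 2 ≤ 1 := by rw [hη]; nlinarith
  obtain ⟨n, hglob⟩ := majority_global d hd (ε₁ / 4) (η / 2) (by positivity) (by linarith)
    (by positivity) hη1
  obtain ⟨r, hr⟩ := blocks_return d n hd G
  set c : ℕ := (n * r) ^ d with hc
  obtain ⟨K, hK⟩ := exists_nat_ge (16 / η ^ 2 * 2 ^ c)
  refine ⟨K * (n * r), fun N I hI g S hS => ?_⟩
  -- the groups of coordinates
  have hcard : Fintype.card (Fin K × (Fin n × Fin r)) = Fintype.card I := by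
    rw [Fintype.card_prod, Fintype.card_prod, Fintype.card_fin, Fintype.card_fin, Fintype.card_fin,
      Fintype.card_coe, hI]
  set f : Fin K × (Fin n × Fin r) ↪ Fin N :=
    (Fintype.equivOfCardEq hcard).toEmbedding.trans (Function.Embedding.subtype _) with hf
  have hfI : ∀ p, f p ∈ I := fun p => ((Fintype.equivOfCardEq hcard) p).2
  set e : Fin K → (Fin n × Fin r ↪ Fin N) := fun k =>
    ⟨fun p => f (k, p), fun p q h => (Prod.ext_iff.1 (f.injective h)).2⟩ with he
  have he' : ∀ k p, e k p = f (k, p) := fun k p => rfl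
  choose γ hγne hγ using fun k => hr (fun c₀ c => g (fun j => e k (c₀ j, c j)))
  set C : Fin K → Finset (Fin d → Fin N) := fun k => cube d (univ.map (e k)) with hC
  have hCI : ∀ k, C k ⊆ cube d I := by
    intro k x hx
    have hx1 := Fintype.mem_piFinset.1 (show x ∈ Fintype.piFinset (fun _ : Fin d =>
      univ.map (e k)) from hx)
    rw [cube, Fintype.mem_piFinset]
    intro j
    obtain ⟨p, _, hp⟩ := Finset.mem_map.1 (hx1 j)
    rw [← hp, he']
    exact hfI _
  have hCc : ∀ k, (C k).card = c := by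
    intro k
    rw [hC]
    simp only
    rw [card_cube, Finset.card_map, Finset.card_univ, Fintype.card_prod, Fintype.card_fin,
      Fintype.card_fin]
  have hCd : ∀ j k, j ≠ k → Disjoint (C j) (C k) := by
    intro j k hjk
    rw [Finset.disjoint_left]
    intro x hx hx'
    have hx1 := Fintype.mem_piFinset.1 (show x ∈ Fintype.piFinset (fun _ : Fin d =>
      univ.map (e j)) from hx)
    have hx2 := Fintype.mem_piFinset.1 (show x ∈ Fintype.piFinset (fun _ : Fin d =>
      univ.map (e k)) from hx')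
    obtain ⟨p, _, hp⟩ := Finset.mem_map.1 (hx1 ⟨0, hd⟩)
    obtain ⟨q, _, hq⟩ := Finset.mem_map.1 (hx2 ⟨0, hd⟩)
    rw [← hq, he', he'] at hp
    exact hjk (Prod.ext_iff.1 (f.injective hp)).1
  set P : Fin K → Finset (Fin d → Fin n) → Finset (Fin d → Fin N) := fun k A => blk (e k) (γ k) A
    with hP
  have hPC : ∀ k A, P k A ⊆ C k := fun k A => blk_subset (e k) (γ k) A
  have hcE : Fintype.card (Fin d → Fin N) = N ^ d := by
    rw [Fintype.card_fun, Fintype.card_fin, Fintype.card_fin]
  -- the family of the sets with the majority property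
  set F : Finset (Finset (Fin d → Fin N)) := univ.filter fun A => MajorityG (1 / 2 + ε₁) I g S A
    with hF
  have hFc : ∀ A ∈ F, ∀ B, SameClass I g A B → B ∈ F := by
    intro A hA B hAB
    rw [hF, Finset.mem_filter] at hA ⊢
    exact ⟨Finset.mem_univ _, majorityG_class I g S A B hAB hA.2⟩
  have hFcard : δ₁ * 2 ^ (N ^ d) ≤ (F.card : ℝ) := by
    refine le_trans (mul_le_mul_of_nonneg_right hd2 (by positivity)) (hS.trans ?_)
    have : (univ.filter fun A => MajorityG (1 / 2 + ε) I g S A) ⊆ F := by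
      intro A hA
      rw [Finset.mem_filter] at hA
      rw [hF, Finset.mem_filter]
      exact ⟨hA.1, majorityG_mono (by linarith) I g S A hA.2⟩
    exact_mod_cast Finset.card_le_card this
  have hSF : (1 / 2 + ε₁) * (F.card : ℝ) ≤ ((S ∩ F).card : ℝ) :=
    class_sum_ge (SameClass I g) (sameClass_equiv I g) F S hFc (1 / 2 + ε₁)
      (fun A hA => (Finset.mem_filter.1 hA).2)
  obtain ⟨k, ρ, hρ, hdens⟩ := find_place2 K c C hCc hCd P hPC (1 / 2 + ε₁ / 2) η (by positivity)
    (by linarith) hη0 hK (S ∩ F) F (by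
      rw [hcE]
      have h1 : ε₁ / 2 * (δ₁ * 2 ^ (N ^ d)) ≤ ε₁ / 2 * (F.card : ℝ) :=
        mul_le_mul_of_nonneg_left hFcard (by positivity)
      have h2 : η * 2 ^ (N ^ d) = ε₁ / 2 * (δ₁ * 2 ^ (N ^ d)) := by rw [hη]; ring
      rw [h2]
      nlinarith)
  have hρP : ∀ A, Disjoint ρ (P k A) := fun A => Finset.disjoint_of_subset_right (hPC k A) hρ
  set F' : Finset (Finset (Fin d → Fin n)) :=
    univ.filter fun A : Finset (Fin d → Fin n) => ρ ∪ P k A ∈ F with hF'
  set S' : Finset (Finset (Fin d → Fin n)) :=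
    univ.filter fun A : Finset (Fin d → Fin n) => ρ ∪ P k A ∈ S ∩ F with hS'
  have hF'c : ∀ A ∈ F', ∀ B, SameLines univ A B → B ∈ F' := by
    intro A hA B hAB
    rw [hF', Finset.mem_filter] at hA ⊢
    refine ⟨Finset.mem_univ _, hFc _ hA.2 _ ⟨?_, ?_, ?_⟩⟩
    · have h1 : ∀ A, (ρ ∪ P k A) \ cube d I = ρ \ cube d I := by
        intro A
        rw [Finset.union_sdiff_distrib, Finset.sdiff_eq_empty_iff_subset.2
          ((hPC k A).trans (hCI k)), Finset.union_empty]
      rw [h1, h1]
    · intro j u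
      rw [Z2.lineCount_union (hρP A), Z2.lineCount_union (hρP B),
        lineCount_blk (e k) (γ k) A B hAB.2 j u]
    · rw [Finset.sum_union (hρP A), Finset.sum_union (hρP B)]
      rw [sum_blk (e k) (γ k) g (hγ k) A, sum_blk (e k) (γ k) g (hγ k) B]
  have hgood : Good S' := by
    refine hglob n le_rfl S' ?_
    have hpow : (Fintype.card (Finset (Fin d → Fin n)) : ℝ) = 2 ^ (n ^ d) := by
      rw [Fintype.card_finset, Fintype.card_fun, Fintype.card_fin, Fintype.card_fin]
      push_cast; rfl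
    rw [← hpow]
    refine majority_of_slack (1 / 2 + ε₁ / 2) (1 / 2 + ε₁ / 4) _ (by linarith) (by positivity)
      F' S' hF'c ?_ hdens
    intro A hA
    rw [hS', Finset.mem_filter, Finset.mem_inter] at hA
    rw [hF', Finset.mem_filter]
    exact ⟨hA.1, hA.2.2⟩
  obtain ⟨A, hA, γ', hγ'1, hγ'2, hγ'3⟩ := hgood
  have hA1 := (Finset.mem_inter.1 (Finset.mem_filter.1 hA).2).1
  have hA3 := (Finset.mem_inter.1 (Finset.mem_filter.1 hγ'3).2).1
  refine ⟨ρ ∪ P k A, hA1, (γ' ×ˢ γ k).map (e k), ?_, ?_, ?_⟩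
  · exact (hγ'1.product (hγne k)).map
  · rw [← blk_cube]
    rw [Finset.disjoint_union_left]
    exact ⟨hρP (cube d γ'), blk_disjoint (e k) (γ k) hγ'2⟩
  · rw [← blk_cube, Finset.union_assoc, ← blk_union]
    exact hA3

end Pool.Agent.J4.H79.HS
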