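import Mathlib

/-!
# Project HS, piece V1: average over permutations = average over subsets
-/

set_option autoImplicit false

namespace Pool.Agent.J4.H79.HS

open Finset

namespace V1

theorem exists_perm (N : ℕ) (γ₀ γ : Finset (Fin N)) (h : γ₀.card = γ.card) :
    ∃ σ : Equiv.Perm (Fin N), γ₀.map σ.toEmbedding = γ := by
  classical
  let e : {x // x ∈ γ₀} ≃ {x // x ∈ γ} := Finset.equivOfCardEq h
  refine ⟨e.extendSubtype, ?_⟩
  apply Finset.eq_of_subset_of_card_le
  · intro y hy
    rw [Finset.mem_map] at hy
    obtain ⟨x, hx, rfl⟩ := hy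
    exact e.extendSubtype_mem x hx
  · rw [Finset.card_map, h]

/-- the number of permutations which carry a set of size `k` to another one does not depend on
the second set. -/
theorem card_fiber (N : ℕ) (γ₀ γ : Finset (Fin N)) (h : γ₀.card = γ.card) :
    ((Finset.univ : Finset (Equiv.Perm (Fin N))).filter (fun π => γ₀.map π.toEmbedding = γ)).card =
      ((Finset.univ : Finset (Equiv.Perm (Fin N))).filter
        (fun π => γ₀.map π.toEmbedding = γ₀)).card := by
  obtain ⟨σ, hσ⟩ := exists_perm N γ₀ γ h
  symm
  refine Finset.card_bij (fun π _ => π.trans σ) ?_ ?_ ?_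
  · intro π hπ
    rw [Finset.mem_filter] at hπ ⊢
    refine ⟨Finset.mem_univ _, ?_⟩
    rw [Equiv.trans_toEmbedding, ← Finset.map_map, hπ.2, hσ]
  · intro π₁ _ π₂ _ h12
    ext x
    have := congrArg (fun f => f x) h12
    simp only [Equiv.trans_apply] at this
    exact congrArg _ (σ.injective this)
  · intro π hπ
    rw [Finset.mem_filter] at hπ
    refine ⟨π.trans σ.symm, ?_, ?_⟩
    · rw [Finset.mem_filter]
      refine ⟨Finset.mem_univ _, ?_⟩
      rw [Equiv.trans_toEmbedding, ← Finset.map_map, hπ.2, ← hσ, Finset.map_map]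
      ext x
      simp
    · ext x
      simp

end V1

/-- average over all permutations = average over all subsets of the same size (orbit counting: the number of π with
γ₀.map π = γ does not depend on γ, |γ| = |γ₀|). -/
theorem perm_average (N : ℕ) (P : Finset (Fin N) → ℝ) (γ₀ : Finset (Fin N)) :
    (∑ π : Equiv.Perm (Fin N), P (γ₀.map π.toEmbedding)) / (Nat.factorial N : ℝ) =
      (∑ γ ∈ Finset.powersetCard γ₀.card (Finset.univ : Finset (Fin N)), P γ) / (N.choose γ₀.card : ℝ) := by
  classical
  set c : ℕ := ((Finset.univ : Finset (Equiv.Perm (Fin N))).filter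
        (fun π => γ₀.map π.toEmbedding = γ₀)).card with hc
  have hmaps : ∀ π ∈ (Finset.univ : Finset (Equiv.Perm (Fin N))),
      γ₀.map π.toEmbedding ∈ Finset.powersetCard γ₀.card (Finset.univ : Finset (Fin N)) := by
    intro π _
    rw [Finset.mem_powersetCard]
    exact ⟨Finset.subset_univ _, Finset.card_map _⟩
  have h1 : (∑ π : Equiv.Perm (Fin N), P (γ₀.map π.toEmbedding)) =
      (c : ℝ) * ∑ γ ∈ Finset.powersetCard γ₀.card (Finset.univ : Finset (Fin N)), P γ := by
    rw [← Finset.sum_fiberwise_of_maps_to hmaps, Finset.mul_sum]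
    apply Finset.sum_congr rfl
    intro γ hγ
    rw [Finset.mem_powersetCard] at hγ
    rw [← V1.card_fiber N γ₀ γ hγ.2.symm] at hc
    rw [Finset.sum_congr rfl (g := fun _ => P γ), Finset.sum_const, nsmul_eq_mul, hc]
    intro π hπ
    rw [Finset.mem_filter] at hπ
    rw [hπ.2]
  have h2 : (Nat.factorial N) = c * (N.choose γ₀.card) := by
    have h3 := Finset.card_eq_sum_card_fiberwise (s := (Finset.univ : Finset (Equiv.Perm (Fin N))))
      (f := fun π => γ₀.map π.toEmbedding)
      (t := Finset.powersetCard γ₀.card (Finset.univ : Finset (Fin N))) (by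
        intro π hπ; exact hmaps π (Finset.mem_univ _))
    rw [Finset.card_univ, Fintype.card_perm, Fintype.card_fin] at h3
    rw [h3, Finset.sum_congr rfl (g := fun _ => c), Finset.sum_const, Finset.card_powersetCard,
      Finset.card_univ, Fintype.card_fin, smul_eq_mul, mul_comm]
    intro γ hγ
    rw [Finset.mem_powersetCard] at hγ
    exact V1.card_fiber N γ₀ γ hγ.2.symm
  have hc0 : (c : ℝ) ≠ 0 := by
    intro h0
    have : c = 0 := by exact_mod_cast h0
    rw [this, zero_mul] at h2
    exact Nat.factorial_ne_zero N h2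
  have hN0 : (N.choose γ₀.card : ℝ) ≠ 0 := by
    intro h0
    have : N.choose γ₀.card = 0 := by exact_mod_cast h0
    rw [this, mul_zero] at h2
    exact Nat.factorial_ne_zero N h2
  rw [h1, h2]
  push_cast
  field_simp

end Pool.Agent.J4.H79.HS
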