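import Pool.Agent.J4.H79.HS.Y6

/-!
Project HS, piece V2: the distribution of Y6 depends on the cardinality only.
-/

namespace Pool.Agent.J4.H79.HS

open Finset Polynomial

namespace V2

theorem cnt_sym {n : ℕ} (r : ℕ) {γ γ' : Finset (Fin n)} (h : γ.card = γ'.card) :
    cnt r γ = cnt r γ' := by
  classical
  obtain ⟨σ, hσ⟩ : ∃ σ : Equiv.Perm (Fin n), γ.image σ = γ' := by
    refine ⟨(Finset.equivOfCardEq h).extendSubtype, ?_⟩
    apply Finset.eq_of_subset_of_card_le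
    · intro y hy
      obtain ⟨x, hx, rfl⟩ := mem_image.1 hy
      exact (Finset.equivOfCardEq h).extendSubtype_mem x hx
    · rw [card_image_of_injective _ (Equiv.injective _), h]
  unfold cnt
  congr 1
  refine card_bij (fun τ _ => σ ∘ τ) ?_ ?_ ?_
  · intro τ hτ
    rw [mem_filter] at hτ ⊢
    refine ⟨mem_univ _, σ.injective.comp hτ.2.1, ?_⟩
    rw [← hσ, ← hτ.2.2, image_image]
  · intro τ _ τ' _ he
    funext i
    exact σ.injective (congrFun he i)
  · intro τ hτ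
    rw [mem_filter] at hτ
    refine ⟨σ.symm ∘ τ, ?_, ?_⟩
    · rw [mem_filter]
      refine ⟨mem_univ _, σ.symm.injective.comp hτ.2.1, ?_⟩
      have h1 : (σ.symm ∘ σ : Fin n → Fin n) = id := by
        funext i
        simp
      rw [← image_image, hτ.2.2, ← hσ, image_image, h1, image_id]
    · funext i
      simp

end V2

open Y6 in
/-- the theorem of Y6 with weights which depend on the cardinality only -/
theorem kernel_lines_sym
    (mt' : ∀ (k : ℕ) (M : ℕ) (ε : ℝ), 0 < ε → ∃ B W : ℕ, 0 < B ∧ 0 < W ∧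
    ∀ (J : ℕ) (S q : ℕ → ℕ), (∀ i, 0 < S i) → (∀ i, 0 < q i) →
      (∀ i j, i < j → j < J → q j * B ∣ q i) → (∀ i j, i < j → j < J → W * (q i * S i) ^ W ≤ S j) →
      ∀ (X : Type) [Fintype X] [Nonempty X] (F : Multiset X → ℝ[X]),
        (∀ s, (F s).coeff 0 = 0) → (∀ s, (F s).natDegree ≤ M) →
        ∀ j ≤ J, -((k : ℝ) + 1 + (k + 1) * ε * j) ≤
          ∑ i ∈ range j, ((∑ s ∈ range (S i), Ex k F (q i * (s + 1))) / (S i : ℂ)).re)
    (k : ℕ) (ε : ℝ) (hε : 0 < ε) :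
    ∃ n R : ℕ, 0 < n ∧ ∃ lam : Finset (Fin n) → ℝ, (∀ γ, 0 ≤ lam γ) ∧
      (∀ γ γ' : Finset (Fin n), γ.card = γ'.card → lam γ = lam γ') ∧
      (∀ γ, lam γ ≠ 0 → γ.Nonempty ∧ γ.card ≤ R) ∧ ∑ γ, lam γ ≤ 1 ∧ 1 - ε ≤ ∑ γ, lam γ ∧
      ∀ θ : (Fin k → Fin n) → ℝ,
        -ε ≤ ∑ γ, lam γ * Real.cos (2 * Real.pi * ((γ.card : ℝ) *
          ∑ c ∈ Fintype.piFinset (fun _ : Fin k => γ), θ c)) := by
  have hk : (0 : ℝ) < (k : ℝ) + 1 := by positivity
  obtain ⟨B, W, hB, hW, hmt⟩ := mt' k 1 (ε / (8 * (k + 1))) (by positivity)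
  obtain ⟨J, hJ8⟩ := exists_nat_gt (8 * ((k : ℝ) + 1) / ε)
  have hJr : (0 : ℝ) < J := lt_of_le_of_lt (by positivity) hJ8
  obtain ⟨q, hqd⟩ : ∃ q : ℕ → ℕ, q = fun i => B ^ (J - i) := ⟨_, rfl⟩
  obtain ⟨S, hSd⟩ : ∃ S : ℕ → ℕ, S = Sc B W J := ⟨_, rfl⟩
  have hS : ∀ i, 0 < S i := fun i => by
    rw [hSd]
    exact Sc_pos B W J i
  have hq : ∀ i, 0 < q i := fun i => by
    rw [hqd]
    positivity
  have hdv : ∀ i j, i < j → j < J → q j * B ∣ q i := by
    intro i j hij hj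
    rw [hqd]
    dsimp only
    rw [← pow_succ]
    exact pow_dvd_pow B (by omega)
  have hSS : ∀ i j, i < j → j < J → W * (q i * S i) ^ W ≤ S j := by
    intro i j hij _
    rw [hSd, hqd]
    have h1 : Sc B W J (i + 1) ≤ Sc B W J j := Sc_mono B W J hij
    refine le_trans ?_ h1
    change W * (B ^ (J - i) * Sc B W J i) ^ W ≤ W * (B ^ J * Sc B W J i) ^ W + Sc B W J i
    have h2 : B ^ (J - i) ≤ B ^ J := Nat.pow_le_pow_right hB (Nat.sub_le _ _)
    have h3 : W * (B ^ (J - i) * Sc B W J i) ^ W ≤ W * (B ^ J * Sc B W J i) ^ W :=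
      Nat.mul_le_mul_left _ (Nat.pow_le_pow_left (Nat.mul_le_mul_right _ h2) _)
    omega
  have hmain : ∀ (n : ℕ), 0 < n → ∀ θ : (Fin k → Fin n) → ℝ, -(ε / 4) * J ≤
      ∑ i ∈ range J, ((∑ s ∈ range (S i), Ex k (PF θ) (q i * (s + 1))) / (S i : ℂ)).re := by
    intro n hn θ
    have : Nonempty (Fin n) := ⟨⟨0, hn⟩⟩
    have h1 := hmt J S q hS hq hdv hSS (Fin n) (PF θ) (fun s => by
      unfold PF
      rw [coeff_C_mul, coeff_X_zero, mul_zero]) (fun s => by
      unfold PF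
      exact (natDegree_C_mul_le _ _).trans natDegree_X_le) J le_rfl
    refine le_trans ?_ h1
    have h2 : (k + 1 : ℝ) * (ε / (8 * (k + 1))) = ε / 8 := by
      field_simp
    rw [h2]
    rw [div_lt_iff₀ hε] at hJ8
    linarith
  have hSr : ∀ i, (0 : ℝ) < S i := fun i => by exact_mod_cast hS i
  obtain ⟨R, hR⟩ : ∃ R : ℕ, R = ∑ i ∈ range J, q i * S i := ⟨_, rfl⟩
  obtain ⟨n₀, hn₀⟩ := exists_nat_gt ((R : ℝ) ^ 2 * 4 / ε)
  obtain ⟨n, hn⟩ : ∃ n : ℕ, n = n₀ + 1 := ⟨_, rfl⟩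
  have hn0 : 0 < n := by omega
  have hnp : (0 : ℝ) < n := by exact_mod_cast hn0
  have hnR : (R : ℝ) ^ 2 / n ≤ ε / 4 := by
    have h1 : (R : ℝ) ^ 2 * 4 / ε < n := by
      rw [hn]; push_cast; linarith
    rw [div_lt_iff₀ hε] at h1
    rw [div_le_iff₀ hnp]
    linarith
  have hrR : ∀ i ∈ range J, ∀ s ∈ range (S i), q i * (s + 1) ≤ R := by
    intro i hi s hs
    rw [Finset.mem_range] at hs
    calc q i * (s + 1) ≤ q i * S i := Nat.mul_le_mul_left _ hs
      _ ≤ R := by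
        rw [hR]
        exact Finset.single_le_sum (f := fun i => q i * S i) (fun _ _ => Nat.zero_le _) hi
  have hr2 : ∀ i ∈ range J, ∀ s ∈ range (S i), ((q i * (s + 1) : ℕ) : ℝ) ^ 2 / n ≤ ε / 4 := by
    intro i hi s hs
    refine le_trans ?_ hnR
    have : ((q i * (s + 1) : ℕ) : ℝ) ≤ R := by exact_mod_cast hrR i hi s hs
    gcongr
  obtain ⟨lam, hlam⟩ : ∃ lam : Finset (Fin n) → ℝ, lam = fun γ =>
    (∑ i ∈ range J, (∑ s ∈ range (S i), cnt (q i * (s + 1)) γ / (n : ℝ) ^ (q i * (s + 1))) / S i) / J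
    := ⟨_, rfl⟩
  have hlin : ∀ g : Finset (Fin n) → ℝ, ∑ γ, lam γ * g γ =
      (∑ i ∈ range J, (∑ s ∈ range (S i),
        (∑ γ, cnt (q i * (s + 1)) γ * g γ) / (n : ℝ) ^ (q i * (s + 1))) / S i) / J := by
    intro g
    rw [hlam]
    simp only [div_mul_eq_mul_div, Finset.sum_mul, Finset.sum_div]
    rw [Finset.sum_comm]
    refine Finset.sum_congr rfl fun i _ => ?_
    rw [Finset.sum_comm]
  have hlin1 : ∑ γ, lam γ =
      (∑ i ∈ range J, (∑ s ∈ range (S i),
        (∑ γ : Finset (Fin n), cnt (q i * (s + 1)) γ) / (n : ℝ) ^ (q i * (s + 1))) / S i) / J := by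
    have := hlin (fun _ => 1)
    simpa using this
  have havg : ∀ (b : ℝ) (F : ℕ → ℕ → ℝ), (∀ i ∈ range J, ∀ s ∈ range (S i), b ≤ F i s) →
      b ≤ (∑ i ∈ range J, (∑ s ∈ range (S i), F i s) / S i) / J := by
    intro b F hF
    rw [le_div_iff₀ hJr]
    calc b * J = ∑ i ∈ range J, b := by simp; ring
      _ ≤ _ := by
        refine Finset.sum_le_sum fun i hi => ?_
        rw [le_div_iff₀ (hSr i)]
        calc b * S i = ∑ s ∈ range (S i), b := by simp; ring
          _ ≤ _ := Finset.sum_le_sum fun s hs => hF i hi s hs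
  have havg' : ∀ (b : ℝ) (F : ℕ → ℕ → ℝ), (∀ i ∈ range J, ∀ s ∈ range (S i), F i s ≤ b) →
      (∑ i ∈ range J, (∑ s ∈ range (S i), F i s) / S i) / J ≤ b := by
    intro b F hF
    rw [div_le_iff₀ hJr]
    calc ∑ i ∈ range J, (∑ s ∈ range (S i), F i s) / S i ≤ ∑ i ∈ range J, b := by
          refine Finset.sum_le_sum fun i hi => ?_
          rw [div_le_iff₀ (hSr i)]
          calc ∑ s ∈ range (S i), F i s ≤ ∑ s ∈ range (S i), b :=
                Finset.sum_le_sum fun s hs => hF i hi s hs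
            _ = b * S i := by simp; ring
      _ = b * J := by simp; ring
  refine ⟨n, R, hn0, lam, ?_, ?_, ?_, ?_, ?_, ?_⟩
  · intro γ
    rw [hlam]
    simp only
    exact div_nonneg (Finset.sum_nonneg fun i _ => div_nonneg (Finset.sum_nonneg fun s _ =>
      div_nonneg (cnt_nonneg _ _) (by positivity)) (hSr i).le) hJr.le
  · intro γ γ' h
    rw [hlam]
    dsimp only
    simp only [V2.cnt_sym _ h]
  · intro γ hγ
    by_contra hcon
    apply hγ
    rw [hlam]
    simp only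
    rw [div_eq_zero_iff]; left
    refine Finset.sum_eq_zero fun i hi => ?_
    rw [div_eq_zero_iff]; left
    refine Finset.sum_eq_zero fun s hs => ?_
    rw [div_eq_zero_iff]; left
    by_contra hne
    have h1 := cnt_ne_zero _ _ hne
    apply hcon
    constructor
    · rw [← Finset.card_pos, h1]
      exact Nat.mul_pos (hq i) (Nat.succ_pos _)
    · rw [h1]; exact hrR i hi s hs
  · rw [hlin1]
    apply havg'
    intro i hi s hs
    rw [cnt_total, div_le_one (by positivity)]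
    have h1 : (univ.filter fun τ : Fin (q i * (s + 1)) → Fin n => Function.Injective τ).card
        ≤ n ^ (q i * (s + 1)) := by
      refine (Finset.card_le_univ _).trans ?_
      rw [Fintype.card_fun, Fintype.card_fin, Fintype.card_fin]
    exact_mod_cast h1
  · rw [hlin1]
    apply havg
    intro i hi s hs
    rw [cnt_total, le_div_iff₀ (by positivity)]
    refine le_trans ?_ (inj_count n (q i * (s + 1)) hn0)
    have h1 := hr2 i hi s hs
    apply mul_le_mul_of_nonneg_right _ (by positivity)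
    linarith
  · intro θ
    rw [hlin]
    have h1 := hmain n hn0 θ
    have h2 : (∑ i ∈ range J, (∑ s ∈ range (S i),
        ((Ex k (PF θ) (q i * (s + 1))).re
          - ((q i * (s + 1) : ℕ) : ℝ) ^ 2 / n)) / S i) / J ≤
        (∑ i ∈ range J, (∑ s ∈ range (S i),
        (∑ γ : Finset (Fin n), cnt (q i * (s + 1)) γ *
          Real.cos (2 * Real.pi * ((γ.card : ℝ) *
            ∑ c ∈ Fintype.piFinset (fun _ : Fin k => γ), θ c))) /
            (n : ℝ) ^ (q i * (s + 1))) / S i) / J := by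
      apply div_le_div_of_nonneg_right _ hJr.le
      refine Finset.sum_le_sum fun i _ => ?_
      apply div_le_div_of_nonneg_right _ (hSr i).le
      exact Finset.sum_le_sum fun s _ => cnt_cosL hn0 k _ θ
    refine le_trans ?_ h2
    have h3 : ∀ i ∈ range J,
        ((∑ s ∈ range (S i), Ex k (PF θ) (q i * (s + 1))) / (S i : ℂ)).re - ε / 4 ≤
        (∑ s ∈ range (S i), ((Ex k (PF θ) (q i * (s + 1))).re
          - ((q i * (s + 1) : ℕ) : ℝ) ^ 2 / n)) / S i := by
      intro i hi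
      rw [← Complex.ofReal_natCast, Complex.div_ofReal_re, Complex.re_sum,
        Finset.sum_sub_distrib, sub_div]
      have h4 : (∑ s ∈ range (S i), ((q i * (s + 1) : ℕ) : ℝ) ^ 2 / n) / S i ≤ ε / 4 := by
        rw [div_le_iff₀ (hSr i)]
        calc ∑ s ∈ range (S i), ((q i * (s + 1) : ℕ) : ℝ) ^ 2 / n
            ≤ ∑ s ∈ range (S i), ε / 4 := Finset.sum_le_sum fun s hs => hr2 i hi s hs
          _ = ε / 4 * S i := by simp; ring
      linarith
    rw [le_div_iff₀ hJr]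
    refine le_trans ?_ (Finset.sum_le_sum h3)
    rw [Finset.sum_sub_distrib]
    simp only [Finset.sum_const, Finset.card_range, nsmul_eq_mul]
    have h5 : 0 ≤ ε * J := by positivity
    linarith

end Pool.Agent.J4.H79.HS
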