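import Pool.Agent.J4.H79.HS.K3

/-!
The sum version of the assembly: the inequality for the average with weights `lam`.
-/

namespace Pool.Agent.J4.H79.HS

open Finset

theorem assembly_sum {α V ι Γ : Type} [DecidableEq α] [Fintype α] [AddCommGroup V] [Fintype ι]
    [DecidableEq ι] [Fintype Γ]
    (w : α → V) (C₀ : Finset α) (S : Finset (Finset α))
    (hS : ∀ A B : Finset α, ∑ c ∈ A, w c = ∑ c ∈ B, w c → (A ∈ S ↔ B ∈ S))
    (z : ι → V) (k : Γ → ι → ℕ) (B : Γ → Finset α) (hB : ∀ γ, B γ ⊆ C₀)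
    (hBk : ∀ γ, ∑ c ∈ B γ, w c = ∑ i, k γ i • z i)
    (lam : Γ → ℝ) (hlam : ∀ γ, 0 ≤ lam γ) (ε : ℝ) (hε : 0 < ε) (hε1 : ε < 1)
    (hlam1 : ∑ γ, lam γ ≤ 1) (hlam2 : 1 - ε ≤ ∑ γ, lam γ)
    (hpos : ∀ θ : ι → ℝ, -ε ≤ ∑ γ, lam γ * Real.cos (2 * Real.pi * ∑ i, (k γ i : ℝ) * θ i))
    (R : ℝ) (hR0 : 0 ≤ R) (hR : ∀ γ, lam γ ≠ 0 → ∑ i, (k γ i : ℝ) ≤ R)
    (L : ℕ) (hL : 0 < L) (δ₀ δ₁ : ℝ) (hδ₀' : 0 ≤ δ₀) (hδ₁' : 0 ≤ δ₁)
    (hδ₀ : ∀ c ∈ C₀, Sm (univ \ C₀) w δ₀ (w c))
    (hδ₁ : ∀ i, Sm (univ \ C₀) w δ₁ (z i)) :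
    ((S.card : ℝ) / 2 ^ Fintype.card α) ^ 2 -
        (3 * (C₀.card * δ₀) + 3 * (Fintype.card ι * L * δ₁) + 2 * ε + R / L) ≤
      ∑ γ, lam γ * (((S.filter (fun A => Disjoint A (B γ) ∧ A ∪ B γ ∈ S)).card : ℝ) /
          2 ^ (Fintype.card α - (B γ).card)) := by
  classical
  haveI : NeZero L := ⟨hL.ne'⟩
  have hLp : (0 : ℝ) < L := by exact_mod_cast hL
  set U : Finset α := univ \ C₀ with hU
  set μ : ℝ := C₀.card * δ₀ with hμ
  set κ : ℝ := Fintype.card ι * L * δ₁ with hκ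
  have hμ0 : 0 ≤ μ := by positivity
  have hκ0 : 0 ≤ κ := by positivity
  set φ : V → ℝ := fun t => if ∃ A, A ∈ S ∧ ∑ c ∈ A, w c = t then 1 else 0 with hφdef
  have hφ0 : ∀ t, 0 ≤ φ t := by intro t; rw [hφdef]; simp only; split_ifs <;> norm_num
  have hφ1 : ∀ t, φ t ≤ 1 := by intro t; rw [hφdef]; simp only; split_ifs <;> norm_num
  have hφ : ∀ A : Finset α, φ (∑ c ∈ A, w c) = if A ∈ S then 1 else 0 := by
    intro A
    rw [hφdef]
    simp only
    by_cases hA : A ∈ S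
    · rw [if_pos ⟨A, hA, rfl⟩, if_pos hA]
    · rw [if_neg, if_neg hA]
      rintro ⟨A', hA', he⟩
      exact hA ((hS A' A he).1 hA')
  set T : Finset α → V := fun A => ∑ c ∈ A, w c with hT
  set E0 : ℝ := EU U (fun A => φ (T A)) with hE0
  -- the contents of the base block do not matter
  have hbase : ∀ A₀ : Finset α, A₀ ⊆ C₀ → Sm U w μ (∑ c ∈ A₀, w c) := by
    intro A₀ hA₀
    refine Sm_mono (Sm_sum A₀ (fun _ => δ₀) w (fun c hc => hδ₀ c (hA₀ hc))) ?_
    rw [Finset.sum_const, nsmul_eq_mul, hμ]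
    have : (A₀.card : ℝ) ≤ C₀.card := by exact_mod_cast Finset.card_le_card hA₀
    gcongr
  have hCU : Disjoint C₀ U := Finset.disjoint_sdiff
  have hCUu : C₀ ∪ U = univ := by rw [hU]; exact Finset.union_sdiff_of_subset (Finset.subset_univ _)
  have hcardCU : C₀.card + U.card = Fintype.card α := by
    rw [← Finset.card_union_of_disjoint hCU, hCUu, Finset.card_univ]
  -- (1) density
  have hD : (S.card : ℝ) / 2 ^ Fintype.card α ≤ E0 + μ := by
    rw [div_le_iff₀ (by positivity)]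
    have h1 : (S.card : ℝ) = ∑ A ∈ (C₀ ∪ U).powerset, φ (∑ c ∈ A, w c) := by
      rw [hCUu, Finset.powerset_univ]
      rw [Finset.sum_congr rfl fun A _ => hφ A, Finset.sum_ite_mem, Finset.univ_inter,
        Finset.sum_const, nsmul_eq_mul, mul_one]
    rw [h1, split_avg C₀ U hCU w φ]
    calc ∑ A₀ ∈ C₀.powerset, 2 ^ U.card * EU U (fun A => φ (∑ c ∈ A, w c + ∑ c ∈ A₀, w c))
        ≤ ∑ A₀ ∈ C₀.powerset, 2 ^ U.card * (E0 + μ) := by
          refine Finset.sum_le_sum fun A₀ hA₀ => ?_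
          apply mul_le_mul_of_nonneg_left _ (by positivity)
          have := hbase A₀ (Finset.mem_powerset.1 hA₀) φ hφ0 hφ1
          have h2 := (abs_le.1 this).2
          linarith
      _ = (E0 + μ) * 2 ^ Fintype.card α := by
          rw [Finset.sum_const, Finset.card_powerset, nsmul_eq_mul, ← hcardCU, pow_add]
          push_cast; ring
  -- (2) the number of pairs
  set ψ : Γ → V → ℝ := fun γ t => φ t * φ (t + ∑ i, k γ i • z i) with hψ
  have hψ0 : ∀ γ t, 0 ≤ ψ γ t := fun γ t => mul_nonneg (hφ0 _) (hφ0 _)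
  have hψ1 : ∀ γ t, ψ γ t ≤ 1 := fun γ t => mul_le_one₀ (hφ1 _) (hφ0 _) (hφ1 _)
  set F : Γ → ℝ := fun γ => EU U (fun A => ψ γ (T A)) with hF
  have hF0 : ∀ γ, 0 ≤ F γ := fun γ => EU_nonneg _ _ fun A => hψ0 _ _
  have hcount : ∀ γ, (F γ - μ) * 2 ^ (Fintype.card α - (B γ).card) ≤
      ((S.filter (fun A => Disjoint A (B γ) ∧ A ∪ B γ ∈ S)).card : ℝ) := by
    intro γ
    set X : Finset α := C₀ \ B γ with hX
    have hXU : Disjoint X U := hCU.mono_left Finset.sdiff_subset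
    have hXUu : X ∪ U = univ \ B γ := by
      rw [hX, hU]
      ext x
      simp only [Finset.mem_union, Finset.mem_sdiff, Finset.mem_univ, true_and]
      constructor
      · rintro (⟨h, h'⟩ | h)
        · exact h'
        · exact fun h' => h (hB γ h')
      · intro h
        by_cases hx : x ∈ C₀
        · exact Or.inl ⟨hx, h⟩
        · exact Or.inr hx
    have hcardXU : X.card + U.card = Fintype.card α - (B γ).card := by
      rw [← Finset.card_union_of_disjoint hXU, hXUu, Finset.card_sdiff_of_subset (Finset.subset_univ _),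
        Finset.card_univ]
    have h1 : ((S.filter (fun A => Disjoint A (B γ) ∧ A ∪ B γ ∈ S)).card : ℝ) =
        ∑ A ∈ (X ∪ U).powerset, ψ γ (∑ c ∈ A, w c) := by
      have h2 : ∀ A ∈ (X ∪ U).powerset, ψ γ (∑ c ∈ A, w c) =
          if A ∈ S ∧ A ∪ B γ ∈ S then 1 else 0 := by
        intro A hA
        rw [Finset.mem_powerset, hXUu] at hA
        have hdisj : Disjoint A (B γ) := Finset.disjoint_of_subset_left hA Finset.sdiff_disjoint
        rw [hψ]
        simp only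
        rw [← hBk γ, ← Finset.sum_union hdisj, hφ, hφ]
        by_cases ha : A ∈ S <;> by_cases hb : A ∪ B γ ∈ S <;> simp [ha, hb]
      rw [Finset.sum_congr rfl h2, ← Finset.sum_filter, Finset.sum_const, nsmul_eq_mul, mul_one]
      congr 2
      ext A
      simp only [Finset.mem_filter, Finset.mem_powerset, hXUu]
      constructor
      · rintro ⟨h3, h4, h5⟩
        refine ⟨?_, h3, h5⟩
        intro x hx
        rw [Finset.mem_sdiff]
        exact ⟨Finset.mem_univ _, Finset.disjoint_left.1 h4 hx⟩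
      · rintro ⟨h3, h4, h5⟩
        exact ⟨h4, Finset.disjoint_of_subset_left h3 Finset.sdiff_disjoint, h5⟩
    rw [h1, split_avg X U hXU w (ψ γ)]
    calc (F γ - μ) * 2 ^ (Fintype.card α - (B γ).card)
        = ∑ A₀ ∈ X.powerset, 2 ^ U.card * (F γ - μ) := by
          rw [Finset.sum_const, Finset.card_powerset, nsmul_eq_mul, ← hcardXU, pow_add]
          push_cast; ring
      _ ≤ _ := by
          refine Finset.sum_le_sum fun A₀ hA₀ => ?_
          apply mul_le_mul_of_nonneg_left _ (by positivity)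
          have := hbase A₀ ((Finset.mem_powerset.1 hA₀).trans Finset.sdiff_subset) (ψ γ)
            (hψ0 γ) (hψ1 γ)
          have h2 := (abs_le.1 this).1
          linarith
  -- (3) shifts by the box
  set H : Type := ι → ZMod L with hH
  set N : ℝ := (Fintype.card H : ℝ) with hN
  have hNp : 0 < N := by rw [hN]; exact_mod_cast Fintype.card_pos
  have hbox : ∀ x : H, Sm U w κ (∑ i, (x i).val • z i) := by
    intro x
    refine Sm_mono (Sm_sum univ (fun i => ((x i).val : ℝ) * δ₁) (fun i => (x i).val • z i)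
      (fun i _ => Sm_nsmul (hδ₁ i) _)) ?_
    calc ∑ i, ((x i).val : ℝ) * δ₁ ≤ ∑ _i : ι, (L : ℝ) * δ₁ := by
          refine Finset.sum_le_sum fun i _ => ?_
          have : ((x i).val : ℝ) ≤ L := by exact_mod_cast (ZMod.val_lt (x i)).le
          gcongr
      _ = κ := by rw [Finset.sum_const, Finset.card_univ, nsmul_eq_mul, hκ]; ring
  have hFbox : ∀ γ, EU U (fun A => (∑ x : H, ψ γ (T A + ∑ i, (x i).val • z i)) / N) - κ ≤ F γ := by
    intro γ
    rw [EU_div, EU_sum, sub_le_iff_le_add, div_le_iff₀ hNp]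
    calc ∑ x : H, EU U (fun A => ψ γ (T A + ∑ i, (x i).val • z i))
        ≤ ∑ x : H, (F γ + κ) := by
          refine Finset.sum_le_sum fun x _ => ?_
          have := hbox x (ψ γ) (hψ0 γ) (hψ1 γ)
          have h2 := (abs_le.1 this).2
          linarith
      _ = (F γ + κ) * N := by
          rw [Finset.sum_const, Finset.card_univ, nsmul_eq_mul]; ring
  have hEbox : E0 - κ ≤ EU U (fun A => (∑ x : H, φ (T A + ∑ i, (x i).val • z i)) / N) := by
    rw [EU_div, EU_sum, le_div_iff₀ hNp]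
    calc (E0 - κ) * N = ∑ x : H, (E0 - κ) := by
          rw [Finset.sum_const, Finset.card_univ, nsmul_eq_mul]; ring
      _ ≤ _ := by
          refine Finset.sum_le_sum fun x _ => ?_
          have := hbox x φ hφ0 hφ1
          have h2 := (abs_le.1 this).1
          linarith
  -- (5) Fourier analysis for every A
  have hfour : ∀ A : Finset α,
      ((∑ x : H, φ (T A + ∑ i, (x i).val • z i)) / N) ^ 2 - 2 * ε - R / L ≤
        ∑ γ, lam γ * ((∑ x : H, ψ γ (T A + ∑ i, (x i).val • z i)) / N) := fun A =>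
    box_fourier z k lam hlam ε hε hlam1 hlam2 hpos R hR0 hR L φ hφ0 hφ1 (T A)
  have hE1 : (EU U (fun A => (∑ x : H, φ (T A + ∑ i, (x i).val • z i)) / N)) ^ 2 - 2 * ε - R / L ≤
      ∑ γ, lam γ * EU U (fun A => (∑ x : H, ψ γ (T A + ∑ i, (x i).val • z i)) / N) := by
    have h1 := EU_mono U _ _ hfour
    rw [EU_sum] at h1
    have h2 : EU U (fun A => ((∑ x : H, φ (T A + ∑ i, (x i).val • z i)) / N) ^ 2 - 2 * ε - R / L) =
        EU U (fun A => ((∑ x : H, φ (T A + ∑ i, (x i).val • z i)) / N) ^ 2) - 2 * ε - R / L := by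
      rw [EU_sub, EU_sub, EU_const, EU_const]
    rw [h2] at h1
    have h3 := EU_sq U (fun A => (∑ x : H, φ (T A + ∑ i, (x i).val • z i)) / N)
    have h4 : ∑ b, EU U (fun A => lam b * ((∑ x : H, ψ b (T A + ∑ i, (x i).val • z i)) / N)) =
        ∑ γ, lam γ * EU U (fun A => (∑ x : H, ψ γ (T A + ∑ i, (x i).val • z i)) / N) :=
      Finset.sum_congr rfl fun γ _ => EU_mul_left _ _ _
    rw [h4] at h1
    linarith
  set D : ℝ := (S.card : ℝ) / 2 ^ Fintype.card α with hDdef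
  have hD0 : 0 ≤ D := by positivity
  have hD1 : D ≤ 1 := by
    rw [hDdef, div_le_one (by positivity)]
    have : S.card ≤ 2 ^ Fintype.card α := by
      refine (Finset.card_le_univ _).trans ?_
      rw [Fintype.card_finset]
    exact_mod_cast this
  set x0 : ℝ := EU U (fun A => (∑ x : H, φ (T A + ∑ i, (x i).val • z i)) / N) with hx0
  have hx : D - μ - κ ≤ x0 := by linarith
  have hxsq : D ^ 2 - 2 * (μ + κ) ≤ x0 ^ 2 := by
    have h1 : 2 * D * x0 - D ^ 2 ≤ x0 ^ 2 := by nlinarith [sq_nonneg (x0 - D)]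
    have h2 : D * (D - μ - κ) ≤ D * x0 := mul_le_mul_of_nonneg_left hx hD0
    nlinarith
  have hmain : D ^ 2 - 2 * (μ + κ) - 2 * ε - R / L - κ ≤ ∑ γ, lam γ * F γ := by
    have h1 : ∑ γ, lam γ * (EU U (fun A => (∑ x : H, ψ γ (T A + ∑ i, (x i).val • z i)) / N) - κ) ≤
        ∑ γ, lam γ * F γ := Finset.sum_le_sum fun γ _ =>
      mul_le_mul_of_nonneg_left (hFbox γ) (hlam γ)
    have h2 : ∑ γ, lam γ * (EU U (fun A => (∑ x : H, ψ γ (T A + ∑ i, (x i).val • z i)) / N) - κ) =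
        ∑ γ, lam γ * EU U (fun A => (∑ x : H, ψ γ (T A + ∑ i, (x i).val • z i)) / N)
          - (∑ γ, lam γ) * κ := by
      rw [Finset.sum_mul, ← Finset.sum_sub_distrib]
      exact Finset.sum_congr rfl fun γ _ => by ring
    rw [h2] at h1
    have h3 : (∑ γ, lam γ) * κ ≤ κ := by nlinarith
    linarith
  -- (7) the sum
  have h7 : ∑ γ, lam γ * (F γ - μ) ≤
      ∑ γ, lam γ * (((S.filter (fun A => Disjoint A (B γ) ∧ A ∪ B γ ∈ S)).card : ℝ) /
          2 ^ (Fintype.card α - (B γ).card)) := by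
    refine Finset.sum_le_sum fun γ _ => mul_le_mul_of_nonneg_left ?_ (hlam γ)
    rw [le_div_iff₀ (by positivity)]
    exact hcount γ
  have h8 : ∑ γ, lam γ * (F γ - μ) = ∑ γ, lam γ * F γ - (∑ γ, lam γ) * μ := by
    rw [Finset.sum_mul, ← Finset.sum_sub_distrib]
    exact Finset.sum_congr rfl fun γ _ => by ring
  have h9 : (∑ γ, lam γ) * μ ≤ μ := by nlinarith
  rw [h8] at h7
  linarith

end Pool.Agent.J4.H79.HS
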