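import Pool.Agent.J4.H79.HS.Z1
import Pool.Agent.J4.H79.HS.V3

/-!
The sum version of the theorem about families determined by the line counts.
-/

namespace Pool.Agent.J4.H79.HS

open Finset

/-- **Families determined by the line counts**, from the kernel. -/
theorem line_sum_of (d : ℕ) (hd : 1 ≤ d)
    (kernel : ∀ ε : ℝ, 0 < ε →
      ∃ n R : ℕ, 0 < n ∧ ∃ lam : Finset (Fin n) → ℝ, (∀ γ, 0 ≤ lam γ) ∧
        (∀ γ, lam γ ≠ 0 → γ.Nonempty ∧ γ.card ≤ R) ∧ ∑ γ, lam γ ≤ 1 ∧ 1 - ε ≤ ∑ γ, lam γ ∧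
        ∀ θ : (Fin (d - 1) → Fin n) → ℝ,
          -ε ≤ ∑ γ, lam γ * Real.cos (2 * Real.pi * ((γ.card : ℝ) *
            ∑ c ∈ Fintype.piFinset (fun _ : Fin (d - 1) => γ), θ c)))
    (ε : ℝ) (hε : 0 < ε) :
    ∃ n R N₀ : ℕ, ∃ lam : Finset (Fin n) → ℝ, (∀ γ, 0 ≤ lam γ) ∧
      (∀ γ, lam γ ≠ 0 → γ.Nonempty ∧ γ.card ≤ R) ∧ ∑ γ, lam γ ≤ 1 ∧ 0 < ∑ γ, lam γ ∧ n ≤ N₀ ∧
      ∀ (N : ℕ) (_ : N₀ ≤ N) (hnN : n ≤ N), ∀ S : Finset (Finset (Fin d → Fin N)),
      (∀ A B : Finset (Fin d → Fin N),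
        (∀ (j : Fin d) (u : Fin d → Fin N), (A.filter fun c => ∀ l, l ≠ j → c l = u l).card =
          (B.filter fun c => ∀ l, l ≠ j → c l = u l).card) → (A ∈ S ↔ B ∈ S)) →
        ((S.card : ℝ) / 2 ^ (N ^ d)) ^ 2 - ε ≤
          ∑ γ, lam γ * (((S.filter (fun A => Disjoint A (cube d (γ.map (Fin.castLEEmb hnN))) ∧
            A ∪ cube d (γ.map (Fin.castLEEmb hnN)) ∈ S)).card : ℝ) /
            2 ^ (N ^ d - γ.card ^ d)) := by
  classical
  set ε' : ℝ := min (ε / 4) (1 / 2) with hε'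
  have hε'0 : 0 < ε' := by rw [hε']; positivity
  have hε'1 : ε' < 1 := lt_of_le_of_lt (min_le_right _ _) (by norm_num)
  have hε'2 : 4 * ε' ≤ ε := by have := min_le_left (ε / 4) (1 / 2); linarith
  obtain ⟨n, R, hn, lam, hl0, hl1, hl2, hl3, hl4⟩ := kernel ε' hε'0
  obtain ⟨L₀, hL₀⟩ := exists_nat_gt ((R : ℝ) ^ d / ε')
  set L := L₀ + 1 with hL
  have hLpos : 0 < L := by omega
  have hLp : (0 : ℝ) < L := by exact_mod_cast hLpos
  have hRL : (R : ℝ) ^ d / L ≤ ε' := by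
    have h1 : (R : ℝ) ^ d / ε' < L := by rw [hL]; push_cast; linarith
    rw [div_lt_iff₀ hε'0] at h1
    rw [div_le_iff₀ hLp]; linarith
  set K : ℝ := 3 * ((n : ℝ) + 1) ^ d + 3 * ((n : ℝ) ^ (d - 1) * L * 2 ^ d) with hK
  have hK0 : 0 ≤ K := by positivity
  obtain ⟨m₀, hm₀⟩ := exists_nat_gt (2 ^ (2 ^ d - 1) * (2 * K / ε') ^ 2)
  set m := m₀ + 1 with hm
  have hmpos : 0 < m := by omega
  have hmp : (0 : ℝ) < m := by exact_mod_cast hmpos
  set δ : ℝ := 2 * Real.sqrt (2 ^ (2 ^ d - 1) / m) with hδ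
  have hδ0 : 0 ≤ δ := by positivity
  have hKδ : K * δ ≤ ε' := by
    have h1 : (2 : ℝ) ^ (2 ^ d - 1) * (2 * K / ε') ^ 2 ≤ m := by rw [hm]; push_cast; linarith
    have h2 : (2 * K) ^ 2 * (2 ^ (2 ^ d - 1) / m) ≤ ε' ^ 2 := by
      rw [div_pow, ← mul_div_assoc, div_le_iff₀ (by positivity)] at h1
      rw [← mul_div_assoc, div_le_iff₀ hmp]
      linarith
    have h3 : 2 * K * Real.sqrt (2 ^ (2 ^ d - 1) / m) ≤ ε' := by
      rw [← Real.sqrt_sq (by positivity : (0 : ℝ) ≤ 2 * K), ← Real.sqrt_mul (by positivity),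
        ← Real.sqrt_sq hε'0.le]
      exact Real.sqrt_le_sqrt h2
    rw [hδ]; linarith
  refine ⟨n, R, n + 1 + m, lam, hl0, hl1, hl2, by linarith, by omega, ?_⟩
  intro N hN hnN' S hS
  have hnN : n < N := by omega
  have hnN1 : n + 1 ≤ N := by omega
  set C₀ : Finset (Fin d → Fin N) :=
    univ.filter fun x : Fin d → Fin N => ∀ j, (x j : ℕ) < n + 1 with hC₀
  have hC₀c : C₀.card = (n + 1) ^ d := by
    have h1 : C₀ = Fintype.piFinset (fun _ : Fin d =>
        (univ.filter fun a : Fin N => (a : ℕ) < n + 1)) := by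
      ext x; simp [hC₀, Fintype.mem_piFinset]
    rw [h1, Fintype.card_piFinset_const]
    congr 1
    have h2 : (univ.filter fun a : Fin N => (a : ℕ) < n + 1) =
        (univ : Finset (Fin (n + 1))).map (Fin.castLEEmb hnN1) := by
      ext a
      simp only [Finset.mem_filter, Finset.mem_univ, true_and, Finset.mem_map, Fin.castLEEmb_apply]
      constructor
      · intro h; exact ⟨⟨a, h⟩, by ext; rfl⟩
      · rintro ⟨b, rfl⟩; exact b.2
    rw [h2, Finset.card_map, Finset.card_univ, Fintype.card_fin]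
  set up : Finset (Fin n) → Finset (Fin N) := fun γ => γ.map (Fin.castLEEmb hnN.le) with hup
  have hsm : ∀ c ∈ C₀, Sm (univ \ C₀) lw δ (lw c) := fun c hc =>
    smooth_line d (n + 1) m N hd hmpos hN c (Finset.mem_filter.1 hc).2
  obtain ⟨z, hz1, hz2⟩ := zvec d n N hd hnN
  set k : Finset (Fin n) → (Fin (d - 1) → Fin n) → ℕ :=
    fun γ c' => if c' ∈ Fintype.piFinset (fun _ : Fin (d - 1) => γ) then γ.card else 0 with hk
  have hk1 : ∀ γ i, i ∈ Fintype.piFinset (fun _ : Fin (d - 1) => γ) → k γ i = γ.card :=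
    fun γ i hi => if_pos hi
  have hk0 : ∀ γ i, i ∉ Fintype.piFinset (fun _ : Fin (d - 1) => γ) → k γ i = 0 :=
    fun γ i hi => if_neg hi
  have hksum : ∀ (γ : Finset (Fin n)) (θ : (Fin (d - 1) → Fin n) → ℝ),
      ∑ i, (k γ i : ℝ) * θ i =
        (γ.card : ℝ) * ∑ i ∈ Fintype.piFinset (fun _ : Fin (d - 1) => γ), θ i := by
    intro γ θ
    rw [Finset.mul_sum, ← Finset.sum_filter_add_sum_filter_not univ
      (fun i => i ∈ Fintype.piFinset (fun _ : Fin (d - 1) => γ))]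
    rw [Finset.sum_eq_zero (s := univ.filter fun i => ¬ i ∈
      Fintype.piFinset (fun _ : Fin (d - 1) => γ)) (fun i hi => by
      rw [hk0 γ i (Finset.mem_filter.1 hi).2]; simp), add_zero]
    rw [Finset.filter_mem_eq_inter, Finset.univ_inter]
    refine Finset.sum_congr rfl fun i hi => ?_
    rw [hk1 γ i hi]
  have s1 : ∀ γ, (fun γ => cube d (up γ)) γ ⊆ C₀ := by
    intro γ c hc
    rw [hC₀, Finset.mem_filter]
    refine ⟨Finset.mem_univ _, fun j => ?_⟩
    have hc' : c ∈ Fintype.piFinset (fun _ : Fin d => up γ) := hc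
    rw [Fintype.mem_piFinset] at hc'
    have := hc' j
    rw [hup, Finset.mem_map] at this
    obtain ⟨b, _, hb⟩ := this
    rw [← hb]; exact Nat.lt_succ_of_lt b.2
  have s2 : ∀ γ, ∑ c ∈ (fun γ => cube d (up γ)) γ, lw c = ∑ i, k γ i • z i := by
    intro γ
    have h1 := hz2 γ
    have h2 : ∑ c ∈ (fun γ => cube d (up γ)) γ, lw c =
        γ.card • ∑ c' ∈ Fintype.piFinset (fun _ : Fin (d - 1) => γ), z c' := h1
    rw [h2, Finset.smul_sum, ← Finset.sum_filter_add_sum_filter_not univ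
      (fun i => i ∈ Fintype.piFinset (fun _ : Fin (d - 1) => γ))]
    rw [Finset.sum_eq_zero (s := univ.filter fun i => ¬ i ∈
      Fintype.piFinset (fun _ : Fin (d - 1) => γ)) (fun i hi => by
      rw [hk0 γ i (Finset.mem_filter.1 hi).2, zero_smul]), add_zero]
    rw [Finset.filter_mem_eq_inter, Finset.univ_inter]
    refine Finset.sum_congr rfl fun i hi => ?_
    rw [hk1 γ i hi]
  have s3 : ∀ θ : (Fin (d - 1) → Fin n) → ℝ,
      -ε' ≤ ∑ γ, lam γ * Real.cos (2 * Real.pi * ∑ i, (k γ i : ℝ) * θ i) := by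
    intro θ
    have h1 := hl4 θ
    refine le_trans h1 (le_of_eq ?_)
    refine Finset.sum_congr rfl fun γ _ => ?_
    rw [hksum]
  have s4 : ∀ γ, lam γ ≠ 0 → ∑ i, (k γ i : ℝ) ≤ (R : ℝ) ^ d := by
    intro γ hγ
    have h1 := hksum γ (fun _ => 1)
    simp only [mul_one] at h1
    rw [h1, Finset.sum_const, nsmul_eq_mul, mul_one, Fintype.card_piFinset_const]
    have h2 : (γ.card : ℝ) ≤ R := by exact_mod_cast (hl1 γ hγ).2
    push_cast
    rw [← pow_succ', Nat.sub_add_cancel hd]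
    gcongr
  have s5 : ∀ i, Sm (univ \ C₀) lw (2 ^ d * δ) (z i) := by
    intro i
    obtain ⟨a, s, ha, hs, hzi⟩ := hz1 i
    rw [hzi]
    have h1 : ∀ t ∈ (univ : Finset (Fin (2 ^ d))), Sm (univ \ C₀) lw δ (s t • lw (a t)) := by
      intro t _
      have h2 : Sm (univ \ C₀) lw δ (lw (a t)) := by
        apply hsm
        rw [hC₀, Finset.mem_filter]
        exact ⟨Finset.mem_univ _, ha t⟩
      rcases hs t with h | h | h
      · rw [h, zero_smul]
        exact Sm_mono Sm_zero hδ0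
      · rw [h, one_smul]
        exact h2
      · rw [h, neg_smul, one_smul]
        exact Sm_neg h2
    refine Sm_mono (Sm_sum univ (fun _ => δ) (fun t => s t • lw (a t)) h1) ?_
    rw [Finset.sum_const, nsmul_eq_mul, Finset.card_univ, Fintype.card_fin]
    push_cast
    exact le_rfl
  have hmain := assembly_sum (V := Fin d → (Fin d → Fin N) → ℤ) lw C₀ S
    (fun A B hAB => hS A B (fun j u => by
      have := congrFun (congrFun hAB j) u
      rw [sum_lw_apply, sum_lw_apply] at this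
      exact_mod_cast this))
    z k (fun γ => cube d (up γ)) s1 s2 lam hl0 ε' hε'0 hε'1 hl2 hl3 s3 ((R : ℝ) ^ d) (by positivity)
    s4 L hLpos δ (2 ^ d * δ) hδ0 (by positivity) hsm s5
  have hup1 : ∀ γ, (up γ).card = γ.card := fun γ => Finset.card_map _
  rw [Fintype.card_fun, Fintype.card_fin, Fintype.card_fin] at hmain
  have h1 : 3 * ((C₀.card : ℝ) * δ) +
      3 * ((Fintype.card (Fin (d - 1) → Fin n) : ℝ) * L * (2 ^ d * δ)) = K * δ := by
    rw [hC₀c, Fintype.card_fun, Fintype.card_fin, Fintype.card_fin, hK]; push_cast; ring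
  have h2 : ∑ γ, lam γ * (((S.filter (fun A => Disjoint A (cube d (up γ)) ∧
      A ∪ cube d (up γ) ∈ S)).card : ℝ) / 2 ^ (N ^ d - (cube d (up γ)).card)) =
      ∑ γ, lam γ * (((S.filter (fun A => Disjoint A (cube d (γ.map (Fin.castLEEmb hnN'))) ∧
            A ∪ cube d (γ.map (Fin.castLEEmb hnN')) ∈ S)).card : ℝ) /
            2 ^ (N ^ d - γ.card ^ d)) := by
    refine Finset.sum_congr rfl fun γ _ => ?_
    rw [card_cube, hup1]
  rw [← h2]
  refine le_trans ?_ hmain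
  linarith

end Pool.Agent.J4.H79.HS
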