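import Pool.Agent.J4.H79.HS.Z0

/-!
# Project HS, piece V5: permuting the coordinates of a family
-/

set_option autoImplicit false

namespace Pool.Agent.J4.H79.HS

open Finset

namespace V5

/-- the permutation of the points -/
def ep (d : ℕ) {N : ℕ} (π : Equiv.Perm (Fin N)) : (Fin d → Fin N) ≃ (Fin d → Fin N) :=
  Equiv.piCongrRight (fun _ => π)

theorem ep_apply {d N : ℕ} (π : Equiv.Perm (Fin N)) (c : Fin d → Fin N) (l : Fin d) :
    ep d π c l = π (c l) := rfl

theorem lineCount_map {d N : ℕ} (π : Equiv.Perm (Fin N)) (A : Finset (Fin d → Fin N)) (j : Fin d)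
    (u : Fin d → Fin N) :
    lineCount (A.map (ep d π).toEmbedding) j u = lineCount A j (fun l => π.symm (u l)) := by
  unfold lineCount
  rw [Finset.filter_map, Finset.card_map]
  congr 1
  apply Finset.filter_congr
  intro c _
  simp only [Function.comp_apply, Equiv.coe_toEmbedding, ep_apply, Equiv.eq_symm_apply]

theorem cube_map {d N : ℕ} (π : Equiv.Perm (Fin N)) (γ : Finset (Fin N)) :
    (cube d γ).map (ep d π).toEmbedding = cube d (γ.map π.toEmbedding) := by
  ext c
  rw [Finset.mem_map_equiv]
  simp only [cube, Fintype.mem_piFinset, Finset.mem_map_equiv]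
  rfl

end V5

/-- Permuting the coordinates. -/
theorem perm_family {d N : ℕ} (S : Finset (Finset (Fin d → Fin N)))
    (hS : ∀ A B : Finset (Fin d → Fin N), (∀ j u, lineCount A j u = lineCount B j u) → (A ∈ S ↔ B ∈ S))
    (π : Equiv.Perm (Fin N)) :
    ∃ S' : Finset (Finset (Fin d → Fin N)), S'.card = S.card ∧
      (∀ A B : Finset (Fin d → Fin N), (∀ j u, lineCount A j u = lineCount B j u) → (A ∈ S' ↔ B ∈ S')) ∧
      ∀ γ : Finset (Fin N),
        (S'.filter (fun A => Disjoint A (cube d γ) ∧ A ∪ cube d γ ∈ S')).card =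
        (S.filter (fun A => Disjoint A (cube d (γ.map π.toEmbedding)) ∧
          A ∪ cube d (γ.map π.toEmbedding) ∈ S)).card := by
  classical
  set E : Finset (Fin d → Fin N) → Finset (Fin d → Fin N) :=
    fun A => A.map (V5.ep d π).toEmbedding with hE
  have hinj : Function.Injective E := fun A B h => Finset.map_injective _ h
  have hsurj : ∀ B, ∃ A, E A = B := by
    intro B
    refine ⟨B.map (V5.ep d π).symm.toEmbedding, ?_⟩
    simp only [hE, Finset.map_map]
    ext x
    simp
  refine ⟨univ.filter (fun A => E A ∈ S), ?_, ?_, ?_⟩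
  · refine Finset.card_bij (fun A _ => E A) ?_ (fun A _ B _ h => hinj h) ?_
    · intro A hA
      exact (Finset.mem_filter.1 hA).2
    · intro B hB
      obtain ⟨A, rfl⟩ := hsurj B
      exact ⟨A, Finset.mem_filter.2 ⟨Finset.mem_univ _, hB⟩, rfl⟩
  · intro A B hAB
    simp only [Finset.mem_filter, Finset.mem_univ, true_and]
    apply hS
    intro j u
    simp only [hE, V5.lineCount_map]
    exact hAB j _
  · intro γ
    have hu : ∀ A, E (A ∪ cube d γ) = E A ∪ cube d (γ.map π.toEmbedding) := by
      intro A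
      simp only [hE, Finset.map_union, V5.cube_map]
    have hd : ∀ A, Disjoint A (cube d γ) ↔ Disjoint (E A) (cube d (γ.map π.toEmbedding)) := by
      intro A
      simp only [hE]
      rw [← V5.cube_map, Finset.disjoint_map]
    refine Finset.card_bij (fun A _ => E A) ?_ (fun A _ B _ h => hinj h) ?_
    · intro A hA
      simp only [Finset.mem_filter, Finset.mem_univ, true_and] at hA ⊢
      exact ⟨hA.1, (hd A).1 hA.2.1, (hu A) ▸ hA.2.2⟩
    · intro B hB
      obtain ⟨A, rfl⟩ := hsurj B
      simp only [Finset.mem_filter] at hB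
      refine ⟨A, ?_, rfl⟩
      simp only [Finset.mem_filter, Finset.mem_univ, true_and]
      exact ⟨hB.1, (hd A).2 hB.2.1, (hu A).symm ▸ hB.2.2⟩

end Pool.Agent.J4.H79.HS
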