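import Pool.Agent.J4.H79.HS.Z1
import Pool.Agent.J4.H79.HS.V1

namespace Pool.Agent.J4.H79.HS

open Finset

namespace V6

/-- the weighted inequality in the proof of `group_recurrence`, for fixed weights -/
theorem weighted {k n : ℕ} {ε' ε : ℝ} (hε'0 : 0 < ε') (hε'2 : 2 * ε' ≤ ε)
    (lam : Finset (Fin n) → ℝ) (hl0 : ∀ γ, 0 ≤ lam γ) (hl2 : ∑ γ, lam γ ≤ 1)
    (hl3 : 1 - ε' ≤ ∑ γ, lam γ)
    (hl4 : ∀ θ : (Fin k → Fin n) → ℝ,
        -ε' ≤ ∑ γ, lam γ * Real.cos (2 * Real.pi * ((γ.card : ℝ) *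
          ∑ c ∈ Fintype.piFinset (fun _ : Fin k => γ), θ c)))
    (H : Type) [AddCommGroup H] [Fintype H] [DecidableEq H] (h : (Fin k → Fin n) → H) (F : Finset H) :
    ((F.card : ℝ) / Fintype.card H) ^ 2 - ε ≤ ∑ γ, lam γ * (((F.filter fun x =>
        x + γ.card • ∑ c ∈ Fintype.piFinset (fun _ : Fin k => γ), h c ∈ F).card : ℝ) / Fintype.card H) := by
  classical
  set N : ℝ := (Fintype.card H : ℝ) with hN
  have hNp : 0 < N := by rw [hN]; exact_mod_cast Fintype.card_pos
  set kk : Finset (Fin n) → (Fin k → Fin n) → ℕ := fun γ c =>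
    if c ∈ Fintype.piFinset (fun _ : Fin k => γ) then γ.card else 0 with hkk
  set f : H → ℝ := fun x => if x ∈ F then 1 else 0 with hf
  have hsum : ∀ (γ : Finset (Fin n)) (θ : (Fin k → Fin n) → ℝ), ∑ c, (kk γ c : ℝ) * θ c =
      (γ.card : ℝ) * ∑ c ∈ Fintype.piFinset (fun _ : Fin k => γ), θ c := by
    intro γ θ
    rw [Finset.mul_sum, ← Finset.sum_subset (Finset.subset_univ (Fintype.piFinset (fun _ : Fin k => γ)))]
    · refine Finset.sum_congr rfl fun c hc => ?_
      rw [hkk]; simp only; rw [if_pos hc]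
    · intro c _ hc
      rw [hkk]; simp only; rw [if_neg hc]; simp
  have hsumH : ∀ γ : Finset (Fin n), ∑ c, kk γ c • h c =
      γ.card • ∑ c ∈ Fintype.piFinset (fun _ : Fin k => γ), h c := by
    intro γ
    rw [Finset.smul_sum, ← Finset.sum_subset (Finset.subset_univ (Fintype.piFinset (fun _ : Fin k => γ)))]
    · refine Finset.sum_congr rfl fun c hc => ?_
      rw [hkk]; simp only; rw [if_pos hc]
    · intro c _ hc
      rw [hkk]; simp only; rw [if_neg hc]; simp
  have hk := khintchine_gen hε'0.le kk lam (fun θ => by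
    refine le_trans (hl4 θ) (le_of_eq (Finset.sum_congr rfl fun γ _ => ?_))
    rw [hsum]) H h f
  have hf1 : ∑ x, f x = F.card := by
    rw [hf]; simp
  have hf2 : ∑ x, f x ^ 2 = F.card := by
    rw [hf]; simp
  have hcount : ∀ γ : Finset (Fin n), ∑ x, f x * f (x + ∑ c, kk γ c • h c) =
      ((F.filter fun x =>
        x + γ.card • ∑ c ∈ Fintype.piFinset (fun _ : Fin k => γ), h c ∈ F).card : ℝ) := by
    intro γ
    rw [hsumH, Finset.card_filter]
    push_cast
    rw [← Finset.sum_subset (Finset.subset_univ F)]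
    · refine Finset.sum_congr rfl fun x hx => ?_
      rw [hf]; simp only; rw [if_pos hx, one_mul]
    · intro x _ hx
      rw [hf]; simp only; rw [if_neg hx, zero_mul]
  rw [hf1, hf2, ← hN] at hk
  simp only [hcount] at hk
  have hD0 : 0 ≤ (F.card : ℝ) / N := by positivity
  have hD1 : (F.card : ℝ) / N ≤ 1 := by
    rw [div_le_one hNp, hN]
    exact_mod_cast Finset.card_le_univ F
  refine le_trans ?_ hk
  have h1 : ((F.card : ℝ) / N) ^ 2 ≤ 1 := by nlinarith
  have h2 : 0 ≤ ((F.card : ℝ) / N) ^ 2 := sq_nonneg _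
  nlinarith

/-- sums over cubes and injections -/
theorem sum_cube_map {H : Type} [AddCommGroup H] {k n m : ℕ} (e : Fin n ↪ Fin m) (γ : Finset (Fin n))
    (h : (Fin k → Fin m) → H) :
    ∑ c ∈ Fintype.piFinset (fun _ : Fin k => γ), h (fun l => e (c l)) =
      ∑ c ∈ Fintype.piFinset (fun _ : Fin k => γ.map e), h c := by
  classical
  refine Finset.sum_bij (fun c _ l => e (c l)) ?_ ?_ ?_ ?_
  · intro c hc
    rw [Fintype.mem_piFinset] at hc ⊢
    intro l
    exact Finset.mem_map_of_mem e (hc l)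
  · intro c _ c' _ hcc
    funext l
    exact e.injective (congrFun hcc l)
  · intro c hc
    rw [Fintype.mem_piFinset] at hc
    have h1 : ∀ l, ∃ a ∈ γ, e a = c l := fun l => Finset.mem_map.mp (hc l)
    choose a ha hac using h1
    refine ⟨a, ?_, ?_⟩
    · rw [Fintype.mem_piFinset]; exact ha
    · funext l; exact hac l
  · intro c _; rfl

end V6

open Classical in
/-- Averaged form of group_recurrence (file Z1). -/
theorem group_recurrence_avg (k : ℕ) (ε : ℝ) (hε : 0 < ε) :
    ∃ n₀ R : ℕ, ∀ n : ℕ, n₀ ≤ n → ∀ (H : Type) [AddCommGroup H] [Fintype H]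
      (h : (Fin k → Fin n) → H) (F : Finset H),
      ∃ s, 1 ≤ s ∧ s ≤ R ∧
        (((F.card : ℝ) / Fintype.card H) ^ 2 - ε) * (n.choose s * Fintype.card H) ≤
          ((univ.filter fun p : Finset (Fin n) × H => p.1.card = s ∧ p.2 ∈ F ∧
            p.2 + p.1.card • ∑ c ∈ cube k p.1, h c ∈ F).card : ℝ) := by
  set ε' : ℝ := min (ε / 2) (1 / 2) with hε'
  have hε'0 : 0 < ε' := by rw [hε']; positivity
  have hε'1 : ε' ≤ 1 / 2 := min_le_right _ _
  have hε'2 : 2 * ε' ≤ ε := by have := min_le_left (ε / 2) (1 / 2); linarith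
  obtain ⟨n₀, R, hn, lam, hl0, hl1, hl2, hl3, hl4⟩ := kernel_lines k ε' hε'0
  refine ⟨n₀, R, ?_⟩
  intro n hnn H _ _ h F
  set N : ℝ := (Fintype.card H : ℝ) with hN
  have hNp : 0 < N := by rw [hN]; exact_mod_cast Fintype.card_pos
  set e : Fin n₀ ↪ Fin n := Fin.castLEEmb hnn with he
  set P : Finset (Fin n) → ℝ := fun T => ((F.filter fun x =>
        x + T.card • ∑ c ∈ cube k T, h c ∈ F).card : ℝ) with hP
  set Y : ℝ := ((F.card : ℝ) / N) ^ 2 - ε with hY
  have hone : ∀ π : Equiv.Perm (Fin n), Y ≤ ∑ γ, lam γ * (P ((γ.map e).map π.toEmbedding) / N) := by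
    intro π
    have h1 := V6.weighted (k := k) (n := n₀) hε'0 hε'2 lam hl0 hl2 hl3 hl4 H
      (fun c => h (fun l => π (e (c l)))) F
    refine h1.trans (le_of_eq ?_)
    refine Finset.sum_congr rfl fun γ _ => ?_
    have h2 : ∑ c ∈ Fintype.piFinset (fun _ : Fin k => γ), h (fun l => π (e (c l))) =
        ∑ c ∈ cube k ((γ.map e).map π.toEmbedding), h c := by
      rw [Finset.map_map]
      exact V6.sum_cube_map (e.trans π.toEmbedding) γ h
    simp only [hP]
    rw [h2, Finset.card_map, Finset.card_map]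
  have hfact : (0 : ℝ) < (Nat.factorial n : ℝ) := by exact_mod_cast Nat.factorial_pos n
  have havg : Y ≤ ∑ γ : Finset (Fin n₀), lam γ * ((∑ T ∈ Finset.powersetCard γ.card (Finset.univ : Finset (Fin n)), P T) /
      (n.choose γ.card : ℝ) / N) := by
    have h1 : (Nat.factorial n : ℝ) * Y ≤ ∑ π : Equiv.Perm (Fin n), ∑ γ, lam γ * (P ((γ.map e).map π.toEmbedding) / N) := by
      have h2 : ∑ _π : Equiv.Perm (Fin n), Y = (Nat.factorial n : ℝ) * Y := by
        rw [Finset.sum_const, Finset.card_univ, Fintype.card_perm, Fintype.card_fin, nsmul_eq_mul]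
      rw [← h2]
      exact Finset.sum_le_sum fun π _ => hone π
    have h3 : ∑ π : Equiv.Perm (Fin n), ∑ γ, lam γ * (P ((γ.map e).map π.toEmbedding) / N) =
        (Nat.factorial n : ℝ) * ∑ γ : Finset (Fin n₀), lam γ * ((∑ T ∈ Finset.powersetCard γ.card (Finset.univ : Finset (Fin n)), P T) /
      (n.choose γ.card : ℝ) / N) := by
      rw [Finset.sum_comm, Finset.mul_sum]
      refine Finset.sum_congr rfl fun γ _ => ?_
      have h4 := perm_average n P (γ.map e)
      rw [Finset.card_map] at h4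
      rw [← h4, ← Finset.mul_sum, ← Finset.sum_div]
      field_simp
    rw [h3] at h1
    exact le_of_mul_le_mul_left h1 hfact
  have hPnn : ∀ T, 0 ≤ P T := fun T => by rw [hP]; positivity
  obtain ⟨γ, hγ, hγ'⟩ := exists_of_avg lam (fun γ : Finset (Fin n₀) =>
      ((∑ T ∈ Finset.powersetCard γ.card (Finset.univ : Finset (Fin n)), P T) /
      (n.choose γ.card : ℝ) / N)) hl0
    (fun γ => div_nonneg (div_nonneg (Finset.sum_nonneg fun T _ => hPnn T) (by positivity)) hNp.le)
    hl2 (by linarith) _ havg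
  refine ⟨γ.card, Finset.card_pos.mpr (hl1 γ hγ).1, (hl1 γ hγ).2, ?_⟩
  have hch : (0 : ℝ) < (n.choose γ.card : ℝ) := by
    have h1 : γ.card ≤ n := by
      have := Finset.card_le_univ γ
      rw [Fintype.card_fin] at this
      omega
    exact_mod_cast Nat.choose_pos h1
  rw [le_div_iff₀ hNp, le_div_iff₀ hch] at hγ'
  have hcnt : ((univ.filter fun p : Finset (Fin n) × H => p.1.card = γ.card ∧ p.2 ∈ F ∧
            p.2 + p.1.card • ∑ c ∈ cube k p.1, h c ∈ F).card : ℝ) =
      ∑ T ∈ Finset.powersetCard γ.card (Finset.univ : Finset (Fin n)), P T := by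
    have h1 : (univ.filter fun p : Finset (Fin n) × H => p.1.card = γ.card ∧ p.2 ∈ F ∧
            p.2 + p.1.card • ∑ c ∈ cube k p.1, h c ∈ F).card =
        ∑ T ∈ Finset.powersetCard γ.card (Finset.univ : Finset (Fin n)), (F.filter fun x =>
        x + T.card • ∑ c ∈ cube k T, h c ∈ F).card := by
      rw [Finset.card_eq_sum_card_fiberwise (f := Prod.fst)
        (t := Finset.powersetCard γ.card (Finset.univ : Finset (Fin n)))]
      · refine Finset.sum_congr rfl fun T hT => ?_
        rw [Finset.mem_powersetCard] at hT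
        refine Finset.card_bij (fun p _ => p.2) ?_ ?_ ?_
        · intro p hp
          rw [Finset.mem_filter, Finset.mem_filter] at hp
          obtain ⟨⟨_, h5, h6, h7⟩, h8⟩ := hp
          rw [Finset.mem_filter, ← h8]
          exact ⟨h6, h7⟩
        · intro p hp q hq hpq
          rw [Finset.mem_filter] at hp hq
          exact Prod.ext (hp.2.trans hq.2.symm) hpq
        · intro x hx
          rw [Finset.mem_filter] at hx
          refine ⟨(T, x), ?_, rfl⟩
          rw [Finset.mem_filter, Finset.mem_filter]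
          exact ⟨⟨Finset.mem_univ _, hT.2, hx.1, hx.2⟩, rfl⟩
      · intro p hp
        rw [Finset.mem_coe, Finset.mem_filter] at hp
        rw [Finset.mem_coe, Finset.mem_powersetCard]
        exact ⟨Finset.subset_univ _, hp.2.1⟩
    rw [h1]
    push_cast
    rfl
  rw [hcnt]
  calc Y * ((n.choose γ.card : ℝ) * N) = Y * N * (n.choose γ.card : ℝ) := by ring
    _ ≤ _ := hγ'

end Pool.Agent.J4.H79.HS
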