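import Pool.Agent.J4.H79.HS.Z0

/-!
# The proportion of the pairs is the average over `γ`
-/

namespace Pool.Agent.J4.H79.HS
open Finset
open Classical in
/-- The proportion of the pairs `(γ, A)` with `|γ| = s` and `A ∩ γ^d = ∅` for which both `A` and
`A ∪ γ^d` belong to the family `S`. -/
noncomputable def freq {N d : ℕ} (s : ℕ) (S : Finset (Finset (Fin d → Fin N))) : ℝ :=
  ((univ.filter fun p : Finset (Fin N) × Finset (Fin d → Fin N) =>
      p.1.card = s ∧ Disjoint p.2 (cube d p.1) ∧ p.2 ∈ S ∧ p.2 ∪ cube d p.1 ∈ S).card : ℝ) /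
    ((univ.filter fun p : Finset (Fin N) × Finset (Fin d → Fin N) =>
      p.1.card = s ∧ Disjoint p.2 (cube d p.1)).card : ℝ)

namespace V7

lemma card_pairs {α β : Type*} [Fintype α] [Fintype β] (p : α → Prop) (r : α → β → Prop)
    [DecidablePred p] [∀ a, DecidablePred (r a)]
    [DecidablePred fun x : α × β => p x.1 ∧ r x.1 x.2] :
    (univ.filter fun x : α × β => p x.1 ∧ r x.1 x.2).card =
      ∑ a ∈ univ.filter p, (univ.filter fun b => r a b).card := by
  rw [card_filter, ← univ_product_univ, sum_product, sum_filter]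
  apply sum_congr rfl
  intro a _
  rw [card_filter]
  by_cases h : p a
  · simp [h]
  · simp [h]

open Classical in
lemma card_disj {N d : ℕ} (γ : Finset (Fin N)) :
    (univ.filter fun A : Finset (Fin d → Fin N) => Disjoint A (cube d γ)).card =
      2 ^ (N ^ d - γ.card ^ d) := by
  have h1 : (univ.filter fun A : Finset (Fin d → Fin N) => Disjoint A (cube d γ)) =
      ((cube d γ)ᶜ).powerset := by
    ext A
    rw [mem_filter, mem_powerset]
    constructor
    · intro h
      exact le_compl_iff_disjoint_right.2 h.2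
    · intro h
      exact ⟨mem_univ _, le_compl_iff_disjoint_right.1 h⟩
  rw [h1, card_powerset, card_compl]
  congr 2
  · simp
  · unfold cube
    simp

end V7

open Classical in
/-- the denominator is C(N,s) 2^(N^d - s^d), and the numerator is the sum over the γ (both for s > N too: 0 = 0) -/
theorem freq_eq {d N : ℕ} (s : ℕ) (S : Finset (Finset (Fin d → Fin N))) :
    freq s S = (∑ γ ∈ Finset.powersetCard s (Finset.univ : Finset (Fin N)),
      ((S.filter (fun A => Disjoint A (cube d γ) ∧ A ∪ cube d γ ∈ S)).card : ℝ) /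
        2 ^ (N ^ d - γ.card ^ d)) / (N.choose s : ℝ) := by
  have hps : (univ.filter fun γ : Finset (Fin N) => γ.card = s) =
      Finset.powersetCard s (Finset.univ : Finset (Fin N)) := by
    ext γ
    simp [mem_powersetCard]
  have hnum : (univ.filter fun p : Finset (Fin N) × Finset (Fin d → Fin N) =>
      p.1.card = s ∧ Disjoint p.2 (cube d p.1) ∧ p.2 ∈ S ∧ p.2 ∪ cube d p.1 ∈ S).card =
      ∑ γ ∈ Finset.powersetCard s (Finset.univ : Finset (Fin N)),
        (S.filter (fun A => Disjoint A (cube d γ) ∧ A ∪ cube d γ ∈ S)).card := by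
    have h := V7.card_pairs (fun γ : Finset (Fin N) => γ.card = s)
      (fun (γ : Finset (Fin N)) (A : Finset (Fin d → Fin N)) =>
        Disjoint A (cube d γ) ∧ A ∈ S ∧ A ∪ cube d γ ∈ S)
    rw [hps] at h
    refine h.trans (sum_congr rfl fun γ _ => ?_)
    congr 1
    ext A
    simp only [mem_filter, mem_univ, true_and]
    tauto
  have hden : (univ.filter fun p : Finset (Fin N) × Finset (Fin d → Fin N) =>
      p.1.card = s ∧ Disjoint p.2 (cube d p.1)).card = N.choose s * 2 ^ (N ^ d - s ^ d) := by
    have h := V7.card_pairs (fun γ : Finset (Fin N) => γ.card = s)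
      (fun (γ : Finset (Fin N)) (A : Finset (Fin d → Fin N)) => Disjoint A (cube d γ))
    rw [hps] at h
    refine h.trans ?_
    have h2 : ∀ γ ∈ Finset.powersetCard s (Finset.univ : Finset (Fin N)),
        (univ.filter fun A : Finset (Fin d → Fin N) => Disjoint A (cube d γ)).card =
          2 ^ (N ^ d - s ^ d) := by
      intro γ hγ
      rw [V7.card_disj, (mem_powersetCard.1 hγ).2]
    rw [sum_congr rfl h2, sum_const, card_powersetCard, card_univ, Fintype.card_fin, smul_eq_mul]
  unfold freq
  rw [hnum, hden]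
  have h3 : ∀ γ ∈ Finset.powersetCard s (Finset.univ : Finset (Fin N)),
      ((S.filter (fun A => Disjoint A (cube d γ) ∧ A ∪ cube d γ ∈ S)).card : ℝ) /
        2 ^ (N ^ d - γ.card ^ d) =
      ((S.filter (fun A => Disjoint A (cube d γ) ∧ A ∪ cube d γ ∈ S)).card : ℝ) /
        2 ^ (N ^ d - s ^ d) := by
    intro γ hγ
    rw [(mem_powersetCard.1 hγ).2]
  rw [sum_congr rfl h3, ← sum_div, div_div]
  push_cast
  rw [mul_comm]

end Pool.Agent.J4.H79.HS
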