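import Pool.Agent.J4.H79.HS.V1
import Pool.Agent.J4.H79.HS.V4
import Pool.Agent.J4.H79.HS.V5
import Pool.Agent.J4.H79.HS.V7

/-!
The averaged form of the theorem about the families determined by the line counts: the frequency is
at least `D² - ε` for some bounded size `s`.
-/

namespace Pool.Agent.J4.H79.HS

open Finset

/-- from the weighted sums over the images of the sets `γ₀ ⊆ Fin n` under all permutations to the
average over all sets of one size -/
theorem choose_size {n N : ℕ} (hnN : n ≤ N) (R : ℕ) (lam : Finset (Fin n) → ℝ)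
    (hl0 : ∀ γ, 0 ≤ lam γ) (hl1 : ∀ γ, lam γ ≠ 0 → γ.Nonempty ∧ γ.card ≤ R)
    (hl2 : ∑ γ, lam γ ≤ 1) (hl3 : 0 < ∑ γ, lam γ) (P : Finset (Fin N) → ℝ) (hP : ∀ γ, 0 ≤ P γ)
    (Y : ℝ) (hY : ∀ π : Equiv.Perm (Fin N),
      Y ≤ ∑ γ, lam γ * P ((γ.map (Fin.castLEEmb hnN)).map π.toEmbedding)) :
    ∃ s, 1 ≤ s ∧ s ≤ R ∧
      Y ≤ (∑ γ ∈ Finset.powersetCard s (Finset.univ : Finset (Fin N)), P γ) / (N.choose s : ℝ) := by
  classical
  have hfac : (0 : ℝ) < (Nat.factorial N : ℝ) := by exact_mod_cast Nat.factorial_pos N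
  have h1 : Y ≤ ∑ γ, lam γ * ((∑ γ' ∈ Finset.powersetCard γ.card (Finset.univ : Finset (Fin N)), P γ') /
      (N.choose γ.card : ℝ)) := by
    have h2 : Y * (Nat.factorial N : ℝ) ≤ ∑ π : Equiv.Perm (Fin N),
        ∑ γ, lam γ * P ((γ.map (Fin.castLEEmb hnN)).map π.toEmbedding) := by
      calc Y * (Nat.factorial N : ℝ) = ∑ _π : Equiv.Perm (Fin N), Y := by
            rw [Finset.sum_const, Finset.card_univ, Fintype.card_perm, Fintype.card_fin, nsmul_eq_mul,
              mul_comm]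
        _ ≤ _ := Finset.sum_le_sum fun π _ => hY π
    rw [Finset.sum_comm] at h2
    rw [← le_div_iff₀ hfac, Finset.sum_div] at h2
    refine h2.trans (le_of_eq (Finset.sum_congr rfl fun γ _ => ?_))
    rw [← Finset.mul_sum, mul_div_assoc, perm_average N P (γ.map (Fin.castLEEmb hnN)),
      Finset.card_map]
  obtain ⟨γ, hγ, hγ'⟩ := exists_of_avg lam (fun γ =>
    (∑ γ' ∈ Finset.powersetCard γ.card (Finset.univ : Finset (Fin N)), P γ') /
      (N.choose γ.card : ℝ)) hl0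
    (fun γ => div_nonneg (Finset.sum_nonneg fun γ' _ => hP γ') (by positivity)) hl2 hl3 Y h1
  exact ⟨γ.card, Finset.card_pos.2 (hl1 γ hγ).1, (hl1 γ hγ).2, hγ'⟩

/-- **Families determined by the line counts, averaged form.** -/
theorem line_families_avg (d : ℕ) (hd : 1 ≤ d) (ε : ℝ) (hε : 0 < ε) :
    ∃ M N₀ : ℕ, ∀ N : ℕ, N₀ ≤ N → ∀ S : Finset (Finset (Fin d → Fin N)),
      (∀ A B : Finset (Fin d → Fin N), (∀ j u, lineCount A j u = lineCount B j u) →
        (A ∈ S ↔ B ∈ S)) →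
      ∃ s, 1 ≤ s ∧ s ≤ M ∧ ((S.card : ℝ) / 2 ^ (N ^ d)) ^ 2 - ε ≤ freq s S := by
  classical
  obtain ⟨n, R, N₀, lam, hl0, hl1, hl2, hl3, hn, h⟩ :=
    line_sum_of d hd (fun ε hε => kernel_lines (d - 1) ε hε) ε hε
  refine ⟨R, N₀, fun N hN S hS => ?_⟩
  have hnN : n ≤ N := hn.trans hN
  obtain ⟨s, hs1, hs2, hs3⟩ := choose_size hnN R lam hl0 hl1 hl2 hl3
    (fun γ => ((S.filter (fun A => Disjoint A (cube d γ) ∧ A ∪ cube d γ ∈ S)).card : ℝ) /
        2 ^ (N ^ d - γ.card ^ d)) (fun γ => by positivity)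
    (((S.card : ℝ) / 2 ^ (N ^ d)) ^ 2 - ε) (fun π => by
      obtain ⟨S', h1, h2, h3⟩ := perm_family S hS π
      have h4 := h N hN hnN S' (fun A B hAB => h2 A B hAB)
      rw [h1] at h4
      refine h4.trans (le_of_eq (Finset.sum_congr rfl fun γ _ => ?_))
      rw [h3]
      simp only [Finset.card_map])
  refine ⟨s, hs1, hs2, ?_⟩
  rw [freq_eq]
  exact hs3

end Pool.Agent.J4.H79.HS
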