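import Pool.Agent.J4.H79.HS.Defs

/-! Project HS (helper79), piece W1 (helper30): the crude inverse theorem for Weyl sums. -/

set_option autoImplicit false

namespace Pool.Agent.J4.H79.HS

open Finset Polynomial ComplexConjugate

theorem nn_add (x y : ℝ) : nn (x + y) ≤ nn x + nn y := by
  have h := nn_le (x + y) (round x + round y)
  refine h.trans ?_
  unfold nn
  push_cast
  calc |x + y - ((round x : ℝ) + round y)| = |(x - round x) + (y - round y)| := by congr 1; ring
    _ ≤ |x - round x| + |y - round y| := abs_add_le _ _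

theorem nn_neg_le (x : ℝ) : nn (-x) ≤ nn x := by
  have h := nn_le (-x) (-round x)
  refine h.trans (le_of_eq ?_)
  unfold nn
  push_cast
  rw [← abs_neg]
  congr 1
  ring

theorem nn_sub (x y : ℝ) : nn (x - y) ≤ nn x + nn y := by
  rw [sub_eq_add_neg]
  exact (nn_add _ _).trans (by linarith [nn_neg_le y])

theorem nn_le_half (x : ℝ) : nn x ≤ 1 / 2 := abs_sub_round x

theorem four_nn_le (x : ℝ) : 4 * nn x ≤ ‖e x - 1‖ := by
  have h1 : e x = e (x - round x) := by
    rw [sub_eq_add_neg, e_add]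
    have : e (-(round x : ℝ)) = 1 := by
      have := e_int (-(round x))
      push_cast at this
      exact this
    rw [this, mul_one]
  have h2 : ‖e x - 1‖ = |2 * Real.sin (Real.pi * (x - round x))| := by
    rw [h1]
    unfold e
    have h3 := Complex.norm_exp_I_mul_ofReal_sub_one (2 * Real.pi * (x - round x))
    rw [show (2 * (Real.pi : ℂ) * ((x - round x : ℝ) : ℂ) * Complex.I)
      = Complex.I * ((2 * Real.pi * (x - round x) : ℝ) : ℂ) by push_cast; ring, h3, Real.norm_eq_abs]
    congr 3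
    ring
  rw [h2]
  unfold nn
  obtain ⟨t, ht⟩ : ∃ t : ℝ, t = x - round x := ⟨_, rfl⟩
  rw [← ht]
  have ht2 : |t| ≤ 1 / 2 := by rw [ht]; exact abs_sub_round x
  have h4 : 2 / Real.pi * (Real.pi * |t|) ≤ Real.sin (Real.pi * |t|) := by
    apply Real.mul_le_sin
    · positivity
    · nlinarith [Real.pi_pos]
  have h5 : 2 / Real.pi * (Real.pi * |t|) = 2 * |t| := by
    have := Real.pi_ne_zero
    field_simp
  rw [h5] at h4
  have h6 : Real.sin (Real.pi * |t|) ≤ |Real.sin (Real.pi * t)| := by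
    rcases abs_cases t with ⟨h, _⟩ | ⟨h, _⟩
    · rw [h]; exact le_abs_self _
    · rw [h, mul_neg, Real.sin_neg]; exact neg_le_abs _
  rw [abs_mul, abs_of_pos (by norm_num : (0 : ℝ) < 2)]
  linarith

/-- van der Corput: the expansion of the square -/
theorem sq_expand (z : ℕ → ℂ) (S : ℕ) :
    (∑ s ∈ range S, z s) * conj (∑ s ∈ range S, z s) =
      ∑ s ∈ range S, z s * conj (z s) +
        (∑ s ∈ range S, ∑ t ∈ range s, z s * conj (z t)) +
        conj (∑ s ∈ range S, ∑ t ∈ range s, z s * conj (z t)) := by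
  induction S with
  | zero => simp
  | succ S ih =>
    rw [sum_range_succ, sum_range_succ, sum_range_succ, map_add, add_mul, mul_add, mul_add, ih, ← mul_sum,
      map_add, map_mul, ← map_sum, Complex.conj_conj]
    ring

theorem diff_sum (F : ℕ → ℕ → ℂ) (S : ℕ) :
    ∑ s ∈ range S, ∑ t ∈ range s, F s t = ∑ h ∈ Ico 1 S, ∑ s ∈ range (S - h), F (h + s) s := by
  have h1 : ∀ s, ∑ t ∈ range s, F s t = ∑ h ∈ Ico 1 (s + 1), F s (s - h) := by
    intro s
    rw [sum_Ico_eq_sum_range, Nat.add_sub_cancel, ← sum_range_reflect]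
    refine sum_congr rfl fun j hj => ?_
    congr 1
    omega
  rw [sum_congr rfl fun s _ => h1 s, sum_comm' (t' := Ico 1 S) (s' := fun h => Ico h S)]
  · refine sum_congr rfl fun h _ => ?_
    rw [sum_Ico_eq_sum_range]
    refine sum_congr rfl fun s _ => ?_
    rw [Nat.add_sub_cancel_left]
  · intro s h
    simp only [mem_range, mem_Ico]
    omega

theorem vdc (S : ℕ) (z : ℕ → ℂ) (hz : ∀ s, ‖z s‖ = 1) :
    ‖∑ s ∈ range S, z s‖ ^ 2 ≤
      S + 2 * ∑ h ∈ Ico 1 S, ‖∑ s ∈ range (S - h), z (h + s) * conj (z s)‖ := by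
  have h1 := congrArg norm (sq_expand z S)
  rw [norm_mul, RCLike.norm_conj, ← sq] at h1
  rw [h1]
  have h2 : ‖∑ s ∈ range S, ∑ t ∈ range s, z s * conj (z t)‖ ≤
      ∑ h ∈ Ico 1 S, ‖∑ s ∈ range (S - h), z (h + s) * conj (z s)‖ := by
    rw [diff_sum (fun s t => z s * conj (z t))]
    exact norm_sum_le _ _
  have h3 : ‖∑ s ∈ range S, z s * conj (z s)‖ ≤ S := by
    refine (norm_sum_le _ _).trans ?_
    rw [sum_congr rfl fun s _ => by rw [norm_mul, RCLike.norm_conj, hz s, one_mul]]
    simp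
  refine (norm_add_le _ _).trans ?_
  rw [RCLike.norm_conj]
  have h4 := norm_add_le (∑ s ∈ range S, z s * conj (z s)) (∑ s ∈ range S, ∑ t ∈ range s, z s * conj (z t))
  linarith

theorem taylor_coeff_ge (p : ℝ[X]) (r : ℝ) (n : ℕ) (hn : p.natDegree ≤ n) :
    (taylor r p).coeff n = p.coeff n := by
  rw [taylor_coeff]
  have h1 : (hasseDeriv n p).natDegree < 1 := by
    have := natDegree_hasseDeriv_le p n
    omega
  rw [eval_eq_sum_range' h1]
  simp [hasseDeriv_coeff]

theorem taylor_coeff_pred (p : ℝ[X]) (r : ℝ) (k : ℕ) (hk : p.natDegree ≤ k + 1) :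
    (taylor r p).coeff k = p.coeff k + (k + 1) * r * p.coeff (k + 1) := by
  rw [taylor_coeff]
  have h1 : (hasseDeriv k p).natDegree < 2 := by
    have := natDegree_hasseDeriv_le p k
    omega
  rw [eval_eq_sum_range' h1, sum_range_succ, sum_range_succ, range_zero, sum_empty]
  simp only [hasseDeriv_coeff, zero_add, Nat.choose_self, pow_zero, pow_one, Nat.cast_one, one_mul, mul_one]
  rw [add_comm 1 k, Nat.choose_succ_self_right]
  push_cast
  ring

theorem weyl_inverse (k : ℕ) (hk : 1 ≤ k) (c : ℝ) (hc : 0 < c) :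
    ∃ C : ℕ, 0 < C ∧ ∀ (S : ℕ) (p : Polynomial ℝ), 0 < S → p.natDegree ≤ k →
      c * S ≤ ‖∑ s ∈ Finset.range S, e (p.eval (s : ℝ))‖ →
      ∃ h : ℕ, 1 ≤ h ∧ h ≤ C ∧ nn (h * p.coeff k) ≤ C / S := by
  classical
  induction k, hk using Nat.le_induction generalizing c with
  | base =>
    refine ⟨⌈1 / (2 * c)⌉₊ + 1, by omega, fun S p hS hp hsum => ⟨1, le_rfl, by omega, ?_⟩⟩
    have hS0 : (0 : ℝ) < S := by exact_mod_cast hS
    obtain ⟨α, hα⟩ : ∃ α : ℝ, α = p.coeff 1 := ⟨_, rfl⟩
    have hev : ∀ s : ℕ, e (p.eval (s : ℝ)) = e (p.coeff 0) * e α ^ s := by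
      intro s
      rw [← e_nat_mul, ← e_add]
      congr 1
      rw [eval_eq_sum_range' (show p.natDegree < 2 by omega), sum_range_succ, sum_range_succ, range_zero,
        sum_empty, hα]
      ring
    rw [sum_congr rfl fun s _ => hev s, ← mul_sum, norm_mul, norm_e, one_mul] at hsum
    have h1 : ‖∑ s ∈ range S, e α ^ s‖ * ‖e α - 1‖ ≤ 2 := by
      rw [← norm_mul, geom_sum_mul]
      refine (norm_sub_le _ _).trans ?_
      rw [norm_pow, norm_e, one_pow, norm_one]
      norm_num
    have h2 : c * S * (4 * nn α) ≤ 2 := by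
      refine le_trans ?_ h1
      exact mul_le_mul hsum (four_nn_le α) (by have := nn_nonneg α; positivity) (norm_nonneg _)
    rw [Nat.cast_one, one_mul, ← hα, le_div_iff₀ hS0]
    push_cast
    have h3 : nn α * S ≤ 1 / (2 * c) := by
      rw [le_div_iff₀ (by positivity)]
      nlinarith
    have h4 := Nat.le_ceil (1 / (2 * c))
    linarith
  | succ k hk ih =>
    obtain ⟨C', hC', ih'⟩ := ih (c ^ 2 / 8) (by positivity)
    obtain ⟨D, hD⟩ : ∃ D : ℕ, D = ⌈16 * (C' : ℝ) / c ^ 2⌉₊ + 1 := ⟨_, rfl⟩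
    obtain ⟨E, hE⟩ : ∃ E : ℕ, E = ⌈4 / c ^ 2⌉₊ := ⟨_, rfl⟩
    have hD0 : 0 < D := by omega
    have hDr : (0 : ℝ) < D := by exact_mod_cast hD0
    have hCr : (0 : ℝ) < C' := by exact_mod_cast hC'
    have hD1 : 16 * (C' : ℝ) / c ^ 2 < D := by
      rw [hD]
      push_cast
      have := Nat.le_ceil (16 * (C' : ℝ) / c ^ 2)
      linarith
    have hE1 : 4 / c ^ 2 ≤ (E : ℝ) := by rw [hE]; exact Nat.le_ceil _
    refine ⟨C' * (k + 1) * D + D + E + 1, by omega, fun S p hS hp hsum => ?_⟩
    have hS0 : (0 : ℝ) < S := by exact_mod_cast hS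
    by_cases hsmall : S < D + E + 1
    · refine ⟨1, le_rfl, by omega, (nn_le_half _).trans ?_⟩
      rw [le_div_iff₀ hS0]
      have h1 : (S : ℝ) ≤ ((C' * (k + 1) * D + D + E + 1 : ℕ) : ℝ) := by
        have : S ≤ C' * (k + 1) * D + D + E + 1 := by omega
        exact_mod_cast this
      linarith
    -- large `S`
    have hSD : (D : ℝ) ≤ S := by
      have : D ≤ S := by omega
      exact_mod_cast this
    have hSE : (E : ℝ) ≤ S := by
      have : E ≤ S := by omega
      exact_mod_cast this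
    have hc2 : 0 < c ^ 2 := by positivity
    have hS4 : 4 ≤ c ^ 2 * S := by
      have h1 : 4 / c ^ 2 ≤ S := hE1.trans hSE
      rw [div_le_iff₀ hc2] at h1
      linarith
    have hS16 : 16 * C' < c ^ 2 * S := by
      have h1 : 16 * (C' : ℝ) / c ^ 2 < S := lt_of_lt_of_le hD1 hSD
      rw [div_lt_iff₀ hc2] at h1
      linarith
    obtain ⟨q, hq⟩ : ∃ q : ℕ → ℝ[X], q = fun h : ℕ => taylor (h : ℝ) p - p := ⟨_, rfl⟩
    obtain ⟨I, hI⟩ : ∃ I : ℕ → ℝ, I = fun h : ℕ => ‖∑ s ∈ range (S - h), e ((q h).eval (s : ℝ))‖ := ⟨_, rfl⟩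
    have hI1 : ∀ h, I h = ‖∑ s ∈ range (S - h), e (p.eval ((h + s : ℕ) : ℝ)) * conj (e (p.eval (s : ℝ)))‖ := by
      intro h
      rw [hI]
      simp only
      congr 1
      refine sum_congr rfl fun s _ => ?_
      rw [← e_sub, hq]
      congr 1
      rw [eval_sub, taylor_eval]
      push_cast
      rw [add_comm]
    have hIle : ∀ h, I h ≤ ((S - h : ℕ) : ℝ) := by
      intro h
      rw [hI]
      refine (norm_sum_le _ _).trans ?_
      simp [norm_e]
    have hsq : c ^ 2 * S ^ 2 ≤ S + 2 * ∑ h ∈ Ico 1 S, I h := by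
      have h1 := vdc S (fun s => e (p.eval (s : ℝ))) (fun s => norm_e _)
      have h2 : (c * S) ^ 2 ≤ ‖∑ s ∈ range S, e (p.eval (s : ℝ))‖ ^ 2 :=
        pow_le_pow_left₀ (by positivity) hsum 2
      rw [mul_pow] at h2
      refine (h2.trans h1).trans (le_of_eq ?_)
      congr 2
      exact sum_congr rfl fun h _ => (hI1 h).symm
    have hsumI : c ^ 2 * S ^ 2 / 4 ≤ ∑ h ∈ Ico 1 S, I h := by
      have h1 : (S : ℝ) ≤ c ^ 2 * S ^ 2 / 4 := by nlinarith
      nlinarith
    obtain ⟨Hs, hHs⟩ : ∃ Hs : Finset ℕ, Hs = (Ico 1 S).filter (fun h => c ^ 2 / 8 * S ≤ I h) := ⟨_, rfl⟩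
    have hcard : c ^ 2 / 8 * S ≤ Hs.card := by
      have h1 : ∑ h ∈ Ico 1 S, I h ≤ Hs.card * S + S * (c ^ 2 / 8 * S) := by
        rw [← sum_filter_add_sum_filter_not (Ico 1 S) (fun h => c ^ 2 / 8 * S ≤ I h), ← hHs]
        apply add_le_add
        · rw [← nsmul_eq_mul]
          apply sum_le_card_nsmul
          intro h _
          refine (hIle h).trans ?_
          exact_mod_cast Nat.sub_le S h
        · calc ∑ h ∈ (Ico 1 S).filter (fun h => ¬ c ^ 2 / 8 * S ≤ I h), I h
              ≤ ((Ico 1 S).filter (fun h => ¬ c ^ 2 / 8 * S ≤ I h)).card • (c ^ 2 / 8 * S) := by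
                apply sum_le_card_nsmul
                intro h hh
                exact (not_le.1 (mem_filter.1 hh).2).le
            _ ≤ S * (c ^ 2 / 8 * S) := by
                rw [nsmul_eq_mul]
                apply mul_le_mul_of_nonneg_right _ (by positivity)
                have h2 := card_filter_le (Ico 1 S) (fun h => ¬ c ^ 2 / 8 * S ≤ I h)
                rw [Nat.card_Ico] at h2
                have h3 : ((Ico 1 S).filter (fun h => ¬ c ^ 2 / 8 * S ≤ I h)).card ≤ S := by omega
                exact_mod_cast h3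
      have h2 : c ^ 2 * S ^ 2 / 4 ≤ Hs.card * S + S * (c ^ 2 / 8 * S) := hsumI.trans h1
      have h3 : (c ^ 2 / 8 * S) * S ≤ Hs.card * S := by nlinarith
      exact le_of_mul_le_mul_right h3 hS0
    -- the multipliers
    have hm : ∀ h ∈ Hs, ∃ m : ℕ, 1 ≤ m ∧ m ≤ C' ∧
        nn (m * ((k + 1) * h * p.coeff (k + 1))) ≤ 8 * C' / (c ^ 2 * S) := by
      intro h hh
      rw [hHs, mem_filter, mem_Ico] at hh
      have hL0 : 0 < S - h := by omega
      have hL : c ^ 2 / 8 * S ≤ ((S - h : ℕ) : ℝ) := hh.2.trans (hIle h)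
      have hcoef : (q h).coeff k = (k + 1) * h * p.coeff (k + 1) := by
        rw [hq]
        simp only
        rw [coeff_sub, taylor_coeff_pred p _ k hp]
        ring
      have hdeg : (q h).natDegree ≤ k := by
        rw [natDegree_le_iff_coeff_eq_zero]
        intro n hn
        rw [hq]
        simp only
        rw [coeff_sub, taylor_coeff_ge p _ n (by omega), sub_self]
      have hbig : c ^ 2 / 8 * ((S - h : ℕ) : ℝ) ≤ ‖∑ s ∈ range (S - h), e ((q h).eval (s : ℝ))‖ := by
        have h1 : ((S - h : ℕ) : ℝ) ≤ S := by exact_mod_cast Nat.sub_le S h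
        have h2 : c ^ 2 / 8 * ((S - h : ℕ) : ℝ) ≤ c ^ 2 / 8 * S :=
          mul_le_mul_of_nonneg_left h1 (by positivity)
        have h3 := hh.2
        rw [hI] at h3
        exact h2.trans h3
      obtain ⟨m, hm1, hm2, hm3⟩ := ih' (S - h) (q h) hL0 hdeg hbig
      rw [hcoef] at hm3
      refine ⟨m, hm1, hm2, hm3.trans ?_⟩
      rw [div_le_div_iff₀ (by exact_mod_cast hL0) (by positivity)]
      nlinarith
    choose! m hm1 hm2 hm3 using hm
    -- pigeonhole
    have hpig : ((Icc 1 C') ×ˢ (range (S / D + 1))).card < Hs.card := by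
      rw [card_product, Nat.card_Icc, card_range, Nat.add_sub_cancel]
      have h1 : ((C' * (S / D + 1) : ℕ) : ℝ) < Hs.card := by
        push_cast
        have h2 : ((S / D : ℕ) : ℝ) ≤ S / D := Nat.cast_div_le
        have h3 : (C' : ℝ) * (S / D) < c ^ 2 * S / 16 := by
          rw [mul_div_assoc', div_lt_div_iff₀ hDr (by norm_num)]
          rw [div_lt_iff₀ hc2] at hD1
          nlinarith
        nlinarith
      exact_mod_cast h1
    obtain ⟨h, hh, h', hh', hne, heq⟩ := exists_ne_map_eq_of_card_lt_of_maps_to hpig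
      (f := fun h => (m h, h / D)) (by
        intro h hh
        have h1 := hh
        rw [mem_coe] at h1
        have h3 : h ∈ Hs := h1
        rw [hHs, mem_filter, mem_Ico] at h1
        simp only [coe_product, Set.mem_prod, mem_coe, mem_Icc, mem_range]
        refine ⟨⟨hm1 h h3, hm2 h h3⟩, ?_⟩
        have := Nat.div_le_div_right (c := D) h1.1.2.le
        omega)
    -- two close elements
    have main : ∀ a b : ℕ, a ∈ Hs → b ∈ Hs → a < b → m a = m b → a / D = b / D →
        ∃ h : ℕ, 1 ≤ h ∧ h ≤ C' * (k + 1) * D + D + E + 1 ∧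
          nn (h * p.coeff (k + 1)) ≤ ((C' * (k + 1) * D + D + E + 1 : ℕ) : ℝ) / S := by
      intro a b ha hb hab hmab hdab
      have hgap : b - a ≤ D := by
        have h1 := Nat.div_add_mod a D
        have h2 := Nat.div_add_mod b D
        have h3 := Nat.mod_lt a hD0
        have h4 := Nat.mod_lt b hD0
        rw [hdab] at h1
        omega
      refine ⟨m a * (k + 1) * (b - a), ?_, ?_, ?_⟩
      · have h1 := hm1 a ha
        have h2 : 1 ≤ b - a := by omega
        have h3 : 1 ≤ k + 1 := by omega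
        exact Nat.one_le_iff_ne_zero.2 (by positivity)
      · have h1 : m a * (k + 1) * (b - a) ≤ C' * (k + 1) * D :=
          Nat.mul_le_mul (Nat.mul_le_mul_right _ (hm2 a ha)) hgap
        omega
      · have h1 : ((m a * (k + 1) * (b - a) : ℕ) : ℝ) * p.coeff (k + 1) =
            m b * ((k + 1) * b * p.coeff (k + 1)) - m a * ((k + 1) * a * p.coeff (k + 1)) := by
          push_cast [Nat.cast_sub hab.le]
          rw [hmab]
          ring
        rw [h1]
        refine (nn_sub _ _).trans ?_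
        have h2 := hm3 a ha
        have h3 := hm3 b hb
        have h4 : 8 * C' / (c ^ 2 * S) + 8 * C' / (c ^ 2 * S) ≤
            ((C' * (k + 1) * D + D + E + 1 : ℕ) : ℝ) / S := by
          have h5 : 8 * C' / (c ^ 2 * S) + 8 * C' / (c ^ 2 * S) = (16 * C' / c ^ 2) / S := by
            field_simp
            ring
          rw [h5]
          apply div_le_div_of_nonneg_right _ hS0.le
          refine hD1.le.trans ?_
          have : D ≤ C' * (k + 1) * D + D + E + 1 := by omega
          exact_mod_cast this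
        linarith
    simp only [Prod.mk.injEq] at heq
    rcases lt_or_gt_of_ne hne with h1 | h1
    · exact main h h' hh hh' h1 heq.1 heq.2
    · exact main h' h hh' hh h1 heq.1.symm heq.2.symm

end Pool.Agent.J4.H79.HS
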