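import Pool.Agent.J4.H79.HS.W1
import Pool.Agent.helper132_sph.WeylInv

/-! Project HS (helper79), piece X1 (helper30): the inverse theorem for Weyl sums, all coefficients. -/

set_option autoImplicit false

namespace Pool.Agent.J4.H79.HS

open Finset Polynomial ComplexConjugate

theorem x1_Ph (m : ℕ) : ∀ p : ℝ[X], p.natDegree ≤ m →
    Pool.Agent.helper132_sph.Ph m (p.coeff m) (fun n : ℤ => p.eval (n : ℝ)) := by
  induction m with
  | zero =>
    intro p hp n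
    show p.eval (n : ℝ) = p.coeff 0
    rw [eq_C_of_natDegree_le_zero hp]
    simp
  | succ m ih =>
    intro p hp h
    have hdeg : (taylor (h : ℝ) p - p).natDegree ≤ m := by
      rw [natDegree_le_iff_coeff_eq_zero]
      intro n hn
      rw [coeff_sub, taylor_coeff_ge p _ n (by omega), sub_self]
    have h1 := ih (taylor (h : ℝ) p - p) hdeg
    have h2 : (taylor (h : ℝ) p - p).coeff m = ((m : ℝ) + 1) * h * p.coeff (m + 1) := by
      rw [coeff_sub, taylor_coeff_pred p _ m hp]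
      ring
    rw [h2] at h1
    have h3 : (fun n : ℤ => (taylor (h : ℝ) p - p).eval (n : ℝ)) =
        fun n : ℤ => p.eval ((n + h : ℤ) : ℝ) - p.eval (n : ℝ) := by
      funext n
      rw [eval_sub, taylor_eval]
      push_cast
      rfl
    rw [h3] at h1
    exact h1

theorem x1_SW (k : ℕ) (hk : 1 ≤ k) (c : ℝ) (hc : 0 < c) : ∃ C : ℕ, 0 < C ∧ ∀ (S : ℕ) (p : ℝ[X]), 0 < S →
    p.natDegree ≤ k → c * S ≤ ‖∑ s ∈ range S, e (p.eval (s : ℝ))‖ →
    ∃ h : ℕ, 1 ≤ h ∧ h ≤ C ∧ ∃ z : ℤ, |h * p.coeff k - z| ≤ C / (S : ℝ) ^ k := by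
  obtain ⟨A, C₀, hA, hC₀, hmain⟩ := Pool.Agent.helper132_sph.weyl_inverse k hk
  have hcA : 0 < c ^ A := by positivity
  refine ⟨⌈C₀ / c ^ A⌉₊ + 1, by omega, fun S p hS hp hsum => ?_⟩
  have hS0 : (0 : ℝ) < S := by exact_mod_cast hS
  obtain ⟨q, z, hq1, hq2, hq3⟩ := hmain S hS (p.coeff k) _ (x1_Ph k p hp) 0 S (by simp)
  have hS1 : ∑ n ∈ Ico (0 : ℤ) S, Pool.Agent.helper132_sph.ec (p.eval (n : ℝ)) = ∑ s ∈ range S, e (p.eval (s : ℝ)) := by
    have h1 : Ico (0 : ℤ) S = (range S).map Nat.castEmbedding := by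
      ext n
      simp only [mem_Ico, mem_map, mem_range, Nat.castEmbedding_apply]
      constructor
      · rintro ⟨h2, h3⟩
        exact ⟨n.toNat, by omega, by omega⟩
      · rintro ⟨m, h2, h3⟩
        omega
    rw [h1, sum_map]
    refine sum_congr rfl fun s _ => ?_
    simp only [Nat.castEmbedding_apply]
    unfold e Pool.Agent.helper132_sph.ec
    push_cast
    rfl
  rw [hS1] at hq2 hq3
  obtain ⟨u, hu⟩ : ∃ u : ℝ, u = ‖∑ s ∈ range S, e (p.eval (s : ℝ))‖ / S := ⟨_, rfl⟩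
  rw [← hu] at hq2 hq3
  have hcu : c ≤ u := by rw [hu, le_div_iff₀ hS0]; exact hsum
  have hcuA : c ^ A ≤ u ^ A := pow_le_pow_left₀ hc.le hcu A
  have hceil := Nat.le_ceil (C₀ / c ^ A)
  refine ⟨q, hq1, ?_, z, ?_⟩
  · have h1 : (q : ℝ) ≤ C₀ / c ^ A := by
      rw [le_div_iff₀ hcA]
      exact (mul_le_mul_of_nonneg_left hcuA (Nat.cast_nonneg q)).trans hq2
    have h2 : (q : ℝ) ≤ ((⌈C₀ / c ^ A⌉₊ + 1 : ℕ) : ℝ) := by push_cast; linarith
    exact_mod_cast h2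
  · rw [le_div_iff₀ (by positivity)]
    push_cast
    have h1 : |(q : ℝ) * p.coeff k - z| * (S : ℝ) ^ k ≤ C₀ / c ^ A := by
      rw [le_div_iff₀ hcA]
      have h2 : |(q : ℝ) * p.coeff k - z| * (S : ℝ) ^ k * c ^ A ≤
          |(q : ℝ) * p.coeff k - z| * (S : ℝ) ^ k * u ^ A :=
        mul_le_mul_of_nonneg_left hcuA (by positivity)
      have h3 : |(q : ℝ) * p.coeff k - z| * (S : ℝ) ^ k * u ^ A =
          |(q : ℝ) * p.coeff k - z| * u ^ A * (S : ℝ) ^ k := by ring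
      linarith
    linarith

theorem x1_shift (f : ℕ → ℂ) (hf : ∀ s, ‖f s‖ ≤ 1) (S m : ℕ) :
    ‖∑ s ∈ range S, f s - ∑ s ∈ range S, f (s + m)‖ ≤ 2 * m := by
  have h1 : ∑ s ∈ range S, f s + ∑ s ∈ range m, f (S + s) = ∑ s ∈ range m, f s + ∑ s ∈ range S, f (m + s) := by
    rw [← sum_range_add, ← sum_range_add, add_comm S m]
  have h2 : ∑ s ∈ range S, f s - ∑ s ∈ range S, f (s + m) = ∑ s ∈ range m, f s - ∑ s ∈ range m, f (S + s) := by
    have h3 : ∑ s ∈ range S, f (s + m) = ∑ s ∈ range S, f (m + s) := by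
      refine sum_congr rfl fun s _ => by rw [add_comm]
    rw [h3]
    linear_combination h1
  rw [h2]
  have hb : ∀ g : ℕ → ℂ, (∀ s, ‖g s‖ ≤ 1) → ‖∑ s ∈ range m, g s‖ ≤ m := by
    intro g hg
    refine (norm_sum_le _ _).trans ((sum_le_sum fun s _ => hg s).trans ?_)
    simp
  refine (norm_sub_le _ _).trans ?_
  have := hb f hf
  have := hb (fun s => f (S + s)) (fun s => hf _)
  linarith

theorem x1_prog (f : ℕ → ℂ) (hf : ∀ s, ‖f s‖ ≤ 1) (c : ℝ) (S L q : ℕ) (hS : 0 < S) (hL : 0 < L)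
    (hsum : c * S ≤ ‖∑ s ∈ range S, f s‖) (hqL : 4 * (q : ℝ) * L ≤ c * S) :
    ∃ m < S, c / 2 * L ≤ ‖∑ t ∈ range L, f (m + q * t)‖ := by
  by_contra hcon
  push Not at hcon
  have hS0 : (0 : ℝ) < S := by exact_mod_cast hS
  have hL0 : (0 : ℝ) < L := by exact_mod_cast hL
  have h1 : ‖∑ s ∈ range S, ∑ t ∈ range L, f (s + q * t)‖ < S * (c / 2 * L) := by
    refine lt_of_le_of_lt (norm_sum_le _ _) ?_
    have h2 : ∑ s ∈ range S, ‖∑ t ∈ range L, f (s + q * t)‖ < ∑ s ∈ range S, c / 2 * L :=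
      sum_lt_sum_of_nonempty (nonempty_range_iff.2 hS.ne') fun s hs => hcon s (mem_range.1 hs)
    rwa [sum_const, card_range, nsmul_eq_mul] at h2
  rw [sum_comm] at h1
  have h3 : ‖(L : ℂ) * ∑ s ∈ range S, f s - ∑ t ∈ range L, ∑ s ∈ range S, f (s + q * t)‖ ≤ 2 * q * L * L := by
    have h4 : (L : ℂ) * ∑ s ∈ range S, f s - ∑ t ∈ range L, ∑ s ∈ range S, f (s + q * t) =
        ∑ t ∈ range L, (∑ s ∈ range S, f s - ∑ s ∈ range S, f (s + q * t)) := by
      rw [sum_sub_distrib, sum_const, card_range, nsmul_eq_mul]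
    rw [h4]
    refine (norm_sum_le _ _).trans ?_
    have h5 : ∀ t ∈ range L, ‖∑ s ∈ range S, f s - ∑ s ∈ range S, f (s + q * t)‖ ≤ 2 * q * L := by
      intro t ht
      refine (x1_shift f hf S (q * t)).trans ?_
      have h6 : (t : ℝ) ≤ L := by exact_mod_cast (mem_range.1 ht).le
      push_cast
      nlinarith [Nat.cast_nonneg (α := ℝ) q]
    refine (sum_le_sum h5).trans ?_
    rw [sum_const, card_range, nsmul_eq_mul]
    exact le_of_eq (by ring)
  have h7 : (L : ℝ) * (c * S) ≤ ‖(L : ℂ) * ∑ s ∈ range S, f s‖ := by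
    rw [norm_mul, Complex.norm_natCast]
    exact mul_le_mul_of_nonneg_left hsum hL0.le
  have h8 : ‖(L : ℂ) * ∑ s ∈ range S, f s‖ ≤
      ‖(L : ℂ) * ∑ s ∈ range S, f s - ∑ t ∈ range L, ∑ s ∈ range S, f (s + q * t)‖ +
        ‖∑ t ∈ range L, ∑ s ∈ range S, f (s + q * t)‖ := by
    have := norm_add_le ((L : ℂ) * ∑ s ∈ range S, f s - ∑ t ∈ range L, ∑ s ∈ range S, f (s + q * t))
      (∑ t ∈ range L, ∑ s ∈ range S, f (s + q * t))
    rwa [sub_add_cancel] at this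
  have h9 : 2 * (q : ℝ) * L * L ≤ c / 2 * S * L := by nlinarith
  nlinarith

theorem nn_int_mul (z : ℤ) (x : ℝ) : nn (z * x) ≤ |(z : ℝ)| * nn x := by
  have h := nn_le (z * x) (z * round x)
  refine h.trans (le_of_eq ?_)
  unfold nn
  push_cast
  rw [← abs_mul]
  congr 1
  ring

theorem nn_zero : nn 0 = 0 := by simp [nn]

theorem nn_sum {ι : Type} (s : Finset ι) (f : ι → ℝ) : nn (∑ i ∈ s, f i) ≤ ∑ i ∈ s, nn (f i) := by
  classical
  induction s using Finset.induction_on with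
  | empty => simp [nn_zero]
  | insert a s ha ih =>
    rw [sum_insert ha, sum_insert ha]
    exact (nn_add _ _).trans (by linarith)

theorem x1_taylor_coeff (g : ℝ[X]) (k i : ℕ) (hg : g.natDegree ≤ k) (r : ℝ) :
    (taylor r g).coeff i = ∑ l ∈ range (k + 1), (l.choose i : ℝ) * g.coeff l * r ^ (l - i) := by
  rw [taylor_coeff, hasseDeriv_apply, Polynomial.eval_sum,
    Polynomial.sum_over_range' g (by intro n; simp) (k + 1) (by omega)]
  refine sum_congr rfl fun l _ => ?_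
  rw [eval_monomial]

/-- the coefficients of a shifted polynomial -/
theorem x1_shift_bound (g : ℝ[X]) (k : ℕ) (hg : g.natDegree ≤ k) (S m : ℕ) (hS : 0 < S) (hm : m ≤ S) (B : ℝ)
    (hB : 0 ≤ B) (h : ∀ i, 1 ≤ i → nn (g.coeff i) ≤ B / (S : ℝ) ^ i) (i : ℕ) (hi : 1 ≤ i) :
    nn ((taylor (-(m : ℝ)) g).coeff i) ≤ (k + 1) * 2 ^ k * B / (S : ℝ) ^ i := by
  have hS0 : (0 : ℝ) < S := by exact_mod_cast hS
  rw [x1_taylor_coeff g k i hg]
  refine (nn_sum _ _).trans ?_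
  have hterm : ∀ l ∈ range (k + 1), nn ((l.choose i : ℝ) * g.coeff l * (-(m : ℝ)) ^ (l - i)) ≤
      2 ^ k * B / (S : ℝ) ^ i := by
    intro l hl
    rw [mem_range] at hl
    rcases lt_or_ge l i with hli | hli
    · rw [Nat.choose_eq_zero_of_lt hli]
      simp only [Nat.cast_zero, zero_mul, nn_zero]
      positivity
    · have h1 : (l.choose i : ℝ) * g.coeff l * (-(m : ℝ)) ^ (l - i) =
          (((l.choose i : ℤ) * (-(m : ℤ)) ^ (l - i) : ℤ) : ℝ) * g.coeff l := by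
        push_cast; ring
      rw [h1]
      refine (nn_int_mul _ _).trans ?_
      have h2 : |(((l.choose i : ℤ) * (-(m : ℤ)) ^ (l - i) : ℤ) : ℝ)| ≤ 2 ^ k * (S : ℝ) ^ (l - i) := by
        push_cast
        rw [abs_mul, abs_pow, abs_neg, Nat.abs_cast, Nat.abs_cast]
        apply mul_le_mul
        · have h3 : l.choose i ≤ 2 ^ k := (Nat.choose_le_two_pow l i).trans
            (Nat.pow_le_pow_right (by norm_num) (by omega))
          exact_mod_cast h3
        · exact pow_le_pow_left₀ (Nat.cast_nonneg _) (by exact_mod_cast hm) _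
        · positivity
        · positivity
      calc |(((l.choose i : ℤ) * (-(m : ℤ)) ^ (l - i) : ℤ) : ℝ)| * nn (g.coeff l)
          ≤ 2 ^ k * (S : ℝ) ^ (l - i) * (B / (S : ℝ) ^ l) :=
            mul_le_mul h2 (h l (by omega)) (nn_nonneg _) (by positivity)
        _ = 2 ^ k * B / (S : ℝ) ^ i := by
            have h4 : (S : ℝ) ^ l = (S : ℝ) ^ (l - i) * (S : ℝ) ^ i := by
              rw [← pow_add]; congr 1; omega
            rw [h4]
            field_simp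
  refine (sum_le_sum hterm).trans ?_
  rw [sum_const, card_range, nsmul_eq_mul]
  push_cast
  exact le_of_eq (by ring)

theorem x1_pow_sub (a b : ℝ) (hb : 0 ≤ b) (hab : b ≤ a) (n : ℕ) :
    a ^ (n + 1) - b ^ (n + 1) ≤ (n + 1) * (a - b) * a ^ n := by
  have ha : 0 ≤ a := hb.trans hab
  induction n with
  | zero => simp
  | succ n ih =>
    have h1 : a ^ (n + 1 + 1) - b ^ (n + 1 + 1) = a * (a ^ (n + 1) - b ^ (n + 1)) + (a - b) * b ^ (n + 1) := by
      ring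
    have h2 : b ^ (n + 1) ≤ a ^ (n + 1) := pow_le_pow_left₀ hb hab _
    have h3 : a * (a ^ (n + 1) - b ^ (n + 1)) ≤ a * ((n + 1) * (a - b) * a ^ n) :=
      mul_le_mul_of_nonneg_left ih ha
    have h4 : (a - b) * b ^ (n + 1) ≤ (a - b) * a ^ (n + 1) :=
      mul_le_mul_of_nonneg_left h2 (by linarith)
    rw [h1]
    push_cast
    have h5 : a * ((n + 1) * (a - b) * a ^ n) + (a - b) * a ^ (n + 1) = (n + 1 + 1) * (a - b) * a ^ (n + 1) := by
      ring
    linarith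

theorem x1_e_sub_one (x : ℝ) : ‖e x - 1‖ ≤ 2 * Real.pi * |x| := by
  have h1 := Real.norm_exp_I_mul_ofReal_sub_one_le (x := 2 * Real.pi * x)
  have h2 : Complex.exp (Complex.I * ((2 * Real.pi * x : ℝ) : ℂ)) = e x := by
    unfold e
    congr 1
    push_cast
    ring
  rw [h2, Real.norm_eq_abs, abs_mul, abs_of_pos (by positivity : 0 < 2 * Real.pi)] at h1
  exact h1

/-- the top coefficient is removed on a short progression -/
theorem x1_remove (k : ℕ) (p : ℝ[X]) (C₁ S L q m : ℕ) (z : ℤ) (c : ℝ) (hc : 0 < c) (hS : 0 < S)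
    (hq : 1 ≤ q) (hm : m < S) (hqL : q * L ≤ S)
    (hz : |q * p.coeff (k + 1) - z| ≤ C₁ / (S : ℝ) ^ (k + 1))
    (hL : 26 * (C₁ * (k + 1) * 2 ^ k) * (L : ℝ) ≤ c * S)
    (hsum : c / 2 * L ≤ ‖∑ t ∈ range L, e (p.eval ((m + q * t : ℕ) : ℝ))‖) :
    c / 4 * L ≤ ‖∑ t ∈ range L, e ((p - monomial (k + 1) (p.coeff (k + 1))).eval ((m + q * t : ℕ) : ℝ))‖ := by
  have hS0 : (0 : ℝ) < S := by exact_mod_cast hS
  have hq0 : (0 : ℝ) < q := by exact_mod_cast hq
  obtain ⟨α, hα⟩ : ∃ α : ℝ, α = p.coeff (k + 1) := ⟨_, rfl⟩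
  rw [← hα] at hz ⊢
  obtain ⟨θ, hθ⟩ : ∃ θ : ℝ, θ = q * α - z := ⟨_, rfl⟩
  rw [← hθ] at hz
  -- the integers
  have hM : ∀ t : ℕ, ∃ M : ℤ, ((m + q * t : ℕ) : ℝ) ^ (k + 1) - (m : ℝ) ^ (k + 1) = q * (M : ℝ) := by
    intro t
    have h1 : (q : ℤ) ∣ ((m : ℤ) + q * t) ^ (k + 1) - (m : ℤ) ^ (k + 1) :=
      (Dvd.intro (t : ℤ) (by ring : (q : ℤ) * t = ((m : ℤ) + q * t) - m)).trans (sub_dvd_pow_sub_pow _ _ _)
    obtain ⟨M, hM⟩ := h1
    refine ⟨M, ?_⟩
    have h2 := congrArg (fun x : ℤ => (x : ℝ)) hM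
    push_cast at h2 ⊢
    exact h2
  choose M hM using hM
  have hMb : ∀ t ∈ range L, |θ * M t| ≤ c / 26 := by
    intro t ht
    have htL : (t : ℝ) ≤ L := by exact_mod_cast (mem_range.1 ht).le
    have h1 : q * (M t : ℝ) ≤ (k + 1) * (q * t) * (2 * S : ℝ) ^ k := by
      rw [← hM t]
      have h2 := x1_pow_sub ((m + q * t : ℕ) : ℝ) m (Nat.cast_nonneg _) (by push_cast; nlinarith [Nat.cast_nonneg (α := ℝ) t]) k
      refine h2.trans ?_
      have h3 : ((m + q * t : ℕ) : ℝ) - m = q * t := by push_cast; ring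
      rw [h3]
      apply mul_le_mul_of_nonneg_left _ (by positivity)
      apply pow_le_pow_left₀ (Nat.cast_nonneg _)
      have h4 : m + q * t ≤ 2 * S := by
        have : q * t ≤ q * L := Nat.mul_le_mul_left _ (mem_range.1 ht).le
        omega
      exact_mod_cast h4
    have h2 : 0 ≤ (M t : ℝ) := by
      have h3 : 0 ≤ q * (M t : ℝ) := by
        rw [← hM t, sub_nonneg]
        apply pow_le_pow_left₀ (Nat.cast_nonneg _)
        push_cast
        nlinarith [Nat.cast_nonneg (α := ℝ) t]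
      exact nonneg_of_mul_nonneg_right h3 hq0
    have h3 : (M t : ℝ) ≤ (k + 1) * t * (2 * S : ℝ) ^ k := by
      have h4 : q * (M t : ℝ) ≤ q * ((k + 1) * t * (2 * S : ℝ) ^ k) := by
        refine h1.trans (le_of_eq (by ring))
      exact le_of_mul_le_mul_left h4 hq0
    have h4 : (M t : ℝ) ≤ (k + 1) * L * (2 * S : ℝ) ^ k := by
      refine h3.trans ?_
      apply mul_le_mul_of_nonneg_right _ (by positivity)
      exact mul_le_mul_of_nonneg_left htL (by positivity)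
    rw [abs_mul, abs_of_nonneg h2]
    calc |θ| * (M t : ℝ) ≤ C₁ / (S : ℝ) ^ (k + 1) * ((k + 1) * L * (2 * S : ℝ) ^ k) :=
          mul_le_mul hz h4 h2 (by positivity)
      _ = (C₁ * (k + 1) * 2 ^ k) * (L : ℝ) / S := by
          rw [mul_pow]
          field_simp
          ring
      _ ≤ c / 26 := by
          rw [div_le_div_iff₀ hS0 (by norm_num)]
          linarith
  -- the factorisation
  obtain ⟨p₁, hp₁⟩ : ∃ p₁ : ℝ[X], p₁ = p - monomial (k + 1) α := ⟨_, rfl⟩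
  rw [← hp₁]
  have hev : ∀ t, e (p.eval ((m + q * t : ℕ) : ℝ)) =
      e (α * (m : ℝ) ^ (k + 1)) * (e (p₁.eval ((m + q * t : ℕ) : ℝ)) * e (θ * M t)) := by
    intro t
    have h1 : p.eval ((m + q * t : ℕ) : ℝ) = α * (m : ℝ) ^ (k + 1) + (p₁.eval ((m + q * t : ℕ) : ℝ) + θ * M t) +
        ((z * M t : ℤ) : ℝ) := by
      have h2 := hM t
      rw [hp₁, eval_sub, eval_monomial]
      have h3 : α * ((m + q * t : ℕ) : ℝ) ^ (k + 1) = α * (m : ℝ) ^ (k + 1) + α * (q * (M t : ℝ)) := by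
        rw [← h2]; ring
      rw [h3, hθ]
      push_cast
      ring
    rw [h1, e_add, e_int, mul_one, e_add, e_add]
  rw [sum_congr rfl fun t _ => hev t, ← mul_sum, norm_mul, norm_e, one_mul] at hsum
  have h5 : ‖∑ t ∈ range L, e (p₁.eval ((m + q * t : ℕ) : ℝ)) * e (θ * M t)‖ ≤
      ‖∑ t ∈ range L, e (p₁.eval ((m + q * t : ℕ) : ℝ))‖ + c / 4 * L := by
    have h6 : ∑ t ∈ range L, e (p₁.eval ((m + q * t : ℕ) : ℝ)) * e (θ * M t) =
        ∑ t ∈ range L, e (p₁.eval ((m + q * t : ℕ) : ℝ)) +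
          ∑ t ∈ range L, e (p₁.eval ((m + q * t : ℕ) : ℝ)) * (e (θ * M t) - 1) := by
      rw [← sum_add_distrib]
      exact sum_congr rfl fun t _ => by ring
    rw [h6]
    refine (norm_add_le _ _).trans ?_
    apply add_le_add le_rfl
    refine (norm_sum_le _ _).trans ?_
    have h7 : ∀ t ∈ range L, ‖e (p₁.eval ((m + q * t : ℕ) : ℝ)) * (e (θ * M t) - 1)‖ ≤ c / 4 := by
      intro t ht
      rw [norm_mul, norm_e, one_mul]
      refine (x1_e_sub_one _).trans ?_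
      have h8 := hMb t ht
      have h9 := Real.pi_lt_d2
      have h10 := Real.pi_pos
      nlinarith [abs_nonneg (θ * M t)]
    refine (sum_le_sum h7).trans ?_
    rw [sum_const, card_range, nsmul_eq_mul]
    exact le_of_eq (by ring)
  linarith

/-- the induction step, for `c ≤ 1` -/
theorem x1_step (k : ℕ) (c : ℝ) (hc : 0 < c) (hc1 : c ≤ 1)
    (ih : ∃ C : ℕ, 0 < C ∧ ∀ (S : ℕ) (p : Polynomial ℝ), 0 < S → p.natDegree ≤ k →
      c / 4 * S ≤ ‖∑ s ∈ Finset.range S, e (p.eval (s : ℝ))‖ →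
      ∃ h : ℕ, 1 ≤ h ∧ h ≤ C ∧ ∀ i, 1 ≤ i → nn (h * p.coeff i) ≤ C / (S : ℝ) ^ i) :
    ∃ C : ℕ, 0 < C ∧ ∀ (S : ℕ) (p : Polynomial ℝ), 0 < S → p.natDegree ≤ k + 1 →
      c * S ≤ ‖∑ s ∈ Finset.range S, e (p.eval (s : ℝ))‖ →
      ∃ h : ℕ, 1 ≤ h ∧ h ≤ C ∧ ∀ i, 1 ≤ i → nn (h * p.coeff i) ≤ C / (S : ℝ) ^ i := by
  obtain ⟨C₂, hC₂, ih'⟩ := ih
  obtain ⟨C₁, hC₁, hSW⟩ := x1_SW (k + 1) (by omega) c hc
  obtain ⟨E, hE⟩ : ∃ E : ℕ, E = 26 * (C₁ * (k + 1) * 2 ^ k) := ⟨_, rfl⟩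
  have hC₁r : (1 : ℝ) ≤ C₁ := by exact_mod_cast hC₁
  have hC₂r : (1 : ℝ) ≤ C₂ := by exact_mod_cast hC₂
  have hEC : 26 * C₁ ≤ E := by
    rw [hE]
    have h1 : 1 ≤ (k + 1) * 2 ^ k := Nat.one_le_iff_ne_zero.2 (by positivity)
    calc 26 * C₁ = 26 * (C₁ * 1) := by ring
      _ ≤ 26 * (C₁ * ((k + 1) * 2 ^ k)) := Nat.mul_le_mul_left _ (Nat.mul_le_mul_left _ h1)
      _ = _ := by ring
  have hECr : 26 * (C₁ : ℝ) ≤ E := by exact_mod_cast hEC
  have hE0 : (0 : ℝ) < E := by linarith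
  have hEr : (E : ℝ) = 26 * (C₁ * (k + 1) * 2 ^ k) := by rw [hE]; push_cast; ring
  obtain ⟨R, hR⟩ : ∃ R : ℝ, R = 2 * E / c := ⟨_, rfl⟩
  have hR1 : 1 ≤ R := by rw [hR, le_div_iff₀ hc]; linarith
  obtain ⟨B, hB⟩ : ∃ B : ℝ, B = (C₁ : ℝ) ^ k * C₂ * R ^ k := ⟨_, rfl⟩
  have hB0 : 0 ≤ B := by rw [hB]; positivity
  obtain ⟨W, hW⟩ : ∃ W : ℕ, W = ⌈(C₁ : ℝ) * ((k + 1) * 2 ^ k * B)⌉₊ := ⟨_, rfl⟩
  have hWr : (C₁ : ℝ) * ((k + 1) * 2 ^ k * B) ≤ W := by rw [hW]; exact Nat.le_ceil _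
  obtain ⟨V, hV⟩ : ∃ V : ℕ, V = ⌈(E : ℝ) / c⌉₊ + 1 := ⟨_, rfl⟩
  have hVr : (E : ℝ) / c ≤ V := by
    rw [hV]; push_cast
    have := Nat.le_ceil ((E : ℝ) / c)
    linarith
  refine ⟨C₂ * C₁ ^ k * C₁ + W + V ^ (k + 1) + 1, by omega, fun S p hS hp hsum => ?_⟩
  have hS0 : (0 : ℝ) < S := by exact_mod_cast hS
  have hS1 : (1 : ℝ) ≤ S := by exact_mod_cast hS
  have htop : ∀ i, k + 1 < i → p.coeff i = 0 := fun i hi => coeff_eq_zero_of_natDegree_lt (by omega)
  by_cases hsmall : c * S < E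
  · -- small `S`
    have hSV : (S : ℝ) ≤ V := by
      refine le_trans ?_ hVr
      rw [le_div_iff₀ hc]
      linarith
    refine ⟨1, le_rfl, by omega, fun i hi => ?_⟩
    rcases lt_or_ge (k + 1) i with h | h
    · rw [htop i h, mul_zero, nn_zero]
      positivity
    · refine (nn_le_half _).trans ?_
      rw [le_div_iff₀ (by positivity)]
      have h1 : (S : ℝ) ^ i ≤ (V : ℝ) ^ (k + 1) :=
        (pow_le_pow_right₀ hS1 h).trans (pow_le_pow_left₀ hS0.le hSV _)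
      push_cast
      have h2 : (0 : ℝ) ≤ (C₂ : ℝ) * C₁ ^ k * C₁ + W := by positivity
      have h3 : (0 : ℝ) < (S : ℝ) ^ i := by positivity
      linarith
  · -- large `S`
    have hlarge : (E : ℝ) ≤ c * S := not_lt.1 hsmall
    obtain ⟨q, hq1, hq2, z, hz⟩ := hSW S p hS hp hsum
    have hqr : (q : ℝ) ≤ C₁ := by exact_mod_cast hq2
    have hq0 : (0 : ℝ) < q := by exact_mod_cast hq1
    obtain ⟨L, hL⟩ : ∃ L : ℕ, L = ⌊c * S / E⌋₊ := ⟨_, rfl⟩
    have hx1 : 1 ≤ c * S / E := by rw [le_div_iff₀ hE0]; linarith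
    have hLle : (L : ℝ) ≤ c * S / E := by rw [hL]; exact Nat.floor_le (by positivity)
    have hLlt : c * S / E < L + 1 := by rw [hL]; exact Nat.lt_floor_add_one _
    have hL1 : 1 ≤ L := by rw [hL]; exact Nat.le_floor (by exact_mod_cast hx1)
    have hL1r : (1 : ℝ) ≤ L := by exact_mod_cast hL1
    have hL0 : (0 : ℝ) < L := by linarith
    have hLR : (S : ℝ) ≤ R * L := by
      have h1 : c * S / E ≤ 2 * L := by linarith
      rw [div_le_iff₀ hE0] at h1
      rw [hR, div_mul_eq_mul_div, le_div_iff₀ hc]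
      linarith
    have hEL : (E : ℝ) * L ≤ c * S := by
      rw [le_div_iff₀ hE0] at hLle
      linarith
    have h4qL : 4 * (q : ℝ) * L ≤ c * S := by
      refine le_trans ?_ hEL
      apply mul_le_mul_of_nonneg_right _ hL0.le
      linarith
    have hqL : q * L ≤ S := by
      have h1 : (q : ℝ) * L ≤ S := by
        have h2 : (q : ℝ) * L ≤ 4 * q * L := by nlinarith
        have h3 : c * S ≤ 1 * S := mul_le_mul_of_nonneg_right hc1 hS0.le
        linarith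
      exact_mod_cast h1
    obtain ⟨m, hmS, hm⟩ := x1_prog (fun s => e (p.eval (s : ℝ))) (fun s => (norm_e _).le) c S L q hS hL1
      hsum h4qL
    have hrem := x1_remove k p C₁ S L q m z c hc hS hq1 hmS hqL hz (by rw [← hEr]; exact hEL) hm
    obtain ⟨p₁, hp₁⟩ : ∃ p₁ : ℝ[X], p₁ = p - monomial (k + 1) (p.coeff (k + 1)) := ⟨_, rfl⟩
    rw [← hp₁] at hrem
    have hp₁deg : p₁.natDegree ≤ k := by
      rw [natDegree_le_iff_coeff_eq_zero]
      intro n hn
      rw [hp₁, coeff_sub, coeff_monomial]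
      rcases eq_or_ne (k + 1) n with h | h
      · rw [if_pos h, h, sub_self]
      · rw [if_neg h, sub_zero]
        exact htop n (by omega)
    have hp₁c : ∀ i ≤ k, p₁.coeff i = p.coeff i := by
      intro i hi
      rw [hp₁, coeff_sub, coeff_monomial, if_neg (by omega), sub_zero]
    obtain ⟨r, hr⟩ : ∃ r : ℝ[X], r = (taylor (m : ℝ) p₁).comp (C (q : ℝ) * X) := ⟨_, rfl⟩
    have hrc : ∀ i, r.coeff i = (taylor (m : ℝ) p₁).coeff i * (q : ℝ) ^ i := by
      intro i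
      rw [hr, comp_C_mul_X_coeff]
    have htd : (taylor (m : ℝ) p₁).natDegree ≤ k := by rw [natDegree_taylor]; exact hp₁deg
    have hrdeg : r.natDegree ≤ k := by
      rw [natDegree_le_iff_coeff_eq_zero]
      intro n hn
      rw [hrc, coeff_eq_zero_of_natDegree_lt (by omega), zero_mul]
    have hrev : ∀ t : ℕ, r.eval (t : ℝ) = p₁.eval ((m + q * t : ℕ) : ℝ) := by
      intro t
      rw [hr, eval_comp, taylor_eval]
      congr 1
      simp
      ring
    have hrsum : c / 4 * L ≤ ‖∑ t ∈ range L, e (r.eval (t : ℝ))‖ := by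
      rw [sum_congr rfl fun t _ => by rw [hrev t]]
      exact hrem
    obtain ⟨h₂, h₂1, h₂2, h₂3⟩ := ih' L r hL1 hrdeg hrsum
    have h₂r : (h₂ : ℝ) ≤ C₂ := by exact_mod_cast h₂2
    -- the polynomial `g`
    obtain ⟨H₀, hH₀⟩ : ∃ H₀ : ℕ, H₀ = h₂ * q ^ k := ⟨_, rfl⟩
    have hH₀1 : 1 ≤ H₀ := by rw [hH₀]; exact Nat.one_le_iff_ne_zero.2 (by positivity)
    have hH₀2 : H₀ ≤ C₂ * C₁ ^ k := by rw [hH₀]; exact Nat.mul_le_mul h₂2 (Nat.pow_le_pow_left hq2 k)
    have hgc : ∀ i, 1 ≤ i → nn ((C (H₀ : ℝ) * taylor (m : ℝ) p₁).coeff i) ≤ B / (S : ℝ) ^ i := by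
      intro i hi
      rw [coeff_C_mul]
      rcases lt_or_ge k i with h | h
      · rw [coeff_eq_zero_of_natDegree_lt (lt_of_le_of_lt htd h), mul_zero, nn_zero]
        positivity
      · have h1 : (H₀ : ℝ) * (taylor (m : ℝ) p₁).coeff i = ((q ^ (k - i) : ℕ) : ℝ) * (h₂ * r.coeff i) := by
          rw [hrc, hH₀]
          have h2 : (q : ℝ) ^ k = (q : ℝ) ^ (k - i) * (q : ℝ) ^ i := by
            rw [← pow_add]; congr 1; omega
          push_cast
          rw [h2]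
          ring
        rw [h1]
        refine (nn_nat_mul _ _).trans ?_
        have h3 := h₂3 i hi
        have h4 : ((q ^ (k - i) : ℕ) : ℝ) ≤ (C₁ : ℝ) ^ k := by
          push_cast
          exact (pow_le_pow_left₀ hq0.le hqr _).trans (pow_le_pow_right₀ hC₁r (by omega))
        have h5 : (C₂ : ℝ) / (L : ℝ) ^ i ≤ C₂ * R ^ k / (S : ℝ) ^ i := by
          rw [div_le_div_iff₀ (by positivity) (by positivity), mul_assoc]
          apply mul_le_mul_of_nonneg_left _ (by positivity)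
          calc (S : ℝ) ^ i ≤ (R * L) ^ i := pow_le_pow_left₀ hS0.le hLR _
            _ = R ^ i * (L : ℝ) ^ i := mul_pow _ _ _
            _ ≤ R ^ k * (L : ℝ) ^ i :=
              mul_le_mul_of_nonneg_right (pow_le_pow_right₀ hR1 h) (by positivity)
        calc ((q ^ (k - i) : ℕ) : ℝ) * nn (h₂ * r.coeff i)
            ≤ (C₁ : ℝ) ^ k * (C₂ * R ^ k / (S : ℝ) ^ i) :=
              mul_le_mul h4 (h3.trans h5) (nn_nonneg _) (by positivity)
          _ = B / (S : ℝ) ^ i := by rw [hB]; ring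
    have hgdeg : (C (H₀ : ℝ) * taylor (m : ℝ) p₁).natDegree ≤ k := (natDegree_C_mul_le _ _).trans htd
    have hback : ∀ i, 1 ≤ i → nn ((H₀ : ℝ) * p₁.coeff i) ≤ (k + 1) * 2 ^ k * B / (S : ℝ) ^ i := by
      intro i hi
      have h1 := x1_shift_bound (C (H₀ : ℝ) * taylor (m : ℝ) p₁) k hgdeg S m hS hmS.le B hB0 hgc i hi
      have h2 : taylor (-(m : ℝ)) (C (H₀ : ℝ) * taylor (m : ℝ) p₁) = C (H₀ : ℝ) * p₁ := by
        rw [taylor_mul, taylor_C, taylor_taylor, neg_add_cancel, taylor_zero]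
      rw [h2, coeff_C_mul] at h1
      exact h1
    -- the end
    refine ⟨H₀ * q, Nat.one_le_iff_ne_zero.2 (by positivity), ?_, fun i hi => ?_⟩
    · have h1 : H₀ * q ≤ C₂ * C₁ ^ k * C₁ := Nat.mul_le_mul hH₀2 hq2
      omega
    · rcases lt_trichotomy i (k + 1) with h | h | h
      · have h1 : ((H₀ * q : ℕ) : ℝ) * p.coeff i = (q : ℝ) * (H₀ * p₁.coeff i) := by
          rw [hp₁c i (by omega)]
          push_cast
          ring
        rw [h1]
        refine (nn_nat_mul _ _).trans ?_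
        calc (q : ℝ) * nn ((H₀ : ℝ) * p₁.coeff i) ≤ C₁ * ((k + 1) * 2 ^ k * B / (S : ℝ) ^ i) :=
              mul_le_mul hqr (hback i hi) (nn_nonneg _) (by positivity)
          _ = (C₁ : ℝ) * ((k + 1) * 2 ^ k * B) / (S : ℝ) ^ i := by ring
          _ ≤ _ := by
              apply div_le_div_of_nonneg_right _ (by positivity)
              push_cast
              have h2 : (0 : ℝ) ≤ (C₂ : ℝ) * C₁ ^ k * C₁ + V ^ (k + 1) := by positivity
              linarith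
      · have h1 : ((H₀ * q : ℕ) : ℝ) * p.coeff i = (H₀ : ℝ) * (q * p.coeff (k + 1)) := by
          rw [h]
          push_cast
          ring
        rw [h1]
        refine (nn_nat_mul _ _).trans ?_
        have h2 : nn (q * p.coeff (k + 1)) ≤ C₁ / (S : ℝ) ^ i := by
          rw [h]
          exact (nn_le _ z).trans hz
        have h3 : (H₀ : ℝ) ≤ C₂ * C₁ ^ k := by exact_mod_cast hH₀2
        calc (H₀ : ℝ) * nn (q * p.coeff (k + 1)) ≤ (C₂ * C₁ ^ k) * (C₁ / (S : ℝ) ^ i) :=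
              mul_le_mul h3 h2 (nn_nonneg _) (by positivity)
          _ = (C₂ * C₁ ^ k * C₁) / (S : ℝ) ^ i := by ring
          _ ≤ _ := by
              apply div_le_div_of_nonneg_right _ (by positivity)
              push_cast
              have h2 : (0 : ℝ) ≤ (W : ℝ) + V ^ (k + 1) := by positivity
              linarith
      · rw [htop i h, mul_zero, nn_zero]
        positivity

/-- Inverse Weyl theorem for all coefficients. -/
theorem weyl_all (k : ℕ) (c : ℝ) (hc : 0 < c) :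
    ∃ C : ℕ, 0 < C ∧ ∀ (S : ℕ) (p : Polynomial ℝ), 0 < S → p.natDegree ≤ k →
      c * S ≤ ‖∑ s ∈ Finset.range S, e (p.eval (s : ℝ))‖ →
      ∃ h : ℕ, 1 ≤ h ∧ h ≤ C ∧ ∀ i, 1 ≤ i → nn (h * p.coeff i) ≤ C / (S : ℝ) ^ i := by
  induction k generalizing c with
  | zero =>
    refine ⟨1, one_pos, fun S p hS hp _ => ⟨1, le_rfl, le_rfl, fun i hi => ?_⟩⟩
    rw [coeff_eq_zero_of_natDegree_lt (by omega), mul_zero, nn_zero]
    positivity
  | succ k ih =>
    have hc' : 0 < min c 1 := lt_min hc one_pos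
    obtain ⟨C, hC, hmain⟩ := x1_step k (min c 1) hc' (min_le_right _ _) (ih (min c 1 / 4) (by positivity))
    refine ⟨C, hC, fun S p hS hp hsum => hmain S p hS hp (le_trans ?_ hsum)⟩
    exact mul_le_mul_of_nonneg_right (min_le_left _ _) (Nat.cast_nonneg _)

end Pool.Agent.J4.H79.HS
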