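import Pool.Agent.J4.H79.HS.LDefs

/-!
# Gadgets for line counts
-/

namespace Pool.Agent.J4.H79.HS

open Finset

namespace X12

/-- the cell `c` with the coordinates in `I` replaced by `u` -/
def mix {d N : ℕ} (c : Fin d → Fin N) (u : Fin N) (I : Finset (Fin d)) : Fin d → Fin N :=
  fun j => if j ∈ I then u else c j

lemma mix_empty {d N : ℕ} (c : Fin d → Fin N) (u : Fin N) : mix c u ∅ = c := by
  funext j; simp [mix]

lemma mix_inj {d N n : ℕ} {c : Fin d → Fin N} (hc : ∀ j, (c j : ℕ) < n) {u : Fin N}
    (hu : n ≤ (u : ℕ)) : Function.Injective (mix c u) := by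
  have key : ∀ I j, j ∈ I ↔ n ≤ (mix c u I j : ℕ) := by
    intro I j
    unfold mix
    by_cases h : j ∈ I
    · simp [h, hu]
    · simp only [h, if_false, false_iff, not_le]
      exact hc j
  intro I I' h
  ext j
  rw [key I j, key I' j, h]

/-- toggle an element -/
def tog {d : ℕ} (j : Fin d) (I : Finset (Fin d)) : Finset (Fin d) :=
  if j ∈ I then I.erase j else insert j I

lemma tog_tog {d : ℕ} (j : Fin d) (I : Finset (Fin d)) : tog j (tog j I) = I := by
  unfold tog
  by_cases h : j ∈ I
  · simp [h, Finset.insert_erase h]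
  · simp [h]

lemma tog_odd {d : ℕ} (j : Fin d) (I : Finset (Fin d)) : Odd (tog j I).card ↔ Even I.card := by
  unfold tog
  by_cases h : j ∈ I
  · simp only [h, if_true]
    have h1 := Finset.card_erase_add_one h
    rw [← h1]
    rw [Nat.even_add_one, Nat.not_even_iff_odd]
  · simp only [h, if_false]
    rw [Finset.card_insert_of_notMem h, ← Nat.not_even_iff_odd, Nat.even_add_one, not_not]

lemma tog_even {d : ℕ} (j : Fin d) (I : Finset (Fin d)) : Even (tog j I).card ↔ Odd I.card := by
  rw [← Nat.not_odd_iff_even, tog_odd, Nat.not_even_iff_odd]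

lemma lw_tog {d N : ℕ} (c : Fin d → Fin N) (u : Fin N) (j : Fin d) (v : Fin d → Fin N)
    (I : Finset (Fin d)) : lw (mix c u (tog j I)) j v = lw (mix c u I) j v := by
  have h1 : ∀ l, l ≠ j → mix c u (tog j I) l = mix c u I l := by
    intro l hl
    have h2 : l ∈ tog j I ↔ l ∈ I := by
      unfold tog
      by_cases h : j ∈ I
      · simp [h, hl]
      · simp [h, hl]
    unfold mix
    simp only [h2]
  unfold lw
  have h3 : (∀ l, l ≠ j → v l = mix c u (tog j I) l) ↔ ∀ l, l ≠ j → v l = mix c u I l := by
    constructor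
    · intro h l hl
      rw [h l hl, h1 l hl]
    · intro h l hl
      rw [h l hl, h1 l hl]
  simp only [h3]

lemma sum_eq {d N : ℕ} (c : Fin d → Fin N) (u : Fin N) :
    ∑ I ∈ (univ : Finset (Finset (Fin d))).filter (fun I => Odd I.card), lw (mix c u I) =
      ∑ I ∈ (univ : Finset (Finset (Fin d))).filter (fun I => Even I.card), lw (mix c u I) := by
  funext j v
  simp only [Finset.sum_apply]
  refine Finset.sum_nbij' (tog j) (tog j) ?_ ?_ ?_ ?_ ?_
  · intro I hI
    simp only [mem_filter, mem_univ, true_and] at hI ⊢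
    rwa [tog_even]
  · intro I hI
    simp only [mem_filter, mem_univ, true_and] at hI ⊢
    rwa [tog_odd]
  · intro I _; exact tog_tog j I
  · intro I _; exact tog_tog j I
  · intro I _; exact (lw_tog c u j v I).symm

end X12

open X12 in
theorem line_gadgets (d n m N : ℕ) (hd : 1 ≤ d) (hN : n + m ≤ N) (c : Fin d → Fin N)
    (hc : ∀ j, (c j : ℕ) < n) :
    ∃ P Q : Fin m → Finset (Fin d → Fin N),
      (∀ a, ∀ x ∈ P a ∪ Q a, ∃ j, n ≤ (x j : ℕ)) ∧
      (∀ a, Disjoint (P a) (Q a)) ∧
      (∀ a, (P a).card + (Q a).card = 2 ^ d - 1) ∧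
      (∀ a b, a ≠ b → Disjoint (P a ∪ Q a) (P b ∪ Q b)) ∧
      (∀ a, ∑ x ∈ P a, lw x = ∑ x ∈ Q a, lw x + lw c) := by
  classical
  let u : Fin m → Fin N := fun a => ⟨n + a, by have := a.2; omega⟩
  have hu : ∀ a, n ≤ (u a : ℕ) := fun a => by simp [u]
  have huinj : Function.Injective u := by
    intro a b h
    have h1 := congrArg Fin.val h
    simp only [u] at h1
    exact Fin.ext (by omega)
  let O : Finset (Finset (Fin d)) := univ.filter (fun I => Odd I.card)
  let E : Finset (Finset (Fin d)) := univ.filter (fun I => Even I.card ∧ I ≠ ∅)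
  have hmem : ∀ a, ∀ x ∈ O.image (mix c (u a)) ∪ E.image (mix c (u a)),
      ∃ I : Finset (Fin d), I.Nonempty ∧ x = mix c (u a) I := by
    intro a x hx
    rw [mem_union, mem_image, mem_image] at hx
    rcases hx with ⟨I, hI, rfl⟩ | ⟨I, hI, rfl⟩
    · refine ⟨I, ?_, rfl⟩
      simp only [O, mem_filter, mem_univ, true_and] at hI
      rw [Finset.nonempty_iff_ne_empty]
      rintro rfl
      simp at hI
    · refine ⟨I, ?_, rfl⟩
      simp only [E, mem_filter, mem_univ, true_and] at hI
      exact Finset.nonempty_iff_ne_empty.2 hI.2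
  have hinj : ∀ a, Function.Injective (mix c (u a)) := fun a => mix_inj hc (hu a)
  have hOE : Disjoint O E := by
    rw [Finset.disjoint_left]
    intro I h1 h2
    simp only [O, E, mem_filter, mem_univ, true_and] at h1 h2
    exact (Nat.not_even_iff_odd.2 h1) h2.1
  refine ⟨fun a => O.image (mix c (u a)), fun a => E.image (mix c (u a)), ?_, ?_, ?_, ?_, ?_⟩
  · intro a x hx
    obtain ⟨I, ⟨j, hj⟩, rfl⟩ := hmem a x hx
    exact ⟨j, by simp only [mix, hj, if_true]; exact hu a⟩
  · intro a
    exact (Finset.disjoint_image (hinj a)).2 hOE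
  · intro a
    rw [Finset.card_image_of_injective _ (hinj a), Finset.card_image_of_injective _ (hinj a),
      ← Finset.card_union_of_disjoint hOE]
    have h1 : O ∪ E = univ.erase ∅ := by
      ext I
      simp only [O, E, mem_union, mem_filter, mem_univ, true_and, mem_erase, and_true]
      constructor
      · rintro (h | h)
        · rintro rfl; simp at h
        · exact h.2
      · intro h
        rcases Nat.even_or_odd I.card with h2 | h2
        · exact Or.inr ⟨h2, h⟩
        · exact Or.inl h2
    rw [h1, Finset.card_erase_of_mem (mem_univ _), Finset.card_univ, Fintype.card_finset,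
      Fintype.card_fin]
  · intro a b hab
    rw [Finset.disjoint_left]
    intro x hx hx'
    obtain ⟨I, ⟨j, hj⟩, rfl⟩ := hmem a x hx
    obtain ⟨I', -, h⟩ := hmem b _ hx'
    have h1 := congrFun h j
    simp only [mix, hj, if_true] at h1
    by_cases h2 : j ∈ I'
    · simp only [h2, if_true] at h1
      exact hab (huinj h1)
    · simp only [h2, if_false] at h1
      have h3 := hc j
      rw [← h1] at h3
      exact absurd (hu a) (not_le.2 h3)
  · intro a
    rw [Finset.sum_image (fun x _ y _ h => hinj a h), Finset.sum_image (fun x _ y _ h => hinj a h)]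
    have h1 := sum_eq c (u a)
    have h2 : (univ : Finset (Finset (Fin d))).filter (fun I => Even I.card) = insert ∅ E := by
      ext I
      simp only [E, mem_filter, mem_univ, true_and, mem_insert]
      constructor
      · intro h
        by_cases h3 : I = ∅
        · exact Or.inl h3
        · exact Or.inr ⟨h, h3⟩
      · rintro (rfl | h)
        · simp
        · exact h.1
    rw [h2, Finset.sum_insert (by simp [E]), mix_empty, add_comm] at h1
    exact h1

end Pool.Agent.J4.H79.HS
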