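import Pool.Agent.J4.H79.HS.LDefs

/-!
X13: vectors `z` with `T(γ^d) = |γ| ∑_{c' ∈ γ^(d-1)} z(c')` (inclusion-exclusion with a point at infinity).
-/

namespace Pool.Agent.J4.H79.HS

open Finset

theorem lw_eq_prod {d N : ℕ} (c : Fin d → Fin N) (j : Fin d) (u : Fin d → Fin N) :
    lw c j u = ∏ l, (if l = j then (1 : ℤ) else if u l = c l then 1 else 0) := by
  unfold lw
  split_ifs with h
  · symm
    apply prod_eq_one
    intro l _
    by_cases h1 : l = j
    · rw [if_pos h1]
    · rw [if_neg h1, if_pos (h l h1)]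
  · push Not at h
    obtain ⟨l, hl, hne⟩ := h
    symm
    apply prod_eq_zero (mem_univ l)
    rw [if_neg hl, if_neg hne]

/-- the cell with `∞` on `I` and at `i0`, and the coordinates of `c` elsewhere -/
def zcell {d n N : ℕ} (hnN : n < N) (i0 : Fin (d + 1)) (I : Finset (Fin (d + 1)))
    (c : Fin d → Fin n) : Fin (d + 1) → Fin N :=
  fun j => if j ∈ I then ⟨n, hnN⟩ else
    Fin.insertNth (α := fun _ => Fin N) i0 (⟨n, hnN⟩ : Fin N) (fun k => Fin.castLE hnN.le (c k)) j

theorem zcell_lt {d n N : ℕ} (hnN : n < N) (i0 : Fin (d + 1)) (I : Finset (Fin (d + 1)))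
    (c : Fin d → Fin n) (j : Fin (d + 1)) : (zcell hnN i0 I c j : ℕ) < n + 1 := by
  unfold zcell
  split_ifs with h
  · exact Nat.lt_succ_self n
  · rcases Fin.eq_self_or_eq_succAbove i0 j with h1 | ⟨k, h1⟩
    · rw [h1, Fin.insertNth_apply_same]
      exact Nat.lt_succ_self n
    · rw [h1, Fin.insertNth_apply_succAbove]
      exact Nat.lt_succ_of_lt (c k).2

theorem sum_mem_ind {n N : ℕ} (hnN : n ≤ N) (γ : Finset (Fin n)) (w : Fin N) :
    (∑ v ∈ γ, if w = Fin.castLE hnN v then (1 : ℤ) else 0) =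
      if w ∈ γ.map (Fin.castLEEmb hnN) then 1 else 0 := by
  have h := Finset.sum_map γ (Fin.castLEEmb hnN) (fun v => if w = v then (1 : ℤ) else 0)
  rw [Finset.sum_ite_eq] at h
  rw [h]
  rfl

theorem sum_base {d n N : ℕ} (hnN : n ≤ N) (γ : Finset (Fin n)) (j : Fin d) (u : Fin d → Fin N) :
    (∑ c ∈ Fintype.piFinset (fun _ : Fin d => γ.map (Fin.castLEEmb hnN)), lw c) j u =
      ∏ l, (if l = j then (γ.card : ℤ) else
        if u l ∈ γ.map (Fin.castLEEmb hnN) then 1 else 0) := by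
  rw [Finset.sum_apply, Finset.sum_apply]
  simp_rw [lw_eq_prod]
  rw [← Finset.prod_univ_sum (fun _ : Fin d => γ.map (Fin.castLEEmb hnN))
    (fun l v => if l = j then (1 : ℤ) else if u l = v then 1 else 0)]
  apply prod_congr rfl
  intro l _
  by_cases h : l = j
  · simp [h]
  · simp only [if_neg h]
    rw [Finset.sum_ite_eq]

theorem sum_cell {d n N : ℕ} (hnN : n < N) (γ : Finset (Fin n)) (i0 : Fin (d + 1))
    (I : Finset (Fin (d + 1))) (hi : i0 ∈ I) (j : Fin (d + 1)) (u : Fin (d + 1) → Fin N) :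
    (γ.card : ℤ) * (∑ c ∈ Fintype.piFinset (fun _ : Fin d => γ), lw (zcell hnN i0 I c)) j u =
      ∏ l, (if l ∈ I then (γ.card : ℤ) * (if l = j then 1 else if u l = ⟨n, hnN⟩ then 1 else 0)
        else (if l = j then (γ.card : ℤ) else
          if u l ∈ γ.map (Fin.castLEEmb hnN.le) then 1 else 0)) := by
  rw [Finset.sum_apply, Finset.sum_apply]
  have h1 : ∀ c : Fin d → Fin n, lw (zcell hnN i0 I c) j u =
      (if i0 = j then (1 : ℤ) else if u i0 = ⟨n, hnN⟩ then 1 else 0) *
        ∏ k, (if i0.succAbove k = j then (1 : ℤ) else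
          if u (i0.succAbove k) = (if i0.succAbove k ∈ I then ⟨n, hnN⟩ else
            Fin.castLE hnN.le (c k)) then 1 else 0) := by
    intro c
    rw [lw_eq_prod, Fin.prod_univ_succAbove _ i0]
    have h2 : zcell hnN i0 I c i0 = ⟨n, hnN⟩ := by unfold zcell; rw [if_pos hi]
    have h3 : ∀ k, zcell hnN i0 I c (i0.succAbove k) =
        if i0.succAbove k ∈ I then ⟨n, hnN⟩ else Fin.castLE hnN.le (c k) := by
      intro k
      unfold zcell
      rw [Fin.insertNth_apply_succAbove]
    rw [h2]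
    simp_rw [h3]
  simp_rw [h1]
  rw [← Finset.mul_sum]
  rw [← Finset.prod_univ_sum (fun _ : Fin d => γ)
    (fun k v => if i0.succAbove k = j then (1 : ℤ) else
          if u (i0.succAbove k) = (if i0.succAbove k ∈ I then ⟨n, hnN⟩ else
            Fin.castLE hnN.le v) then 1 else 0)]
  rw [Fin.prod_univ_succAbove _ i0, if_pos hi, ← mul_assoc]
  congr 1
  apply prod_congr rfl
  intro k _
  by_cases hj : i0.succAbove k = j
  · simp [hj]
  · simp only [if_neg hj]
    by_cases hI : i0.succAbove k ∈ I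
    · simp only [if_pos hI, Finset.sum_const, nsmul_eq_mul]
    · simp only [if_neg hI]
      exact sum_mem_ind hnN.le γ _

theorem zvec_succ (d n N : ℕ) (hnN : n < N) :
    ∃ z : (Fin d → Fin n) → (Fin (d + 1) → (Fin (d + 1) → Fin N) → ℤ),
      (∀ c', ∃ (a : Fin (2 ^ (d + 1)) → (Fin (d + 1) → Fin N)) (s : Fin (2 ^ (d + 1)) → ℤ),
        (∀ t j, (a t j : ℕ) < n + 1) ∧ (∀ t, s t = 0 ∨ s t = 1 ∨ s t = -1) ∧
          z c' = ∑ t, s t • lw (a t)) ∧
      ∀ γ : Finset (Fin n),
        ∑ c ∈ Fintype.piFinset (fun _ : Fin (d + 1) => γ.map (Fin.castLEEmb hnN.le)), lw c =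
          γ.card • ∑ c' ∈ Fintype.piFinset (fun _ : Fin d => γ), z c' := by
  classical
  let i0 : Finset (Fin (d + 1)) → Fin (d + 1) := fun I => if h : I.Nonempty then h.choose else 0
  have hi0 : ∀ I : Finset (Fin (d + 1)), I ≠ ∅ → i0 I ∈ I := by
    intro I hI
    have h : I.Nonempty := nonempty_iff_ne_empty.2 hI
    simp only [i0, dif_pos h]
    exact h.choose_spec
  let sg : Finset (Fin (d + 1)) → ℤ := fun I => if I = ∅ then 0 else -(-1) ^ I.card
  refine ⟨fun c' => ∑ I : Finset (Fin (d + 1)), sg I • lw (zcell hnN (i0 I) I c'), ?_, ?_⟩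
  · intro c'
    have hcard : Fintype.card (Finset (Fin (d + 1))) = 2 ^ (d + 1) := by simp
    let ε := (Fintype.equivFinOfCardEq hcard).symm
    refine ⟨fun t => zcell hnN (i0 (ε t)) (ε t) c', fun t => sg (ε t), ?_, ?_, ?_⟩
    · intro t j
      exact zcell_lt hnN _ _ _ _
    · intro t
      simp only [sg]
      split_ifs with h
      · exact Or.inl rfl
      · rcases neg_one_pow_eq_or ℤ (ε t).card with h1 | h1
        · right; right; rw [h1]
        · right; left; rw [h1]; norm_num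
    · exact (Equiv.sum_comp ε (fun I => sg I • lw (zcell hnN (i0 I) I c'))).symm
  · intro γ
    funext j u
    rw [sum_base hnN.le γ j u]
    set b : Fin (d + 1) → ℤ := fun l => (if l = j then (γ.card : ℤ) else
      if u l ∈ γ.map (Fin.castLEEmb hnN.le) then 1 else 0) with hb
    set a : Fin (d + 1) → ℤ := fun l => (if l = j then (1 : ℤ) else
      if u l = ⟨n, hnN⟩ then 1 else 0) with ha
    have hcell : ∀ I : Finset (Fin (d + 1)), I ≠ ∅ →
        (γ.card : ℤ) * (∑ c ∈ Fintype.piFinset (fun _ : Fin d => γ), lw (zcell hnN (i0 I) I c)) j u =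
          (∏ l ∈ I, ((γ.card : ℤ) * a l)) * ∏ l ∈ univ \ I, b l := by
      intro I hI
      rw [sum_cell hnN γ (i0 I) I (hi0 I hI) j u]
      rw [← Finset.prod_sdiff (Finset.subset_univ I), mul_comm]
      congr 1
      · apply prod_congr rfl
        intro l hl
        rw [if_pos hl]
      · apply prod_congr rfl
        intro l hl
        rw [if_neg (Finset.mem_sdiff.1 hl).2]
    have hR : (γ.card • ∑ c' ∈ Fintype.piFinset (fun _ : Fin d => γ),
        ∑ I : Finset (Fin (d + 1)), sg I • lw (zcell hnN (i0 I) I c')) j u =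
        ∑ I : Finset (Fin (d + 1)), sg I *
          ((γ.card : ℤ) * (∑ c ∈ Fintype.piFinset (fun _ : Fin d => γ),
            lw (zcell hnN (i0 I) I c)) j u) := by
      rw [Finset.sum_comm]
      simp only [Pi.smul_apply, Finset.sum_apply, nsmul_eq_mul, smul_eq_mul, Finset.mul_sum]
      apply sum_congr rfl
      intro I _
      apply sum_congr rfl
      intro c _
      ring
    rw [hR]
    have h0 : ∏ l, (-((γ.card : ℤ) * a l) + b l) = 0 := by
      apply prod_eq_zero (mem_univ j)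
      simp [ha, hb]
    rw [Finset.prod_add] at h0
    rw [← Finset.sum_erase_add _ _ (Finset.mem_powerset.2 (Finset.empty_subset _))] at h0
    have h1 : ∀ I ∈ (univ : Finset (Fin (d + 1))).powerset.erase ∅,
        (∏ l ∈ I, (-((γ.card : ℤ) * a l))) * ∏ l ∈ univ \ I, b l = -(sg I *
          ((γ.card : ℤ) * (∑ c ∈ Fintype.piFinset (fun _ : Fin d => γ),
            lw (zcell hnN (i0 I) I c)) j u)) := by
      intro I hI
      have hI' : I ≠ ∅ := (Finset.mem_erase.1 hI).1
      rw [hcell I hI']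
      simp only [sg, if_neg hI']
      rw [Finset.prod_neg]
      ring
    rw [Finset.sum_congr rfl h1] at h0
    have h2 : ∑ I : Finset (Fin (d + 1)), sg I *
          ((γ.card : ℤ) * (∑ c ∈ Fintype.piFinset (fun _ : Fin d => γ),
            lw (zcell hnN (i0 I) I c)) j u) = ∑ I ∈ (univ : Finset (Fin (d + 1))).powerset.erase ∅, sg I *
          ((γ.card : ℤ) * (∑ c ∈ Fintype.piFinset (fun _ : Fin d => γ),
            lw (zcell hnN (i0 I) I c)) j u) := by
      rw [Finset.powerset_univ]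
      symm
      apply Finset.sum_erase
      simp [sg]
    rw [h2]
    rw [Finset.sum_neg_distrib] at h0
    simp only [Finset.prod_empty, Finset.sdiff_empty, one_mul] at h0
    linarith

theorem zvec (d n N : ℕ) (hd : 1 ≤ d) (hnN : n < N) :
    ∃ z : (Fin (d - 1) → Fin n) → (Fin d → (Fin d → Fin N) → ℤ),
      (∀ c', ∃ (a : Fin (2 ^ d) → (Fin d → Fin N)) (s : Fin (2 ^ d) → ℤ),
        (∀ t j, (a t j : ℕ) < n + 1) ∧ (∀ t, s t = 0 ∨ s t = 1 ∨ s t = -1) ∧ z c' = ∑ t, s t • lw (a t)) ∧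
      ∀ γ : Finset (Fin n),
        ∑ c ∈ Fintype.piFinset (fun _ : Fin d => γ.map (Fin.castLEEmb hnN.le)), lw c =
          γ.card • ∑ c' ∈ Fintype.piFinset (fun _ : Fin (d - 1) => γ), z c' := by
  obtain ⟨d, rfl⟩ : ∃ d', d = d' + 1 := ⟨d - 1, by omega⟩
  exact zvec_succ d n N hnN

end Pool.Agent.J4.H79.HS
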