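import Pool.Agent.J4.H79.HS.X1
import Pool.Agent.J4.H79.HS.P2

namespace Pool.Agent.J4.H79.HS

open Finset

theorem nn_add' (x y : ℝ) : nn (x + y) ≤ nn x + nn y := by
  have h := nn_le (x + y) (round x + round y)
  refine h.trans ?_
  unfold nn
  push_cast
  calc |x + y - (round x + round y)| = |(x - round x) + (y - round y)| := by ring_nf
    _ ≤ _ := abs_add_le _ _

theorem nn_zero' : nn 0 = 0 := by simp [nn]

theorem nn_neg' (x : ℝ) : nn (-x) = nn x := by
  have h1 : ∀ y : ℝ, nn (-y) ≤ nn y := by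
    intro y
    have h := nn_le (-y) (-round y)
    refine h.trans (le_of_eq ?_)
    unfold nn
    push_cast
    rw [← abs_neg]; congr 1; ring
  refine le_antisymm (h1 x) ?_
  have := h1 (-x)
  rwa [neg_neg] at this

theorem nn_sum_le {β : Type*} (s : Finset β) (f : β → ℝ) : nn (∑ b ∈ s, f b) ≤ ∑ b ∈ s, nn (f b) := by
  classical
  induction s using Finset.induction_on with
  | empty => simp [nn_zero']
  | insert a s ha ih =>
    rw [Finset.sum_insert ha, Finset.sum_insert ha]
    exact (nn_add' _ _).trans (by linarith)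

theorem nn_int_mul' (k : ℤ) (x : ℝ) : nn (k * x) ≤ |(k : ℝ)| * nn x := by
  have h := nn_le (k * x) (k * round x)
  refine h.trans ?_
  unfold nn
  push_cast
  rw [← mul_sub, abs_mul]

/-- the coefficients of a polynomial from those of its translate -/
theorem coeff_of_taylor (M : ℕ) (p : Polynomial ℝ) (hp : p.natDegree ≤ M) (i : ℕ) :
    p.coeff i = ∑ j ∈ range (M + 1), ((Polynomial.taylor 1 p).coeff j) *
      (((j.choose i : ℕ) : ℝ) * (-1) ^ (j - i)) := by
  have h1 : p = Polynomial.taylor (-1) (Polynomial.taylor 1 p) := by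
    rw [Polynomial.taylor_taylor]; simp
  have hd : (Polynomial.taylor 1 p).natDegree ≤ M := by
    rw [Polynomial.natDegree_taylor]; exact hp
  conv_lhs => rw [h1]
  rw [Polynomial.taylor_coeff]
  set q := Polynomial.taylor 1 p with hq
  have h2 : (Polynomial.hasseDeriv i q).natDegree < M + 1 := by
    have := Polynomial.natDegree_hasseDeriv_le q i
    omega
  rw [Polynomial.hasseDeriv_apply, Polynomial.sum_over_range' _ _ (M + 1) (by omega)]
  · rw [Polynomial.eval_finset_sum]
    refine Finset.sum_congr rfl fun j _ => ?_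
    rw [Polynomial.eval_monomial]
    ring
  · intro n; simp

theorem dense_return_poly (M : ℕ) (a : ℝ) (ha : 0 < a) :
    ∃ (c₁ : ℝ) (C : ℕ), 0 < c₁ ∧ 0 < C ∧ ∀ (S : ℕ) (p : Polynomial ℝ) (G : Finset ℕ), 0 < S →
      p.natDegree ≤ M → G ⊆ Finset.range S → a * S ≤ G.card →
      ∑ s ∈ G, (1 - Real.cos (2 * Real.pi * (p.eval ((s : ℝ) + 1)))) ≤ c₁ * G.card →
      ∃ h : ℕ, 1 ≤ h ∧ h ≤ C ∧ ∀ i, 1 ≤ i → nn (h * p.coeff i) ≤ C / S := by
  obtain ⟨K, hK⟩ := exists_nat_gt (8 / a)
  have hK0 : 0 < K := by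
    have : (0 : ℝ) < K := lt_trans (by positivity) hK
    exact_mod_cast this
  have hKp : (0 : ℝ) < K := by exact_mod_cast hK0
  obtain ⟨C', hC', hW⟩ := weyl_all M (1 / K) (by positivity)
  refine ⟨1 / (16 * K ^ 2), C' * K * ((M + 1) * 2 ^ M), by positivity, by positivity, ?_⟩
  intro S p G hS hpd hG hGc hsum
  have hSp : (0 : ℝ) < S := by exact_mod_cast hS
  have hS1 : (1 : ℝ) ≤ S := by exact_mod_cast hS
  by_cases hcase : ∃ m : ℕ, 1 ≤ m ∧ m < K ∧
      (1 / (K : ℝ)) * S ≤ ‖∑ s ∈ range S, e (m * (p.eval ((s : ℝ) + 1)))‖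
  · obtain ⟨m, hm1, hm2, hm3⟩ := hcase
    set P : Polynomial ℝ := Polynomial.C (m : ℝ) * Polynomial.taylor 1 p with hP
    have hpe : ∀ s : ℝ, P.eval s = m * (p.eval (s + 1)) := by
      intro s
      rw [hP, Polynomial.eval_mul, Polynomial.eval_C, Polynomial.taylor_eval]
    have hPd : P.natDegree ≤ M := by
      rw [hP]
      refine (Polynomial.natDegree_C_mul_le _ _).trans ?_
      rw [Polynomial.natDegree_taylor]; exact hpd
    obtain ⟨h, hh1, hh2, hh3⟩ := hW S P hS hPd (by simpa only [hpe] using hm3)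
    refine ⟨h * m, Nat.mul_pos hh1 hm1, ?_, ?_⟩
    · calc h * m ≤ C' * K := Nat.mul_le_mul hh2 hm2.le
        _ ≤ C' * K * ((M + 1) * 2 ^ M) := Nat.le_mul_of_pos_right _ (by positivity)
    · intro i hi
      have hcj : ∀ j, 1 ≤ j → nn (((h * m : ℕ) : ℝ) * (Polynomial.taylor 1 p).coeff j) ≤ C' / S := by
        intro j hj
        have h4 := hh3 j hj
        have h5 : (h : ℝ) * P.coeff j = ((h * m : ℕ) : ℝ) * (Polynomial.taylor 1 p).coeff j := by
          rw [hP, Polynomial.coeff_C_mul]; push_cast; ring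
        rw [h5] at h4
        refine h4.trans ?_
        apply div_le_div_of_nonneg_left (by positivity) hSp
        calc (S : ℝ) = S ^ 1 := (pow_one _).symm
          _ ≤ S ^ j := pow_le_pow_right₀ hS1 hj
      rw [coeff_of_taylor M p hpd i, Finset.mul_sum]
      refine (nn_sum_le _ _).trans ?_
      calc ∑ j ∈ range (M + 1), nn (((h * m : ℕ) : ℝ) * ((Polynomial.taylor 1 p).coeff j *
            (((j.choose i : ℕ) : ℝ) * (-1) ^ (j - i))))
          ≤ ∑ j ∈ range (M + 1), (2 : ℝ) ^ M * (C' / S) := by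
            refine Finset.sum_le_sum fun j hj => ?_
            rw [Finset.mem_range] at hj
            by_cases hji : j < i
            · rw [Nat.choose_eq_zero_of_lt hji]
              simp only [Nat.cast_zero, zero_mul, mul_zero, nn_zero']
              positivity
            · have hj1 : 1 ≤ j := by omega
              have h6 : ((h * m : ℕ) : ℝ) * ((Polynomial.taylor 1 p).coeff j *
                  (((j.choose i : ℕ) : ℝ) * (-1) ^ (j - i))) =
                  (((j.choose i : ℤ) * (-1) ^ (j - i) : ℤ) : ℝ) *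
                    (((h * m : ℕ) : ℝ) * (Polynomial.taylor 1 p).coeff j) := by
                push_cast; ring
              rw [h6]
              refine (nn_int_mul' _ _).trans ?_
              have h7 : |((((j.choose i : ℤ) * (-1) ^ (j - i) : ℤ)) : ℝ)| ≤ 2 ^ M := by
                push_cast
                rw [abs_mul, abs_pow, abs_neg, abs_one, one_pow, mul_one, abs_of_nonneg (by positivity)]
                have h8 : j.choose i ≤ 2 ^ M := (Nat.choose_le_two_pow j i).trans
                  (Nat.pow_le_pow_right (by norm_num) (by omega))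
                exact_mod_cast h8
              exact mul_le_mul h7 (hcj j hj1) (nn_nonneg _) (by positivity)
        _ = ((M : ℝ) + 1) * (2 ^ M * (C' / S)) := by
            rw [Finset.sum_const, Finset.card_range, nsmul_eq_mul]; push_cast; ring
        _ ≤ _ := by
            push_cast
            rw [div_eq_mul_inv, div_eq_mul_inv]
            have h1K : (1 : ℝ) ≤ K := by exact_mod_cast hK0
            have h9 : 0 ≤ (C' : ℝ) * ((M + 1) * 2 ^ M) * (S : ℝ)⁻¹ := by positivity
            nlinarith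
  · exfalso
    push Not at hcase
    have hup := fejer_sum_upper S (fun s => p.eval ((s : ℝ) + 1)) K ((1 / (K : ℝ)) * S)
      (fun m h1 h2 => (hcase m h1 h2).le) (by positivity)
    have hlow : (G.card : ℝ) * (K ^ 2 / 4) ≤
        ∑ s ∈ range S, ‖∑ m ∈ range K, e (p.eval ((s : ℝ) + 1)) ^ m‖ ^ 2 := by
      calc (G.card : ℝ) * (K ^ 2 / 4)
          = G.card * (K ^ 2 / 2) - 4 * K ^ 4 * (1 / (16 * K ^ 2) * G.card) := by
            field_simp; ring
        _ ≤ G.card * (K ^ 2 / 2) - 4 * K ^ 4 *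
              ∑ s ∈ G, (1 - Real.cos (2 * Real.pi * (p.eval ((s : ℝ) + 1)))) := by
            have : (0 : ℝ) ≤ 4 * K ^ 4 := by positivity
            nlinarith [mul_le_mul_of_nonneg_left hsum this]
        _ = ∑ s ∈ G, ((K : ℝ) ^ 2 / 2 - 4 * K ^ 4 *
              (1 - Real.cos (2 * Real.pi * (p.eval ((s : ℝ) + 1))))) := by
            rw [Finset.mul_sum, Finset.sum_sub_distrib, Finset.sum_const, nsmul_eq_mul]
        _ ≤ ∑ s ∈ G, ‖∑ m ∈ range K, e (p.eval ((s : ℝ) + 1)) ^ m‖ ^ 2 :=
            Finset.sum_le_sum fun s _ => fejer_lower _ K hK0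
        _ ≤ _ := Finset.sum_le_sum_of_subset_of_nonneg hG fun _ _ _ => by positivity
    have h1 : (a * S) * (K ^ 2 / 4) ≤ G.card * (K ^ 2 / 4) := by
      apply mul_le_mul_of_nonneg_right hGc (by positivity)
    have h2 : (a * S) * (K ^ 2 / 4) ≤ 2 * K * S := by
      calc (a * S) * (K ^ 2 / 4) ≤ K * S + K ^ 2 * ((1 / (K : ℝ)) * S) := h1.trans (hlow.trans hup)
        _ = 2 * K * S := by field_simp; ring
    have h3 : 8 < a * K := by
      rw [div_lt_iff₀ ha] at hK; linarith
    have h4 : 0 < K * (S : ℝ) := by positivity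
    nlinarith

end Pool.Agent.J4.H79.HS
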