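import Pool.Agent.J4.H79.HS.Defs

/-! Piece X3 of project HS (helper79), by helper46: Littlewood-Offord step. -/

set_option autoImplicit false

namespace Pool.Agent.J4.H79.HS

open Finset

theorem x3_central (n : ℕ) : (n.centralBinom : ℝ) ^ 2 * (2 * n + 1) ≤ 16 ^ n := by
  induction n with
  | zero => simp
  | succ n ih =>
    have h1 : ((n : ℝ) + 1) * ((n + 1).centralBinom : ℝ) = 2 * (2 * n + 1) * n.centralBinom := by
      have := Nat.succ_mul_centralBinom_succ n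
      exact_mod_cast this
    have hn : (0 : ℝ) < (n : ℝ) + 1 := by positivity
    have h2 : (((n : ℝ) + 1) * ((n + 1).centralBinom : ℝ)) ^ 2 * (2 * n + 3) ≤ ((n : ℝ) + 1) ^ 2 * 16 ^ (n + 1) := by
      rw [h1]
      have e1 : (2 * (2 * (n : ℝ) + 1) * n.centralBinom) ^ 2 * (2 * n + 3) =
          ((n.centralBinom : ℝ) ^ 2 * (2 * n + 1)) * (4 * ((2 * n + 1) * (2 * n + 3))) := by ring
      rw [e1]
      have e2 : (4 : ℝ) * ((2 * n + 1) * (2 * n + 3)) ≤ 16 * ((n : ℝ) + 1) ^ 2 := by nlinarith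
      calc ((n.centralBinom : ℝ) ^ 2 * (2 * n + 1)) * (4 * ((2 * n + 1) * (2 * n + 3)))
          ≤ 16 ^ n * (16 * ((n : ℝ) + 1) ^ 2) := mul_le_mul ih e2 (by positivity) (by positivity)
        _ = _ := by rw [pow_succ]; ring
    have h3 : ((n : ℝ) + 1) ^ 2 * (((n + 1).centralBinom : ℝ) ^ 2 * (2 * ((n + 1 : ℕ) : ℝ) + 1)) ≤
        ((n : ℝ) + 1) ^ 2 * 16 ^ (n + 1) := by
      refine le_trans (le_of_eq ?_) h2
      push_cast; ring
    exact le_of_mul_le_mul_left h3 (by positivity)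

theorem x3_point {y A : ℝ} {K : ℕ} (hy0 : 0 ≤ y) (hy1 : y ≤ 1) (hA : 4 * (K : ℝ) ≤ A) :
    Real.exp (-(A / 2) * (1 - y)) ≤ y ^ K + Real.exp (-A / 4) := by
  have hA0 : 0 ≤ A := le_trans (by positivity) hA
  rcases le_or_gt (1 / 2) y with h | h
  · have h1 : Real.exp (-2 * (1 - y)) ≤ y := by
      have h2 : 1 + 2 * (1 - y) ≤ Real.exp (2 * (1 - y)) := by
        have := Real.add_one_le_exp (2 * (1 - y)); linarith
      have h3 : Real.exp (-2 * (1 - y)) = (Real.exp (2 * (1 - y)))⁻¹ := by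
        rw [← Real.exp_neg]; congr 1; ring
      rw [h3, inv_le_iff_one_le_mul₀ (Real.exp_pos _)]
      nlinarith
    have h4 : Real.exp (-(A / 2) * (1 - y)) ≤ Real.exp (-2 * (1 - y)) ^ K := by
      rw [← Real.exp_nat_mul]
      refine Real.exp_le_exp.2 ?_
      nlinarith
    have h5 : Real.exp (-2 * (1 - y)) ^ K ≤ y ^ K := pow_le_pow_left₀ (Real.exp_pos _).le h1 K
    have := Real.exp_pos (-A / 4)
    linarith
  · have h1 : Real.exp (-(A / 2) * (1 - y)) ≤ Real.exp (-A / 4) := by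
      refine Real.exp_le_exp.2 ?_
      nlinarith
    have := pow_nonneg hy0 K
    linarith

/-- moments of the cosine -/
theorem x3_moment {Ω : Type} [Fintype Ω] (g : Ω → ℝ) (K : ℕ) (ε : ℝ) (hε : 0 ≤ ε)
    (h : ∀ t : ℕ, 1 ≤ t → t ≤ 2 * K → ‖∑ ω : Ω, e (t * g ω)‖ ≤ ε * Fintype.card Ω) :
    ∑ ω : Ω, (Real.cos (2 * Real.pi * g ω) ^ 2) ^ K ≤
      ((K.centralBinom : ℝ) / 4 ^ K + ε) * Fintype.card Ω := by
  have hexp : ∀ x : ℝ, ((((Real.cos (2 * Real.pi * x)) ^ 2) ^ K : ℝ) : ℂ) =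
      (1 / 4 ^ K : ℂ) * ∑ j ∈ range (2 * K + 1), ((2 * K).choose j : ℂ) * e ((2 * (j : ℝ) - 2 * K) * x) := by
    intro x
    have h1 : (Real.cos (2 * Real.pi * x) : ℂ) = (e x + e (-x)) / 2 := by
      rw [e_neg]
      have := Complex.add_conj (e x)
      rw [this, e_re]
      push_cast; ring
    have h2 : ∀ j ∈ range (2 * K + 1), e x ^ j * e (-x) ^ (2 * K - j) * ((2 * K).choose j : ℂ) =
        ((2 * K).choose j : ℂ) * e ((2 * (j : ℝ) - 2 * K) * x) := by
      intro j hj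
      rw [mem_range] at hj
      rw [← e_nat_mul, ← e_nat_mul, ← e_add, mul_comm]
      congr 2
      rw [Nat.cast_sub (by omega)]
      push_cast; ring
    rw [← pow_mul, Complex.ofReal_pow, h1, div_pow, add_pow, sum_congr rfl h2, pow_mul]
    norm_num
    ring
  have hterm : ∀ j ∈ range (2 * K + 1), ‖∑ ω : Ω, e ((2 * (j : ℝ) - 2 * K) * g ω)‖ ≤
      ((if j = K then 1 else 0) + ε) * Fintype.card Ω := by
    intro j hj
    rw [mem_range] at hj
    rcases lt_trichotomy j K with hlt | heq | hgt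
    · rw [if_neg (by omega), zero_add]
      refine le_trans (le_of_eq ?_) (h (2 * (K - j)) (by omega) (by omega))
      have h1 : ∑ ω : Ω, e ((2 * (j : ℝ) - 2 * K) * g ω) =
          (starRingEnd ℂ) (∑ ω : Ω, e (((2 * (K - j) : ℕ) : ℝ) * g ω)) := by
        rw [map_sum]
        refine sum_congr rfl fun ω _ => ?_
        rw [← e_neg]
        congr 1
        rw [Nat.cast_mul, Nat.cast_sub (by omega)]
        push_cast; ring
      rw [h1, Complex.norm_conj]
    · subst heq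
      rw [if_pos rfl]
      refine (norm_sum_le _ _).trans ?_
      have h1 : ∀ ω ∈ (univ : Finset Ω), ‖e ((2 * (j : ℝ) - 2 * j) * g ω)‖ = 1 := fun ω _ => norm_e _
      rw [sum_congr rfl h1, sum_const, card_univ, nsmul_eq_mul, mul_one]
      have : (0 : ℝ) ≤ Fintype.card Ω := Nat.cast_nonneg _
      nlinarith
    · rw [if_neg (by omega), zero_add]
      refine le_trans (le_of_eq ?_) (h (2 * (j - K)) (by omega) (by omega))
      congr 1
      refine sum_congr rfl fun ω _ => ?_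
      congr 1
      rw [Nat.cast_mul, Nat.cast_sub (by omega)]
      push_cast; ring
  have hsum : ((∑ ω : Ω, (Real.cos (2 * Real.pi * g ω) ^ 2) ^ K : ℝ) : ℂ) =
      (1 / 4 ^ K : ℂ) * ∑ j ∈ range (2 * K + 1), ((2 * K).choose j : ℂ) *
        ∑ ω : Ω, e ((2 * (j : ℝ) - 2 * K) * g ω) := by
    rw [Complex.ofReal_sum, sum_congr rfl (fun ω _ => hexp (g ω)), ← mul_sum, sum_comm]
    congr 1
    exact sum_congr rfl fun j _ => by rw [mul_sum]
  have hnn : 0 ≤ ∑ ω : Ω, (Real.cos (2 * Real.pi * g ω) ^ 2) ^ K :=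
    sum_nonneg fun ω _ => pow_nonneg (sq_nonneg _) K
  have hnorm : ∑ ω : Ω, (Real.cos (2 * Real.pi * g ω) ^ 2) ^ K ≤
      1 / 4 ^ K * ∑ j ∈ range (2 * K + 1), ((2 * K).choose j : ℝ) *
        (((if j = K then 1 else 0) + ε) * Fintype.card Ω) := by
    have h1 := congrArg norm hsum
    rw [Complex.norm_real, Real.norm_eq_abs, abs_of_nonneg hnn, norm_mul] at h1
    rw [h1]
    have h2 : ‖(1 / 4 ^ K : ℂ)‖ = 1 / 4 ^ K := by
      rw [norm_div, norm_pow]; norm_num
    rw [h2]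
    refine mul_le_mul_of_nonneg_left ?_ (by positivity)
    refine (norm_sum_le _ _).trans (sum_le_sum fun j hj => ?_)
    rw [norm_mul]
    have h3 : ‖((2 * K).choose j : ℂ)‖ = ((2 * K).choose j : ℝ) := by
      rw [← Complex.ofReal_natCast, Complex.norm_real, Real.norm_eq_abs, abs_of_nonneg (Nat.cast_nonneg _)]
    rw [h3]
    exact mul_le_mul_of_nonneg_left (hterm j hj) (Nat.cast_nonneg _)
  refine hnorm.trans (le_of_eq ?_)
  have h1 : ∑ j ∈ range (2 * K + 1), ((2 * K).choose j : ℝ) * (((if j = K then 1 else 0) + ε) * Fintype.card Ω) =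
      ((K.centralBinom : ℝ) + ε * 4 ^ K) * Fintype.card Ω := by
    have h2 : ∀ j ∈ range (2 * K + 1), ((2 * K).choose j : ℝ) * (((if j = K then 1 else 0) + ε) * Fintype.card Ω) =
        (if j = K then ((2 * K).choose j : ℝ) else 0) * Fintype.card Ω +
          ε * Fintype.card Ω * ((2 * K).choose j : ℝ) := by
      intro j _
      split_ifs <;> ring
    rw [sum_congr rfl h2, sum_add_distrib, ← sum_mul, ← mul_sum, sum_ite_eq' (range (2 * K + 1)) K]
    rw [if_pos (mem_range.2 (by omega))]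
    have h3 : ∑ j ∈ range (2 * K + 1), ((2 * K).choose j : ℝ) = 4 ^ K := by
      have := Nat.sum_range_choose (2 * K)
      rw [pow_mul] at this
      exact_mod_cast this
    rw [h3, Nat.centralBinom]
    ring
  rw [h1]
  have h4 : (4 : ℝ) ^ K ≠ 0 := by positivity
  field_simp

/-- **X3**: Littlewood-Offord step. -/
theorem lo_step (ε₁ : ℝ) (hε₁ : 0 < ε₁) :
    ∃ (K : ℕ) (ε₂ C : ℝ), 0 < K ∧ 0 < ε₂ ∧ 0 < C ∧
      ∀ (P Ω : Type) [Fintype P] [Fintype Ω] [Nonempty P] [Nonempty Ω] (g : P → Ω → ℝ) (m : ℕ), 0 < m →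
        ε₁ * Fintype.card Ω ≤
          ∑ ω : Ω, |(∑ p : P, Real.cos (2 * Real.pi * g p ω)) / Fintype.card P| ^ m →
        ∃ Bad : Finset P, (Bad.card : ℝ) ≤ C / m * Fintype.card P ∧
          ∀ p, p ∉ Bad → ∃ t : ℕ, 1 ≤ t ∧ t ≤ K ∧
            ε₂ * Fintype.card Ω ≤ ‖∑ ω : Ω, e (t * g p ω)‖ := by
  classical
  obtain ⟨K, hK⟩ := exists_nat_gt (16 / ε₁ ^ 2)
  have hKp : (0 : ℝ) < K := lt_trans (by positivity) hK
  have hK0 : 0 < K := by exact_mod_cast hKp
  -- the central binomial coefficient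
  have hcb : (K.centralBinom : ℝ) / 4 ^ K ≤ ε₁ / 4 := by
    have h1 := x3_central K
    have h4 : (0 : ℝ) < 4 ^ K := by positivity
    rw [div_le_iff₀ h4]
    refine abs_le_of_sq_le_sq' ?_ (by positivity) |>.2
    have h2 : 16 < ε₁ ^ 2 * K := by
      rwa [div_lt_iff₀ (by positivity), mul_comm] at hK
    have h3 : (ε₁ / 4 * 4 ^ K) ^ 2 = ε₁ ^ 2 / 16 * 16 ^ K := by
      rw [mul_pow, ← pow_mul, mul_comm K 2, pow_mul]; norm_num; ring
    rw [h3]
    have h5 : (K.centralBinom : ℝ) ^ 2 * 1 ≤ (K.centralBinom : ℝ) ^ 2 * (ε₁ ^ 2 / 16 * (2 * K + 1)) := by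
      refine mul_le_mul_of_nonneg_left ?_ (by positivity)
      have : 0 < ε₁ ^ 2 := by positivity
      nlinarith
    calc (K.centralBinom : ℝ) ^ 2 ≤ ε₁ ^ 2 / 16 * ((K.centralBinom : ℝ) ^ 2 * (2 * K + 1)) := by linarith
      _ ≤ ε₁ ^ 2 / 16 * 16 ^ K := mul_le_mul_of_nonneg_left h1 (by positivity)
  refine ⟨2 * K, ε₁ / 4, 4 * K + 16 / ε₁, by omega, by positivity, by positivity, ?_⟩
  intro P Ω _ _ _ _ g m hm hbig
  have hm0 : (0 : ℝ) < m := by exact_mod_cast hm
  have hPc : (0 : ℝ) < Fintype.card P := by exact_mod_cast Fintype.card_pos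
  have hΩc : (0 : ℝ) < Fintype.card Ω := by exact_mod_cast Fintype.card_pos
  set Bad : Finset P := univ.filter (fun p => ∀ t : ℕ, 1 ≤ t → t ≤ 2 * K →
    ‖∑ ω : Ω, e (t * g p ω)‖ < ε₁ / 4 * Fintype.card Ω) with hBad
  refine ⟨Bad, ?_, ?_⟩
  swap
  · intro p hp
    rw [hBad, mem_filter] at hp
    push Not at hp
    obtain ⟨t, h1, h2, h3⟩ := hp (mem_univ p)
    exact ⟨t, h1, h2, h3⟩
  by_contra hlt
  push Not at hlt
  have hb0 : (0 : ℝ) < Bad.card := lt_of_le_of_lt (by positivity) hlt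
  set A : ℝ := m * Bad.card / Fintype.card P with hA
  have hAC : 4 * K + 16 / ε₁ < A := by
    rw [hA, lt_div_iff₀ hPc]
    have : (4 * (K : ℝ) + 16 / ε₁) / m * Fintype.card P * m < Bad.card * m := mul_lt_mul_of_pos_right hlt hm0
    have e1 : (4 * (K : ℝ) + 16 / ε₁) / m * Fintype.card P * m = (4 * K + 16 / ε₁) * Fintype.card P := by
      field_simp
    rw [e1] at this
    linarith
  have hA4 : 4 * (K : ℝ) ≤ A := by
    have : 0 < 16 / ε₁ := by positivity
    linarith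
  have hexpA : Real.exp (-A / 4) ≤ ε₁ / 4 := by
    have h1 : A / 4 + 1 ≤ Real.exp (A / 4) := Real.add_one_le_exp _
    have h2 : Real.exp (-A / 4) = (Real.exp (A / 4))⁻¹ := by
      rw [← Real.exp_neg]; congr 1; ring
    rw [h2, inv_le_iff_one_le_mul₀ (Real.exp_pos _)]
    have h3 : 4 / ε₁ ≤ A / 4 := by
      have : 4 / ε₁ = (16 / ε₁) / 4 := by ring
      rw [this]; linarith
    have h4 : 4 / ε₁ ≤ Real.exp (A / 4) := by linarith
    have h5 : ε₁ / 4 * (4 / ε₁) = 1 := by field_simp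
    rw [← h5]
    exact mul_le_mul_of_nonneg_left h4 (by positivity)
  -- pointwise bound
  have hpt : ∀ ω : Ω, |(∑ p : P, Real.cos (2 * Real.pi * g p ω)) / Fintype.card P| ^ m ≤
      ∑ p ∈ Bad, 1 / (Bad.card : ℝ) * ((Real.cos (2 * Real.pi * g p ω) ^ 2) ^ K + Real.exp (-A / 4)) := by
    intro ω
    set u : ℝ := (∑ p ∈ Bad, (1 - |Real.cos (2 * Real.pi * g p ω)|)) / Fintype.card P with hu
    have h1 : |(∑ p : P, Real.cos (2 * Real.pi * g p ω)) / Fintype.card P| ≤ 1 - u := by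
      rw [abs_div, abs_of_pos hPc, div_le_iff₀ hPc, hu, sub_mul, div_mul_cancel₀ _ hPc.ne', one_mul]
      refine (abs_sum_le_sum_abs _ _).trans ?_
      rw [← sum_filter_add_sum_filter_not univ (fun p => p ∈ Bad)]
      have e1 : univ.filter (fun p => p ∈ Bad) = Bad := by ext p; simp
      rw [e1, sum_sub_distrib]
      have h2 : ∑ p ∈ univ.filter (fun p => ¬ p ∈ Bad), |Real.cos (2 * Real.pi * g p ω)| ≤
          Fintype.card P - Bad.card := by
        refine (sum_le_sum fun p _ => Real.abs_cos_le_one _).trans (le_of_eq ?_)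
        rw [sum_const, nsmul_eq_mul, mul_one]
        have e2 : univ.filter (fun p => ¬ p ∈ Bad) = Badᶜ := by ext p; simp
        rw [e2, card_compl, Nat.cast_sub (card_le_univ _)]
      have e3 : ∑ p ∈ Bad, (1 : ℝ) = Bad.card := by simp
      rw [e3]
      linarith
    have h2 : |(∑ p : P, Real.cos (2 * Real.pi * g p ω)) / Fintype.card P| ^ m ≤ Real.exp (-(m * u)) := by
      have h3 : 1 - u ≤ Real.exp (-u) := by
        have := Real.add_one_le_exp (-u); linarith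
      calc |(∑ p : P, Real.cos (2 * Real.pi * g p ω)) / Fintype.card P| ^ m ≤ Real.exp (-u) ^ m :=
            pow_le_pow_left₀ (abs_nonneg _) (h1.trans h3) m
        _ = Real.exp (-(m * u)) := by rw [← Real.exp_nat_mul]; congr 1; ring
    refine h2.trans ?_
    have hsw : ∑ p ∈ Bad, 1 / (Bad.card : ℝ) = 1 := by
      rw [sum_const, nsmul_eq_mul]; field_simp
    have h3 : Real.exp (∑ p ∈ Bad, (1 / (Bad.card : ℝ)) • (-(A * (1 - |Real.cos (2 * Real.pi * g p ω)|)))) ≤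
        ∑ p ∈ Bad, (1 / (Bad.card : ℝ)) • Real.exp (-(A * (1 - |Real.cos (2 * Real.pi * g p ω)|))) :=
      convexOn_exp.map_sum_le (fun _ _ => by positivity) hsw (fun _ _ => Set.mem_univ _)
    have h4 : ∑ p ∈ Bad, (1 / (Bad.card : ℝ)) • (-(A * (1 - |Real.cos (2 * Real.pi * g p ω)|))) = -(m * u) := by
      simp only [smul_eq_mul]
      rw [← mul_sum, sum_neg_distrib, ← mul_sum, hu, hA]
      field_simp
    rw [h4] at h3
    refine h3.trans (sum_le_sum fun p _ => ?_)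
    rw [smul_eq_mul]
    refine mul_le_mul_of_nonneg_left ?_ (by positivity)
    have hc0 := abs_nonneg (Real.cos (2 * Real.pi * g p ω))
    have hc1 := Real.abs_cos_le_one (2 * Real.pi * g p ω)
    have hc2 : |Real.cos (2 * Real.pi * g p ω)| ^ 2 = Real.cos (2 * Real.pi * g p ω) ^ 2 := sq_abs _
    have h5 : Real.exp (-(A * (1 - |Real.cos (2 * Real.pi * g p ω)|))) ≤
        Real.exp (-(A / 2) * (1 - Real.cos (2 * Real.pi * g p ω) ^ 2)) := by
      refine Real.exp_le_exp.2 ?_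
      rw [← hc2]
      have hA0 : 0 ≤ A := le_trans (by positivity) hA4
      have h6 : (1 - |Real.cos (2 * Real.pi * g p ω)| ^ 2) / 2 ≤ 1 - |Real.cos (2 * Real.pi * g p ω)| := by
        nlinarith
      have h7 := mul_le_mul_of_nonneg_left h6 hA0
      linarith
    refine h5.trans (x3_point (sq_nonneg _) ?_ hA4)
    rw [← hc2]
    exact pow_le_one₀ hc0 hc1
  -- summation
  have hfin : ∑ ω : Ω, |(∑ p : P, Real.cos (2 * Real.pi * g p ω)) / Fintype.card P| ^ m ≤
      (ε₁ / 4 + ε₁ / 4 + ε₁ / 4) * Fintype.card Ω := by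
    refine (sum_le_sum fun ω _ => hpt ω).trans ?_
    rw [sum_comm]
    have h1 : ∀ p ∈ Bad, ∑ ω : Ω, 1 / (Bad.card : ℝ) * ((Real.cos (2 * Real.pi * g p ω) ^ 2) ^ K +
        Real.exp (-A / 4)) ≤ 1 / (Bad.card : ℝ) * ((ε₁ / 4 + ε₁ / 4 + ε₁ / 4) * Fintype.card Ω) := by
      intro p hp
      rw [← mul_sum, sum_add_distrib, sum_const, card_univ, nsmul_eq_mul]
      refine mul_le_mul_of_nonneg_left ?_ (by positivity)
      have h2 := x3_moment (g p) K (ε₁ / 4) (by positivity) (fun t ht1 ht2 => by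
        rw [hBad, mem_filter] at hp
        exact (hp.2 t ht1 ht2).le)
      have h3 : ((K.centralBinom : ℝ) / 4 ^ K + ε₁ / 4) * Fintype.card Ω ≤ (ε₁ / 4 + ε₁ / 4) * Fintype.card Ω :=
        mul_le_mul_of_nonneg_right (by linarith) hΩc.le
      have h4 : (Fintype.card Ω : ℝ) * Real.exp (-A / 4) ≤ Fintype.card Ω * (ε₁ / 4) :=
        mul_le_mul_of_nonneg_left hexpA hΩc.le
      linarith
    refine (sum_le_sum h1).trans (le_of_eq ?_)
    rw [sum_const, nsmul_eq_mul]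
    field_simp
  have := hbig.trans hfin
  have h9 : 0 < ε₁ * Fintype.card Ω := by positivity
  linarith

end Pool.Agent.J4.H79.HS
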