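import Pool.Agent.J4.H79.HS.Defs

/-! Piece X4 of project HS (helper79), by helper46: Gowers-Cauchy-Schwarz for functions of k variables. -/

set_option autoImplicit false

namespace Pool.Agent.J4.H79.HS

open Finset

theorem x4_sum {k : ℕ} (F : Finset (Fin (k + 1)) → ℝ) :
    ∑ I, F I = ∑ J : Finset (Fin k), (F (J.map (Fin.succEmb k)) + F (insert 0 (J.map (Fin.succEmb k)))) := by
  classical
  have h0 : (0 : Fin (k + 1)) ∉ (univ : Finset (Fin k)).map (Fin.succEmb k) := by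
    rw [mem_map]
    rintro ⟨a, _, ha⟩
    exact Fin.succ_ne_zero a ha
  have hu : (univ : Finset (Fin (k + 1))) = insert 0 ((univ : Finset (Fin k)).map (Fin.succEmb k)) := by
    ext a
    refine ⟨fun _ => ?_, fun _ => mem_univ _⟩
    rw [mem_insert, mem_map]
    rcases Fin.eq_zero_or_eq_succ a with h | ⟨j, hj⟩
    · exact Or.inl h
    · exact Or.inr ⟨j, mem_univ _, hj.symm⟩
  have hp : ∀ f : Finset (Fin (k + 1)) → ℝ, ∑ t ∈ ((univ : Finset (Fin k)).map (Fin.succEmb k)).powerset, f t =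
      ∑ J : Finset (Fin k), f (J.map (Fin.succEmb k)) := by
    intro f
    symm
    refine sum_bij (fun J _ => J.map (Fin.succEmb k)) ?_ ?_ ?_ ?_
    · intro J _
      exact mem_powerset.2 (map_subset_map.2 (subset_univ J))
    · intro J _ J' _ h
      exact map_injective _ h
    · intro t ht
      obtain ⟨u, _, hu⟩ := subset_map_iff.1 (mem_powerset.1 ht)
      exact ⟨u, mem_univ _, hu.symm⟩
    · intro J _; rfl
  rw [← powerset_univ, hu, sum_powerset_insert h0, hp, hp (fun t => F (insert 0 t)), ← sum_add_distrib]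

section

variable {Y : Type} [Fintype Y] [DecidableEq Y]

/-- the alternating sum -/
noncomputable def x4A {k : ℕ} (G : (Fin k → Y) → ℝ) (y y' : Fin k → Y) : ℝ :=
  ∑ I : Finset (Fin k), (-1 : ℝ) ^ I.card * G (fun a => if a ∈ I then y' a else y a)

/-- the difference in the first variable -/
def x4D {k : ℕ} (G : (Fin (k + 1) → Y) → ℝ) (x x' : Y) (y : Fin k → Y) : ℝ :=
  G (Fin.cons x y) - G (Fin.cons x' y)

omit [Fintype Y] [DecidableEq Y] in
theorem x4A_succ {k : ℕ} (G : (Fin (k + 1) → Y) → ℝ) (x x' : Y) (y y' : Fin k → Y) :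
    x4A G (Fin.cons x y) (Fin.cons x' y') = x4A (x4D G x x') y y' := by
  classical
  unfold x4A
  rw [x4_sum]
  refine sum_congr rfl fun J _ => ?_
  have h0 : (0 : Fin (k + 1)) ∉ J.map (Fin.succEmb k) := by
    rw [mem_map]
    rintro ⟨a, _, ha⟩
    exact Fin.succ_ne_zero a ha
  have hs : ∀ i : Fin k, i.succ ∈ J.map (Fin.succEmb k) ↔ i ∈ J := by
    intro i
    rw [mem_map]
    constructor
    · rintro ⟨a, ha, h⟩
      rwa [← Fin.succ_injective k h]
    · intro h; exact ⟨i, h, rfl⟩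
  have e1 : (fun a : Fin (k + 1) => if a ∈ J.map (Fin.succEmb k) then (Fin.cons x' y' : Fin (k + 1) → Y) a
      else (Fin.cons x y : Fin (k + 1) → Y) a) = Fin.cons x (fun a => if a ∈ J then y' a else y a) := by
    funext a
    refine Fin.cases ?_ (fun i => ?_) a
    · rw [if_neg h0, Fin.cons_zero, Fin.cons_zero]
    · rw [Fin.cons_succ, Fin.cons_succ, Fin.cons_succ]
      exact if_congr (hs i) rfl rfl
  have e2 : (fun a : Fin (k + 1) => if a ∈ insert 0 (J.map (Fin.succEmb k)) then (Fin.cons x' y' : Fin (k + 1) → Y) a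
      else (Fin.cons x y : Fin (k + 1) → Y) a) = Fin.cons x' (fun a => if a ∈ J then y' a else y a) := by
    funext a
    refine Fin.cases ?_ (fun i => ?_) a
    · rw [if_pos (mem_insert_self _ _), Fin.cons_zero, Fin.cons_zero]
    · rw [Fin.cons_succ, Fin.cons_succ, Fin.cons_succ]
      refine if_congr ?_ rfl rfl
      rw [mem_insert, hs i]
      exact ⟨fun h => h.resolve_left (Fin.succ_ne_zero i), Or.inr⟩
  rw [card_insert_of_notMem h0, card_map]
  simp only [e1, e2]
  unfold x4D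
  rw [pow_succ]
  ring

omit [DecidableEq Y] in
/-- sums over the first variable and the other ones -/
theorem x4_split {k : ℕ} {M : Type} [AddCommMonoid M] (F : (Fin (k + 1) → Y) → M) :
    ∑ y, F y = ∑ x : Y, ∑ y : Fin k → Y, F (Fin.cons x y) := by
  rw [← (Fin.consEquiv (fun _ : Fin (k + 1) => Y)).sum_comp, Fintype.sum_prod_type]
  rfl

/-- the sum of the cosines -/
noncomputable def x4B {k : ℕ} (G : (Fin k → Y) → ℝ) : ℝ :=
  ∑ y : Fin k → Y, ∑ y' : Fin k → Y, Real.cos (2 * Real.pi * x4A G y y')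

omit [DecidableEq Y] in
theorem x4B_succ {k : ℕ} (G : (Fin (k + 1) → Y) → ℝ) :
    x4B G = ∑ x : Y, ∑ x' : Y, x4B (x4D G x x') := by
  unfold x4B
  rw [x4_split]
  refine sum_congr rfl fun x _ => ?_
  have h1 : ∀ y : Fin k → Y, ∑ y' : Fin (k + 1) → Y, Real.cos (2 * Real.pi * x4A G (Fin.cons x y) y') =
      ∑ x' : Y, ∑ y' : Fin k → Y, Real.cos (2 * Real.pi * x4A (x4D G x x') y y') := by
    intro y
    rw [x4_split]
    exact sum_congr rfl fun x' _ => sum_congr rfl fun y' _ => by rw [x4A_succ]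
  rw [sum_congr rfl (fun y _ => h1 y), sum_comm]

theorem x4_normsq {ι : Type} [Fintype ι] (T : ι → ℂ) :
    ((‖∑ x, T x‖ ^ 2 : ℝ) : ℂ) = ∑ x, ∑ x', T x * (starRingEnd ℂ) (T x') := by
  rw [← Complex.normSq_eq_norm_sq, ← Complex.mul_conj, map_sum, sum_mul_sum]

theorem x4_main (k : ℕ) (hk : 1 ≤ k) [Nonempty Y] : ∀ (G : (Fin k → Y) → ℝ)
    (b : Fin k → (Fin k → Y) → ℂ), (∀ a y, ‖b a y‖ ≤ 1) →
    (∀ a y z, b a (Function.update y a z) = b a y) →
    (‖∑ y : Fin k → Y, e (G y) * ∏ a, b a y‖ / (Fintype.card Y : ℝ) ^ k) ^ (2 ^ k) ≤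
      x4B G / (Fintype.card Y : ℝ) ^ (2 * k) := by
  have hn : (0 : ℝ) < Fintype.card Y := by exact_mod_cast Fintype.card_pos
  set n : ℝ := (Fintype.card Y : ℝ) with hnd
  obtain ⟨x₀⟩ := ‹Nonempty Y›
  induction k, hk using Nat.le_induction with
  | base =>
    intro G b hb hind
    -- the factor is constant
    have hconst : ∀ y : Fin 1 → Y, b 0 y = b 0 (fun _ => x₀) := by
      intro y
      rw [← hind 0 y x₀]
      congr 1
      funext a
      rw [Subsingleton.elim a 0, Function.update_self]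
    have h1 : ∑ y : Fin 1 → Y, e (G y) * ∏ a, b a y = (∑ y : Fin 1 → Y, e (G y)) * b 0 (fun _ => x₀) := by
      rw [sum_mul]
      refine sum_congr rfl fun y _ => ?_
      rw [Fin.prod_univ_one, hconst]
    have h2 : ‖∑ y : Fin 1 → Y, e (G y)‖ ^ 2 = x4B G := by
      have h3 := x4_normsq (fun y : Fin 1 → Y => e (G y))
      have h4 : ∀ y y' : Fin 1 → Y, e (G y) * (starRingEnd ℂ) (e (G y')) = e (G y - G y') := fun y y' => (e_sub _ _).symm
      have h5 := congrArg Complex.re h3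
      rw [Complex.ofReal_re] at h5
      rw [h5, Complex.re_sum]
      unfold x4B
      refine sum_congr rfl fun y _ => ?_
      rw [Complex.re_sum]
      refine sum_congr rfl fun y' _ => ?_
      rw [h4, e_re]
      congr 2
      unfold x4A
      rw [x4_sum]
      have e0 : (univ : Finset (Finset (Fin 0))) = {∅} := by decide
      rw [e0, sum_singleton]
      have e1 : (∅ : Finset (Fin 0)).map (Fin.succEmb 0) = ∅ := rfl
      rw [e1]
      have e2 : (fun a : Fin 1 => if a ∈ (∅ : Finset (Fin 1)) then y' a else y a) = y := by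
        funext a; simp
      have e3 : (fun a : Fin 1 => if a ∈ (insert 0 (∅ : Finset (Fin 1))) then y' a else y a) = y' := by
        funext a
        rw [Subsingleton.elim a 0]; simp
      rw [e2, e3]
      simp
      ring
    rw [h1, norm_mul, pow_one, pow_one, mul_one, div_pow, mul_pow, h2]
    have h3 : ‖b 0 (fun _ => x₀)‖ ^ 2 ≤ 1 := pow_le_one₀ (norm_nonneg _) (hb _ _)
    have h4 : 0 ≤ x4B G := by rw [← h2]; positivity
    exact div_le_div_of_nonneg_right (mul_le_of_le_one_right h4 h3) (by positivity)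
  | succ k hk ih =>
    intro G b hb hind
    set T : (Fin k → Y) → Y → ℂ := fun y x => e (G (Fin.cons x y)) * ∏ a : Fin k, b a.succ (Fin.cons x y) with hT
    have hcons : ∀ (x : Y) (y : Fin k → Y), b 0 (Fin.cons x y) = b 0 (Fin.cons x₀ y) := by
      intro x y
      rw [← hind 0 (Fin.cons x₀ y) x, Fin.update_cons_zero]
    have h1 : ∑ y : Fin (k + 1) → Y, e (G y) * ∏ a, b a y =
        ∑ y : Fin k → Y, b 0 (Fin.cons x₀ y) * ∑ x : Y, T y x := by
      rw [x4_split, sum_comm]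
      refine sum_congr rfl fun y _ => ?_
      rw [mul_sum]
      refine sum_congr rfl fun x _ => ?_
      rw [Fin.prod_univ_succ, hcons x y, hT]
      ring
    set S' : Y → Y → ℂ := fun x x' => ∑ y : Fin k → Y, e (x4D G x x' y) *
      ∏ a : Fin k, (b a.succ (Fin.cons x y) * (starRingEnd ℂ) (b a.succ (Fin.cons x' y))) with hS'
    have h2 : ‖∑ y : Fin (k + 1) → Y, e (G y) * ∏ a, b a y‖ ^ 2 ≤ n ^ k * ∑ x : Y, ∑ x' : Y, ‖S' x x'‖ := by
      rw [h1]
      have h3 : ‖∑ y : Fin k → Y, b 0 (Fin.cons x₀ y) * ∑ x : Y, T y x‖ ≤ ∑ y : Fin k → Y, ‖∑ x : Y, T y x‖ := by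
        refine (norm_sum_le _ _).trans (sum_le_sum fun y _ => ?_)
        rw [norm_mul]
        exact mul_le_of_le_one_left (norm_nonneg _) (hb _ _)
      have h4 : (∑ y : Fin k → Y, ‖∑ x : Y, T y x‖) ^ 2 ≤ n ^ k * ∑ y : Fin k → Y, ‖∑ x : Y, T y x‖ ^ 2 := by
        refine sq_sum_le_card_mul_sum_sq.trans (le_of_eq ?_)
        rw [card_univ, Fintype.card_fun, Fintype.card_fin]
        push_cast; rfl
      have h5 : ∑ y : Fin k → Y, ‖∑ x : Y, T y x‖ ^ 2 ≤ ∑ x : Y, ∑ x' : Y, ‖S' x x'‖ := by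
        have h6 : ((∑ y : Fin k → Y, ‖∑ x : Y, T y x‖ ^ 2 : ℝ) : ℂ) = ∑ x : Y, ∑ x' : Y, S' x x' := by
          rw [Complex.ofReal_sum, sum_congr rfl (fun y _ => x4_normsq (T y)), sum_comm]
          refine sum_congr rfl fun x _ => ?_
          rw [sum_comm]
          refine sum_congr rfl fun x' _ => ?_
          rw [hS']
          dsimp only
          refine sum_congr rfl fun y _ => ?_
          rw [hT]
          dsimp only
          rw [map_mul, map_prod, prod_mul_distrib, x4D, e_sub]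
          ring
        have h7 := congrArg norm h6
        rw [Complex.norm_real, Real.norm_eq_abs, abs_of_nonneg (sum_nonneg fun y _ => sq_nonneg _)] at h7
        rw [h7]
        exact (norm_sum_le _ _).trans (sum_le_sum fun x _ => norm_sum_le _ _)
      calc ‖∑ y : Fin k → Y, b 0 (Fin.cons x₀ y) * ∑ x : Y, T y x‖ ^ 2
          ≤ (∑ y : Fin k → Y, ‖∑ x : Y, T y x‖) ^ 2 := pow_le_pow_left₀ (norm_nonneg _) h3 2
        _ ≤ n ^ k * ∑ y : Fin k → Y, ‖∑ x : Y, T y x‖ ^ 2 := h4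
        _ ≤ _ := mul_le_mul_of_nonneg_left h5 (by positivity)
    -- induction hypothesis
    have h3 : ∀ x x' : Y, (‖S' x x'‖ / n ^ k) ^ (2 ^ k) ≤ x4B (x4D G x x') / n ^ (2 * k) := by
      intro x x'
      refine ih (x4D G x x') (fun a y => b a.succ (Fin.cons x y) * (starRingEnd ℂ) (b a.succ (Fin.cons x' y))) ?_ ?_
      · intro a y
        rw [norm_mul, Complex.norm_conj]
        exact mul_le_one₀ (hb _ _) (norm_nonneg _) (hb _ _)
      · intro a y z
        rw [Fin.cons_update, Fin.cons_update, hind, hind]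
    -- power mean
    have h4 : (‖∑ y : Fin (k + 1) → Y, e (G y) * ∏ a, b a y‖ / n ^ (k + 1)) ^ 2 ≤
        ∑ v : Y × Y, 1 / n ^ 2 * (‖S' v.1 v.2‖ / n ^ k) := by
      rw [Fintype.sum_prod_type, div_pow, div_le_iff₀ (by positivity)]
      refine h2.trans (le_of_eq ?_)
      have : ∀ x : Y, ∑ x' : Y, 1 / n ^ 2 * (‖S' x x'‖ / n ^ k) = (1 / n ^ 2 * (1 / n ^ k)) * ∑ x' : Y, ‖S' x x'‖ := by
        intro x
        rw [mul_sum]
        exact sum_congr rfl fun x' _ => by ring
      rw [sum_congr rfl (fun x _ => this x), ← mul_sum]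
      have hn0 : n ≠ 0 := hn.ne'
      field_simp
      ring
    have hw : ∑ _v : Y × Y, 1 / n ^ 2 = 1 := by
      rw [sum_const, card_univ, Fintype.card_prod, nsmul_eq_mul]
      push_cast
      rw [← hnd]
      have hn0 : n ≠ 0 := hn.ne'
      field_simp
    have h5 : (∑ v : Y × Y, 1 / n ^ 2 * (‖S' v.1 v.2‖ / n ^ k)) ^ (2 ^ k) ≤
        ∑ v : Y × Y, 1 / n ^ 2 * (‖S' v.1 v.2‖ / n ^ k) ^ (2 ^ k) :=
      Real.pow_arith_mean_le_arith_mean_pow _ _ _ (fun _ _ => by positivity) hw (fun _ _ => by positivity) _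
    have h6 : ∑ v : Y × Y, 1 / n ^ 2 * (‖S' v.1 v.2‖ / n ^ k) ^ (2 ^ k) ≤
        ∑ v : Y × Y, 1 / n ^ 2 * (x4B (x4D G v.1 v.2) / n ^ (2 * k)) :=
      sum_le_sum fun v _ => mul_le_mul_of_nonneg_left (h3 v.1 v.2) (by positivity)
    have h7 : ∑ v : Y × Y, 1 / n ^ 2 * (x4B (x4D G v.1 v.2) / n ^ (2 * k)) = x4B G / n ^ (2 * (k + 1)) := by
      rw [Fintype.sum_prod_type, x4B_succ, sum_div]
      refine sum_congr rfl fun x _ => ?_
      rw [sum_div]
      refine sum_congr rfl fun x' _ => ?_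
      have hn0 : n ≠ 0 := hn.ne'
      field_simp
      ring
    rw [pow_succ' 2 k, pow_mul]
    calc _ ≤ (∑ v : Y × Y, 1 / n ^ 2 * (‖S' v.1 v.2‖ / n ^ k)) ^ (2 ^ k) :=
          pow_le_pow_left₀ (by positivity) h4 _
      _ ≤ _ := h5
      _ ≤ _ := h6
      _ = _ := h7

end

/-- **X4**: the inequality of Gowers, Cauchy and Schwarz. -/
theorem gcs (k : ℕ) (hk : 1 ≤ k) (Y : Type) [Fintype Y] [DecidableEq Y] [Nonempty Y] (G : (Fin k → Y) → ℝ)
    (b : Fin k → (Fin k → Y) → ℂ) (hb : ∀ a y, ‖b a y‖ ≤ 1)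
    (hind : ∀ a y z, b a (Function.update y a z) = b a y) :
    (‖∑ y : Fin k → Y, e (G y) * ∏ a, b a y‖ / (Fintype.card Y : ℝ) ^ k) ^ (2 ^ k) ≤
      (∑ y : Fin k → Y, ∑ y' : Fin k → Y,
        Real.cos (2 * Real.pi * ∑ I : Finset (Fin k), (-1 : ℝ) ^ I.card *
          G (fun a => if a ∈ I then y' a else y a))) / (Fintype.card Y : ℝ) ^ (2 * k) :=
  x4_main k hk G b hb hind

end Pool.Agent.J4.H79.HS
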