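import Pool.Agent.J4.H79.HS.X3

/-! Piece X5 of project HS (helper79), by helper68: iterated Littlewood-Offord. -/

set_option autoImplicit false

namespace Pool.Agent.J4.H79.HS

open Finset

theorem x5_e_sum {ι : Type} [Fintype ι] (f : ι → ℝ) : e (∑ i, f i) = ∏ i, e (f i) := by
  classical
  have : ∀ s : Finset ι, e (∑ i ∈ s, f i) = ∏ i ∈ s, e (f i) := by
    intro s
    induction s using Finset.induction_on with
    | empty => simp [e_zero]
    | insert a s ha ih => rw [sum_insert ha, prod_insert ha, e_add, ih]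
  exact this univ

/-- the sum over the first row factorises -/
theorem x5_fact (k m : ℕ) {P : Type} [Fintype P] (Δ : (Fin (k + 1) → P) → ℝ) :
    ∑ Z : Fin (k + 1) → Fin m → P, e (∑ i : Fin (k + 1) → Fin m, Δ (fun a => Z a (i a))) =
      ∑ ω : Fin k → Fin m → P,
        (∑ p : P, e (∑ i : Fin k → Fin m, Δ (Fin.cons p (fun a => ω a (i a))))) ^ m := by
  rw [← Equiv.sum_comp (Fin.consEquiv (fun _ : Fin (k + 1) => Fin m → P)), Fintype.sum_prod_type,
    sum_comm]
  refine sum_congr rfl fun ω _ => ?_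
  rw [Fintype.sum_pow]
  refine sum_congr rfl fun z _ => ?_
  rw [← x5_e_sum]
  congr 1
  rw [← Equiv.sum_comp (Fin.consEquiv (fun _ : Fin (k + 1) => Fin m)), Fintype.sum_prod_type]
  refine sum_congr rfl fun i0 _ => sum_congr rfl fun i' _ => ?_
  congr 1
  funext a
  refine Fin.cases ?_ (fun b => ?_) a
  · simp [Fin.consEquiv]
  · simp [Fin.consEquiv]

/-- the row sum is real -/
theorem x5_real {P : Type} [Fintype P] (σ : P ≃ P) (g : P → ℝ) (hg : ∀ p, g (σ p) = - g p) :
    ∑ p, e (g p) = ((∑ p, Real.cos (2 * Real.pi * g p) : ℝ) : ℂ) := by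
  have h1 : (starRingEnd ℂ) (∑ p, e (g p)) = ∑ p, e (g p) := by
    rw [map_sum, ← Equiv.sum_comp σ (fun p => e (g p))]
    refine sum_congr rfl fun p _ => ?_
    rw [hg, e_neg]
  have h2 := (Complex.conj_eq_iff_re).1 h1
  rw [← h2, Complex.re_sum]
  congr 1
  exact sum_congr rfl fun p _ => e_re _

/-- from the big sum to the mean of the powers of the row sums -/
theorem x5_mean (k m : ℕ) {P : Type} [Fintype P] [Nonempty P] (σ : P ≃ P) (Δ : (Fin (k + 1) → P) → ℝ)
    (hΔ : ∀ (a : Fin (k + 1)) (p : Fin (k + 1) → P), Δ (Function.update p a (σ (p a))) = - Δ p)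
    (ε₁ : ℝ)
    (h : ε₁ * (Fintype.card P : ℝ) ^ (m * (k + 1)) ≤
      ‖∑ Z : Fin (k + 1) → Fin m → P, e (∑ i : Fin (k + 1) → Fin m, Δ (fun a => Z a (i a)))‖) :
    ε₁ * Fintype.card (Fin k → Fin m → P) ≤
      ∑ ω : Fin k → Fin m → P, |(∑ p : P, Real.cos (2 * Real.pi *
        ∑ i : Fin k → Fin m, Δ (Fin.cons p (fun a => ω a (i a))))) / Fintype.card P| ^ m := by
  have hPc : (0 : ℝ) < Fintype.card P := by exact_mod_cast Fintype.card_pos
  have hσ : ∀ (v : Fin k → P) (p : P), Δ (Fin.cons (σ p) v) = - Δ (Fin.cons p v) := by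
    intro v p
    rw [← hΔ 0 (Fin.cons p v)]
    congr 1
    simp
  have h1 : ‖∑ Z : Fin (k + 1) → Fin m → P, e (∑ i : Fin (k + 1) → Fin m, Δ (fun a => Z a (i a)))‖ ≤
      ∑ ω : Fin k → Fin m → P, |(∑ p : P, Real.cos (2 * Real.pi *
        ∑ i : Fin k → Fin m, Δ (Fin.cons p (fun a => ω a (i a)))))| ^ m := by
    rw [x5_fact]
    refine (norm_sum_le _ _).trans (sum_le_sum fun ω _ => ?_)
    rw [x5_real σ, norm_pow, Complex.norm_real, Real.norm_eq_abs]
    intro p
    rw [← sum_neg_distrib]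
    exact sum_congr rfl fun i _ => hσ _ _
  have hcard : (Fintype.card (Fin k → Fin m → P) : ℝ) = (Fintype.card P : ℝ) ^ (m * k) := by
    simp [Fintype.card_pi, pow_mul]
  have h2 := h.trans h1
  have h3 : ∑ ω : Fin k → Fin m → P, |(∑ p : P, Real.cos (2 * Real.pi *
        ∑ i : Fin k → Fin m, Δ (Fin.cons p (fun a => ω a (i a)))))| ^ m =
      (∑ ω : Fin k → Fin m → P, |(∑ p : P, Real.cos (2 * Real.pi *
        ∑ i : Fin k → Fin m, Δ (Fin.cons p (fun a => ω a (i a))))) / Fintype.card P| ^ m) *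
        (Fintype.card P : ℝ) ^ m := by
    rw [sum_mul]
    refine sum_congr rfl fun ω _ => ?_
    rw [abs_div, abs_of_pos hPc, div_pow, div_mul_cancel₀]
    positivity
  rw [h3, mul_add, mul_one, pow_add, ← mul_assoc] at h2
  rw [hcard]
  exact le_of_mul_le_mul_right h2 (by positivity)

/-- the case of one variable -/
theorem x5_base {P : Type} [Fintype P] [Nonempty P] (g : P → ℝ) (m : ℕ) (hm : 0 < m) (ε₁ c₁ : ℝ)
    (hε₁ : 0 < ε₁) (hc₁ : 0 < c₁)
    (h : ε₁ ≤ |(∑ p : P, Real.cos (2 * Real.pi * g p)) / Fintype.card P| ^ m) :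
    ((univ.filter fun p : P => ¬ (1 - Real.cos (2 * Real.pi * ((2 : ℕ) * g p)) ≤ c₁)).card : ℝ) ≤
      4 / (ε₁ * c₁) / m * Fintype.card P := by
  have hPc : (0 : ℝ) < Fintype.card P := by exact_mod_cast Fintype.card_pos
  have hm0 : (0 : ℝ) < m := by exact_mod_cast hm
  set u : ℝ := (∑ p : P, (1 - |Real.cos (2 * Real.pi * g p)|)) / Fintype.card P with hu
  have hu0 : 0 ≤ u := div_nonneg (sum_nonneg fun p _ => by
    have := Real.abs_cos_le_one (2 * Real.pi * g p); linarith) hPc.le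
  have h1 : |(∑ p : P, Real.cos (2 * Real.pi * g p)) / Fintype.card P| ≤ 1 - u := by
    rw [abs_div, abs_of_pos hPc, div_le_iff₀ hPc, hu, sub_mul, div_mul_cancel₀ _ hPc.ne', one_mul,
      sum_sub_distrib]
    refine (abs_sum_le_sum_abs _ _).trans (le_of_eq ?_)
    simp
  have h2 : |(∑ p : P, Real.cos (2 * Real.pi * g p)) / Fintype.card P| ^ m ≤ Real.exp (-(m * u)) := by
    have h3 : 1 - u ≤ Real.exp (-u) := by
      have := Real.add_one_le_exp (-u); linarith
    calc |(∑ p : P, Real.cos (2 * Real.pi * g p)) / Fintype.card P| ^ m ≤ Real.exp (-u) ^ m :=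
          pow_le_pow_left₀ (abs_nonneg _) (h1.trans h3) m
      _ = Real.exp (-(m * u)) := by rw [← Real.exp_nat_mul]; congr 1; ring
  have h3 : ε₁ * (m * u) ≤ 1 := by
    have h4 := h.trans h2
    have h5 : m * u + 1 ≤ Real.exp (m * u) := Real.add_one_le_exp _
    rw [Real.exp_neg] at h4
    have h6 : ε₁ * Real.exp (m * u) ≤ 1 := by
      have := mul_le_mul_of_nonneg_right h4 (Real.exp_pos (m * u)).le
      rwa [inv_mul_cancel₀ (Real.exp_pos _).ne'] at this
    have h7 := mul_le_mul_of_nonneg_left h5 hε₁.le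
    linarith
  have hpt : ∀ p : P, 1 - Real.cos (2 * Real.pi * ((2 : ℕ) * g p)) ≤ 4 * (1 - |Real.cos (2 * Real.pi * g p)|) := by
    intro p
    have e1 : 2 * Real.pi * (((2 : ℕ) : ℝ) * g p) = 2 * (2 * Real.pi * g p) := by push_cast; ring
    rw [e1, Real.cos_two_mul, ← sq_abs (Real.cos (2 * Real.pi * g p))]
    have hc0 := abs_nonneg (Real.cos (2 * Real.pi * g p))
    have hc1 := Real.abs_cos_le_one (2 * Real.pi * g p)
    nlinarith
  have hB : c₁ * ((univ.filter fun p : P => ¬ (1 - Real.cos (2 * Real.pi * ((2 : ℕ) * g p)) ≤ c₁)).card : ℝ) ≤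
      4 * (u * Fintype.card P) := by
    have e2 : u * Fintype.card P = ∑ p : P, (1 - |Real.cos (2 * Real.pi * g p)|) := by
      rw [hu, div_mul_cancel₀ _ hPc.ne']
    rw [e2, mul_sum, mul_comm, ← nsmul_eq_mul, ← sum_const]
    calc ∑ _p ∈ univ.filter (fun p : P => ¬ (1 - Real.cos (2 * Real.pi * ((2 : ℕ) * g p)) ≤ c₁)), c₁
        ≤ ∑ p ∈ univ.filter (fun p : P => ¬ (1 - Real.cos (2 * Real.pi * ((2 : ℕ) * g p)) ≤ c₁)),
          4 * (1 - |Real.cos (2 * Real.pi * g p)|) := by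
          refine sum_le_sum fun p hp => ?_
          rw [mem_filter] at hp
          exact (not_le.1 hp.2).le.trans (hpt p)
      _ ≤ ∑ p : P, 4 * (1 - |Real.cos (2 * Real.pi * g p)|) := by
          refine sum_le_sum_of_subset_of_nonneg (filter_subset _ _) fun p _ _ => ?_
          have := Real.abs_cos_le_one (2 * Real.pi * g p)
          linarith
  have hfin : 4 / (ε₁ * c₁) / m * Fintype.card P = (4 * (1 / (ε₁ * m) * Fintype.card P)) / c₁ := by
    field_simp
  rw [hfin, le_div_iff₀ hc₁, mul_comm]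
  refine hB.trans ?_
  refine mul_le_mul_of_nonneg_left (mul_le_mul_of_nonneg_right ?_ hPc.le) (by norm_num)
  rw [le_div_iff₀ (by positivity)]
  linarith

/-- **X5**: iterated Littlewood-Offord. -/
theorem lo_multi (k : ℕ) (hk : 1 ≤ k) (ε₁ : ℝ) (hε₁ : 0 < ε₁) :
    ∃ K : ℕ, 0 < K ∧ ∀ c₁ : ℝ, 0 < c₁ → ∃ C : ℝ, 0 < C ∧
      ∀ (P : Type) [Fintype P] [Nonempty P] (σ : P ≃ P) (Δ : (Fin k → P) → ℝ),
        (∀ (a : Fin k) (p : Fin k → P), Δ (Function.update p a (σ (p a))) = - Δ p) → ∀ m : ℕ, 0 < m →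
        ε₁ * (Fintype.card P : ℝ) ^ (m * k) ≤
          ‖∑ Z : Fin k → Fin m → P, e (∑ i : Fin k → Fin m, Δ (fun a => Z a (i a)))‖ →
        ∃ Bad : Finset (Fin k → P), (Bad.card : ℝ) ≤ C / m * (Fintype.card P : ℝ) ^ k ∧
          ∀ p, p ∉ Bad → ∃ t : ℕ, 1 ≤ t ∧ t ≤ K ∧
            1 - Real.cos (2 * Real.pi * (t * Δ p)) ≤ c₁ := by
  classical
  induction k, hk using Nat.le_induction generalizing ε₁ with
  | base =>
    refine ⟨2, by norm_num, fun c₁ hc₁ => ⟨4 / (ε₁ * c₁), by positivity, ?_⟩⟩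
    intro P _ _ σ Δ hΔ m hm h
    have h1 := x5_mean 0 m σ Δ hΔ ε₁ h
    have hcard : (Fintype.card (Fin 0 → Fin m → P) : ℝ) = 1 := by simp
    rw [hcard, mul_one, Fintype.sum_unique] at h1
    have h2 : ∀ p : P, ∑ i : Fin 0 → Fin m, Δ (Fin.cons p (fun a => (default : Fin 0 → Fin m → P) a (i a))) =
        Δ (fun _ => p) := by
      intro p
      rw [Fintype.sum_unique]
      congr 1
      funext a
      exact Fin.cases rfl (fun b => b.elim0) a
    simp only [h2] at h1
    have h3 := x5_base (fun p : P => Δ (fun _ => p)) m hm ε₁ c₁ hε₁ hc₁ h1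
    refine ⟨(univ.filter fun p : P => ¬ (1 - Real.cos (2 * Real.pi * ((2 : ℕ) * Δ (fun _ => p))) ≤ c₁)).image
      (fun p _ => p), ?_, ?_⟩
    · rw [pow_one]
      refine le_trans ?_ h3
      exact_mod_cast card_image_le
    · intro p hp
      refine ⟨2, by norm_num, le_refl _, ?_⟩
      by_contra hcon
      apply hp
      rw [mem_image]
      have hpp : (fun _ : Fin 1 => p 0) = p := by
        funext a
        have : a = 0 := Subsingleton.elim _ _
        rw [this]
      refine ⟨p 0, ?_, hpp⟩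
      rw [mem_filter]
      refine ⟨mem_univ _, ?_⟩
      rw [hpp]
      exact hcon
  | succ k hk ih =>
    obtain ⟨K₁, ε₂, C₁, hK₁, hε₂, hC₁, hlo⟩ := lo_step ε₁ hε₁
    obtain ⟨K₂, hK₂, hih⟩ := ih ε₂ hε₂
    refine ⟨K₁ * K₂, Nat.mul_pos hK₁ hK₂, fun c₁ hc₁ => ?_⟩
    obtain ⟨C₂, hC₂, hih⟩ := hih c₁ hc₁
    refine ⟨C₁ + C₂, by positivity, ?_⟩
    intro P _ _ σ Δ hΔ m hm h
    have hPc : (0 : ℝ) < Fintype.card P := by exact_mod_cast Fintype.card_pos
    have hm0 : (0 : ℝ) < m := by exact_mod_cast hm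
    have h1 := x5_mean k m σ Δ hΔ ε₁ h
    obtain ⟨Bad₁, hBad₁, hgood₁⟩ := hlo P (Fin k → Fin m → P)
      (fun p ω => ∑ i : Fin k → Fin m, Δ (Fin.cons p (fun a => ω a (i a)))) m hm h1
    set Bad : Finset (Fin (k + 1) → P) := univ.filter (fun q => ¬ ∃ t : ℕ, 1 ≤ t ∧ t ≤ K₁ * K₂ ∧
      1 - Real.cos (2 * Real.pi * (t * Δ q)) ≤ c₁) with hBad
    refine ⟨Bad, ?_, ?_⟩
    swap
    · intro q hq
      rw [hBad, mem_filter] at hq
      push Not at hq
      exact hq (mem_univ q)
    -- the number of bad continuations of a good first coordinate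
    have hfib : ∀ p : P, p ∉ Bad₁ →
        (((univ : Finset (Fin k → P)).filter fun v => (Fin.cons p v : Fin (k + 1) → P) ∈ Bad).card : ℝ) ≤
          C₂ / m * (Fintype.card P : ℝ) ^ k := by
      intro p hp
      obtain ⟨t, ht1, ht2, ht3⟩ := hgood₁ p hp
      have hanti : ∀ (a : Fin k) (v : Fin k → P),
          (fun v : Fin k → P => (t : ℝ) * Δ (Fin.cons p v)) (Function.update v a (σ (v a))) =
            - (fun v : Fin k → P => (t : ℝ) * Δ (Fin.cons p v)) v := by
        intro a v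
        show (t : ℝ) * Δ (Fin.cons p (Function.update v a (σ (v a)))) = - ((t : ℝ) * Δ (Fin.cons p v))
        have h2 := hΔ a.succ (Fin.cons p v)
        rw [Fin.cons_succ, ← Fin.cons_update] at h2
        rw [h2]; ring
      obtain ⟨Badp, hBadp, hgoodp⟩ := hih P σ (fun v => t * Δ (Fin.cons p v)) hanti m hm (by
        have hcard : (Fintype.card (Fin k → Fin m → P) : ℝ) = (Fintype.card P : ℝ) ^ (m * k) := by
          simp [Fintype.card_pi, pow_mul]
        rw [← hcard]
        refine ht3.trans (le_of_eq ?_)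
        congr 1
        refine sum_congr rfl fun ω _ => ?_
        rw [mul_sum])
      refine le_trans ?_ hBadp
      have hsub : ((univ : Finset (Fin k → P)).filter fun v => (Fin.cons p v : Fin (k + 1) → P) ∈ Bad) ⊆ Badp := by
        intro v hv
        rw [mem_filter] at hv
        by_contra hvb
        obtain ⟨s, hs1, hs2, hs3⟩ := hgoodp v hvb
        have h3 := hv.2
        rw [hBad, mem_filter] at h3
        apply h3.2
        refine ⟨s * t, Nat.mul_pos hs1 ht1, ?_, ?_⟩
        · rw [mul_comm]; exact Nat.mul_le_mul ht2 hs2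
        · have e1 : ((s * t : ℕ) : ℝ) * Δ (Fin.cons p v) = s * (t * Δ (Fin.cons p v)) := by
            push_cast; ring
          rw [e1]; exact hs3
      exact_mod_cast card_le_card hsub
    have hfib0 : ∀ p : P,
        (((univ : Finset (Fin k → P)).filter fun v => (Fin.cons p v : Fin (k + 1) → P) ∈ Bad).card : ℝ) ≤
          (Fintype.card P : ℝ) ^ k := by
      intro p
      have h2 : ((univ : Finset (Fin k → P)).filter fun v => (Fin.cons p v : Fin (k + 1) → P) ∈ Bad).card ≤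
          Fintype.card P ^ k := by
        refine (card_le_univ _).trans (le_of_eq ?_)
        simp
      exact_mod_cast h2
    have hsum : (Bad.card : ℝ) = ∑ p : P,
        (((univ : Finset (Fin k → P)).filter fun v => (Fin.cons p v : Fin (k + 1) → P) ∈ Bad).card : ℝ) := by
      have h2 : Bad.card = ∑ q : Fin (k + 1) → P, if q ∈ Bad then 1 else 0 := by
        rw [sum_boole]; simp
      rw [h2, ← Equiv.sum_comp (Fin.consEquiv (fun _ : Fin (k + 1) => P)), Fintype.sum_prod_type]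
      push_cast
      refine sum_congr rfl fun p _ => ?_
      rw [sum_boole]
      rfl
    rw [hsum, ← sum_filter_add_sum_filter_not univ (fun p => p ∈ Bad₁)]
    have e1 : univ.filter (fun p => p ∈ Bad₁) = Bad₁ := by ext p; simp
    have e2 : univ.filter (fun p => ¬ p ∈ Bad₁) = Bad₁ᶜ := by ext p; simp
    rw [e1, e2]
    have h4 : ∑ p ∈ Bad₁,
        (((univ : Finset (Fin k → P)).filter fun v => (Fin.cons p v : Fin (k + 1) → P) ∈ Bad).card : ℝ) ≤
        C₁ / m * (Fintype.card P : ℝ) ^ (k + 1) := by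
      refine (sum_le_sum fun p _ => hfib0 p).trans ?_
      rw [sum_const, nsmul_eq_mul, pow_succ']
      calc (Bad₁.card : ℝ) * (Fintype.card P : ℝ) ^ k ≤
          (C₁ / m * Fintype.card P) * (Fintype.card P : ℝ) ^ k :=
            mul_le_mul_of_nonneg_right hBad₁ (by positivity)
        _ = _ := by ring
    have h5 : ∑ p ∈ Bad₁ᶜ,
        (((univ : Finset (Fin k → P)).filter fun v => (Fin.cons p v : Fin (k + 1) → P) ∈ Bad).card : ℝ) ≤
        C₂ / m * (Fintype.card P : ℝ) ^ (k + 1) := by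
      refine (sum_le_sum fun p hp => hfib p (by simpa using hp)).trans ?_
      rw [sum_const, nsmul_eq_mul, pow_succ']
      have h6 : ((Bad₁ᶜ).card : ℝ) ≤ Fintype.card P := by exact_mod_cast card_le_univ _
      calc ((Bad₁ᶜ).card : ℝ) * (C₂ / m * (Fintype.card P : ℝ) ^ k) ≤
          (Fintype.card P : ℝ) * (C₂ / m * (Fintype.card P : ℝ) ^ k) :=
            mul_le_mul_of_nonneg_right h6 (by positivity)
        _ = _ := by ring
    have e3 : (C₁ + C₂) / m * (Fintype.card P : ℝ) ^ (k + 1) =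
        C₁ / m * (Fintype.card P : ℝ) ^ (k + 1) + C₂ / m * (Fintype.card P : ℝ) ^ (k + 1) := by ring
    rw [e3]
    exact add_le_add h4 h5

end Pool.Agent.J4.H79.HS
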