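import Pool.Agent.J4.H79.HS.LDefs
import Pool.Agent.J4.H79.HS.X4

/-!
The box norm: positions in blocks.
-/

namespace Pool.Agent.J4.H79.HS

open Finset

namespace X6

variable {k m s : ℕ} {X : Type}

/-- the positions -/
abbrev Tp (k m s : ℕ) : Type := (Fin k × Fin m) ⊕ Fin s

/-- the function on the positions -/
def uu (y : Fin k → Fin m → X) (w : Fin s → X) : Tp k m s → X :=
  Sum.elim (fun p => y p.1 p.2) w

/-- `L` does not meet the block `a` -/
def Miss (L : Finset (Tp k m s)) (a : Fin k) : Prop := ∀ c : Fin m, (Sum.inl (a, c) : Tp k m s) ∉ L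

open Classical in
/-- a missed block -/
noncomputable def mu (L : Finset (Tp k m s)) : Option (Fin k) :=
  if h : ∃ a, Miss L a then some h.choose else none

theorem mu_some {L : Finset (Tp k m s)} {a : Fin k} (h : mu L = some a) : Miss L a := by
  classical
  unfold mu at h
  split_ifs at h with h1
  rw [Option.some.injEq] at h
  rw [← h]
  exact h1.choose_spec

theorem mu_none {L : Finset (Tp k m s)} (h : mu L = none) : ∀ a, ¬ Miss L a := by
  classical
  unfold mu at h
  split_ifs at h with h1
  intro a ha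
  exact h1 ⟨a, ha⟩

theorem mu_eq_none {L : Finset (Tp k m s)} (h : ∀ a, ¬ Miss L a) : mu L = none := by
  classical
  unfold mu
  rw [dif_neg]
  rintro ⟨a, ha⟩
  exact h a ha

/-- the embedding of the blocks -/
def emb (s : ℕ) (i : Fin k → Fin m) : Fin k ↪ Tp k m s where
  toFun a := Sum.inl (a, i a)
  inj' a b h := by
    rw [Sum.inl.injEq, Prod.mk.injEq] at h
    exact h.1

theorem indep (y : Fin k → Fin m → X) (w : Fin s → X) (a : Fin k) (z : Fin m → X)
    (L : Finset (Tp k m s)) (hL : Miss L a) :
    L.val.map (uu (Function.update y a z) w) = L.val.map (uu y w) := by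
  refine Multiset.map_congr rfl fun t ht => ?_
  rcases t with ⟨a', c⟩ | t
  · have hne : a' ≠ a := by
      rintro rfl
      exact hL c ht
    change Function.update y a z a' c = y a' c
    rw [Function.update_of_ne hne]
  · rfl

/-- the sum over the sets which meet all blocks -/
theorem full_sum [DecidableEq (Tp k m s)] (F : Multiset X → ℝ) (y : Fin k → Fin m → X)
    (w : Fin s → X) :
    ∑ L ∈ ((univ : Finset (Finset (Tp k m s))).filter fun L => L.card ≤ k) with mu L = none,
      F (L.val.map (uu y w)) =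
    ∑ i : Fin k → Fin m, F ((univ : Finset (Fin k)).val.map fun a => y a (i a)) := by
  classical
  symm
  refine Finset.sum_bij (fun i _ => (univ : Finset (Fin k)).map (emb s i)) ?_ ?_ ?_ ?_
  · intro i _
    rw [mem_filter, mem_filter, card_map, card_univ, Fintype.card_fin]
    refine ⟨⟨mem_univ _, le_rfl⟩, mu_eq_none fun a ha => ha (i a) ?_⟩
    rw [mem_map]
    exact ⟨a, mem_univ _, rfl⟩
  · intro i _ j _ hij
    funext a
    have h1 : (Sum.inl (a, i a) : Tp k m s) ∈ (univ : Finset (Fin k)).map (emb s i) :=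
      mem_map.2 ⟨a, mem_univ _, rfl⟩
    have hij' : (univ : Finset (Fin k)).map (emb s i) = (univ : Finset (Fin k)).map (emb s j) := hij
    rw [hij', mem_map] at h1
    obtain ⟨b, -, hb⟩ := h1
    have hb' : (Sum.inl (b, j b) : Tp k m s) = Sum.inl (a, i a) := hb
    rw [Sum.inl.injEq, Prod.mk.injEq] at hb'
    obtain ⟨rfl, hb2⟩ := hb'
    exact hb2.symm
  · intro L hL
    rw [mem_filter, mem_filter] at hL
    obtain ⟨⟨-, hc⟩, hn⟩ := hL
    have h1 : ∀ a, ∃ c : Fin m, (Sum.inl (a, c) : Tp k m s) ∈ L := by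
      intro a
      have h2 := mu_none hn a
      unfold Miss at h2
      push Not at h2
      exact h2
    choose i hi using h1
    refine ⟨i, mem_univ _, ?_⟩
    refine Finset.eq_of_subset_of_card_le ?_ ?_
    · intro t ht
      rw [mem_map] at ht
      obtain ⟨a, -, rfl⟩ := ht
      exact hi a
    · rw [card_map, card_univ, Fintype.card_fin]
      exact hc
  · intro i _
    congr 1
    rw [map_val, Multiset.map_map]
    rfl

/-- one choice of the values at the remaining positions -/
theorem inner (hk : 1 ≤ k) [Fintype X] [Nonempty X] (F : Multiset X → ℝ)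
    [DecidableEq (Tp k m s)] (w : Fin s → X) (ε₀ : ℝ) (hε₀ : 0 ≤ ε₀)
    (h : ε₀ * (Fintype.card (Fin m → X) : ℝ) ^ k ≤
      ‖∑ y : Fin k → Fin m → X, e (∑ L ∈ (univ : Finset (Finset (Tp k m s))).filter
        (fun L => L.card ≤ k), F (L.val.map (uu y w)))‖) :
    ε₀ ^ (2 ^ k) * (Fintype.card (X × X) : ℝ) ^ (m * k) ≤
      ‖∑ Z : Fin k → Fin m → X × X, e (∑ i : Fin k → Fin m, diff k F (fun a => Z a (i a)))‖ := by
  classical
  set s₀ : Finset (Finset (Tp k m s)) := (univ : Finset (Finset (Tp k m s))).filter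
    (fun L => L.card ≤ k) with hs₀
  set G : (Fin k → Fin m → X) → ℝ := fun y =>
    ∑ i : Fin k → Fin m, F ((univ : Finset (Fin k)).val.map fun a => y a (i a)) with hG
  set b : Fin k → (Fin k → Fin m → X) → ℂ := fun a y =>
    e (∑ L ∈ s₀ with mu L = some a, F (L.val.map (uu y w))) with hb
  have hsplit : ∀ y, e (∑ L ∈ s₀, F (L.val.map (uu y w))) = e (G y) * ∏ a, b a y := by
    intro y
    have h1 : ∑ L ∈ s₀, F (L.val.map (uu y w)) =
        ∑ o : Option (Fin k), ∑ L ∈ s₀ with mu L = o, F (L.val.map (uu y w)) :=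
      (Finset.sum_fiberwise s₀ mu fun L => F (L.val.map (uu y w))).symm
    rw [h1, Fintype.sum_option, full_sum F y w, e_add]
    congr 1
    have h2 : ∀ (t : Finset (Fin k)) (f : Fin k → ℝ), e (∑ a ∈ t, f a) = ∏ a ∈ t, e (f a) := by
      intro t f
      induction t using Finset.induction_on with
      | empty => rw [sum_empty, prod_empty, e_zero]
      | insert a t ha ih => rw [sum_insert ha, prod_insert ha, e_add, ih]
    exact h2 univ _
  have hnb : ∀ a y, ‖b a y‖ ≤ 1 := fun a y => (norm_e _).le
  have hind : ∀ a y z, b a (Function.update y a z) = b a y := by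
    intro a y z
    simp only [hb]
    congr 1
    refine sum_congr rfl fun L hL => ?_
    rw [mem_filter] at hL
    rw [indep y w a z L (mu_some hL.2)]
  have h1 := gcs k hk (Fin m → X) G b hnb hind
  simp only [hsplit] at h
  have hY : (0 : ℝ) < (Fintype.card (Fin m → X) : ℝ) ^ k := by
    have : 0 < Fintype.card (Fin m → X) := Fintype.card_pos
    positivity
  have h2 : ε₀ ≤ ‖∑ y : Fin k → Fin m → X, e (G y) * ∏ a, b a y‖ /
      (Fintype.card (Fin m → X) : ℝ) ^ k := by
    rw [le_div_iff₀ hY]
    exact h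
  have h3 := (pow_le_pow_left₀ hε₀ h2 (2 ^ k)).trans h1
  have hYX : (Fintype.card (Fin m → X) : ℝ) ^ (2 * k) = (Fintype.card (X × X) : ℝ) ^ (m * k) := by
    rw [Fintype.card_fun, Fintype.card_fin, Fintype.card_prod]
    push_cast
    rw [← pow_two, ← pow_mul, ← pow_mul]
    congr 1
    ring
  have hXX : (0 : ℝ) < (Fintype.card (X × X) : ℝ) ^ (m * k) := by
    have : 0 < Fintype.card (X × X) := Fintype.card_pos
    positivity
  rw [hYX, le_div_iff₀ hXX] at h3
  refine h3.trans ?_
  -- the sum of the cosines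
  have h4 : ∀ y y' : Fin k → Fin m → X,
      ∑ I : Finset (Fin k), (-1 : ℝ) ^ I.card * G (fun a => if a ∈ I then y' a else y a) =
        ∑ i : Fin k → Fin m, diff k F (fun a => (y a (i a), y' a (i a))) := by
    intro y y'
    unfold diff
    rw [sum_comm]
    refine sum_congr rfl fun I _ => ?_
    simp only [hG]
    rw [mul_sum]
    refine sum_congr rfl fun i _ => ?_
    congr 2
    refine Multiset.map_congr rfl fun a _ => ?_
    split_ifs <;> rfl
  have h5 : ∑ y : Fin k → Fin m → X, ∑ y' : Fin k → Fin m → X,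
      Real.cos (2 * Real.pi * ∑ I : Finset (Fin k), (-1 : ℝ) ^ I.card *
        G (fun a => if a ∈ I then y' a else y a)) =
      (∑ Z : Fin k → Fin m → X × X, e (∑ i : Fin k → Fin m, diff k F (fun a => Z a (i a)))).re := by
    rw [Complex.re_sum, ← Fintype.sum_prod_type']
    let E : (Fin k → Fin m → X) × (Fin k → Fin m → X) ≃ (Fin k → Fin m → X × X) :=
      { toFun := fun p a c => (p.1 a c, p.2 a c)
        invFun := fun Z => (fun a c => (Z a c).1, fun a c => (Z a c).2)
        left_inv := fun _ => rfl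
        right_inv := fun _ => rfl }
    refine Fintype.sum_equiv E _ _ fun p => ?_
    rw [h4, e_re]
    rfl
  rw [h5]
  exact Complex.re_le_norm _

end X6

open X6

/-- Split the r positions into k blocks of m positions and the rest. -/
theorem box (k : ℕ) (hk : 1 ≤ k) (X : Type) [Fintype X] [Nonempty X] (F : Multiset X → ℝ) (r m : ℕ)
    (hm : 0 < m) (hr : k * m ≤ r) (ε₀ : ℝ) (hε₀ : 0 ≤ ε₀)
    (h : ε₀ * (Fintype.card X : ℝ) ^ r ≤
      ‖∑ x : Fin r → X, e (∑ L ∈ (Finset.univ : Finset (Finset (Fin r))).filter (fun L => L.card ≤ k), F (L.val.map x))‖) :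
    ε₀ ^ (2 ^ k) * (Fintype.card (X × X) : ℝ) ^ (m * k) ≤
      ‖∑ Z : Fin k → Fin m → X × X, e (∑ i : Fin k → Fin m, diff k F (fun a => Z a (i a)))‖ := by
  classical
  obtain ⟨s, rfl⟩ := Nat.exists_eq_add_of_le hr
  let E : Tp k m s ≃ Fin (k * m + s) := (Equiv.sumCongr finProdFinEquiv (Equiv.refl _)).trans finSumFinEquiv
  -- the functions on the positions
  let A : (Fin k → Fin m → X) × (Fin s → X) ≃ (Fin (k * m + s) → X) :=
    { toFun := fun p i => uu p.1 p.2 (E.symm i)
      invFun := fun x => (fun a c => x (E (Sum.inl (a, c))), fun t => x (E (Sum.inr t)))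
      left_inv := fun p => by
        refine Prod.ext ?_ ?_
        · funext a c
          change uu p.1 p.2 (E.symm (E (Sum.inl (a, c)))) = p.1 a c
          rw [E.symm_apply_apply]
          rfl
        · funext t
          change uu p.1 p.2 (E.symm (E (Sum.inr t))) = p.2 t
          rw [E.symm_apply_apply]
          rfl
      right_inv := fun x => by
        funext i
        obtain ⟨t, rfl⟩ := E.surjective i
        change uu _ _ (E.symm (E t)) = x (E t)
        rw [E.symm_apply_apply]
        rcases t with ⟨a, c⟩ | t <;> rfl }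
  have hre : ∀ p : (Fin k → Fin m → X) × (Fin s → X),
      ∑ L ∈ (univ : Finset (Finset (Fin (k * m + s)))).filter (fun L => L.card ≤ k), F (L.val.map (A p)) =
      ∑ L ∈ (univ : Finset (Finset (Tp k m s))).filter (fun L => L.card ≤ k), F (L.val.map (uu p.1 p.2)) := by
    intro p
    symm
    refine Finset.sum_bij (fun L _ => L.map E.toEmbedding) ?_ ?_ ?_ ?_
    · intro L hL
      rw [mem_filter] at hL ⊢
      rw [card_map]
      exact ⟨mem_univ _, hL.2⟩
    · intro L _ L' _ hLL
      exact Finset.map_injective _ hLL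
    · intro L hL
      rw [mem_filter] at hL
      refine ⟨L.map E.symm.toEmbedding, ?_, ?_⟩
      · rw [mem_filter, card_map]
        exact ⟨mem_univ _, hL.2⟩
      · ext i
        simp
    · intro L _
      congr 1
      rw [map_val, Multiset.map_map]
      refine Multiset.map_congr rfl fun t _ => ?_
      change uu p.1 p.2 t = uu p.1 p.2 (E.symm (E t))
      rw [E.symm_apply_apply]
  rw [← A.sum_comp, Fintype.sum_prod_type_right] at h
  simp only [hre] at h
  have hX : (0 : ℝ) < Fintype.card X := by exact_mod_cast Fintype.card_pos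
  -- choose the values at the remaining positions
  obtain ⟨w, hw⟩ : ∃ w : Fin s → X, ε₀ * (Fintype.card (Fin m → X) : ℝ) ^ k ≤
      ‖∑ y : Fin k → Fin m → X, e (∑ L ∈ (univ : Finset (Finset (Tp k m s))).filter
        (fun L => L.card ≤ k), F (L.val.map (uu y w)))‖ := by
    by_contra hcon
    push Not at hcon
    have h1 : ‖∑ w : Fin s → X, ∑ y : Fin k → Fin m → X, e (∑ L ∈ (univ : Finset (Finset (Tp k m s))).filter
        (fun L => L.card ≤ k), F (L.val.map (uu y w)))‖ <
        ∑ _w : Fin s → X, ε₀ * (Fintype.card (Fin m → X) : ℝ) ^ k := by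
      refine lt_of_le_of_lt (norm_sum_le _ _) ?_
      exact Finset.sum_lt_sum_of_nonempty univ_nonempty fun w _ => hcon w
    rw [sum_const, card_univ, nsmul_eq_mul, Fintype.card_fun, Fintype.card_fun, Fintype.card_fin,
      Fintype.card_fin] at h1
    push_cast at h1
    have h2 : (Fintype.card X : ℝ) ^ s * (ε₀ * ((Fintype.card X : ℝ) ^ m) ^ k) =
        ε₀ * (Fintype.card X : ℝ) ^ (k * m + s) := by
      rw [← pow_mul, mul_comm m k, pow_add]
      ring
    rw [h2] at h1
    exact absurd h (not_le.2 h1)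
  exact inner hk F w ε₀ hε₀ hw

end Pool.Agent.J4.H79.HS
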