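import Pool.Agent.J4.H79.HS.LDefs
set_option autoImplicit false
set_option linter.unusedSectionVars false

/-! Symmetric decomposition of a function of multisets whose `k`-fold differences are small. -/

namespace Pool.Agent.J4.H79.HS

open Finset

namespace X7

variable {k : ℕ} {X : Type}

/-- the multiset of the values -/
def M (f : Fin k → X) : Multiset X := (univ : Finset (Fin k)).val.map f

/-- the differences in the directions of `S` -/
noncomputable def D (S : Finset (Fin k)) (R : Multiset X → ℝ) (x y : Fin k → X) : ℝ :=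
  ∑ I ∈ S.powerset, (-1 : ℝ) ^ I.card * R (M (I.piecewise y x))

theorem D_insert {S : Finset (Fin k)} {i : Fin k} (hi : i ∉ S) (R : Multiset X → ℝ) (x y : Fin k → X) :
    D (insert i S) R x y = D S R x y - D S R (Function.update x i (y i)) y := by
  unfold D
  rw [sum_powerset_insert hi, sub_eq_add_neg, ← sum_neg_distrib]
  congr 1
  refine sum_congr rfl fun I hI => ?_
  have hiI : i ∉ I := fun h => hi (mem_powerset.1 hI h)
  rw [card_insert_of_notMem hiI, pow_succ]
  have : (insert i I).piecewise y x = I.piecewise y (Function.update x i (y i)) := by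
    funext a
    by_cases ha : a = i
    · subst ha
      rw [piecewise_eq_of_mem _ _ _ (mem_insert_self _ _), piecewise_eq_of_notMem _ _ _ hiI,
        Function.update_self]
    · by_cases haI : a ∈ I
      · rw [piecewise_eq_of_mem _ _ _ (mem_insert_of_mem haI), piecewise_eq_of_mem _ _ _ haI]
      · rw [piecewise_eq_of_notMem _ _ _ (by simp [ha, haI]), piecewise_eq_of_notMem _ _ _ haI,
          Function.update_of_ne ha]
  rw [this]
  ring

theorem kill {S : Finset (Fin k)} {j : Fin k} (hj : j ∈ S) (f : Finset (Fin k) → ℝ)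
    (h : ∀ I, j ∉ I → f (insert j I) = f I) : ∑ I ∈ S.powerset, (-1 : ℝ) ^ I.card * f I = 0 := by
  rw [← insert_erase hj, sum_powerset_insert (notMem_erase j S), ← sum_add_distrib]
  refine sum_eq_zero fun I hI => ?_
  have hjI : j ∉ I := fun h => notMem_erase j S (mem_powerset.1 hI h)
  rw [card_insert_of_notMem hjI, h I hjI, pow_succ]
  ring

theorem sum_sub (l : ℕ) (f : Fin k → X) (G : Multiset X → ℝ) :
    (((M f).powersetCard l).map G).sum = ∑ L ∈ (univ : Finset (Fin k)).powersetCard l, G (L.val.map f) := by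
  unfold M
  rw [Multiset.powersetCard_map, ← Finset.map_val_val_powersetCard, Multiset.map_map, Multiset.map_map]
  rfl

theorem split (S : Finset (Fin k)) (f : Fin k → X) : M f = S.val.map f + Sᶜ.val.map f := by
  unfold M
  rw [← Multiset.map_add]
  congr 1
  have : (univ : Finset (Fin k)) = S.disjUnion Sᶜ disjoint_compl_right := by
    rw [disjUnion_eq_union, union_compl]
  rw [this]
  rfl

/-- the corrected function -/
noncomputable def Rp (l : ℕ) (R : Multiset X → ℝ) (Y : Multiset X) (s : Multiset X) : ℝ :=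
  R s - ((s.powersetCard l).map fun t => R (t + Y)).sum

theorem D_Rp (S : Finset (Fin k)) (R : Multiset X → ℝ) (x y Y : Fin k → X) :
    D S (Rp S.card R (Sᶜ.val.map Y)) x y = D S R x y - D S R (Sᶜ.piecewise Y x) y := by
  have h1 : D S (Rp S.card R (Sᶜ.val.map Y)) x y = D S R x y -
      ∑ L ∈ (univ : Finset (Fin k)).powersetCard S.card, ∑ I ∈ S.powerset,
        (-1 : ℝ) ^ I.card * R (L.val.map (I.piecewise y x) + Sᶜ.val.map Y) := by
    rw [sum_comm]
    unfold D
    rw [← sum_sub_distrib]
    refine sum_congr rfl fun I _ => ?_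
    unfold Rp
    rw [sum_sub, ← mul_sum]
    ring
  rw [h1]
  congr 1
  rw [sum_eq_single S]
  · unfold D
    refine sum_congr rfl fun I hI => ?_
    have hIS := mem_powerset.1 hI
    rw [split S (I.piecewise y (Sᶜ.piecewise Y x))]
    congr 3
    · refine Multiset.map_congr rfl fun a ha => ?_
      by_cases haI : a ∈ I
      · rw [piecewise_eq_of_mem _ _ _ haI, piecewise_eq_of_mem _ _ _ haI]
      · rw [piecewise_eq_of_notMem _ _ _ haI, piecewise_eq_of_notMem _ _ _ haI,
          piecewise_eq_of_notMem _ _ _ (by simpa using ha)]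
    · refine Multiset.map_congr rfl fun a ha => ?_
      have haS : a ∈ Sᶜ := ha
      have haI : a ∉ I := fun h => (mem_compl.1 haS) (hIS h)
      rw [piecewise_eq_of_notMem _ _ _ haI, piecewise_eq_of_mem _ _ _ haS]
  · intro L hL hLS
    have hc := (mem_powersetCard.1 hL).2
    obtain ⟨j, hjS, hjL⟩ : ∃ j ∈ S, j ∉ L := by
      by_contra hcon
      push Not at hcon
      exact hLS (eq_of_subset_of_card_le hcon (by rw [hc])).symm
    refine kill hjS (fun I => R (L.val.map (I.piecewise y x) + Sᶜ.val.map Y)) fun I hjI => ?_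
    congr 2
    refine Multiset.map_congr rfl fun a ha => ?_
    have haj : a ≠ j := fun h => hjL (h ▸ ha)
    by_cases haI : a ∈ I
    · rw [piecewise_eq_of_mem _ _ _ (mem_insert_of_mem haI), piecewise_eq_of_mem _ _ _ haI]
    · rw [piecewise_eq_of_notMem _ _ _ (by simp [haj, haI]), piecewise_eq_of_notMem _ _ _ haI]
  · intro h
    exact absurd (mem_powersetCard.2 ⟨subset_univ _, rfl⟩) h

theorem M_perm (π : Equiv.Perm (Fin k)) (f : Fin k → X) : M (f ∘ π) = M f := by
  unfold M
  rw [← Multiset.map_map, Multiset.map_univ_val_equiv]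

theorem D_perm (π : Equiv.Perm (Fin k)) (S : Finset (Fin k)) (R : Multiset X → ℝ) (x y : Fin k → X) :
    D (S.map π.toEmbedding) R x y = D S R (x ∘ π) (y ∘ π) := by
  unfold D
  symm
  refine sum_nbij (fun I => I.map π.toEmbedding) ?_ ?_ ?_ ?_
  · intro I hI
    rw [mem_powerset] at hI ⊢
    exact map_subset_map.2 hI
  · intro I _ J _ h
    exact map_injective _ h
  · intro J hJ
    have hJ' := mem_powerset.1 (mem_coe.1 hJ)
    refine ⟨J.map π.symm.toEmbedding, ?_, ?_⟩
    · rw [mem_coe, mem_powerset]
      intro a ha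
      obtain ⟨b, hb, rfl⟩ := mem_map.1 ha
      obtain ⟨c, hc, hcb⟩ := mem_map.1 (hJ' hb)
      have : π.symm b = c := by
        rw [← hcb]; simp
      change π.symm b ∈ S
      rw [this]
      exact hc
    · ext a
      simp
  · intro I _
    simp only [card_map]
    congr 2
    rw [← M_perm π ((I.map π.toEmbedding).piecewise y x)]
    congr 1
    funext a
    simp only [Function.comp]
    by_cases ha : a ∈ I
    · have hm : π a ∈ I.map π.toEmbedding := mem_map_of_mem _ ha
      rw [piecewise_eq_of_mem _ _ _ ha, piecewise_eq_of_mem _ _ _ hm]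
      rfl
    · rw [piecewise_eq_of_notMem _ _ _ ha, piecewise_eq_of_notMem _ _ _ (by simpa using ha)]
      rfl

section

variable [Fintype X] [Nonempty X] (N : ℝ → ℝ)

open Classical in
/-- the bad pairs -/
noncomputable def B (S : Finset (Fin k)) (R : Multiset X → ℝ) (η : ℝ) :
    Finset ((Fin k → X) × (Fin k → X)) :=
  univ.filter fun z => ¬ N (D S R z.1 z.2) ≤ η

/-- generic smallness of the `l`-fold differences -/
def Gen (k l : ℕ) {X : Type} [Fintype X] (N : ℝ → ℝ) (R : Multiset X → ℝ) (δ η : ℝ) : Prop :=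
  ∀ S : Finset (Fin k), S.card = l →
    ((B N S R η).card : ℝ) ≤ δ * (Fintype.card (Fin k → X) : ℝ) ^ 2

theorem exists_perm (S S' : Finset (Fin k)) (h : S.card = S'.card) :
    ∃ π : Equiv.Perm (Fin k), S.map π.toEmbedding = S' := by
  classical
  let e : {x // x ∈ S} ≃ {x // x ∈ S'} := Finset.equivOfCardEq h
  refine ⟨e.extendSubtype, ?_⟩
  refine eq_of_subset_of_card_le ?_ (by rw [card_map, h])
  intro b hb
  obtain ⟨a, ha, rfl⟩ := mem_map.1 hb
  exact e.extendSubtype_mem a ha

theorem gen_of_one {S : Finset (Fin k)} {R : Multiset X → ℝ} {δ η : ℝ}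
    (h : ((B N S R η).card : ℝ) ≤ δ * (Fintype.card (Fin k → X) : ℝ) ^ 2) :
    Gen k S.card N R δ η := by
  classical
  intro S' hS'
  obtain ⟨π, rfl⟩ := exists_perm S S' hS'.symm
  refine le_trans (le_of_eq ?_) h
  congr 1
  unfold B
  refine card_bij (fun z _ => (z.1 ∘ π, z.2 ∘ π)) ?_ ?_ ?_
  · intro z hz
    simp only [mem_filter, mem_univ, true_and] at hz ⊢
    rw [← D_perm]
    exact hz
  · intro z _ w _ hzw
    have h1 := (Prod.mk.inj hzw).1
    have h2 := (Prod.mk.inj hzw).2
    refine Prod.ext ?_ ?_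
    · funext a
      have := congrFun h1 (π.symm a)
      simpa using this
    · funext a
      have := congrFun h2 (π.symm a)
      simpa using this
  · intro z hz
    refine ⟨(z.1 ∘ π.symm, z.2 ∘ π.symm), ?_, ?_⟩
    · simp only [mem_filter, mem_univ, true_and] at hz ⊢
      rw [D_perm]
      have e1 : (z.1 ∘ ⇑π.symm) ∘ ⇑π = z.1 := by funext a; simp
      have e2 : (z.2 ∘ ⇑π.symm) ∘ ⇑π = z.2 := by funext a; simp
      rw [e1, e2]
      exact hz
    · refine Prod.ext ?_ ?_
      · funext a; simp
      · funext a; simp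

/-- the exchange of coordinates -/
def Φ (U : Finset (Fin k)) (i : Fin k) (z : (Fin k → X) × (Fin k → X) × (Fin k → X)) :
    (Fin k → X) × (Fin k → X) × (Fin k → X) :=
  (U.piecewise z.2.2 z.1, Function.update z.2.1 i (z.2.2 i),
    Function.update (U.piecewise z.1 z.2.2) i (z.2.1 i))

theorem Φ_inv {U : Finset (Fin k)} {i : Fin k} (hi : i ∉ U) :
    Function.Involutive (Φ (X := X) U i) := by
  rintro ⟨x, y, Y⟩
  unfold Φ
  refine Prod.ext ?_ (Prod.ext ?_ ?_)
  · funext a
    simp only
    by_cases ha : a ∈ U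
    · have hai : a ≠ i := fun h => hi (h ▸ ha)
      rw [piecewise_eq_of_mem _ _ _ ha, Function.update_of_ne hai, piecewise_eq_of_mem _ _ _ ha]
    · rw [piecewise_eq_of_notMem _ _ _ ha, piecewise_eq_of_notMem _ _ _ ha]
  · funext a
    simp only
    by_cases hai : a = i
    · subst hai; simp
    · rw [Function.update_of_ne hai, Function.update_of_ne hai]
  · funext a
    simp only
    by_cases hai : a = i
    · subst hai; simp
    · rw [Function.update_of_ne hai]
      by_cases ha : a ∈ U
      · rw [piecewise_eq_of_mem _ _ _ ha, piecewise_eq_of_mem _ _ _ ha]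
      · rw [piecewise_eq_of_notMem _ _ _ ha, Function.update_of_ne hai, piecewise_eq_of_notMem _ _ _ ha]

theorem D_upd {S : Finset (Fin k)} {i : Fin k} (hi : i ∉ S) (R : Multiset X → ℝ) (x y : Fin k → X) (c : X) :
    D S R x (Function.update y i c) = D S R x y := by
  unfold D
  refine sum_congr rfl fun I hI => ?_
  have hiI : i ∉ I := fun h => hi (mem_powerset.1 hI h)
  congr 3
  funext a
  by_cases ha : a ∈ I
  · have hai : a ≠ i := fun h => hiI (h ▸ ha)
    rw [piecewise_eq_of_mem _ _ _ ha, piecewise_eq_of_mem _ _ _ ha, Function.update_of_ne hai]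
  · rw [piecewise_eq_of_notMem _ _ _ ha, piecewise_eq_of_notMem _ _ _ ha]

theorem key {S U : Finset (Fin k)} {i : Fin k} (hiS : i ∉ S) (hiU : i ∉ U) (R : Multiset X → ℝ)
    (z : (Fin k → X) × (Fin k → X) × (Fin k → X)) :
    D (insert i S) R (Φ U i z).1 (Φ U i z).2.1 =
      D S R (U.piecewise z.2.2 z.1) z.2.1 - D S R ((insert i U).piecewise z.2.2 z.1) z.2.1 := by
  rw [D_insert hiS]
  unfold Φ
  simp only [Function.update_self]
  rw [D_upd hiS, D_upd hiS]
  congr 2
  funext a
  by_cases hai : a = i
  · subst hai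
    rw [Function.update_self, piecewise_eq_of_mem _ _ _ (mem_insert_self _ _)]
  · rw [Function.update_of_ne hai]
    by_cases ha : a ∈ U
    · rw [piecewise_eq_of_mem _ _ _ ha, piecewise_eq_of_mem _ _ _ (mem_insert_of_mem ha)]
    · rw [piecewise_eq_of_notMem _ _ _ ha, piecewise_eq_of_notMem _ _ _ (by simp [ha, hai])]

open Classical in
theorem tel (hN1 : ∀ y z, N (y + z) ≤ N y + N z) {S : Finset (Fin k)} {R : Multiset X → ℝ} {δ η : ℝ}
    (h : ∀ i ∉ S, ((B N (insert i S) R η).card : ℝ) ≤ δ * (Fintype.card (Fin k → X) : ℝ) ^ 2)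
    (U : Finset (Fin k)) (hU : U.Nonempty) (hUS : Disjoint U S) :
    ((univ.filter fun z : (Fin k → X) × (Fin k → X) × (Fin k → X) =>
      ¬ N (D S R z.1 z.2.1 - D S R (U.piecewise z.2.2 z.1) z.2.1) ≤ U.card * η).card : ℝ) ≤
      U.card * δ * (Fintype.card (Fin k → X) : ℝ) ^ 3 := by
  -- one step
  have one : ∀ (U : Finset (Fin k)) (i : Fin k), i ∉ U → i ∉ S →
      ((univ.filter fun z : (Fin k → X) × (Fin k → X) × (Fin k → X) =>
        ¬ N (D S R (U.piecewise z.2.2 z.1) z.2.1 -
          D S R ((insert i U).piecewise z.2.2 z.1) z.2.1) ≤ η).card : ℝ) ≤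
        δ * (Fintype.card (Fin k → X) : ℝ) ^ 3 := by
    intro U i hiU hiS
    have hc : (univ.filter fun z : (Fin k → X) × (Fin k → X) × (Fin k → X) =>
        ¬ N (D S R (U.piecewise z.2.2 z.1) z.2.1 -
          D S R ((insert i U).piecewise z.2.2 z.1) z.2.1) ≤ η).card =
        (B N (insert i S) R η ×ˢ (univ : Finset (Fin k → X))).card := by
      refine card_bij (fun z _ => (((Φ U i z).1, (Φ U i z).2.1), (Φ U i z).2.2)) ?_ ?_ ?_
      · intro z hz
        rw [mem_filter] at hz
        rw [mem_product]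
        refine ⟨?_, mem_univ _⟩
        unfold B
        rw [mem_filter]
        refine ⟨mem_univ _, ?_⟩
        simp only
        rw [key hiS hiU]
        exact hz.2
      · intro z _ w _ hzw
        have h1 : Φ U i z = Φ U i w := by
          have a1 := (Prod.mk.inj hzw).2
          have a2 := (Prod.mk.inj (Prod.mk.inj hzw).1).1
          have a3 := (Prod.mk.inj (Prod.mk.inj hzw).1).2
          exact Prod.ext a2 (Prod.ext a3 a1)
        exact (Φ_inv hiU).injective h1
      · rintro ⟨⟨x, y⟩, Y⟩ hz
        refine ⟨Φ U i (x, y, Y), ?_, ?_⟩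
        · rw [mem_filter]
          refine ⟨mem_univ _, ?_⟩
          rw [← key hiS hiU, Φ_inv hiU]
          rw [mem_product] at hz
          have hz1 := hz.1
          unfold B at hz1
          rw [mem_filter] at hz1
          exact hz1.2
        · rw [Φ_inv hiU]
    rw [hc, card_product, card_univ]
    push_cast
    have h1 := h i hiS
    have h2 : (0 : ℝ) ≤ (Fintype.card (Fin k → X) : ℝ) := Nat.cast_nonneg _
    calc ((B N (insert i S) R η).card : ℝ) * (Fintype.card (Fin k → X) : ℝ)
        ≤ (δ * (Fintype.card (Fin k → X) : ℝ) ^ 2) * (Fintype.card (Fin k → X) : ℝ) := by gcongr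
      _ = δ * (Fintype.card (Fin k → X) : ℝ) ^ 3 := by ring
  induction U using Finset.induction_on with
  | empty => exact absurd hU not_nonempty_empty
  | insert i U hiU ih =>
    have hiS : i ∉ S := fun h => (disjoint_left.1 hUS (mem_insert_self i U)) h
    have hUS' : Disjoint U S := hUS.mono_left (subset_insert i U)
    rcases U.eq_empty_or_nonempty with rfl | hne
    · have h1 := one ∅ i (notMem_empty _) hiS
      simp only [piecewise_empty, insert_empty_eq, card_singleton, Nat.cast_one, one_mul] at h1 ⊢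
      exact h1
    · have h1 := one U i hiU hiS
      have h2 := ih hne hUS'
      rw [card_insert_of_notMem hiU]
      push_cast
      have hsub : (univ.filter fun z : (Fin k → X) × (Fin k → X) × (Fin k → X) =>
          ¬ N (D S R z.1 z.2.1 - D S R ((insert i U).piecewise z.2.2 z.1) z.2.1) ≤
            ((U.card : ℝ) + 1) * η) ⊆
          (univ.filter fun z : (Fin k → X) × (Fin k → X) × (Fin k → X) =>
            ¬ N (D S R z.1 z.2.1 - D S R (U.piecewise z.2.2 z.1) z.2.1) ≤ U.card * η) ∪
          (univ.filter fun z : (Fin k → X) × (Fin k → X) × (Fin k → X) =>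
            ¬ N (D S R (U.piecewise z.2.2 z.1) z.2.1 -
              D S R ((insert i U).piecewise z.2.2 z.1) z.2.1) ≤ η) := by
        intro z hz
        rw [mem_filter] at hz
        rw [mem_union, mem_filter, mem_filter]
        by_contra hcon
        push Not at hcon
        have e1 := hcon.1 (mem_univ _)
        have e2 := hcon.2 (mem_univ _)
        apply hz.2
        have e3 := hN1 (D S R z.1 z.2.1 - D S R (U.piecewise z.2.2 z.1) z.2.1)
          (D S R (U.piecewise z.2.2 z.1) z.2.1 - D S R ((insert i U).piecewise z.2.2 z.1) z.2.1)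
        rw [sub_add_sub_cancel] at e3
        linarith
      have h3 := (card_le_card hsub).trans (card_union_le _ _)
      have h4 := (Nat.cast_le (α := ℝ)).2 h3
      rw [Nat.cast_add] at h4
      refine h4.trans ?_
      linarith

open Classical in
/-- the best translate -/
theorem step (hN1 : ∀ y z, N (y + z) ≤ N y + N z) {l : ℕ} (hl : l < k) {R : Multiset X → ℝ}
    {δ η : ℝ} (hδ : 0 ≤ δ) (hη : 0 ≤ η) (h : Gen k (l + 1) N R δ η) :
    ∃ Y : Multiset X, Gen k l N (Rp l R Y) (k * δ) (k * η) := by
  obtain ⟨S, hS⟩ : ∃ S : Finset (Fin k), S.card = l := by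
    obtain ⟨S, -, hS⟩ := exists_subset_card_eq (s := (univ : Finset (Fin k))) (n := l)
      (by rw [card_univ, Fintype.card_fin]; exact hl.le)
    exact ⟨S, hS⟩
  have hcomp : (Sᶜ).card ≤ k := by
    refine (card_le_univ _).trans ?_
    rw [Fintype.card_fin]
  have hne : (Sᶜ).Nonempty := by
    rw [← card_pos, card_compl, Fintype.card_fin, hS]
    omega
  have h1 := tel N hN1 (S := S) (R := R) (δ := δ) (η := η) (fun i hi => h _ (by
    rw [card_insert_of_notMem hi, hS])) Sᶜ hne disjoint_compl_left
  set n : ℝ := (Fintype.card (Fin k → X) : ℝ) with hn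
  have hn0 : 0 < n := by
    rw [hn]
    exact_mod_cast Fintype.card_pos
  have hck : ((Sᶜ).card : ℝ) ≤ k := by exact_mod_cast hcomp
  -- the best Y
  obtain ⟨Y, hY⟩ : ∃ Y : Fin k → X, ((univ.filter fun z : (Fin k → X) × (Fin k → X) =>
      ¬ N (D S R z.1 z.2 - D S R (Sᶜ.piecewise Y z.1) z.2) ≤ (Sᶜ).card * η).card : ℝ) ≤
        k * δ * n ^ 2 := by
    by_contra hcon0
    have hcon : ∀ Y : Fin k → X, k * δ * n ^ 2 < ((univ.filter fun z : (Fin k → X) × (Fin k → X) =>
      ¬ N (D S R z.1 z.2 - D S R (Sᶜ.piecewise Y z.1) z.2) ≤ (Sᶜ).card * η).card : ℝ) :=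
      fun Y => not_le.1 fun hle => hcon0 ⟨Y, hle⟩
    have h2 : (univ.filter fun z : (Fin k → X) × (Fin k → X) × (Fin k → X) =>
        ¬ N (D S R z.1 z.2.1 - D S R (Sᶜ.piecewise z.2.2 z.1) z.2.1) ≤ (Sᶜ).card * η).card =
        ∑ Y : Fin k → X, (univ.filter fun z : (Fin k → X) × (Fin k → X) =>
          ¬ N (D S R z.1 z.2 - D S R (Sᶜ.piecewise Y z.1) z.2) ≤ (Sᶜ).card * η).card := by
      rw [card_eq_sum_card_fiberwise (f := fun z => z.2.2) (t := univ) (fun _ _ => mem_univ _)]
      refine sum_congr rfl fun Y _ => ?_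
      refine card_bij (fun z _ => (z.1, z.2.1)) ?_ ?_ ?_
      · intro z hz
        rw [mem_filter, mem_filter] at hz
        rw [mem_filter]
        refine ⟨mem_univ _, ?_⟩
        rw [← hz.2]
        exact hz.1.2
      · intro z hz w hw hzw
        rw [mem_filter] at hz hw
        have a1 := (Prod.mk.inj hzw).1
        have a2 := (Prod.mk.inj hzw).2
        exact Prod.ext a1 (Prod.ext a2 (hz.2.trans hw.2.symm))
      · rintro ⟨x, y⟩ hz
        rw [mem_filter] at hz
        refine ⟨(x, y, Y), ?_, rfl⟩
        rw [mem_filter, mem_filter]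
        exact ⟨⟨mem_univ _, hz.2⟩, rfl⟩
    rw [h2] at h1
    push_cast at h1
    have h3 : ∑ Y : Fin k → X, k * δ * n ^ 2 < ∑ Y : Fin k → X,
        ((univ.filter fun z : (Fin k → X) × (Fin k → X) =>
          ¬ N (D S R z.1 z.2 - D S R (Sᶜ.piecewise Y z.1) z.2) ≤ (Sᶜ).card * η).card : ℝ) :=
      sum_lt_sum_of_nonempty univ_nonempty fun Y _ => hcon Y
    rw [sum_const, card_univ, nsmul_eq_mul, ← hn] at h3
    have h4 : ((Sᶜ).card : ℝ) * δ * n ^ 3 ≤ k * δ * n ^ 3 := by gcongr
    have h5 : n * (k * δ * n ^ 2) = k * δ * n ^ 3 := by ring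
    linarith
  refine ⟨Sᶜ.val.map Y, ?_⟩
  rw [← hS]
  refine gen_of_one N ?_
  refine le_trans ?_ hY
  unfold B
  refine Nat.cast_le.2 (card_le_card ?_)
  intro z hz
  rw [mem_filter] at hz ⊢
  refine ⟨mem_univ _, fun hcon => hz.2 ?_⟩
  rw [D_Rp]
  exact hcon.trans (by gcongr)

open Classical in
theorem claim (hN1 : ∀ y z, N (y + z) ≤ N y + N z) : ∀ (l : ℕ) (_ : l ≤ k) (R : Multiset X → ℝ)
    (δ η : ℝ), 0 ≤ δ → 0 ≤ η → Gen k l N R δ η → ∃ F' : Multiset X → ℝ,
      ((univ.filter fun z : (Fin k → X) × (Fin k → X) => ¬ N (R (M z.1) -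
        ∑ I ∈ (univ : Finset (Finset (Fin k))).filter (fun I => I.card < l), F' (I.val.map z.1)) ≤
          k ^ l * η).card : ℝ) ≤ k ^ l * δ * (Fintype.card (Fin k → X) : ℝ) ^ 2 := by
  intro l
  induction l with
  | zero =>
    intro _ R δ η _ _ h
    refine ⟨fun _ => 0, ?_⟩
    have h1 := h ∅ card_empty
    refine le_trans ?_ (h1.trans (le_of_eq (by ring)))
    unfold B
    refine Nat.cast_le.2 (card_le_card ?_)
    intro z hz
    rw [mem_filter] at hz ⊢
    refine ⟨mem_univ _, fun hcon => hz.2 ?_⟩
    have e1 : D ∅ R z.1 z.2 = R (M z.1) := by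
      unfold D
      simp
    rw [e1] at hcon
    simpa using hcon
  | succ l ih =>
    intro hl R δ η hδ hη h
    obtain ⟨Y, hY⟩ := step N hN1 (by omega) hδ hη h
    obtain ⟨F'', hF⟩ := ih (by omega) (Rp l R Y) (k * δ) (k * η) (by positivity) (by positivity) hY
    refine ⟨fun s => if Multiset.card s = l then R (s + Y) else F'' s, ?_⟩
    refine le_trans ?_ (hF.trans (le_of_eq (by ring)))
    refine Nat.cast_le.2 (card_le_card ?_)
    intro z hz
    rw [mem_filter] at hz ⊢
    refine ⟨mem_univ _, fun hcon => hz.2 ?_⟩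
    have e1 : R (M z.1) - ∑ I ∈ (univ : Finset (Finset (Fin k))).filter (fun I => I.card < l + 1),
        (fun s => if Multiset.card s = l then R (s + Y) else F'' s) (I.val.map z.1) =
        Rp l R Y (M z.1) - ∑ I ∈ (univ : Finset (Finset (Fin k))).filter (fun I => I.card < l),
          F'' (I.val.map z.1) := by
      unfold Rp
      rw [sum_sub]
      have e2 : (univ : Finset (Finset (Fin k))).filter (fun I => I.card < l + 1) =
          (univ : Finset (Fin k)).powersetCard l ∪
            (univ : Finset (Finset (Fin k))).filter (fun I => I.card < l) := by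
        ext I
        simp only [mem_filter, mem_univ, true_and, mem_union, mem_powersetCard, subset_univ]
        omega
      have e3 : Disjoint ((univ : Finset (Fin k)).powersetCard l)
          ((univ : Finset (Finset (Fin k))).filter (fun I => I.card < l)) := by
        rw [disjoint_left]
        intro I hI hI'
        have a1 := (mem_powersetCard.1 hI).2
        have a2 := (mem_filter.1 hI').2
        omega
      rw [e2, sum_union e3]
      have e4 : ∑ I ∈ (univ : Finset (Fin k)).powersetCard l,
          (fun s => if Multiset.card s = l then R (s + Y) else F'' s) (I.val.map z.1) =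
          ∑ I ∈ (univ : Finset (Fin k)).powersetCard l, R (I.val.map z.1 + Y) := by
        refine sum_congr rfl fun I hI => ?_
        have a1 := (mem_powersetCard.1 hI).2
        simp only [Multiset.card_map, card_val, a1, if_true]
      have e5 : ∑ I ∈ (univ : Finset (Finset (Fin k))).filter (fun I => I.card < l),
          (fun s => if Multiset.card s = l then R (s + Y) else F'' s) (I.val.map z.1) =
          ∑ I ∈ (univ : Finset (Finset (Fin k))).filter (fun I => I.card < l),
            F'' (I.val.map z.1) := by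
        refine sum_congr rfl fun I hI => ?_
        have a1 := (mem_filter.1 hI).2
        have a2 : ¬ I.card = l := by omega
        simp only [Multiset.card_map, card_val, a2, if_false]
      rw [e4, e5]
      ring
    rw [e1]
    refine hcon.trans (le_of_eq ?_)
    ring

end

end X7

open X7 in
/-- Symmetric decomposition. -/
theorem dec (k : ℕ) : ∃ A : ℕ, ∀ (X : Type) [Fintype X] [Nonempty X] (N : ℝ → ℝ)
    (_ : ∀ y, 0 ≤ N y) (_ : ∀ y z, N (y + z) ≤ N y + N z) (_ : ∀ y, N (-y) = N y)
    (F : Multiset X → ℝ) (δ η : ℝ) (_ : 0 ≤ δ) (_ : 0 ≤ η) (Bad : Finset (Fin k → X × X))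
    (_ : (Bad.card : ℝ) ≤ δ * (Fintype.card (X × X) : ℝ) ^ k) (_ : ∀ p, p ∉ Bad → N (diff k F p) ≤ η),
    ∃ (F' : Multiset X → ℝ) (Bad' : Finset (Fin k → X)),
      (Bad'.card : ℝ) ≤ A * δ * (Fintype.card X : ℝ) ^ k ∧
      ∀ x, x ∉ Bad' → N (F ((Finset.univ : Finset (Fin k)).val.map x) -
        ∑ I ∈ (Finset.univ : Finset (Finset (Fin k))).filter (fun I => I ≠ Finset.univ), F' (I.val.map x)) ≤ A * η := by
  classical
  refine ⟨k ^ k, ?_⟩
  intro X _ _ N hN0 hN1 hN2 F δ η hδ hη Bad hBad h
  have hcard : (Fintype.card (Fin k → X) : ℝ) = (Fintype.card X : ℝ) ^ k := by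
    rw [Fintype.card_fun, Fintype.card_fin]
    push_cast
    rfl
  have hX : (0 : ℝ) < (Fintype.card X : ℝ) ^ k := by
    have : (0 : ℝ) < (Fintype.card X : ℝ) := by exact_mod_cast Fintype.card_pos
    positivity
  have hG : Gen k k N F δ η := by
    intro S hS
    have hSu : S = univ := by
      rw [← card_eq_iff_eq_univ, hS, Fintype.card_fin]
    subst hSu
    have h1 : (B (k := k) N univ F η).card ≤ Bad.card := by
      refine card_le_card_of_injOn (fun z a => (z.1 a, z.2 a)) ?_ ?_
      · intro z hz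
        have hz' : z ∈ B N univ F η := hz
        unfold B at hz'
        rw [mem_filter] at hz'
        by_contra hcon
        refine hz'.2 ?_
        have h2 := h _ hcon
        have h3 : diff k F (fun a => (z.1 a, z.2 a)) = D univ F z.1 z.2 := by
          unfold diff D M
          rw [powerset_univ]
          refine sum_congr rfl fun I _ => ?_
          congr 3
        rw [← h3]
        exact h2
      · intro z _ w _ hzw
        have h4 : ∀ a, (z.1 a, z.2 a) = (w.1 a, w.2 a) := fun a => congrFun hzw a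
        exact Prod.ext (funext fun a => (Prod.mk.inj (h4 a)).1) (funext fun a => (Prod.mk.inj (h4 a)).2)
    have h2 : ((B (k := k) N univ F η).card : ℝ) ≤ Bad.card := by exact_mod_cast h1
    refine h2.trans (hBad.trans (le_of_eq ?_))
    rw [Fintype.card_prod, hcard]
    push_cast
    rw [mul_pow]
    ring
  obtain ⟨F', hF⟩ := claim N hN1 k le_rfl F δ η hδ hη hG
  refine ⟨F', univ.filter fun x => ¬ N (F (M x) -
        ∑ I ∈ (univ : Finset (Finset (Fin k))).filter (fun I => I.card < k), F' (I.val.map x)) ≤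
          k ^ k * η, ?_, ?_⟩
  · have h1 : (univ.filter fun z : (Fin k → X) × (Fin k → X) => ¬ N (F (M z.1) -
        ∑ I ∈ (univ : Finset (Finset (Fin k))).filter (fun I => I.card < k), F' (I.val.map z.1)) ≤
          k ^ k * η) = (univ.filter fun x => ¬ N (F (M x) -
        ∑ I ∈ (univ : Finset (Finset (Fin k))).filter (fun I => I.card < k), F' (I.val.map x)) ≤
          k ^ k * η) ×ˢ (univ : Finset (Fin k → X)) := by
      ext z
      simp only [mem_filter, mem_univ, true_and, mem_product, and_true]
    rw [h1, card_product, card_univ] at hF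
    push_cast at hF
    rw [hcard] at hF
    push_cast
    have h2 : (k : ℝ) ^ k * δ * ((Fintype.card X : ℝ) ^ k) ^ 2 =
        (k : ℝ) ^ k * δ * (Fintype.card X : ℝ) ^ k * (Fintype.card X : ℝ) ^ k := by ring
    rw [h2] at hF
    exact le_of_mul_le_mul_right hF hX
  · intro x hx
    rw [mem_filter] at hx
    push Not at hx
    have h1 := hx (mem_univ _)
    push_cast
    refine le_trans (le_of_eq ?_) h1
    congr 2
    refine sum_congr ?_ fun _ _ => rfl
    ext I
    simp only [mem_filter, mem_univ, true_and]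
    constructor
    · intro hI
      have := card_lt_card (ssubset_univ_iff.2 hI)
      rwa [card_univ, Fintype.card_fin] at this
    · intro hI hIu
      rw [hIu, card_univ, Fintype.card_fin] at hI
      omega

end Pool.Agent.J4.H79.HS
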