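import Pool.Agent.J4.H79.HS.LDefs

/-! # Project HS, piece X8 (helper45): union bound over the `k`-subsets and double count -/

set_option autoImplicit false

namespace Pool.Agent.J4.H79.HS

namespace X8

open Finset

lemma N_sum {ι : Type*} (N : ℝ → ℝ) (hN0 : N 0 = 0) (hN1 : ∀ y z, N (y + z) ≤ N y + N z)
    (s : Finset ι) (f : ι → ℝ) : N (∑ i ∈ s, f i) ≤ ∑ i ∈ s, N (f i) := by
  classical
  induction s using Finset.induction_on with
  | empty => simp [hN0]
  | insert a s ha ih =>
    rw [sum_insert ha, sum_insert ha]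
    exact (hN1 _ _).trans (by linarith)

/-- the number of the `L` of size `k` above `I` -/
lemma card_above {r k : ℕ} (I : Finset (Fin r)) (hI : I.card ≤ k) :
    ((powersetCard k (univ : Finset (Fin r))).filter (fun L => I ⊆ L)).card =
      (r - I.card).choose (k - I.card) := by
  have h1 : (powersetCard (k - I.card) Iᶜ).card = (r - I.card).choose (k - I.card) := by
    rw [card_powersetCard, card_compl, Fintype.card_fin]
  rw [← h1]
  refine card_nbij' (fun L => L \ I) (fun J => J ∪ I) ?_ ?_ ?_ ?_
  · intro L hL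
    simp only [coe_filter, mem_powersetCard, subset_univ, true_and, Set.mem_ofPred_eq] at hL
    simp only [mem_coe, mem_powersetCard]
    refine ⟨?_, ?_⟩
    · intro j hj
      rw [mem_sdiff] at hj
      rw [mem_compl]
      exact hj.2
    · rw [card_sdiff_of_subset hL.2, hL.1]
  · intro J hJ
    simp only [mem_coe, mem_powersetCard] at hJ
    simp only [coe_filter, mem_powersetCard, subset_univ, true_and, Set.mem_ofPred_eq]
    have hd : Disjoint J I := by
      rw [disjoint_left]
      intro j h1 h2
      exact (mem_compl.1 (hJ.1 h1)) h2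
    refine ⟨?_, subset_union_right⟩
    rw [card_union_of_disjoint hd, hJ.2]
    omega
  · intro L hL
    simp only [coe_filter, mem_powersetCard, subset_univ, true_and, Set.mem_ofPred_eq] at hL
    exact sdiff_union_of_subset hL.2
  · intro J hJ
    simp only [mem_coe, mem_powersetCard] at hJ
    have hd : Disjoint J I := by
      rw [disjoint_left]
      intro j h1 h2
      exact (mem_compl.1 (hJ.1 h1)) h2
    show (J ∪ I) \ I = J
    rw [union_sdiff_right, sdiff_eq_self_of_disjoint hd]

/-- double count -/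
lemma double {r k : ℕ} (f : Finset (Fin r) → ℝ) :
    ∑ I ∈ (univ : Finset (Finset (Fin r))).filter (fun I => I.card < k),
        ((r - I.card).choose (k - I.card) : ℝ) * f I =
      ∑ L ∈ powersetCard k (univ : Finset (Fin r)), ∑ I ∈ L.ssubsets, f I := by
  have h1 : ∀ I ∈ (univ : Finset (Finset (Fin r))).filter (fun I => I.card < k),
      ((r - I.card).choose (k - I.card) : ℝ) * f I =
        ∑ L ∈ powersetCard k (univ : Finset (Fin r)), if I ⊆ L then f I else 0 := by
    intro I hI
    rw [mem_filter] at hI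
    rw [← sum_filter, sum_const, card_above I hI.2.le, nsmul_eq_mul]
  rw [sum_congr rfl h1, sum_comm]
  refine sum_congr rfl fun L hL => ?_
  rw [mem_powersetCard] at hL
  rw [← sum_filter]
  refine sum_congr ?_ fun _ _ => rfl
  ext I
  rw [mem_filter, mem_filter, mem_ssubsets]
  constructor
  · rintro ⟨⟨-, h2⟩, h3⟩
    refine ⟨h3, fun h4 => ?_⟩
    have := card_le_card h4
    omega
  · intro h2
    refine ⟨⟨mem_univ _, ?_⟩, h2.1⟩
    rw [← hL.2]
    exact card_lt_card h2

variable {X : Type}

/-- the restriction of a tuple to the positions in `L` -/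
def res {k r : ℕ} (L : Finset (Fin r)) (hL : L.card = k) (x : Fin r → X) : Fin k → X :=
  fun a => x (L.orderEmbOfFin hL a)

lemma map_univ_emb {k r : ℕ} (L : Finset (Fin r)) (hL : L.card = k) :
    (univ : Finset (Fin k)).map (L.orderEmbOfFin hL).toEmbedding = L := by
  ext j
  rw [mem_map]
  constructor
  · rintro ⟨a, -, rfl⟩
    exact L.orderEmbOfFin_mem hL a
  · intro hj
    have h1 : j ∈ Set.range (L.orderEmbOfFin hL) := by
      rw [range_orderEmbOfFin]
      exact hj
    obtain ⟨a, ha⟩ := h1
    exact ⟨a, mem_univ _, ha⟩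

lemma map_res {k r : ℕ} (L : Finset (Fin r)) (hL : L.card = k) (x : Fin r → X)
    (I : Finset (Fin k)) :
    I.val.map (res L hL x) = (I.map (L.orderEmbOfFin hL).toEmbedding).val.map x := by
  rw [map_val, Multiset.map_map]
  rfl

lemma sum_res {k r : ℕ} (L : Finset (Fin r)) (hL : L.card = k) (x : Fin r → X)
    (F' : Multiset X → ℝ) :
    ∑ I ∈ (univ : Finset (Finset (Fin k))).filter (fun I => I ≠ univ), F' (I.val.map (res L hL x)) =
      ∑ I ∈ L.ssubsets, F' (I.val.map x) := by
  refine sum_nbij (fun I => I.map (L.orderEmbOfFin hL).toEmbedding) ?_ ?_ ?_ ?_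
  · intro I hI
    rw [mem_filter] at hI
    rw [mem_ssubsets]
    have h1 : I ⊂ univ := ssubset_univ_iff.2 hI.2
    have h2 := (map_ssubset_map (f := (L.orderEmbOfFin hL).toEmbedding)).2 h1
    rwa [map_univ_emb] at h2
  · intro I _ J _ h
    exact map_injective _ h
  · intro J hJ
    rw [mem_coe, mem_ssubsets] at hJ
    have h1 : J ⊆ (univ : Finset (Fin k)).map (L.orderEmbOfFin hL).toEmbedding := by
      rw [map_univ_emb]
      exact hJ.1
    obtain ⟨I, -, hI⟩ := subset_map_iff.1 h1
    refine ⟨I, ?_, hI.symm⟩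
    rw [mem_coe, mem_filter]
    refine ⟨mem_univ _, ?_⟩
    rintro rfl
    rw [map_univ_emb] at hI
    rw [hI] at hJ
    exact (ssubset_irrefl _) hJ
  · intro I _
    rw [map_res]

open Classical in
/-- the tuples whose restriction to `L` is bad -/
lemma card_bad {k r : ℕ} [Fintype X] (L : Finset (Fin r)) (hL : L.card = k)
    (Bad : Finset (Fin k → X)) :
    ((univ : Finset (Fin r → X)).filter (fun x => res L hL x ∈ Bad)).card ≤
      Bad.card * Fintype.card X ^ (r - k) := by
  have h1 : (Bad ×ˢ (univ : Finset ({j : Fin r // j ∉ L} → X))).card =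
      Bad.card * Fintype.card X ^ (r - k) := by
    rw [card_product, card_univ, Fintype.card_fun, Fintype.card_subtype_compl, Fintype.card_fin,
      Fintype.card_coe, hL]
  rw [← h1]
  refine card_le_card_of_injOn (fun x => (res L hL x, fun j => x j.1)) ?_ ?_
  · intro x hx
    rw [mem_coe, mem_filter] at hx
    rw [mem_coe, mem_product]
    exact ⟨hx.2, mem_univ _⟩
  · intro x _ y _ h
    have h2 : res L hL x = res L hL y := congrArg Prod.fst h
    have h3 : (fun j : {j : Fin r // j ∉ L} => x j.1) = fun j => y j.1 := congrArg Prod.snd h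
    funext j
    by_cases hj : j ∈ L
    · have h4 : j ∈ (univ : Finset (Fin k)).map (L.orderEmbOfFin hL).toEmbedding := by
        rw [map_univ_emb]
        exact hj
      obtain ⟨a, -, rfl⟩ := mem_map.1 h4
      exact congrFun h2 a
    · exact congrFun h3 ⟨j, hj⟩

end X8

open Finset in
theorem subst_tuple (k r : ℕ) (X : Type) [Fintype X] [Nonempty X] (N : ℝ → ℝ)
    (hN0 : N 0 = 0) (hN1 : ∀ y z, N (y + z) ≤ N y + N z)
    (F F' : Multiset X → ℝ) (δ η : ℝ) (hδ : 0 ≤ δ) (hη : 0 ≤ η) (Bad : Finset (Fin k → X))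
    (hBad : (Bad.card : ℝ) ≤ δ * (Fintype.card X : ℝ) ^ k)
    (h : ∀ x, x ∉ Bad → N (F ((Finset.univ : Finset (Fin k)).val.map x) -
        ∑ I ∈ (Finset.univ : Finset (Finset (Fin k))).filter (fun I => I ≠ Finset.univ), F' (I.val.map x)) ≤ η) :
    ∃ Bad' : Finset (Fin r → X), (Bad'.card : ℝ) ≤ (r : ℝ) ^ k * δ * (Fintype.card X : ℝ) ^ r ∧
      ∀ x, x ∉ Bad' → N (∑ L ∈ Finset.powersetCard k (Finset.univ : Finset (Fin r)), F (L.val.map x) -
        ∑ I ∈ (Finset.univ : Finset (Finset (Fin r))).filter (fun I => I.card < k),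
          ((r - I.card).choose (k - I.card) : ℝ) * F' (I.val.map x)) ≤ (r : ℝ) ^ k * η := by
  classical
  have hch : (((powersetCard k (univ : Finset (Fin r))).card : ℕ) : ℝ) ≤ (r : ℝ) ^ k := by
    rw [card_powersetCard, card_univ, Fintype.card_fin]
    exact_mod_cast Nat.choose_le_pow r k
  let B : Finset (Fin r) → Finset (Fin r → X) := fun L =>
    univ.filter (fun x => ∃ hL : L.card = k, X8.res L hL x ∈ Bad)
  have hB : ∀ L ∈ powersetCard k (univ : Finset (Fin r)),
      ((B L).card : ℝ) ≤ δ * (Fintype.card X : ℝ) ^ r := by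
    intro L hL
    rw [mem_powersetCard] at hL
    have hkr : k ≤ r := by
      rw [← hL.2]
      exact (card_le_univ L).trans (by rw [Fintype.card_fin])
    have h1 : B L = univ.filter (fun x => X8.res L hL.2 x ∈ Bad) := by
      ext x
      simp only [B, mem_filter, mem_univ, true_and]
      exact ⟨fun ⟨_, h⟩ => h, fun h => ⟨hL.2, h⟩⟩
    rw [h1]
    have h2 := X8.card_bad L hL.2 Bad
    have h3 : ((Bad.card * Fintype.card X ^ (r - k) : ℕ) : ℝ) ≤ δ * (Fintype.card X : ℝ) ^ r := by
      push_cast
      calc (Bad.card : ℝ) * (Fintype.card X : ℝ) ^ (r - k)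
          ≤ (δ * (Fintype.card X : ℝ) ^ k) * (Fintype.card X : ℝ) ^ (r - k) :=
            mul_le_mul_of_nonneg_right hBad (by positivity)
        _ = δ * (Fintype.card X : ℝ) ^ r := by
            rw [mul_assoc, ← pow_add]
            congr 2
            omega
    exact le_trans (by exact_mod_cast h2) h3
  refine ⟨(powersetCard k (univ : Finset (Fin r))).biUnion B, ?_, ?_⟩
  · calc ((((powersetCard k (univ : Finset (Fin r))).biUnion B).card : ℕ) : ℝ)
        ≤ ∑ L ∈ powersetCard k (univ : Finset (Fin r)), ((B L).card : ℝ) := by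
          exact_mod_cast card_biUnion_le
      _ ≤ ∑ L ∈ powersetCard k (univ : Finset (Fin r)), δ * (Fintype.card X : ℝ) ^ r :=
          sum_le_sum hB
      _ = (((powersetCard k (univ : Finset (Fin r))).card : ℕ) : ℝ) *
            (δ * (Fintype.card X : ℝ) ^ r) := by
          rw [sum_const, nsmul_eq_mul]
      _ ≤ (r : ℝ) ^ k * (δ * (Fintype.card X : ℝ) ^ r) :=
          mul_le_mul_of_nonneg_right hch (by positivity)
      _ = (r : ℝ) ^ k * δ * (Fintype.card X : ℝ) ^ r := by ring
  · intro x hx
    rw [X8.double (fun I => F' (I.val.map x)), ← sum_sub_distrib]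
    refine (X8.N_sum N hN0 hN1 _ _).trans ?_
    have h1 : ∀ L ∈ powersetCard k (univ : Finset (Fin r)),
        N (F (L.val.map x) - ∑ I ∈ L.ssubsets, F' (I.val.map x)) ≤ η := by
      intro L hL
      have hL' := (mem_powersetCard.1 hL).2
      have h2 : X8.res L hL' x ∉ Bad := by
        intro h3
        apply hx
        rw [mem_biUnion]
        refine ⟨L, hL, ?_⟩
        simp only [B, mem_filter, mem_univ, true_and]
        exact ⟨hL', h3⟩
      have h4 := h _ h2
      rw [X8.sum_res, X8.map_res, X8.map_univ_emb] at h4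
      exact h4
    calc ∑ L ∈ powersetCard k (univ : Finset (Fin r)),
          N (F (L.val.map x) - ∑ I ∈ L.ssubsets, F' (I.val.map x))
        ≤ ∑ L ∈ powersetCard k (univ : Finset (Fin r)), η := sum_le_sum h1
      _ = (((powersetCard k (univ : Finset (Fin r))).card : ℕ) : ℝ) * η := by
          rw [sum_const, nsmul_eq_mul]
      _ ≤ (r : ℝ) ^ k * η := mul_le_mul_of_nonneg_right hch hη

end Pool.Agent.J4.H79.HS
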