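import Pool.Agent.J4.H79.HS.LDefs

/-!
Definitions for the last round of project HS: the phases and their averages.
-/

namespace Pool.Agent.J4.H79.HS

open Finset Polynomial

/-- the phase: sum over the sets of at most `k` positions -/
noncomputable def Phi (k : ℕ) {X : Type} (F : Multiset X → ℝ[X]) (r : ℕ) (x : Fin r → X) : ℝ :=
  ∑ L ∈ (univ : Finset (Finset (Fin r))).filter (fun L => L.card ≤ k), (F (L.val.map x)).eval (r : ℝ)

/-- the average over all tuples -/
noncomputable def Ex (k : ℕ) {X : Type} [Fintype X] (F : Multiset X → ℝ[X]) (r : ℕ) : ℂ :=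
  (∑ x : Fin r → X, e (Phi k F r x)) / ((Fintype.card X : ℝ) ^ r : ℝ)

theorem card_pow_eq (X : Type) [Fintype X] (r : ℕ) :
    (Fintype.card (Fin r → X) : ℝ) = (Fintype.card X : ℝ) ^ r := by
  rw [Fintype.card_fun, Fintype.card_fin]; push_cast; rfl

theorem norm_Ex_le (k : ℕ) {X : Type} [Fintype X] [Nonempty X] (F : Multiset X → ℝ[X]) (r : ℕ) :
    ‖Ex k F r‖ ≤ 1 := by
  have hX : (0 : ℝ) < Fintype.card X := by exact_mod_cast Fintype.card_pos
  have hXr : (0 : ℝ) < (Fintype.card X : ℝ) ^ r := by positivity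
  unfold Ex
  rw [norm_div, Complex.norm_real, Real.norm_of_nonneg hXr.le, div_le_one hXr, ← card_pow_eq]
  refine (norm_sum_le _ _).trans ?_
  simp [norm_e]

end Pool.Agent.J4.H79.HS
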