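import Pool.Agent.J4.H79.HS.Y0
import Pool.Agent.J4.H79.HS.X2
import Pool.Agent.J4.H79.HS.P3b

namespace Pool.Agent.J4.H79.HS

open Finset Polynomial

theorem large_set (S : ℕ) (hS : 0 < S) (ε : ℝ) (hε : 0 < ε) (f : ℕ → ℂ)
    (hf : ∀ s, ‖f s‖ ≤ 1) (h : ε * S ≤ ‖∑ s ∈ range S, f s‖) :
    ∃ G : Finset ℕ, G ⊆ range S ∧ ε / 4 * S ≤ G.card ∧
      ∀ s ∈ G, ε / 2 ≤ ‖f s‖ ∧ ε / 4 * S ≤ (s : ℝ) + 1 := by
  have hSp : (0 : ℝ) < S := by exact_mod_cast hS
  refine ⟨(range S).filter (fun s => ε / 2 ≤ ‖f s‖ ∧ ε / 4 * S ≤ (s : ℝ) + 1),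
    Finset.filter_subset _ _, ?_, fun s hs => (Finset.mem_filter.1 hs).2⟩
  set G := (range S).filter (fun s => ε / 2 ≤ ‖f s‖ ∧ ε / 4 * S ≤ (s : ℝ) + 1) with hG
  set L := (range S).filter (fun s : ℕ => (s : ℝ) + 1 < ε / 4 * S) with hL
  have hLc : (L.card : ℝ) ≤ ε / 4 * S := by
    have h1 : L ⊆ range ⌊ε / 4 * S⌋₊ := by
      intro s hs
      rw [hL, Finset.mem_filter] at hs
      rw [Finset.mem_range]
      have h2 : ((s + 1 : ℕ) : ℝ) ≤ ε / 4 * S := by push_cast; exact hs.2.le
      have h3 := Nat.le_floor h2
      omega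
    have h2 : (L.card : ℝ) ≤ (⌊ε / 4 * S⌋₊ : ℝ) := by
      have := Finset.card_le_card h1
      rw [Finset.card_range] at this
      exact_mod_cast this
    exact h2.trans (Nat.floor_le (by positivity))
  have h1 : ε * S ≤ G.card + L.card + ε / 2 * S := by
    calc ε * S ≤ ‖∑ s ∈ range S, f s‖ := h
      _ ≤ ∑ s ∈ range S, ‖f s‖ := norm_sum_le _ _
      _ ≤ ∑ s ∈ range S, ((if s ∈ G then (1 : ℝ) else 0) + (if s ∈ L then (1 : ℝ) else 0)
            + ε / 2) := by
          refine Finset.sum_le_sum fun s hs => ?_
          have hle1 := hf s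
          by_cases hsG : s ∈ G
          · rw [if_pos hsG]
            have : (0 : ℝ) ≤ if s ∈ L then (1 : ℝ) else 0 := by split_ifs <;> norm_num
            linarith
          · rw [if_neg hsG]
            by_cases hsL : s ∈ L
            · rw [if_pos hsL]; linarith
            · rw [if_neg hsL]
              rw [hG, Finset.mem_filter] at hsG
              rw [hL, Finset.mem_filter] at hsL
              push Not at hsG hsL
              have h2 := hsL hs
              by_contra hcon
              push Not at hcon
              have h3 := hsG hs (by linarith)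
              linarith
      _ = G.card + L.card + ε / 2 * S := by
          rw [Finset.sum_add_distrib, Finset.sum_add_distrib, Finset.sum_ite_mem,
            Finset.sum_ite_mem, Finset.inter_eq_right.2 (Finset.filter_subset _ _),
            Finset.inter_eq_right.2 (Finset.filter_subset _ _)]
          simp
          ring
  linarith

theorem diff_anti (k : ℕ) {X : Type} (F : Multiset X → ℝ) (a : Fin k) (p : Fin k → X × X) :
    diff k F (Function.update p a (Equiv.prodComm X X (p a))) = - diff k F p := by
  classical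
  unfold diff
  rw [← Finset.sum_neg_distrib]
  refine Finset.sum_bij' (fun I _ => symmDiff I {a}) (fun I _ => symmDiff I {a}) ?_ ?_ ?_ ?_ ?_
  · intro I _; exact Finset.mem_univ _
  · intro I _; exact Finset.mem_univ _
  · intro I _
    rw [symmDiff_assoc, symmDiff_self, symmDiff_bot]
  · intro I _
    rw [symmDiff_assoc, symmDiff_self, symmDiff_bot]
  · intro I _
    have hcard : (-1 : ℝ) ^ (symmDiff I {a}).card = -(-1 : ℝ) ^ I.card := by
      by_cases ha : a ∈ I
      · have : symmDiff I {a} = I.erase a := by
          ext x; simp [Finset.mem_symmDiff]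
          constructor
          · rintro (⟨h, h'⟩ | ⟨h, h'⟩)
            · exact ⟨h', h⟩
            · exact absurd (h ▸ ha) h'
          · rintro ⟨h, h'⟩; exact Or.inl ⟨h', h⟩
        rw [this, Finset.card_erase_of_mem ha]
        obtain ⟨m, hm⟩ : ∃ m, I.card = m + 1 := ⟨I.card - 1, by have := Finset.card_pos.2 ⟨a, ha⟩; omega⟩
        rw [hm, Nat.add_sub_cancel, pow_succ]; ring
      · have : symmDiff I {a} = insert a I := by
          ext x; simp [Finset.mem_symmDiff]
          constructor
          · rintro (⟨h, _⟩ | ⟨h, _⟩)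
            · exact Or.inr h
            · exact Or.inl h
          · rintro (h | h)
            · exact Or.inr ⟨h, h ▸ ha⟩
            · exact Or.inl ⟨h, fun h' => ha (h' ▸ h)⟩
        rw [this, Finset.card_insert_of_notMem ha, pow_succ]; ring
    rw [hcard]
    have hmap : (fun b => if b ∈ I then (Function.update p a (Equiv.prodComm X X (p a)) b).2
        else (Function.update p a (Equiv.prodComm X X (p a)) b).1) =
        (fun b => if b ∈ symmDiff I {a} then (p b).2 else (p b).1) := by
      funext b
      by_cases hb : b = a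
      · subst hb
        rw [Function.update_self]
        by_cases hI : b ∈ I
        · have : b ∉ symmDiff I {b} := by simp [Finset.mem_symmDiff, hI]
          rw [if_pos hI, if_neg this]; rfl
        · have : b ∈ symmDiff I {b} := by simp [Finset.mem_symmDiff, hI]
          rw [if_neg hI, if_pos this]; rfl
      · rw [Function.update_of_ne hb]
        have : b ∈ symmDiff I {a} ↔ b ∈ I := by simp [Finset.mem_symmDiff, hb]
        simp only [this]
    rw [hmap]
    ring

/-- the difference of polynomial valued functions -/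
noncomputable def diffP (k : ℕ) {X : Type} (F : Multiset X → ℝ[X]) (p : Fin k → X × X) : ℝ[X] :=
  ∑ I : Finset (Fin k), C ((-1 : ℝ) ^ I.card) *
    F ((univ : Finset (Fin k)).val.map fun a => if a ∈ I then (p a).2 else (p a).1)

theorem diffP_eval (k : ℕ) {X : Type} (F : Multiset X → ℝ[X]) (p : Fin k → X × X) (r : ℝ) :
    (diffP k F p).eval r = diff k (fun s => (F s).eval r) p := by
  unfold diffP diff
  rw [eval_finsetSum]
  refine Finset.sum_congr rfl fun I _ => ?_
  rw [eval_mul, eval_C]

theorem diffP_coeff (k : ℕ) {X : Type} (F : Multiset X → ℝ[X]) (p : Fin k → X × X) (i : ℕ) :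
    (diffP k F p).coeff i = diff k (fun s => (F s).coeff i) p := by
  unfold diffP diff
  rw [finsetSum_coeff]
  refine Finset.sum_congr rfl fun I _ => ?_
  rw [coeff_C_mul]

theorem diffP_natDegree (k M : ℕ) {X : Type} (F : Multiset X → ℝ[X])
    (hF : ∀ s, (F s).natDegree ≤ M) (p : Fin k → X × X) : (diffP k F p).natDegree ≤ M := by
  unfold diffP
  refine natDegree_sum_le_of_forall_le _ _ fun I _ => ?_
  exact (natDegree_C_mul_le _ _).trans (hF _)

end Pool.Agent.J4.H79.HS
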