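import Pool.Agent.J4.H79.HS.Y0

namespace Pool.Agent.J4.H79.HS

open Finset Polynomial

namespace Y3

/-- the polynomial with the value `(r - l).choose (k - l)` at `r` -/
noncomputable def bin (k l : ℕ) : ℝ[X] :=
  C (1 / ((k - l).factorial : ℝ)) * (descPochhammer ℝ (k - l)).comp (X - C (l : ℝ))

theorem bin_eval (k l r : ℕ) (h : l ≤ r) :
    (bin k l).eval (r : ℝ) = ((r - l).choose (k - l) : ℝ) := by
  unfold bin
  rw [eval_mul, eval_C, eval_comp, eval_sub, eval_X, eval_C, ← Nat.cast_sub h,
    descPochhammer_eval_eq_descFactorial, Nat.descFactorial_eq_factorial_mul_choose]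
  have h1 : ((k - l).factorial : ℝ) ≠ 0 := by exact_mod_cast Nat.factorial_ne_zero _
  push_cast
  field_simp

theorem bin_natDegree (k l : ℕ) : (bin k l).natDegree ≤ k := by
  unfold bin
  refine (natDegree_C_mul_le _ _).trans ((natDegree_comp_le).trans ?_)
  rw [natDegree_X_sub_C, mul_one, descPochhammer_natDegree]
  exact Nat.sub_le _ _

/-- the polynomial with coefficients `a i`, `1 ≤ i ≤ M` -/
noncomputable def pol (M : ℕ) (a : ℕ → ℝ) : ℝ[X] := ∑ i ∈ Finset.Icc 1 M, C (a i) * X ^ i

theorem pol_eval (M : ℕ) (a : ℕ → ℝ) (r : ℝ) :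
    (pol M a).eval r = ∑ i ∈ Finset.Icc 1 M, a i * r ^ i := by
  unfold pol
  rw [eval_finsetSum]
  simp

theorem pol_coeff_zero (M : ℕ) (a : ℕ → ℝ) : (pol M a).coeff 0 = 0 := by
  unfold pol
  rw [finsetSum_coeff]
  refine Finset.sum_eq_zero fun i hi => ?_
  have h1 : 1 ≤ i := (Finset.mem_Icc.1 hi).1
  rw [coeff_C_mul, coeff_X_pow, if_neg (by omega), mul_zero]

theorem pol_natDegree (M : ℕ) (a : ℕ → ℝ) : (pol M a).natDegree ≤ M := by
  unfold pol
  refine natDegree_sum_le_of_forall_le _ _ fun i hi => ?_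
  exact (natDegree_C_mul_X_pow_le _ _).trans (Finset.mem_Icc.1 hi).2

theorem eval_eq (M : ℕ) (P : ℝ[X]) (h0 : P.coeff 0 = 0) (hd : P.natDegree ≤ M) (r : ℝ) :
    P.eval r = ∑ i ∈ Finset.Icc 1 M, P.coeff i * r ^ i := by
  rw [eval_eq_sum_range' (Nat.lt_succ_of_le hd), Finset.sum_range_succ', h0, zero_mul, add_zero]
  rw [Finset.range_eq_Ico, Finset.sum_Ico_add' (fun i => P.coeff i * r ^ i) 0 M 1]
  refine Finset.sum_congr ?_ fun _ _ => rfl
  ext i
  simp only [Finset.mem_Ico, Finset.mem_Icc]
  omega

end Y3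

theorem lower_system (k M : ℕ) (hk : 1 ≤ k) (X : Type) (F : Multiset X → ℝ[X])
    (hF0 : ∀ s, (F s).coeff 0 = 0) (hFd : ∀ s, (F s).natDegree ≤ M) (F' : ℕ → Multiset X → ℝ) :
    ∃ F'' : Multiset X → ℝ[X], (∀ s, (F'' s).coeff 0 = 0) ∧ (∀ s, (F'' s).natDegree ≤ M + k) ∧
      ∀ (r : ℕ) (x : Fin r → X), Phi k F r x - Phi (k - 1) F'' r x =
        ∑ i ∈ Finset.Icc 1 M, (r : ℝ) ^ i *
          (∑ L ∈ Finset.powersetCard k (Finset.univ : Finset (Fin r)), (F (L.val.map x)).coeff i -
            ∑ I ∈ (Finset.univ : Finset (Finset (Fin r))).filter (fun I => I.card < k),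
              ((r - I.card).choose (k - I.card) : ℝ) * F' i (I.val.map x)) := by
  classical
  refine ⟨fun s => F s + Y3.bin k (Multiset.card s) * Y3.pol M (fun i => F' i s), fun s => ?_,
    fun s => ?_, fun r x => ?_⟩
  · rw [coeff_add, mul_coeff_zero, Y3.pol_coeff_zero, mul_zero, add_zero, hF0]
  · refine (natDegree_add_le _ _).trans (max_le ((hFd s).trans (Nat.le_add_right _ _)) ?_)
    refine natDegree_mul_le.trans ?_
    have h1 := Y3.bin_natDegree k (Multiset.card s)
    have h2 := Y3.pol_natDegree M (fun i => F' i s)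
    omega
  · unfold Phi
    have hs1 : (univ : Finset (Finset (Fin r))).filter (fun L => L.card ≤ k) =
        Finset.powersetCard k (Finset.univ : Finset (Fin r)) ∪
          (univ : Finset (Finset (Fin r))).filter (fun I => I.card < k) := by
      ext L
      simp only [Finset.mem_filter, Finset.mem_univ, true_and, Finset.mem_union,
        Finset.mem_powersetCard, Finset.subset_univ]
      omega
    have hs2 : (univ : Finset (Finset (Fin r))).filter (fun L => L.card ≤ k - 1) =
          (univ : Finset (Finset (Fin r))).filter (fun I => I.card < k) := by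
      ext L
      simp only [Finset.mem_filter, Finset.mem_univ, true_and]
      omega
    have hdis : Disjoint (Finset.powersetCard k (Finset.univ : Finset (Fin r)))
        ((univ : Finset (Finset (Fin r))).filter (fun I => I.card < k)) := by
      rw [Finset.disjoint_left]
      intro L h1 h2
      rw [Finset.mem_powersetCard] at h1
      rw [Finset.mem_filter] at h2
      omega
    rw [hs1, hs2, Finset.sum_union hdis, add_sub_assoc, ← Finset.sum_sub_distrib]
    have h3 : ∀ I ∈ (univ : Finset (Finset (Fin r))).filter (fun I => I.card < k),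
        (F (I.val.map x)).eval (r : ℝ) - (F (I.val.map x) +
          Y3.bin k (Multiset.card (I.val.map x)) *
            Y3.pol M (fun i => F' i (I.val.map x))).eval (r : ℝ) =
        - ∑ i ∈ Finset.Icc 1 M, (r : ℝ) ^ i *
          (((r - I.card).choose (k - I.card) : ℝ) * F' i (I.val.map x)) := by
      intro I _
      have hI : I.card ≤ r := by
        have := Finset.card_le_univ I
        rwa [Fintype.card_fin] at this
      rw [eval_add, eval_mul, Multiset.card_map, Finset.card_val, Y3.bin_eval k _ r hI,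
        Y3.pol_eval, Finset.mul_sum, sub_add_cancel_left]
      congr 1
      refine Finset.sum_congr rfl fun i _ => ?_
      ring
    rw [Finset.sum_congr rfl h3, Finset.sum_neg_distrib, Finset.sum_comm,
      Finset.sum_congr rfl fun L _ => Y3.eval_eq M (F (Multiset.map x L.val)) (hF0 _) (hFd _) (r : ℝ),
      Finset.sum_comm, ← sub_eq_add_neg, ← Finset.sum_sub_distrib]
    refine Finset.sum_congr rfl fun i _ => ?_
    rw [mul_sub, Finset.mul_sum, Finset.mul_sum]
    congr 1
    refine Finset.sum_congr rfl fun L _ => ?_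
    ring

end Pool.Agent.J4.H79.HS
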