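import Pool.Agent.J4.H79.HS.Y2a
import Pool.Agent.J4.H79.HS.X7
import Pool.Agent.J4.H79.HS.X8
import Pool.Agent.J4.H79.HS.Y3

namespace Pool.Agent.J4.H79.HS

open Finset Polynomial

/-- If the averages are large on a long scale, then on the lower scales the phase may be replaced by a
phase of lower order. -/
theorem red (k : ℕ) (hk : 1 ≤ k) (M : ℕ) (ε : ℝ) (hε : 0 < ε) :
    ∃ B W : ℕ, 0 < B ∧ 0 < W ∧ ∀ (S q R : ℕ), 0 < S → 0 < q → 1 ≤ R → W * R ^ W ≤ S →
      ∀ (X : Type) [Fintype X] [Nonempty X] (F : Multiset X → ℝ[X]),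
        (∀ s, (F s).coeff 0 = 0) → (∀ s, (F s).natDegree ≤ M) →
        ε ≤ ‖(∑ s ∈ range S, Ex k F (q * (s + 1))) / (S : ℂ)‖ →
        ∃ F' : Multiset X → ℝ[X], (∀ s, (F' s).coeff 0 = 0) ∧ (∀ s, (F' s).natDegree ≤ M + k) ∧
          ∀ r, 1 ≤ r → r ≤ R → q * B ∣ r →
            ∑ x : Fin r → X, ‖e (Phi k F r x) - e (Phi (k - 1) F' r x)‖ ≤
              ε * (Fintype.card X : ℝ) ^ r := by
  classical
  obtain ⟨B, C₁, C₂, hB, hC₁, hC₂, hps⟩ := pairs_structure k hk M ε hε
  obtain ⟨A, hdec⟩ := dec k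
  obtain ⟨W₀, hW₀⟩ := exists_nat_gt (16 * M * A * C₂ / ε + C₁ + (k + M + 1))
  have hconst0 : 0 ≤ 16 * M * A * C₂ / ε := by positivity
  set W := W₀ with hW
  have hWp : 0 < W := by
    have : (0 : ℝ) < W := by
      have : (0 : ℝ) ≤ (k : ℝ) + M + 1 := by positivity
      linarith
    exact_mod_cast this
  refine ⟨B, W, hB, hWp, ?_⟩
  intro S q R hS hq hR hWS X _ _ F hF0 hFd hlarge
  have hSp : (0 : ℝ) < S := by exact_mod_cast hS
  have hRp : (1 : ℝ) ≤ R := by exact_mod_cast hR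
  have hXp : (0 : ℝ) < Fintype.card X := by exact_mod_cast Fintype.card_pos
  have hWS' : (W : ℝ) * (R : ℝ) ^ W ≤ S := by exact_mod_cast hWS
  have hRW1 : (1 : ℝ) ≤ (R : ℝ) ^ W := one_le_pow₀ hRp
  have hkM0 : (0 : ℝ) ≤ (k : ℝ) + M + 1 := by positivity
  have hSC : C₁ ≤ S := by
    have : (W : ℝ) * 1 ≤ W * (R : ℝ) ^ W := by gcongr
    linarith
  have hkMW : k + M + 1 ≤ W := by
    have : ((k + M + 1 : ℕ) : ℝ) ≤ W := by push_cast; linarith
    exact_mod_cast this
  have hSbig : 16 * M * A * C₂ / ε * (R : ℝ) ^ (k + M + 1) ≤ S := by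
    refine le_trans ?_ hWS'
    apply mul_le_mul _ (pow_le_pow_right₀ hRp hkMW) (by positivity) (by positivity)
    linarith
  obtain ⟨Bad, hBad, hBad'⟩ := hps S q hS hq hSC X F hFd hlarge
  set 𝓡 : Finset ℕ := (range (R + 1)).filter (fun r => 1 ≤ r ∧ q * B ∣ r) with h𝓡
  set N : ℕ → ℝ → ℝ := fun i y => ∑ r ∈ 𝓡, nn ((r : ℝ) ^ i * y) with hN
  set δ : ℝ := C₂ / S with hδ
  set η : ℝ := (R + 1) * ((R : ℝ) ^ M * (C₂ / S)) with hη
  have hδ0 : 0 ≤ δ := by positivity
  have hη0 : 0 ≤ η := by positivity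
  have hNnn : ∀ i r, r ∈ 𝓡 → ∀ y, nn ((r : ℝ) ^ i * y) ≤ N i y := by
    intro i r hr y
    rw [hN]
    exact Finset.single_le_sum (f := fun r : ℕ => nn ((r : ℝ) ^ i * y)) (fun _ _ => nn_nonneg _) hr
  have hd : ∀ i ∈ Finset.Icc 1 M, ∃ (F' : Multiset X → ℝ) (Bad' : Finset (Fin k → X)),
      (Bad'.card : ℝ) ≤ A * δ * (Fintype.card X : ℝ) ^ k ∧
      ∀ x, x ∉ Bad' → N i ((F ((Finset.univ : Finset (Fin k)).val.map x)).coeff i -
        ∑ I ∈ (Finset.univ : Finset (Finset (Fin k))).filter (fun I => I ≠ Finset.univ),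
          F' (I.val.map x)) ≤ A * η := by
    intro i hi
    rw [Finset.mem_Icc] at hi
    refine hdec X (N i) ?_ ?_ ?_ (fun s => (F s).coeff i) δ η hδ0 hη0 Bad hBad ?_
    · intro y; exact Finset.sum_nonneg fun _ _ => nn_nonneg _
    · intro y z
      rw [hN]
      simp only
      rw [← Finset.sum_add_distrib]
      refine Finset.sum_le_sum fun r _ => ?_
      rw [mul_add]; exact nn_add' _ _
    · intro y
      rw [hN]
      simp only
      refine Finset.sum_congr rfl fun r _ => ?_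
      rw [mul_neg, nn_neg']
    · intro p hp
      obtain ⟨h, hh1, hh2, hh3⟩ := hBad' p hp
      have h4 := hh3 i hi.1
      rw [diffP_coeff] at h4
      rw [hN]
      simp only
      calc ∑ r ∈ 𝓡, nn ((r : ℝ) ^ i * diff k (fun s => (F s).coeff i) p)
          ≤ ∑ r ∈ 𝓡, ((R : ℝ) ^ M * (C₂ / S)) := by
            refine Finset.sum_le_sum fun r hr => ?_
            rw [h𝓡, Finset.mem_filter, Finset.mem_range] at hr
            obtain ⟨hr1, hr2, u, hu⟩ := hr
            have hru : r = q * (B * u) := by rw [hu]; ring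
            have hmR : B * u ≤ R := by
              calc B * u ≤ q * (B * u) := Nat.le_mul_of_pos_left _ hq
                _ = r := hru.symm
                _ ≤ R := by omega
            have h5 := nn_scale i hi.1 r q (B * u) h 1 R 1 hh1 (hh2.trans (Dvd.intro _ rfl)) hru le_rfl
              hmR (diff k (fun s => (F s).coeff i) p) (C₂ / S) h4
            rw [mul_one] at h5
            refine h5.trans ?_
            rw [Nat.cast_one, mul_one]
            apply mul_le_mul_of_nonneg_right _ (by positivity)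
            exact pow_le_pow_right₀ hRp hi.2
        _ = (𝓡.card : ℝ) * ((R : ℝ) ^ M * (C₂ / S)) := by rw [Finset.sum_const, nsmul_eq_mul]
        _ ≤ η := by
            rw [hη]
            apply mul_le_mul_of_nonneg_right _ (by positivity)
            have : 𝓡.card ≤ R + 1 := by
              refine (Finset.card_filter_le _ _).trans ?_
              rw [Finset.card_range]
            exact_mod_cast this
  choose! F' Bad₁ hBad₁ hF' using hd
  obtain ⟨F'', hF''0, hF''d, hid⟩ := lower_system k M hk X F hF0 hFd F'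
  refine ⟨F'', hF''0, hF''d, ?_⟩
  intro r hr1 hrR hrd
  have hr𝓡 : r ∈ 𝓡 := by
    rw [h𝓡, Finset.mem_filter, Finset.mem_range]
    exact ⟨by omega, hr1, hrd⟩
  have hrRr : (r : ℝ) ≤ R := by exact_mod_cast hrR
  have hs : ∀ i ∈ Finset.Icc 1 M, ∃ Bad' : Finset (Fin r → X),
      (Bad'.card : ℝ) ≤ (r : ℝ) ^ k * (A * δ) * (Fintype.card X : ℝ) ^ r ∧
      ∀ x, x ∉ Bad' → nn ((r : ℝ) ^ i *
        (∑ L ∈ Finset.powersetCard k (Finset.univ : Finset (Fin r)), (F (L.val.map x)).coeff i -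
        ∑ I ∈ (Finset.univ : Finset (Finset (Fin r))).filter (fun I => I.card < k),
          ((r - I.card).choose (k - I.card) : ℝ) * F' i (I.val.map x))) ≤ (r : ℝ) ^ k * (A * η) := by
    intro i hi
    refine subst_tuple k r X (fun y => nn ((r : ℝ) ^ i * y)) ?_ ?_ (fun s => (F s).coeff i) (F' i)
      (A * δ) (A * η) (by positivity) (by positivity) (Bad₁ i) (hBad₁ i hi) ?_
    · simp only [mul_zero]; exact nn_zero'
    · intro y z
      simp only [mul_add]
      exact nn_add' _ _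
    · intro x hx
      exact (hNnn i r hr𝓡 _).trans (hF' i hi x hx)
  choose! Bad₂ hBad₂ hnn using hs
  set BB : Finset (Fin r → X) := (Finset.Icc 1 M).biUnion Bad₂ with hBB
  have hBBc : (BB.card : ℝ) ≤ M * ((r : ℝ) ^ k * (A * δ) * (Fintype.card X : ℝ) ^ r) := by
    calc (BB.card : ℝ) ≤ ∑ i ∈ Finset.Icc 1 M, ((Bad₂ i).card : ℝ) := by
          exact_mod_cast Finset.card_biUnion_le
      _ ≤ ∑ i ∈ Finset.Icc 1 M, ((r : ℝ) ^ k * (A * δ) * (Fintype.card X : ℝ) ^ r) :=
          Finset.sum_le_sum fun i hi => hBad₂ i hi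
      _ = _ := by rw [Finset.sum_const, Nat.card_Icc, Nat.add_sub_cancel, nsmul_eq_mul]
  have hgood : ∀ x, x ∉ BB → nn (Phi k F r x - Phi (k - 1) F'' r x) ≤ M * ((r : ℝ) ^ k * (A * η)) := by
    intro x hx
    rw [hid]
    refine (nn_sum_le _ _).trans ?_
    calc ∑ i ∈ Finset.Icc 1 M, nn ((r : ℝ) ^ i *
        (∑ L ∈ Finset.powersetCard k (Finset.univ : Finset (Fin r)), (F (L.val.map x)).coeff i -
        ∑ I ∈ (Finset.univ : Finset (Finset (Fin r))).filter (fun I => I.card < k),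
          ((r - I.card).choose (k - I.card) : ℝ) * F' i (I.val.map x)))
        ≤ ∑ i ∈ Finset.Icc 1 M, ((r : ℝ) ^ k * (A * η)) := by
          refine Finset.sum_le_sum fun i hi => hnn i hi x ?_
          intro hxi
          exact hx (Finset.mem_biUnion.2 ⟨i, hi, hxi⟩)
      _ = _ := by rw [Finset.sum_const, Nat.card_Icc, Nat.add_sub_cancel, nsmul_eq_mul]
  calc ∑ x : Fin r → X, ‖e (Phi k F r x) - e (Phi (k - 1) F'' r x)‖
      ≤ ∑ x : Fin r → X, ((if x ∈ BB then (2 : ℝ) else 0) + 7 * (M * ((r : ℝ) ^ k * (A * η)))) := by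
        refine Finset.sum_le_sum fun x _ => ?_
        have h0 : 0 ≤ 7 * (M * ((r : ℝ) ^ k * (A * η))) := by positivity
        by_cases hx : x ∈ BB
        · rw [if_pos hx]
          have : ‖e (Phi k F r x) - e (Phi (k - 1) F'' r x)‖ ≤ 1 + 1 :=
            (norm_sub_le _ _).trans (by rw [norm_e, norm_e])
          linarith
        · rw [if_neg hx, zero_add]
          have h1 : e (Phi k F r x) - e (Phi (k - 1) F'' r x) =
              e (Phi (k - 1) F'' r x) * (e (Phi k F r x - Phi (k - 1) F'' r x) - 1) := by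
            rw [mul_sub, mul_one, ← e_add]; congr 2; ring
          rw [h1, norm_mul, norm_e, one_mul]
          refine (norm_e_sub_one_le _).trans ?_
          have h2 := hgood x hx
          have h3 : 2 * Real.pi ≤ 7 := by linarith [Real.pi_lt_d2]
          exact mul_le_mul h3 h2 (nn_nonneg _) (by norm_num)
    _ = 2 * BB.card + (Fintype.card X : ℝ) ^ r * (7 * (M * ((r : ℝ) ^ k * (A * η)))) := by
        rw [Finset.sum_add_distrib, Finset.sum_const, Finset.card_univ, nsmul_eq_mul, card_pow_eq,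
          Finset.sum_ite_mem, Finset.univ_inter, Finset.sum_const, nsmul_eq_mul]
        ring
    _ ≤ ε * (Fintype.card X : ℝ) ^ r := by
        have hrk : (r : ℝ) ^ k ≤ (R : ℝ) ^ k := by gcongr
        have hpow : (R : ℝ) ^ (k + M + 1) = (R : ℝ) ^ k * ((R : ℝ) ^ M * R) := by
          rw [pow_succ, pow_add]; ring
        have h1 : 2 * (M * ((r : ℝ) ^ k * (A * δ))) + 7 * (M * ((r : ℝ) ^ k * (A * η))) ≤ ε := by
          have h2 : 2 * (M * ((r : ℝ) ^ k * (A * δ))) + 7 * (M * ((r : ℝ) ^ k * (A * η))) ≤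
              2 * (M * ((R : ℝ) ^ k * (A * δ))) + 7 * (M * ((R : ℝ) ^ k * (A * η))) := by
            gcongr
          refine h2.trans ?_
          have h3 : η ≤ 2 * (R * ((R : ℝ) ^ M * (C₂ / S))) := by
            rw [hη]
            have : 0 ≤ (R : ℝ) ^ M * (C₂ / S) := by positivity
            nlinarith
          have h4 : δ ≤ R * ((R : ℝ) ^ M * (C₂ / S)) := by
            rw [hδ]
            have h5 : (1 : ℝ) ≤ R * (R : ℝ) ^ M := by
              have : (1 : ℝ) ≤ (R : ℝ) ^ M := one_le_pow₀ hRp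
              nlinarith
            have h6 : 0 ≤ C₂ / (S : ℝ) := by positivity
            nlinarith
          have h5 : 2 * (M * ((R : ℝ) ^ k * (A * δ))) + 7 * (M * ((R : ℝ) ^ k * (A * η))) ≤
              16 * (M * ((R : ℝ) ^ k * (A * (R * ((R : ℝ) ^ M * (C₂ / S)))))) := by
            have h6 : M * ((R : ℝ) ^ k * (A * δ)) ≤ M * ((R : ℝ) ^ k * (A * (R * ((R : ℝ) ^ M * (C₂ / S))))) := by
              gcongr
            have h7 : M * ((R : ℝ) ^ k * (A * η)) ≤ M * ((R : ℝ) ^ k * (A * (2 * (R * ((R : ℝ) ^ M * (C₂ / S)))))) := by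
              gcongr
            have h8 : (M : ℝ) * ((R : ℝ) ^ k * (A * (2 * (R * ((R : ℝ) ^ M * (C₂ / S)))))) =
                2 * (M * ((R : ℝ) ^ k * (A * (R * ((R : ℝ) ^ M * (C₂ / S)))))) := by ring
            rw [h8] at h7
            linarith
          refine h5.trans ?_
          have h9 : 16 * (M * ((R : ℝ) ^ k * (A * (R * ((R : ℝ) ^ M * (C₂ / S)))))) =
              (16 * M * A * C₂ / ε * (R : ℝ) ^ (k + M + 1)) * ε / S := by
            rw [hpow]; field_simp
          rw [h9, div_le_iff₀ hSp]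
          nlinarith
        have hXr : 0 < (Fintype.card X : ℝ) ^ r := by positivity
        have h6 : (BB.card : ℝ) ≤ (M * ((r : ℝ) ^ k * (A * δ))) * (Fintype.card X : ℝ) ^ r := by
          refine hBBc.trans (le_of_eq ?_); ring
        nlinarith

end Pool.Agent.J4.H79.HS
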