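import Pool.Agent.J4.H79.HS.Y1
import Pool.Agent.J4.H79.HS.X5
import Pool.Agent.J4.H79.HS.X6

namespace Pool.Agent.J4.H79.HS

open Finset Polynomial

/-- If the averages are large at many steps of a long scale, then the difference is nearly a bounded
torsion element at most pairs. -/
theorem pairs_structure (k : ℕ) (hk : 1 ≤ k) (M : ℕ) (ε : ℝ) (hε : 0 < ε) :
    ∃ (B : ℕ) (C₁ C₂ : ℝ), 0 < B ∧ 0 < C₁ ∧ 0 < C₂ ∧ ∀ (S q : ℕ), 0 < S → 0 < q → C₁ ≤ S →
      ∀ (X : Type) [Fintype X] [Nonempty X] (F : Multiset X → ℝ[X]),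
        (∀ s, (F s).natDegree ≤ M) →
        ε ≤ ‖(∑ s ∈ range S, Ex k F (q * (s + 1))) / (S : ℂ)‖ →
        ∃ Bad : Finset (Fin k → X × X), (Bad.card : ℝ) ≤ C₂ / S * (Fintype.card (X × X) : ℝ) ^ k ∧
          ∀ p, p ∉ Bad → ∃ h : ℕ, 1 ≤ h ∧ h ∣ B ∧
            ∀ i, 1 ≤ i → nn (h * ((q : ℝ) ^ i * (diffP k F p).coeff i)) ≤ C₂ / S := by
  classical
  obtain ⟨K, hK, hlo⟩ := lo_multi k hk ((ε / 2) ^ (2 ^ k)) (by positivity)
  have hKp : (0 : ℝ) < K := by exact_mod_cast hK
  obtain ⟨c₁, Ch, hc₁, hCh, hret⟩ := dense_return_poly M (ε / (8 * K)) (by positivity)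
  obtain ⟨Cl, hCl, hlo'⟩ := hlo c₁ hc₁
  have hkp : (0 : ℝ) < k := by exact_mod_cast hk
  refine ⟨(Ch * K).factorial, 8 * k / ε, 16 * k * Cl / ε + Ch, Nat.factorial_pos _, by positivity,
    by positivity, ?_⟩
  intro S q hS hq hSC X _ _ F hFd hlarge
  have hSp : (0 : ℝ) < S := by exact_mod_cast hS
  have hXp : (0 : ℝ) < Fintype.card X := by exact_mod_cast Fintype.card_pos
  have hXXp : (0 : ℝ) < (Fintype.card (X × X) : ℝ) := by exact_mod_cast Fintype.card_pos
  have hlarge' : ε * S ≤ ‖∑ s ∈ range S, Ex k F (q * (s + 1))‖ := by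
    rw [norm_div, Complex.norm_natCast, le_div_iff₀ hSp] at hlarge
    exact hlarge
  obtain ⟨G, hGS, hGc, hG⟩ := large_set S hS ε hε (fun s => Ex k F (q * (s + 1)))
    (fun s => norm_Ex_le _ _ _) hlarge'
  have hGpos : (0 : ℝ) < G.card := lt_of_lt_of_le (by positivity) hGc
  -- bad pairs for a single step
  have hstep : ∀ s ∈ G, ∃ Bs : Finset (Fin k → X × X),
      (Bs.card : ℝ) ≤ (8 * k * Cl / (ε * S)) * (Fintype.card (X × X) : ℝ) ^ k ∧
      ∀ p, p ∉ Bs → ∃ t : ℕ, 1 ≤ t ∧ t ≤ K ∧
        1 - Real.cos (2 * Real.pi * (t * (diffP k F p).eval ((q : ℝ) * ((s : ℝ) + 1)))) ≤ c₁ := by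
    intro s hs
    obtain ⟨hs1, hs2⟩ := hG s hs
    set r := q * (s + 1) with hr
    set m := r / k with hm
    have hrs : (s : ℝ) + 1 ≤ r := by
      rw [hr]; push_cast
      have : (1 : ℝ) ≤ q := by exact_mod_cast hq
      nlinarith [(Nat.cast_nonneg s : (0 : ℝ) ≤ s)]
    have hrbig : 2 * (k : ℝ) ≤ r := by
      have h1 : 8 * (k : ℝ) ≤ ε * S := by
        rw [div_le_iff₀ hε] at hSC; linarith
      linarith
    have hmlow : (r : ℝ) / (2 * k) ≤ m := by
      have h1 : (r : ℝ) < k * (m + 1) := by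
        have h2 : r < k * (r / k + 1) := by
          have := Nat.lt_mul_div_succ r (show 0 < k by omega)
          exact this
        exact_mod_cast h2
      rw [div_le_iff₀ (by positivity)]
      nlinarith
    have hmpos : 0 < m := by
      have : (0 : ℝ) < m := lt_of_lt_of_le (by
        have : (0 : ℝ) < r := by linarith
        positivity) hmlow
      exact_mod_cast this
    have hmp : (0 : ℝ) < m := by exact_mod_cast hmpos
    have hkm : k * m ≤ r := by rw [hm]; exact Nat.mul_div_le r k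
    have hbox := box k hk X (fun t => (F t).eval (r : ℝ)) r m hmpos hkm (ε / 2) (by positivity) (by
      have h1 : ‖Ex k F r‖ = ‖∑ x : Fin r → X, e (Phi k F r x)‖ / (Fintype.card X : ℝ) ^ r := by
        unfold Ex
        rw [norm_div, Complex.norm_real, Real.norm_of_nonneg (by positivity)]
      have h2 : ε / 2 ≤ ‖Ex k F r‖ := hs1
      rw [h1, le_div_iff₀ (by positivity)] at h2
      exact h2)
    obtain ⟨Bs, hBs1, hBs2⟩ := hlo' (X × X) (Equiv.prodComm X X)
      (diff k (fun t => (F t).eval (r : ℝ))) (fun a p => diff_anti k _ a p) m hmpos hbox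
    refine ⟨Bs, hBs1.trans ?_, ?_⟩
    · apply mul_le_mul_of_nonneg_right _ (by positivity)
      rw [div_le_div_iff₀ hmp (by positivity)]
      have h3 : ε * S / (8 * k) ≤ m := by
        refine le_trans ?_ hmlow
        rw [div_le_div_iff₀ (by positivity) (by positivity)]
        nlinarith
      rw [div_le_iff₀ (by positivity)] at h3
      nlinarith
    · intro p hp
      obtain ⟨t, ht1, ht2, ht3⟩ := hBs2 p hp
      refine ⟨t, ht1, ht2, ?_⟩
      rw [diffP_eval]
      have h4 : ((q : ℝ) * ((s : ℝ) + 1)) = (r : ℝ) := by rw [hr]; push_cast; ring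
      rw [h4]
      exact ht3
  choose! Bs hBs1 hBs2 using hstep
  -- pairs bad for many steps
  set Bad : Finset (Fin k → X × X) :=
    univ.filter (fun p => (G.card : ℝ) < 2 * (G.filter (fun s => p ∈ Bs s)).card) with hBad
  refine ⟨Bad, ?_, ?_⟩
  · have h1 : (Bad.card : ℝ) * G.card ≤
        2 * (G.card * ((8 * k * Cl / (ε * S)) * (Fintype.card (X × X) : ℝ) ^ k)) := by
      calc (Bad.card : ℝ) * G.card = ∑ p ∈ Bad, (G.card : ℝ) := by
            rw [Finset.sum_const, nsmul_eq_mul]
        _ ≤ ∑ p ∈ Bad, 2 * ((G.filter (fun s => p ∈ Bs s)).card : ℝ) :=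
            Finset.sum_le_sum fun p hp => (Finset.mem_filter.1 hp).2.le
        _ ≤ ∑ p : Fin k → X × X, 2 * ((G.filter (fun s => p ∈ Bs s)).card : ℝ) :=
            Finset.sum_le_sum_of_subset_of_nonneg (Finset.filter_subset _ _) fun _ _ _ => by positivity
        _ = 2 * ∑ s ∈ G, ((Bs s).card : ℝ) := by
            rw [← Finset.mul_sum]
            congr 1
            have h2 : ∀ p : Fin k → X × X, ((G.filter (fun s => p ∈ Bs s)).card : ℝ) =
                ∑ s ∈ G, if p ∈ Bs s then (1 : ℝ) else 0 := by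
              intro p
              rw [← Finset.sum_filter, Finset.sum_const, nsmul_eq_mul, mul_one]
            rw [Finset.sum_congr rfl fun p _ => h2 p, Finset.sum_comm]
            refine Finset.sum_congr rfl fun s _ => ?_
            rw [Finset.sum_ite_mem, Finset.univ_inter, Finset.sum_const, nsmul_eq_mul, mul_one]
        _ ≤ 2 * ∑ s ∈ G, ((8 * k * Cl / (ε * S)) * (Fintype.card (X × X) : ℝ) ^ k) := by
            have := Finset.sum_le_sum fun s (hs : s ∈ G) => hBs1 s hs
            linarith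
        _ = _ := by rw [Finset.sum_const, nsmul_eq_mul]
    have h2 : (Bad.card : ℝ) ≤ 2 * ((8 * k * Cl / (ε * S)) * (Fintype.card (X × X) : ℝ) ^ k) := by
      have h3 : (Bad.card : ℝ) * G.card ≤
          (2 * ((8 * k * Cl / (ε * S)) * (Fintype.card (X × X) : ℝ) ^ k)) * G.card := by linarith
      exact le_of_mul_le_mul_right h3 hGpos
    refine h2.trans ?_
    rw [← mul_assoc]
    apply mul_le_mul_of_nonneg_right _ (by positivity)
    have h3 : 2 * (8 * k * Cl / (ε * S)) = (16 * k * Cl / ε) / S := by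
      field_simp; ring
    rw [h3]
    apply div_le_div_of_nonneg_right _ hSp.le
    have : (0 : ℝ) < Ch := by exact_mod_cast hCh
    linarith
  · intro p hp
    rw [hBad, Finset.mem_filter] at hp
    push Not at hp
    have hp' := hp (Finset.mem_univ _)
    set Gp := G.filter (fun s => p ∉ Bs s) with hGp
    have hGpc : (G.card : ℝ) ≤ 2 * Gp.card := by
      have h1 : ((G.filter (fun s => p ∈ Bs s)).card : ℝ) + Gp.card = G.card := by
        have := Finset.card_filter_add_card_filter_not (s := G) (fun s => p ∈ Bs s)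
        exact_mod_cast this
      linarith
    have ht : ∀ s ∈ Gp, ∃ t : ℕ, 1 ≤ t ∧ t ≤ K ∧
        1 - Real.cos (2 * Real.pi * (t * (diffP k F p).eval ((q : ℝ) * ((s : ℝ) + 1)))) ≤ c₁ := by
      intro s hs
      rw [hGp, Finset.mem_filter] at hs
      exact hBs2 s hs.1 p hs.2
    choose! t ht1 ht2 ht3 using ht
    -- pigeonhole on t
    have hmaps : ∀ s ∈ Gp, t s ∈ Finset.Icc 1 K := fun s hs => Finset.mem_Icc.2 ⟨ht1 s hs, ht2 s hs⟩
    obtain ⟨t₀, ht₀, hcard⟩ : ∃ t₀ ∈ Finset.Icc 1 K,
        (Gp.card : ℝ) / K ≤ ((Gp.filter fun s => t s = t₀).card : ℝ) := by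
      by_contra hcon
      push Not at hcon
      have h1 : Gp.card = ∑ u ∈ Finset.Icc 1 K, (Gp.filter fun s => t s = u).card :=
        Finset.card_eq_sum_card_fiberwise hmaps
      have h2 : (Gp.card : ℝ) < Gp.card := by
        calc (Gp.card : ℝ) = ∑ u ∈ Finset.Icc 1 K, ((Gp.filter fun s => t s = u).card : ℝ) := by
              exact_mod_cast h1
          _ < ∑ u ∈ Finset.Icc 1 K, (Gp.card : ℝ) / K := by
              apply Finset.sum_lt_sum_of_nonempty
              · exact ⟨1, Finset.mem_Icc.2 ⟨le_rfl, hK⟩⟩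
              · intro u hu; exact hcon u hu
          _ = Gp.card := by
              rw [Finset.sum_const, Nat.card_Icc, Nat.add_sub_cancel, nsmul_eq_mul]
              field_simp
      exact lt_irrefl _ h2
    rw [Finset.mem_Icc] at ht₀
    set G₀ := Gp.filter fun s => t s = t₀ with hG₀
    set P : ℝ[X] := C (t₀ : ℝ) * (diffP k F p).comp (C (q : ℝ) * Polynomial.X) with hP
    have hPe : ∀ y : ℝ, P.eval y = t₀ * (diffP k F p).eval ((q : ℝ) * y) := by
      intro y
      rw [hP, eval_mul, eval_C, eval_comp, eval_mul, eval_C, eval_X]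
    have hPd : P.natDegree ≤ M := by
      rw [hP]
      refine (natDegree_C_mul_le _ _).trans ?_
      refine natDegree_comp_le.trans ?_
      have h1 : (C (q : ℝ) * Polynomial.X : ℝ[X]).natDegree ≤ 1 :=
      (natDegree_C_mul_le _ _).trans natDegree_X_le
      calc (diffP k F p).natDegree * (C (q : ℝ) * Polynomial.X : ℝ[X]).natDegree
          ≤ M * 1 := Nat.mul_le_mul (diffP_natDegree k M F hFd p) h1
        _ = M := mul_one _
    have hPc : ∀ i, P.coeff i = t₀ * ((q : ℝ) ^ i * (diffP k F p).coeff i) := by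
      intro i
      rw [hP, coeff_C_mul, comp_C_mul_X_coeff]
      ring
    obtain ⟨h, hh1, hh2, hh3⟩ := hret S P G₀ hS hPd
      ((Finset.filter_subset _ _).trans ((Finset.filter_subset _ _).trans hGS))
      (by
        refine le_trans ?_ hcard
        rw [div_mul_eq_mul_div, div_le_div_iff₀ (by positivity) hKp]
        have : ε * S ≤ 8 * Gp.card := by linarith
        nlinarith)
      (by
        calc ∑ s ∈ G₀, (1 - Real.cos (2 * Real.pi * (P.eval ((s : ℝ) + 1))))
            ≤ ∑ s ∈ G₀, c₁ := by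
              refine Finset.sum_le_sum fun s hs => ?_
              rw [hG₀, Finset.mem_filter] at hs
              have := ht3 s hs.1
              rw [hs.2] at this
              rw [hPe]
              exact this
          _ = c₁ * G₀.card := by rw [Finset.sum_const, nsmul_eq_mul]; ring)
    refine ⟨h * t₀, Nat.mul_pos hh1 ht₀.1, Nat.dvd_factorial (Nat.mul_pos hh1 ht₀.1)
      (Nat.mul_le_mul hh2 ht₀.2), ?_⟩
    intro i hi
    have h5 := hh3 i hi
    rw [hPc] at h5
    rw [Nat.cast_mul, mul_assoc]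
    refine h5.trans ?_
    apply div_le_div_of_nonneg_right _ hSp.le
    have : 0 ≤ 16 * k * Cl / ε := by positivity
    linarith

end Pool.Agent.J4.H79.HS
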