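import Pool.Agent.J4.H79.HS.Y0
import Pool.Agent.J4.H79.HS.X2
import Pool.Agent.J4.H79.HS.P3b

/-!
Project HS, piece Y5: induction on `k` over the scales.
-/

namespace Pool.Agent.J4.H79.HS

open Finset Polynomial

/-- the statement of the reduction step (proved in Y2) -/
def Red (k : ℕ) : Prop := ∀ (M : ℕ) (ε : ℝ), 0 < ε →
    ∃ B W : ℕ, 0 < B ∧ 0 < W ∧ ∀ (S q R : ℕ), 0 < S → 0 < q → 1 ≤ R → W * R ^ W ≤ S →
      ∀ (X : Type) [Fintype X] [Nonempty X] (F : Multiset X → ℝ[X]),
        (∀ s, (F s).coeff 0 = 0) → (∀ s, (F s).natDegree ≤ M) →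
        ε ≤ ‖(∑ s ∈ range S, Ex k F (q * (s + 1))) / (S : ℂ)‖ →
        ∃ F' : Multiset X → ℝ[X], (∀ s, (F' s).coeff 0 = 0) ∧ (∀ s, (F' s).natDegree ≤ M + k) ∧
          ∀ r, 1 ≤ r → r ≤ R → q * B ∣ r →
            ∑ x : Fin r → X, ‖e (Phi k F r x) - e (Phi (k - 1) F' r x)‖ ≤
              ε * (Fintype.card X : ℝ) ^ r

/-- the statement of the main theorem -/
def Mt (k : ℕ) : Prop := ∀ (M : ℕ) (ε : ℝ), 0 < ε → ∃ B W : ℕ, 0 < B ∧ 0 < W ∧
    ∀ (J : ℕ) (S q : ℕ → ℕ), (∀ i, 0 < S i) → (∀ i, 0 < q i) →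
      (∀ i j, i < j → j < J → q j * B ∣ q i) → (∀ i j, i < j → j < J → W * (q i * S i) ^ W ≤ S j) →
      ∀ (X : Type) [Fintype X] [Nonempty X] (F : Multiset X → ℝ[X]),
        (∀ s, (F s).coeff 0 = 0) → (∀ s, (F s).natDegree ≤ M) →
        ∀ j ≤ J, -((k : ℝ) + 1 + (k + 1) * ε * j) ≤
          ∑ i ∈ range j, ((∑ s ∈ range (S i), Ex k F (q i * (s + 1))) / (S i : ℂ)).re

theorem Phi_zero {X : Type} (F : Multiset X → ℝ[X]) (r : ℕ) (x : Fin r → X) :
    Phi 0 F r x = (F 0).eval (r : ℝ) := by
  unfold Phi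
  have h : (univ : Finset (Finset (Fin r))).filter (fun L => L.card ≤ 0) = {∅} := by
    ext L
    simp [Finset.card_eq_zero]
  rw [h, Finset.sum_singleton]
  simp

theorem Ex_zero {X : Type} [Fintype X] [Nonempty X] (F : Multiset X → ℝ[X]) (r : ℕ) :
    Ex 0 F r = e ((F 0).eval (r : ℝ)) := by
  unfold Ex
  have hX : (0 : ℝ) < Fintype.card X := by exact_mod_cast Fintype.card_pos
  have hXr : ((Fintype.card X : ℝ) ^ r : ℝ) ≠ 0 := (by positivity : (0:ℝ) < _).ne'
  have hXc : (((Fintype.card X : ℝ) ^ r : ℝ) : ℂ) ≠ 0 := by exact_mod_cast hXr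
  simp only [Phi_zero]
  rw [Finset.sum_const, Finset.card_univ, nsmul_eq_mul, div_eq_iff hXc]
  have h : ((Fintype.card (Fin r → X) : ℕ) : ℂ) = (((Fintype.card X : ℝ) ^ r : ℝ) : ℂ) := by
    rw [← card_pow_eq X r]; push_cast; rfl
  rw [h, mul_comm]

section av

variable {X : Type} [Fintype X] [Nonempty X]

theorem norm_av_le (k : ℕ) (F : Multiset X → ℝ[X]) (S q : ℕ) (hS : 0 < S) :
    ‖(∑ s ∈ range S, Ex k F (q * (s + 1))) / (S : ℂ)‖ ≤ 1 := by
  have hSr : (0 : ℝ) < S := by exact_mod_cast hS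
  rw [norm_div, Complex.norm_natCast, div_le_one hSr]
  refine (norm_sum_le _ _).trans ?_
  calc ∑ s ∈ range S, ‖Ex k F (q * (s + 1))‖ ≤ ∑ _s ∈ range S, (1 : ℝ) :=
        Finset.sum_le_sum fun s _ => norm_Ex_le k F _
    _ = S := by simp

theorem re_av_ge (z : ℂ) {a : ℝ} (h : ‖z‖ ≤ a) : -a ≤ z.re :=
  (abs_le.1 ((Complex.abs_re_le_norm z).trans h)).1

theorem av_sub_le (k : ℕ) (F F' : Multiset X → ℝ[X]) (S q : ℕ) (hS : 0 < S) (ε : ℝ)
    (h : ∀ s ∈ range S, ∑ x : Fin (q * (s + 1)) → X,
      ‖e (Phi (k + 1) F _ x) - e (Phi k F' _ x)‖ ≤ ε * (Fintype.card X : ℝ) ^ (q * (s + 1))) :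
    ((∑ s ∈ range S, Ex k F' (q * (s + 1))) / (S : ℂ)).re - ε ≤
      ((∑ s ∈ range S, Ex (k + 1) F (q * (s + 1))) / (S : ℂ)).re := by
  have hSr : (0 : ℝ) < S := by exact_mod_cast hS
  have hX : (0 : ℝ) < Fintype.card X := by exact_mod_cast Fintype.card_pos
  have h1 : ‖(∑ s ∈ range S, Ex (k + 1) F (q * (s + 1))) / (S : ℂ) -
      (∑ s ∈ range S, Ex k F' (q * (s + 1))) / (S : ℂ)‖ ≤ ε := by
    rw [← sub_div, ← Finset.sum_sub_distrib, norm_div, Complex.norm_natCast, div_le_iff₀ hSr]
    refine (norm_sum_le _ _).trans ?_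
    calc ∑ s ∈ range S, ‖Ex (k + 1) F (q * (s + 1)) - Ex k F' (q * (s + 1))‖
        ≤ ∑ _s ∈ range S, ε := by
          refine Finset.sum_le_sum fun s hs => ?_
          have hXr : (0 : ℝ) < (Fintype.card X : ℝ) ^ (q * (s + 1)) := by positivity
          unfold Ex
          rw [← sub_div, ← Finset.sum_sub_distrib, norm_div, Complex.norm_real,
            Real.norm_of_nonneg hXr.le, div_le_iff₀ hXr]
          exact (norm_sum_le _ _).trans (h s hs)
      _ = ε * S := by simp; ring
  have h2 := re_av_ge _ h1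
  rw [Complex.sub_re] at h2
  linarith

end av

theorem mt_zero : Mt 0 := by
  intro M ε hε
  obtain ⟨C, hC, hW⟩ := weyl_all M ε hε
  refine ⟨C.factorial, 7 * (M + 1) * (C * ((M + 1) * 2 ^ M)) + M + 1, Nat.factorial_pos _,
    by positivity, ?_⟩
  intro J S q hS hq hdvd hsep X _ _ F hF0 hFd
  set av : ℕ → ℂ := fun i => (∑ s ∈ range (S i), Ex 0 F (q i * (s + 1))) / (S i : ℂ) with hav
  have h := top_scale (fun i => (av i).re) (fun i => ε ≤ ‖av i‖) ε 0 hε.le le_rfl J ?_ ?_ ?_
  · intro j hj
    have := h j hj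
    refine le_trans (le_of_eq ?_) this
    push_cast
    ring
  · intro i _
    exact re_av_ge _ (norm_av_le 0 F (S i) (q i) (hS i))
  · intro i _ hi
    push Not at hi
    exact re_av_ge _ hi.le
  · intro j hj hP
    have hSj : (0 : ℝ) < S j := by exact_mod_cast hS j
    have hSj1 : (1 : ℝ) ≤ S j := by exact_mod_cast hS j
    -- the polynomial
    set p1 : ℝ[X] := (F 0).comp (Polynomial.C (q j : ℝ) * Polynomial.X) with hp1
    have hp1e : ∀ s : ℝ, p1.eval s = (F 0).eval (q j * s) := by
      intro s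
      rw [hp1, Polynomial.eval_comp, Polynomial.eval_mul, Polynomial.eval_C, Polynomial.eval_X]
    have hp1d : p1.natDegree ≤ M := by
      rw [hp1, Polynomial.natDegree_comp]
      calc (F 0).natDegree * (Polynomial.C (q j : ℝ) * Polynomial.X).natDegree
          ≤ (F 0).natDegree * 1 := by
            gcongr
            exact (Polynomial.natDegree_C_mul_le _ _).trans Polynomial.natDegree_X_le
        _ ≤ M := by rw [mul_one]; exact hFd 0
    have hp1c : ∀ i, p1.coeff i = (q j : ℝ) ^ i * (F 0).coeff i := by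
      intro i
      rw [hp1, Polynomial.comp_C_mul_X_coeff]
      ring
    have htd : (Polynomial.taylor 1 p1).natDegree ≤ M := by
      rw [Polynomial.natDegree_taylor]; exact hp1d
    have hlarge : ε * S j ≤ ‖∑ s ∈ range (S j), e ((Polynomial.taylor 1 p1).eval (s : ℝ))‖ := by
      have h2 : ‖∑ s ∈ range (S j), e ((Polynomial.taylor 1 p1).eval (s : ℝ))‖ =
          ‖av j‖ * S j := by
        rw [hav]
        simp only [norm_div, Complex.norm_natCast]
        rw [div_mul_cancel₀ _ hSj.ne']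
        congr 1
        refine Finset.sum_congr rfl fun s _ => ?_
        rw [Polynomial.taylor_eval, hp1e, Ex_zero]
        push_cast
        rfl
      rw [h2]
      exact mul_le_mul_of_nonneg_right hP hSj.le
    obtain ⟨h, hh1, hh2, hh3⟩ := hW (S j) _ (hS j) htd hlarge
    have hcj : ∀ i, 1 ≤ i → nn ((h : ℝ) * (Polynomial.taylor 1 p1).coeff i) ≤ C / S j := by
      intro i hi
      refine (hh3 i hi).trans ?_
      apply div_le_div_of_nonneg_left (by positivity) hSj
      calc (S j : ℝ) = (S j : ℝ) ^ 1 := (pow_one _).symm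
        _ ≤ (S j : ℝ) ^ i := pow_le_pow_right₀ hSj1 hi
    -- the coefficients of `F 0`
    have hco : ∀ i, 1 ≤ i → nn ((h : ℝ) * ((q j : ℝ) ^ i * (F 0).coeff i)) ≤
        C * ((M + 1) * 2 ^ M) / S j := by
      intro i hi
      rw [← hp1c, coeff_of_taylor M p1 hp1d i, Finset.mul_sum]
      refine (nn_sum_le _ _).trans ?_
      calc ∑ j' ∈ range (M + 1), nn ((h : ℝ) * ((Polynomial.taylor 1 p1).coeff j' *
            (((j'.choose i : ℕ) : ℝ) * (-1) ^ (j' - i))))
          ≤ ∑ j' ∈ range (M + 1), (2 : ℝ) ^ M * (C / S j) := by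
            refine Finset.sum_le_sum fun j' hj' => ?_
            rw [Finset.mem_range] at hj'
            by_cases hji : j' < i
            · rw [Nat.choose_eq_zero_of_lt hji]
              simp only [Nat.cast_zero, zero_mul, mul_zero, nn_zero']
              positivity
            · have hj1 : 1 ≤ j' := by omega
              have h6 : (h : ℝ) * ((Polynomial.taylor 1 p1).coeff j' *
                  (((j'.choose i : ℕ) : ℝ) * (-1) ^ (j' - i))) =
                  (((j'.choose i : ℤ) * (-1) ^ (j' - i) : ℤ) : ℝ) *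
                    ((h : ℝ) * (Polynomial.taylor 1 p1).coeff j') := by
                push_cast; ring
              rw [h6]
              refine (nn_int_mul _ _).trans ?_
              have h7 : |((((j'.choose i : ℤ) * (-1) ^ (j' - i) : ℤ)) : ℝ)| ≤ 2 ^ M := by
                push_cast
                rw [abs_mul, abs_pow, abs_neg, abs_one, one_pow, mul_one, abs_of_nonneg (by positivity)]
                have h8 : j'.choose i ≤ 2 ^ M := (Nat.choose_le_two_pow j' i).trans
                  (Nat.pow_le_pow_right (by norm_num) (by omega))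
                exact_mod_cast h8
              exact mul_le_mul h7 (hcj j' hj1) (nn_nonneg _) (by positivity)
        _ = C * ((M + 1) * 2 ^ M) / S j := by
            rw [Finset.sum_const, Finset.card_range, nsmul_eq_mul]; push_cast; ring
    -- the smaller scales
    have hpos : 0 ≤ ∑ i ∈ range j, (av i).re := by
      refine Finset.sum_nonneg fun i hi => ?_
      rw [Finset.mem_range] at hi
      have hSi : (0 : ℝ) < S i := by exact_mod_cast hS i
      obtain ⟨m, hm⟩ := (Dvd.dvd.trans (Dvd.intro _ rfl) (hdvd i j hi hj) : q j ∣ q i)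
      have hm0 : 0 < m := by
        rcases Nat.eq_zero_or_pos m with h0 | h0
        · rw [h0, mul_zero] at hm
          have := hq i
          omega
        · exact h0
      have hhm : h ∣ m := by
        have h1 : q j * C.factorial ∣ q j * m := by rw [← hm]; exact hdvd i j hi hj
        have h2 : C.factorial ∣ m := Nat.dvd_of_mul_dvd_mul_left (hq j) h1
        exact (Nat.dvd_factorial hh1 hh2).trans h2
      have hmq : m ≤ q i := by rw [hm]; exact Nat.le_mul_of_pos_left _ (hq j)
      set T : ℝ := ((q i : ℝ) * S i) ^ M with hT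
      have hqS1 : (1 : ℝ) ≤ (q i : ℝ) * S i := by
        have : 1 ≤ q i * S i := Nat.mul_pos (hq i) (hS i)
        exact_mod_cast this
      have hbound : ((M : ℝ) + 1) * (T * (C * ((M + 1) * 2 ^ M) / S j)) ≤ 1 / 7 := by
        have h1 := hsep i j hi hj
        have h2 : 7 * (M + 1) * (C * ((M + 1) * 2 ^ M)) * (q i * S i) ^ M ≤ S j := by
          refine le_trans ?_ h1
          refine Nat.mul_le_mul (by omega) (Nat.pow_le_pow_right ?_ (by
            have : 0 ≤ 7 * (M + 1) * (C * ((M + 1) * 2 ^ M)) := Nat.zero_le _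
            omega))
          exact Nat.mul_pos (hq i) (hS i)
        have h3 : (7 : ℝ) * (M + 1) * (C * ((M + 1) * 2 ^ M)) * ((q i : ℝ) * S i) ^ M ≤ S j := by
          exact_mod_cast h2
        have h4 : ((M : ℝ) + 1) * (T * (C * ((M + 1) * 2 ^ M) / S j)) =
            (((M : ℝ) + 1) * (C * ((M + 1) * 2 ^ M)) * ((q i : ℝ) * S i) ^ M) / S j := by
          rw [hT]; ring
        rw [h4, div_le_div_iff₀ hSj (by norm_num)]
        linarith
      have h4 : ∀ s ∈ range (S i), 0 ≤ (Ex 0 F (q i * (s + 1))).re := by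
        intro s hs
        rw [Finset.mem_range] at hs
        rw [Ex_zero]
        apply re_e_nonneg
        refine le_trans ?_ hbound
        have h5 : (F 0).eval ((q i * (s + 1) : ℕ) : ℝ) = ∑ a ∈ range (M + 1),
            ((q i * (s + 1) : ℕ) : ℝ) ^ a * (F 0).coeff a := by
          rw [Polynomial.eval_eq_sum_range' (Nat.lt_succ_of_le (hFd 0))]
          exact Finset.sum_congr rfl fun a _ => mul_comm _ _
        rw [h5]
        refine (nn_sum_le _ _).trans ?_
        calc ∑ a ∈ range (M + 1), nn (((q i * (s + 1) : ℕ) : ℝ) ^ a * (F 0).coeff a)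
            ≤ ∑ _a ∈ range (M + 1), T * (C * ((M + 1) * 2 ^ M) / S j) := by
              refine Finset.sum_le_sum fun a ha => ?_
              rw [Finset.mem_range] at ha
              rcases Nat.eq_zero_or_pos a with rfl | ha0
              · rw [hF0 0, mul_zero, nn_zero']
                positivity
              · refine (nn_scale a ha0 (q i) (q j) m h (s + 1) (q i) (S i) hh1 hhm hm
                  (by omega) hmq _ _ (hco a ha0)).trans ?_
                apply mul_le_mul_of_nonneg_right _ (by positivity)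
                exact pow_le_pow_right₀ hqS1 (by omega)
          _ = ((M : ℝ) + 1) * (T * (C * ((M + 1) * 2 ^ M) / S j)) := by
              rw [Finset.sum_const, Finset.card_range, nsmul_eq_mul]; push_cast; ring
      have h5 : (av i).re = (∑ s ∈ range (S i), (Ex 0 F (q i * (s + 1))).re) / S i := by
        rw [hav]
        simp only
        rw [← Complex.ofReal_natCast, Complex.div_ofReal_re, Complex.re_sum]
      rw [h5]
      exact div_nonneg (Finset.sum_nonneg h4) hSi.le
    have : 0 ≤ ε * j := by positivity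
    linarith

theorem mt_succ (k : ℕ) (hred : Red (k + 1)) (ih : Mt k) : Mt (k + 1) := by
  intro M ε hε
  obtain ⟨B₁, W₁, hB₁, hW₁, hr⟩ := hred M ε hε
  obtain ⟨B₂, W₂, hB₂, hW₂, hi⟩ := ih (M + (k + 1)) ε hε
  refine ⟨B₁ * B₂, W₁ + W₂, Nat.mul_pos hB₁ hB₂, by omega, ?_⟩
  intro J S q hS hq hdvd hsep X _ _ F hF0 hFd
  set av : ℕ → ℂ := fun i => (∑ s ∈ range (S i), Ex (k + 1) F (q i * (s + 1))) / (S i : ℂ) with hav
  have hk : (0 : ℝ) ≤ k := Nat.cast_nonneg _
  have h := top_scale (fun i => (av i).re) (fun i => ε ≤ ‖av i‖) ((k + 2) * ε) (k + 1)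
    (by positivity) (by positivity) J ?_ ?_ ?_
  · intro j hj
    have := h j hj
    push_cast
    refine le_trans (le_of_eq ?_) this
    ring
  · intro i _
    exact re_av_ge _ (norm_av_le (k + 1) F (S i) (q i) (hS i))
  · intro i _ hi
    push Not at hi
    have h1 := re_av_ge _ hi.le
    have h2 : 0 ≤ (k + 1) * ε := by positivity
    linarith
  · intro j hj hP
    rcases Nat.eq_zero_or_pos j with rfl | hj0
    · simp
      linarith
    -- the largest scale below `j`
    obtain ⟨i₀, hi₀, hmax⟩ := Finset.exists_max_image (range j) (fun i => q i * S i)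
      ⟨0, Finset.mem_range.2 hj0⟩
    rw [Finset.mem_range] at hi₀
    have hpos1 : ∀ i, 1 ≤ q i * S i := fun i => Nat.mul_pos (hq i) (hS i)
    have hlow : ∀ (w : ℕ), w ≤ W₁ + W₂ → ∀ i < j, w * (q i * S i) ^ w ≤ S j := by
      intro w hw i hi'
      refine le_trans ?_ (hsep i j hi' hj)
      exact Nat.mul_le_mul hw (Nat.pow_le_pow_right (hpos1 i) hw)
    obtain ⟨F', hF'0, hF'd, hF'⟩ := hr (S j) (q j) (q i₀ * S i₀) (hS j) (hq j) (hpos1 i₀)
      (hlow W₁ (by omega) i₀ hi₀) X F hF0 hFd hP
    have h1 := hi j S q hS hq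
      (fun a b hab hb => (Nat.mul_dvd_mul_left _ (Dvd.intro_left _ rfl)).trans
        (hdvd a b hab (by omega)))
      (fun a b hab hb => le_trans (Nat.mul_le_mul (by omega)
        (Nat.pow_le_pow_right (hpos1 a) (by omega))) (hsep a b hab (by omega)))
      X F' hF'0 hF'd j le_rfl
    have h2 : ∀ i ∈ range j, ((∑ s ∈ range (S i), Ex k F' (q i * (s + 1))) / (S i : ℂ)).re - ε ≤
        (av i).re := by
      intro i hi'
      refine av_sub_le k F F' (S i) (q i) (hS i) ε fun s hs => ?_
      have h3 := hmax i hi'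
      rw [Finset.mem_range] at hi' hs
      have h4 := hF' (q i * (s + 1)) (Nat.mul_pos (hq i) (Nat.succ_pos s))
        (le_trans (Nat.mul_le_mul_left _ (by omega)) h3)
        (((Nat.mul_dvd_mul_left _ (Dvd.intro _ rfl)).trans (hdvd i j hi' hj)).trans
          (Dvd.intro _ rfl))
      exact h4
    have h3 := Finset.sum_le_sum h2
    rw [Finset.sum_sub_distrib, Finset.sum_const, Finset.card_range, nsmul_eq_mul] at h3
    have h5 : (k + 2) * ε * j = (k + 1) * ε * j + j * ε := by ring
    linarith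

/-- Induction on `k`, from the reduction step. -/
theorem mt_of_red (hred : ∀ k, 1 ≤ k → Red k) (k : ℕ) : Mt k := by
  induction k with
  | zero => exact mt_zero
  | succ k ih => exact mt_succ k (hred (k + 1) (by omega)) ih

end Pool.Agent.J4.H79.HS
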