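import Pool.Agent.J4.H79.HS.Y0
import Pool.Agent.J4.H79.HS.P3d

/-!
Project HS, piece Y6: a distribution on the sets `γ` for which the character sums over `γ^k` are
positive up to `ε`.
-/

namespace Pool.Agent.J4.H79.HS

open Finset Polynomial

namespace Y6

/-- the sum of `θ` over the tuples whose image is the underlying set of `s` -/
noncomputable def Th {k n : ℕ} (θ : (Fin k → Fin n) → ℝ) (s : Multiset (Fin n)) : ℝ :=
  ∑ c ∈ (univ : Finset (Fin k → Fin n)).filter (fun c => univ.image c = s.toFinset), θ c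

/-- the phases -/
noncomputable def PF {k n : ℕ} (θ : (Fin k → Fin n) → ℝ) (s : Multiset (Fin n)) : ℝ[X] :=
  C (Th θ s) * X

theorem sum_Th {k n r : ℕ} (θ : (Fin k → Fin n) → ℝ) (x : Fin r → Fin n)
    (hx : Function.Injective x) :
    ∑ L ∈ (univ : Finset (Finset (Fin r))).filter (fun L => L.card ≤ k), Th θ (L.val.map x) =
      ∑ c ∈ Fintype.piFinset (fun _ : Fin k => univ.image x), θ c := by
  obtain ⟨g, hg⟩ : ∃ g : (Fin k → Fin n) → Finset (Fin r),
      g = fun c => univ.filter fun i => x i ∈ univ.image c := ⟨_, rfl⟩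
  have himg : ∀ c ∈ Fintype.piFinset (fun _ : Fin k => univ.image x),
      (g c).image x = univ.image c := by
    intro c hc
    rw [Fintype.mem_piFinset] at hc
    ext y
    rw [mem_image, mem_image]
    constructor
    · rintro ⟨i, hi, rfl⟩
      rw [hg, mem_filter, mem_image] at hi
      exact hi.2
    · rintro ⟨j, -, rfl⟩
      obtain ⟨i, -, hi⟩ := mem_image.1 (hc j)
      refine ⟨i, ?_, hi⟩
      rw [hg, mem_filter, hi]
      exact ⟨mem_univ _, mem_image_of_mem _ (mem_univ _)⟩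
  have hmaps : ∀ c ∈ Fintype.piFinset (fun _ : Fin k => univ.image x),
      g c ∈ (univ : Finset (Finset (Fin r))).filter (fun L => L.card ≤ k) := by
    intro c hc
    rw [mem_filter]
    refine ⟨mem_univ _, ?_⟩
    rw [← card_image_of_injective (g c) hx, himg c hc]
    exact card_image_le.trans (by rw [card_univ, Fintype.card_fin])
  rw [← sum_fiberwise_of_maps_to hmaps]
  refine sum_congr rfl fun L _ => ?_
  unfold Th
  refine sum_congr ?_ fun _ _ => rfl
  ext c
  rw [mem_filter, mem_filter]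
  have hL : (L.val.map x).toFinset = L.image x := rfl
  rw [hL]
  constructor
  · rintro ⟨-, h⟩
    have hc : c ∈ Fintype.piFinset (fun _ : Fin k => univ.image x) := by
      rw [Fintype.mem_piFinset]
      intro j
      have h1 : c j ∈ L.image x := by
        rw [← h]
        exact mem_image_of_mem _ (mem_univ _)
      exact image_subset_image (subset_univ L) h1
    refine ⟨hc, ?_⟩
    have h1 := himg c hc
    rw [h] at h1
    exact image_injective hx h1
  · rintro ⟨hc, rfl⟩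
    exact ⟨mem_univ _, (himg c hc).symm⟩

theorem Phi_inj {k n r : ℕ} (θ : (Fin k → Fin n) → ℝ) (x : Fin r → Fin n)
    (hx : Function.Injective x) :
    Phi k (PF θ) r x = (r : ℝ) * ∑ c ∈ Fintype.piFinset (fun _ : Fin k => univ.image x), θ c := by
  unfold Phi
  rw [← sum_Th θ x hx, mul_sum]
  refine sum_congr rfl fun L _ => ?_
  unfold PF
  rw [eval_mul, eval_C, eval_X, mul_comm]

/-- comparison of injective and of all tuples -/
theorem cnt_cosL {n : ℕ} (hn : 0 < n) (k r : ℕ) (θ : (Fin k → Fin n) → ℝ) :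
    (Ex k (PF θ) r).re - (r : ℝ) ^ 2 / n ≤
      (∑ γ, cnt r γ * Real.cos (2 * Real.pi * ((γ.card : ℝ) *
        ∑ c ∈ Fintype.piFinset (fun _ : Fin k => γ), θ c))) / (n : ℝ) ^ r := by
  have hnp : (0 : ℝ) < n := by exact_mod_cast hn
  have hnr : (0 : ℝ) < (n : ℝ) ^ r := by positivity
  have hEx : (Ex k (PF θ) r).re =
      (∑ x : Fin r → Fin n, Real.cos (2 * Real.pi * Phi k (PF θ) r x)) / (n : ℝ) ^ r := by
    unfold Ex
    rw [Fintype.card_fin, Complex.div_ofReal_re, Complex.re_sum]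
    congr 1
    exact sum_congr rfl fun x _ => e_re _
  rw [cnt_sum, hEx, sub_le_iff_le_add, div_le_iff₀ hnr, add_mul, div_mul_cancel₀ _ hnr.ne']
  have h1 : ∀ τ ∈ univ.filter (fun τ : Fin r → Fin n => Function.Injective τ),
      Real.cos (2 * Real.pi * (((univ.image τ).card : ℝ) *
        ∑ c ∈ Fintype.piFinset (fun _ : Fin k => univ.image τ), θ c)) =
      Real.cos (2 * Real.pi * Phi k (PF θ) r τ) := by
    intro τ hτ
    have hinj := (Finset.mem_filter.1 hτ).2
    rw [Phi_inj θ τ hinj, Finset.card_image_of_injective _ hinj, Finset.card_univ, Fintype.card_fin]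
  rw [Finset.sum_congr rfl h1]
  have h2 : ∑ τ : Fin r → Fin n, Real.cos (2 * Real.pi * Phi k (PF θ) r τ) =
      ∑ τ ∈ univ.filter (fun τ : Fin r → Fin n => Function.Injective τ),
        Real.cos (2 * Real.pi * Phi k (PF θ) r τ) +
      ∑ τ ∈ univ.filter (fun τ : Fin r → Fin n => ¬ Function.Injective τ),
        Real.cos (2 * Real.pi * Phi k (PF θ) r τ) :=
    (Finset.sum_filter_add_sum_filter_not _ _ _).symm
  rw [h2]
  have h3 : ∑ τ ∈ univ.filter (fun τ : Fin r → Fin n => ¬ Function.Injective τ),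
        Real.cos (2 * Real.pi * Phi k (PF θ) r τ) ≤
      ((univ.filter (fun τ : Fin r → Fin n => ¬ Function.Injective τ)).card : ℝ) := by
    calc _ ≤ ∑ τ ∈ univ.filter (fun τ : Fin r → Fin n => ¬ Function.Injective τ), (1 : ℝ) :=
          Finset.sum_le_sum fun τ _ => Real.cos_le_one _
      _ = _ := by simp
  have h4 : ((univ.filter (fun τ : Fin r → Fin n => Function.Injective τ)).card : ℝ) +
      ((univ.filter (fun τ : Fin r → Fin n => ¬ Function.Injective τ)).card : ℝ) = (n : ℝ) ^ r := by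
    have := Finset.card_filter_add_card_filter_not (s := (univ : Finset (Fin r → Fin n)))
      (fun τ : Fin r → Fin n => Function.Injective τ)
    rw [Finset.card_univ, Fintype.card_fun, Fintype.card_fin, Fintype.card_fin] at this
    exact_mod_cast this
  have h5 := inj_count n r hn
  linarith

/-- the number of points of the scales -/
def Sc (B W J : ℕ) : ℕ → ℕ
  | 0 => 1
  | m + 1 => W * (B ^ J * Sc B W J m) ^ W + Sc B W J m

theorem Sc_mono (B W J : ℕ) : Monotone (Sc B W J) :=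
  monotone_nat_of_le_succ fun m => by
    change Sc B W J m ≤ W * (B ^ J * Sc B W J m) ^ W + Sc B W J m
    omega

theorem Sc_pos (B W J m : ℕ) : 0 < Sc B W J m :=
  lt_of_lt_of_le one_pos ((Sc_mono B W J) (Nat.zero_le m))

end Y6

open Y6 in
/-- the theorem, from the statement of Y5 -/
theorem kernel_lines_of
    (mt' : ∀ (k : ℕ) (M : ℕ) (ε : ℝ), 0 < ε → ∃ B W : ℕ, 0 < B ∧ 0 < W ∧
    ∀ (J : ℕ) (S q : ℕ → ℕ), (∀ i, 0 < S i) → (∀ i, 0 < q i) →
      (∀ i j, i < j → j < J → q j * B ∣ q i) → (∀ i j, i < j → j < J → W * (q i * S i) ^ W ≤ S j) →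
      ∀ (X : Type) [Fintype X] [Nonempty X] (F : Multiset X → ℝ[X]),
        (∀ s, (F s).coeff 0 = 0) → (∀ s, (F s).natDegree ≤ M) →
        ∀ j ≤ J, -((k : ℝ) + 1 + (k + 1) * ε * j) ≤
          ∑ i ∈ range j, ((∑ s ∈ range (S i), Ex k F (q i * (s + 1))) / (S i : ℂ)).re)
    (k : ℕ) (ε : ℝ) (hε : 0 < ε) :
    ∃ n R : ℕ, 0 < n ∧ ∃ lam : Finset (Fin n) → ℝ, (∀ γ, 0 ≤ lam γ) ∧
      (∀ γ, lam γ ≠ 0 → γ.Nonempty ∧ γ.card ≤ R) ∧ ∑ γ, lam γ ≤ 1 ∧ 1 - ε ≤ ∑ γ, lam γ ∧
      ∀ θ : (Fin k → Fin n) → ℝ,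
        -ε ≤ ∑ γ, lam γ * Real.cos (2 * Real.pi * ((γ.card : ℝ) *
          ∑ c ∈ Fintype.piFinset (fun _ : Fin k => γ), θ c)) := by
  have hk : (0 : ℝ) < (k : ℝ) + 1 := by positivity
  obtain ⟨B, W, hB, hW, hmt⟩ := mt' k 1 (ε / (8 * (k + 1))) (by positivity)
  obtain ⟨J, hJ8⟩ := exists_nat_gt (8 * ((k : ℝ) + 1) / ε)
  have hJr : (0 : ℝ) < J := lt_of_le_of_lt (by positivity) hJ8
  obtain ⟨q, hqd⟩ : ∃ q : ℕ → ℕ, q = fun i => B ^ (J - i) := ⟨_, rfl⟩
  obtain ⟨S, hSd⟩ : ∃ S : ℕ → ℕ, S = Sc B W J := ⟨_, rfl⟩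
  have hS : ∀ i, 0 < S i := fun i => by
    rw [hSd]
    exact Sc_pos B W J i
  have hq : ∀ i, 0 < q i := fun i => by
    rw [hqd]
    positivity
  have hdv : ∀ i j, i < j → j < J → q j * B ∣ q i := by
    intro i j hij hj
    rw [hqd]
    dsimp only
    rw [← pow_succ]
    exact pow_dvd_pow B (by omega)
  have hSS : ∀ i j, i < j → j < J → W * (q i * S i) ^ W ≤ S j := by
    intro i j hij _
    rw [hSd, hqd]
    have h1 : Sc B W J (i + 1) ≤ Sc B W J j := Sc_mono B W J hij
    refine le_trans ?_ h1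
    change W * (B ^ (J - i) * Sc B W J i) ^ W ≤ W * (B ^ J * Sc B W J i) ^ W + Sc B W J i
    have h2 : B ^ (J - i) ≤ B ^ J := Nat.pow_le_pow_right hB (Nat.sub_le _ _)
    have h3 : W * (B ^ (J - i) * Sc B W J i) ^ W ≤ W * (B ^ J * Sc B W J i) ^ W :=
      Nat.mul_le_mul_left _ (Nat.pow_le_pow_left (Nat.mul_le_mul_right _ h2) _)
    omega
  have hmain : ∀ (n : ℕ), 0 < n → ∀ θ : (Fin k → Fin n) → ℝ, -(ε / 4) * J ≤
      ∑ i ∈ range J, ((∑ s ∈ range (S i), Ex k (PF θ) (q i * (s + 1))) / (S i : ℂ)).re := by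
    intro n hn θ
    have : Nonempty (Fin n) := ⟨⟨0, hn⟩⟩
    have h1 := hmt J S q hS hq hdv hSS (Fin n) (PF θ) (fun s => by
      unfold PF
      rw [coeff_C_mul, coeff_X_zero, mul_zero]) (fun s => by
      unfold PF
      exact (natDegree_C_mul_le _ _).trans natDegree_X_le) J le_rfl
    refine le_trans ?_ h1
    have h2 : (k + 1 : ℝ) * (ε / (8 * (k + 1))) = ε / 8 := by
      field_simp
    rw [h2]
    rw [div_lt_iff₀ hε] at hJ8
    linarith
  have hSr : ∀ i, (0 : ℝ) < S i := fun i => by exact_mod_cast hS i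
  obtain ⟨R, hR⟩ : ∃ R : ℕ, R = ∑ i ∈ range J, q i * S i := ⟨_, rfl⟩
  obtain ⟨n₀, hn₀⟩ := exists_nat_gt ((R : ℝ) ^ 2 * 4 / ε)
  obtain ⟨n, hn⟩ : ∃ n : ℕ, n = n₀ + 1 := ⟨_, rfl⟩
  have hn0 : 0 < n := by omega
  have hnp : (0 : ℝ) < n := by exact_mod_cast hn0
  have hnR : (R : ℝ) ^ 2 / n ≤ ε / 4 := by
    have h1 : (R : ℝ) ^ 2 * 4 / ε < n := by
      rw [hn]; push_cast; linarith
    rw [div_lt_iff₀ hε] at h1
    rw [div_le_iff₀ hnp]
    linarith
  have hrR : ∀ i ∈ range J, ∀ s ∈ range (S i), q i * (s + 1) ≤ R := by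
    intro i hi s hs
    rw [Finset.mem_range] at hs
    calc q i * (s + 1) ≤ q i * S i := Nat.mul_le_mul_left _ hs
      _ ≤ R := by
        rw [hR]
        exact Finset.single_le_sum (f := fun i => q i * S i) (fun _ _ => Nat.zero_le _) hi
  have hr2 : ∀ i ∈ range J, ∀ s ∈ range (S i), ((q i * (s + 1) : ℕ) : ℝ) ^ 2 / n ≤ ε / 4 := by
    intro i hi s hs
    refine le_trans ?_ hnR
    have : ((q i * (s + 1) : ℕ) : ℝ) ≤ R := by exact_mod_cast hrR i hi s hs
    gcongr
  obtain ⟨lam, hlam⟩ : ∃ lam : Finset (Fin n) → ℝ, lam = fun γ =>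
    (∑ i ∈ range J, (∑ s ∈ range (S i), cnt (q i * (s + 1)) γ / (n : ℝ) ^ (q i * (s + 1))) / S i) / J
    := ⟨_, rfl⟩
  have hlin : ∀ g : Finset (Fin n) → ℝ, ∑ γ, lam γ * g γ =
      (∑ i ∈ range J, (∑ s ∈ range (S i),
        (∑ γ, cnt (q i * (s + 1)) γ * g γ) / (n : ℝ) ^ (q i * (s + 1))) / S i) / J := by
    intro g
    rw [hlam]
    simp only [div_mul_eq_mul_div, Finset.sum_mul, Finset.sum_div]
    rw [Finset.sum_comm]
    refine Finset.sum_congr rfl fun i _ => ?_
    rw [Finset.sum_comm]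
  have hlin1 : ∑ γ, lam γ =
      (∑ i ∈ range J, (∑ s ∈ range (S i),
        (∑ γ : Finset (Fin n), cnt (q i * (s + 1)) γ) / (n : ℝ) ^ (q i * (s + 1))) / S i) / J := by
    have := hlin (fun _ => 1)
    simpa using this
  have havg : ∀ (b : ℝ) (F : ℕ → ℕ → ℝ), (∀ i ∈ range J, ∀ s ∈ range (S i), b ≤ F i s) →
      b ≤ (∑ i ∈ range J, (∑ s ∈ range (S i), F i s) / S i) / J := by
    intro b F hF
    rw [le_div_iff₀ hJr]
    calc b * J = ∑ i ∈ range J, b := by simp; ring
      _ ≤ _ := by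
        refine Finset.sum_le_sum fun i hi => ?_
        rw [le_div_iff₀ (hSr i)]
        calc b * S i = ∑ s ∈ range (S i), b := by simp; ring
          _ ≤ _ := Finset.sum_le_sum fun s hs => hF i hi s hs
  have havg' : ∀ (b : ℝ) (F : ℕ → ℕ → ℝ), (∀ i ∈ range J, ∀ s ∈ range (S i), F i s ≤ b) →
      (∑ i ∈ range J, (∑ s ∈ range (S i), F i s) / S i) / J ≤ b := by
    intro b F hF
    rw [div_le_iff₀ hJr]
    calc ∑ i ∈ range J, (∑ s ∈ range (S i), F i s) / S i ≤ ∑ i ∈ range J, b := by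
          refine Finset.sum_le_sum fun i hi => ?_
          rw [div_le_iff₀ (hSr i)]
          calc ∑ s ∈ range (S i), F i s ≤ ∑ s ∈ range (S i), b :=
                Finset.sum_le_sum fun s hs => hF i hi s hs
            _ = b * S i := by simp; ring
      _ = b * J := by simp; ring
  refine ⟨n, R, hn0, lam, ?_, ?_, ?_, ?_, ?_⟩
  · intro γ
    rw [hlam]
    simp only
    exact div_nonneg (Finset.sum_nonneg fun i _ => div_nonneg (Finset.sum_nonneg fun s _ =>
      div_nonneg (cnt_nonneg _ _) (by positivity)) (hSr i).le) hJr.le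
  · intro γ hγ
    by_contra hcon
    apply hγ
    rw [hlam]
    simp only
    rw [div_eq_zero_iff]; left
    refine Finset.sum_eq_zero fun i hi => ?_
    rw [div_eq_zero_iff]; left
    refine Finset.sum_eq_zero fun s hs => ?_
    rw [div_eq_zero_iff]; left
    by_contra hne
    have h1 := cnt_ne_zero _ _ hne
    apply hcon
    constructor
    · rw [← Finset.card_pos, h1]
      exact Nat.mul_pos (hq i) (Nat.succ_pos _)
    · rw [h1]; exact hrR i hi s hs
  · rw [hlin1]
    apply havg'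
    intro i hi s hs
    rw [cnt_total, div_le_one (by positivity)]
    have h1 : (univ.filter fun τ : Fin (q i * (s + 1)) → Fin n => Function.Injective τ).card
        ≤ n ^ (q i * (s + 1)) := by
      refine (Finset.card_le_univ _).trans ?_
      rw [Fintype.card_fun, Fintype.card_fin, Fintype.card_fin]
    exact_mod_cast h1
  · rw [hlin1]
    apply havg
    intro i hi s hs
    rw [cnt_total, le_div_iff₀ (by positivity)]
    refine le_trans ?_ (inj_count n (q i * (s + 1)) hn0)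
    have h1 := hr2 i hi s hs
    apply mul_le_mul_of_nonneg_right _ (by positivity)
    linarith
  · intro θ
    rw [hlin]
    have h1 := hmain n hn0 θ
    have h2 : (∑ i ∈ range J, (∑ s ∈ range (S i),
        ((Ex k (PF θ) (q i * (s + 1))).re
          - ((q i * (s + 1) : ℕ) : ℝ) ^ 2 / n)) / S i) / J ≤
        (∑ i ∈ range J, (∑ s ∈ range (S i),
        (∑ γ : Finset (Fin n), cnt (q i * (s + 1)) γ *
          Real.cos (2 * Real.pi * ((γ.card : ℝ) *
            ∑ c ∈ Fintype.piFinset (fun _ : Fin k => γ), θ c))) /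
            (n : ℝ) ^ (q i * (s + 1))) / S i) / J := by
      apply div_le_div_of_nonneg_right _ hJr.le
      refine Finset.sum_le_sum fun i _ => ?_
      apply div_le_div_of_nonneg_right _ (hSr i).le
      exact Finset.sum_le_sum fun s _ => cnt_cosL hn0 k _ θ
    refine le_trans ?_ h2
    have h3 : ∀ i ∈ range J,
        ((∑ s ∈ range (S i), Ex k (PF θ) (q i * (s + 1))) / (S i : ℂ)).re - ε / 4 ≤
        (∑ s ∈ range (S i), ((Ex k (PF θ) (q i * (s + 1))).re
          - ((q i * (s + 1) : ℕ) : ℝ) ^ 2 / n)) / S i := by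
      intro i hi
      rw [← Complex.ofReal_natCast, Complex.div_ofReal_re, Complex.re_sum,
        Finset.sum_sub_distrib, sub_div]
      have h4 : (∑ s ∈ range (S i), ((q i * (s + 1) : ℕ) : ℝ) ^ 2 / n) / S i ≤ ε / 4 := by
        rw [div_le_iff₀ (hSr i)]
        calc ∑ s ∈ range (S i), ((q i * (s + 1) : ℕ) : ℝ) ^ 2 / n
            ≤ ∑ s ∈ range (S i), ε / 4 := Finset.sum_le_sum fun s hs => hr2 i hi s hs
          _ = ε / 4 * S i := by simp; ring
      linarith
    rw [le_div_iff₀ hJr]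
    refine le_trans ?_ (Finset.sum_le_sum h3)
    rw [Finset.sum_sub_distrib]
    simp only [Finset.sum_const, Finset.card_range, nsmul_eq_mul]
    have h5 : 0 ≤ ε * J := by positivity
    linarith

end Pool.Agent.J4.H79.HS
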