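import Pool.Agent.J4.H79.HS.Y2
import Pool.Agent.J4.H79.HS.Y5
import Pool.Agent.J4.H79.HS.Y6
import Pool.Agent.J4.H79.HS.Y7
import Pool.Agent.J4.H79.HS.Z0

namespace Pool.Agent.J4.H79.HS

open Finset

theorem kernel_lines (k : ℕ) (ε : ℝ) (hε : 0 < ε) :
    ∃ n R : ℕ, 0 < n ∧ ∃ lam : Finset (Fin n) → ℝ, (∀ γ, 0 ≤ lam γ) ∧
      (∀ γ, lam γ ≠ 0 → γ.Nonempty ∧ γ.card ≤ R) ∧ ∑ γ, lam γ ≤ 1 ∧ 1 - ε ≤ ∑ γ, lam γ ∧
      ∀ θ : (Fin k → Fin n) → ℝ,
        -ε ≤ ∑ γ, lam γ * Real.cos (2 * Real.pi * ((γ.card : ℝ) *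
          ∑ c ∈ Fintype.piFinset (fun _ : Fin k => γ), θ c)) :=
  kernel_lines_of (fun k => mt_of_red (fun k hk M ε hε => red k hk M ε hε) k) k ε hε

/-- **Families determined by the line counts.** -/
theorem line_families (d : ℕ) (hd : 1 ≤ d) (ε : ℝ) (hε : 0 < ε) :
    ∃ R N₀ : ℕ, ∀ N : ℕ, N₀ ≤ N → ∀ S : Finset (Finset (Fin d → Fin N)),
      (∀ A B : Finset (Fin d → Fin N), (∀ j u, lineCount A j u = lineCount B j u) →
        (A ∈ S ↔ B ∈ S)) →
      ∃ γ : Finset (Fin N), γ.Nonempty ∧ γ.card ≤ R ∧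
        (((S.card : ℝ) / 2 ^ (N ^ d)) ^ 2 - ε) * 2 ^ (N ^ d - γ.card ^ d) ≤
          ((S.filter (fun A => Disjoint A (cube d γ) ∧ A ∪ cube d γ ∈ S)).card : ℝ) := by
  obtain ⟨R, N₀, h⟩ := line_families_of d hd (fun ε hε => kernel_lines (d - 1) ε hε) ε hε
  exact ⟨R, N₀, fun N hN S hS => h N hN S (fun A B hAB => hS A B hAB)⟩

/-- choice of a good `γ` from an average -/
theorem exists_of_avg {Γ : Type} [Fintype Γ] (lam c : Γ → ℝ) (hlam : ∀ γ, 0 ≤ lam γ)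
    (hc : ∀ γ, 0 ≤ c γ) (hlam1 : ∑ γ, lam γ ≤ 1) (hpos : 0 < ∑ γ, lam γ) (Y : ℝ)
    (hY : Y ≤ ∑ γ, lam γ * c γ) : ∃ γ, lam γ ≠ 0 ∧ Y ≤ c γ := by
  by_contra hcon
  push Not at hcon
  obtain ⟨γ₀, hγ₀⟩ : ∃ γ, lam γ ≠ 0 := by
    by_contra h
    push Not at h
    rw [Finset.sum_eq_zero fun γ _ => h γ] at hpos
    exact lt_irrefl _ hpos
  have hYpos : 0 < Y := lt_of_le_of_lt (hc γ₀) (hcon γ₀ hγ₀)
  have h1 : ∑ γ, lam γ * c γ < ∑ γ, lam γ * Y := by
    apply Finset.sum_lt_sum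
    · intro γ _
      by_cases h : lam γ = 0
      · rw [h]; simp
      · exact mul_le_mul_of_nonneg_left (hcon γ h).le (hlam γ)
    · exact ⟨γ₀, Finset.mem_univ _, mul_lt_mul_of_pos_left (hcon γ₀ hγ₀)
        (lt_of_le_of_ne (hlam γ₀) (Ne.symm hγ₀))⟩
  rw [← Finset.sum_mul] at h1
  nlinarith

/-- **Recurrence in groups of unbounded rank**: translations by `|γ| ∑_{c ∈ γ^k} h c`. -/
theorem group_recurrence (k : ℕ) (ε : ℝ) (hε : 0 < ε) :
    ∃ n R : ℕ, ∀ (H : Type) [AddCommGroup H] [Fintype H] [DecidableEq H]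
      (h : (Fin k → Fin n) → H) (F : Finset H),
      ∃ γ : Finset (Fin n), γ.Nonempty ∧ γ.card ≤ R ∧
        (((F.card : ℝ) / Fintype.card H) ^ 2 - ε) * Fintype.card H ≤
          ((F.filter fun x =>
            x + γ.card • ∑ c ∈ Fintype.piFinset (fun _ : Fin k => γ), h c ∈ F).card : ℝ) := by
  classical
  set ε' : ℝ := min (ε / 2) (1 / 2) with hε'
  have hε'0 : 0 < ε' := by rw [hε']; positivity
  have hε'1 : ε' ≤ 1 / 2 := min_le_right _ _
  have hε'2 : 2 * ε' ≤ ε := by have := min_le_left (ε / 2) (1 / 2); linarith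
  obtain ⟨n, R, hn, lam, hl0, hl1, hl2, hl3, hl4⟩ := kernel_lines k ε' hε'0
  refine ⟨n, R, ?_⟩
  intro H _ _ _ h F
  set N : ℝ := (Fintype.card H : ℝ) with hN
  have hNp : 0 < N := by rw [hN]; exact_mod_cast Fintype.card_pos
  set kk : Finset (Fin n) → (Fin k → Fin n) → ℕ := fun γ c =>
    if c ∈ Fintype.piFinset (fun _ : Fin k => γ) then γ.card else 0 with hkk
  set f : H → ℝ := fun x => if x ∈ F then 1 else 0 with hf
  have hsum : ∀ (γ : Finset (Fin n)) (θ : (Fin k → Fin n) → ℝ), ∑ c, (kk γ c : ℝ) * θ c =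
      (γ.card : ℝ) * ∑ c ∈ Fintype.piFinset (fun _ : Fin k => γ), θ c := by
    intro γ θ
    rw [Finset.mul_sum, ← Finset.sum_subset (Finset.subset_univ (Fintype.piFinset (fun _ : Fin k => γ)))]
    · refine Finset.sum_congr rfl fun c hc => ?_
      rw [hkk]; simp only; rw [if_pos hc]
    · intro c _ hc
      rw [hkk]; simp only; rw [if_neg hc]; simp
  have hsumH : ∀ γ : Finset (Fin n), ∑ c, kk γ c • h c =
      γ.card • ∑ c ∈ Fintype.piFinset (fun _ : Fin k => γ), h c := by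
    intro γ
    rw [Finset.smul_sum, ← Finset.sum_subset (Finset.subset_univ (Fintype.piFinset (fun _ : Fin k => γ)))]
    · refine Finset.sum_congr rfl fun c hc => ?_
      rw [hkk]; simp only; rw [if_pos hc]
    · intro c _ hc
      rw [hkk]; simp only; rw [if_neg hc]; simp
  have hk := khintchine_gen hε'0.le kk lam (fun θ => by
    refine le_trans (hl4 θ) (le_of_eq (Finset.sum_congr rfl fun γ _ => ?_))
    rw [hsum]) H h f
  have hf1 : ∑ x, f x = F.card := by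
    rw [hf]; simp
  have hf2 : ∑ x, f x ^ 2 = F.card := by
    rw [hf]; simp
  have hcount : ∀ γ : Finset (Fin n), ∑ x, f x * f (x + ∑ c, kk γ c • h c) =
      ((F.filter fun x =>
        x + γ.card • ∑ c ∈ Fintype.piFinset (fun _ : Fin k => γ), h c ∈ F).card : ℝ) := by
    intro γ
    rw [hsumH, Finset.card_filter]
    push_cast
    rw [← Finset.sum_subset (Finset.subset_univ F)]
    · refine Finset.sum_congr rfl fun x hx => ?_
      rw [hf]; simp only; rw [if_pos hx, one_mul]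
    · intro x _ hx
      rw [hf]; simp only; rw [if_neg hx, zero_mul]
  rw [hf1, hf2, ← hN] at hk
  simp only [hcount] at hk
  have hD0 : 0 ≤ (F.card : ℝ) / N := by positivity
  have hD1 : (F.card : ℝ) / N ≤ 1 := by
    rw [div_le_one hNp, hN]
    exact_mod_cast Finset.card_le_univ F
  have hlow : ((F.card : ℝ) / N) ^ 2 - ε ≤ ∑ γ, lam γ * (((F.filter fun x =>
        x + γ.card • ∑ c ∈ Fintype.piFinset (fun _ : Fin k => γ), h c ∈ F).card : ℝ) / N) := by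
    refine le_trans ?_ hk
    have h1 : ((F.card : ℝ) / N) ^ 2 ≤ 1 := by nlinarith
    have h2 : 0 ≤ ((F.card : ℝ) / N) ^ 2 := sq_nonneg _
    nlinarith
  obtain ⟨γ, hγ, hγ'⟩ := exists_of_avg lam (fun γ => ((F.filter fun x =>
        x + γ.card • ∑ c ∈ Fintype.piFinset (fun _ : Fin k => γ), h c ∈ F).card : ℝ) / N) hl0
    (fun γ => by positivity) hl2 (by linarith) _ hlow
  refine ⟨γ, (hl1 γ hγ).1, (hl1 γ hγ).2, ?_⟩
  rw [le_div_iff₀ hNp] at hγ'
  exact hγ'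

end Pool.Agent.J4.H79.HS
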