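import Pool.Agent.J4.H79.HS.Z0

/-!
Piece Z2 of project HS: reduction of the local statement (classes of sets which agree outside `I^d`)
to the global one.
-/

set_option autoImplicit false

namespace Pool.Agent.J4.H79.HS

open Finset

namespace Z2

variable {d n N : ℕ}

/-- the embedding of `(Fin n)^d` given by an embedding `f` of `Fin n` -/
def E (d : ℕ) {n N : ℕ} (f : Fin n ↪ Fin N) : (Fin d → Fin n) ↪ (Fin d → Fin N) :=
  ⟨fun c l => f (c l), fun _ _ h => funext fun l => f.injective (congrFun h l)⟩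

theorem E_apply (f : Fin n ↪ Fin N) (c : Fin d → Fin n) (l : Fin d) : E d f c l = f (c l) := rfl

theorem cube_map (f : Fin n ↪ Fin N) (γ : Finset (Fin n)) :
    cube d (γ.map f) = (cube d γ).map (E d f) := by
  ext x
  simp only [cube, Fintype.mem_piFinset, Finset.mem_map]
  constructor
  · intro h
    choose c hc using h
    exact ⟨c, fun l => (hc l).1, funext fun l => (hc l).2⟩
  · rintro ⟨c, hc, rfl⟩ l
    exact ⟨c l, hc l, rfl⟩

theorem cube_univ : cube d (univ : Finset (Fin n)) = univ := by
  ext x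
  simp [cube]

theorem cube_mono {γ η : Finset (Fin N)} (h : γ ⊆ η) : cube d γ ⊆ cube d η := by
  intro x hx
  simp only [cube, Fintype.mem_piFinset] at hx ⊢
  exact fun l => h (hx l)

/-- extension by `ρ` -/
def G (f : Fin n ↪ Fin N) (ρ : Finset (Fin d → Fin N)) (B : Finset (Fin d → Fin n)) :
    Finset (Fin d → Fin N) :=
  ρ ∪ B.map (E d f)

theorem map_subset (f : Fin n ↪ Fin N) (B : Finset (Fin d → Fin n)) :
    B.map (E d f) ⊆ cube d (univ.map f) := by
  rw [cube_map, cube_univ]
  exact Finset.map_subset_map.2 (Finset.subset_univ _)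

theorem G_sdiff (f : Fin n ↪ Fin N) {ρ : Finset (Fin d → Fin N)}
    (hρ : Disjoint ρ (cube d (univ.map f))) (B : Finset (Fin d → Fin n)) :
    G f ρ B \ cube d (univ.map f) = ρ := by
  ext x
  simp only [G, Finset.mem_sdiff, Finset.mem_union]
  constructor
  · rintro ⟨h | h, h'⟩
    · exact h
    · exact absurd (map_subset f B h) h'
  · intro h
    exact ⟨Or.inl h, Finset.disjoint_left.1 hρ h⟩

theorem G_surj (f : Fin n ↪ Fin N) (A : Finset (Fin d → Fin N)) :
    ∃ B, G f (A \ cube d (univ.map f)) B = A := by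
  classical
  refine ⟨univ.filter fun c => E d f c ∈ A, ?_⟩
  ext x
  simp only [G, Finset.mem_union, Finset.mem_sdiff, Finset.mem_map, Finset.mem_filter,
    Finset.mem_univ, true_and]
  constructor
  · rintro (h | ⟨c, hc, rfl⟩)
    · exact h.1
    · exact hc
  · intro h
    by_cases hx : x ∈ cube d (univ.map f)
    · right
      rw [cube_map, cube_univ] at hx
      obtain ⟨c, -, rfl⟩ := Finset.mem_map.1 hx
      exact ⟨c, h, rfl⟩
    · exact Or.inl ⟨h, hx⟩

theorem G_inj (f : Fin n ↪ Fin N) {ρ : Finset (Fin d → Fin N)}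
    (hρ : Disjoint ρ (cube d (univ.map f))) : Function.Injective (G (d := d) f ρ) := by
  intro A B h
  have key : ∀ A : Finset (Fin d → Fin n), ∀ c, c ∈ A ↔ E d f c ∈ G f ρ A := by
    intro A c
    simp only [G, Finset.mem_union]
    constructor
    · intro h
      exact Or.inr (Finset.mem_map_of_mem _ h)
    · rintro (h | h)
      · refine absurd ?_ (Finset.disjoint_left.1 hρ h)
        rw [cube_map, cube_univ]
        exact Finset.mem_map_of_mem _ (Finset.mem_univ _)
      · exact (Finset.mem_map' _).1 h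
  ext c
  rw [key A c, key B c, h]

theorem lineCount_union {A B : Finset (Fin d → Fin N)} (h : Disjoint A B) (j : Fin d)
    (u : Fin d → Fin N) : lineCount (A ∪ B) j u = lineCount A j u + lineCount B j u := by
  unfold lineCount
  rw [Finset.filter_union, Finset.card_union_of_disjoint]
  exact Finset.disjoint_filter_filter h

theorem lineCount_map (f : Fin n ↪ Fin N) (A : Finset (Fin d → Fin n)) (j : Fin d)
    (u : Fin d → Fin N) (c : Fin d → Fin n) (hc : ∀ l, l ≠ j → f (c l) = u l) :
    lineCount (A.map (E d f)) j u = lineCount A j c := by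
  unfold lineCount
  have : (A.map (E d f)).filter (fun x => ∀ l, l ≠ j → x l = u l) =
      (A.filter (fun x => ∀ l, l ≠ j → x l = c l)).map (E d f) := by
    ext x
    simp only [Finset.mem_filter, Finset.mem_map]
    constructor
    · rintro ⟨⟨a, ha, rfl⟩, h⟩
      refine ⟨a, ⟨ha, fun l hl => f.injective ?_⟩, rfl⟩
      rw [hc l hl, ← h l hl]
      rfl
    · rintro ⟨a, ⟨ha, h⟩, rfl⟩
      refine ⟨⟨a, ha, rfl⟩, fun l hl => ?_⟩
      rw [E_apply, h l hl, hc l hl]
  rw [this, Finset.card_map]

theorem lineCount_map_zero (f : Fin n ↪ Fin N) (A : Finset (Fin d → Fin n)) (j : Fin d)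
    (u : Fin d → Fin N) (h : ∀ c ∈ A, ¬ ∀ l, l ≠ j → f (c l) = u l) :
    lineCount (A.map (E d f)) j u = 0 := by
  unfold lineCount
  rw [Finset.card_eq_zero, Finset.filter_eq_empty_iff]
  intro x hx hx'
  obtain ⟨a, ha, rfl⟩ := Finset.mem_map.1 hx
  exact h a ha hx'

theorem lineCount_map_eq (f : Fin n ↪ Fin N) {A B : Finset (Fin d → Fin n)}
    (h : ∀ j u, lineCount A j u = lineCount B j u) (j : Fin d) (u : Fin d → Fin N) :
    lineCount (A.map (E d f)) j u = lineCount (B.map (E d f)) j u := by
  by_cases hc : ∃ c : Fin d → Fin n, ∀ l, l ≠ j → f (c l) = u l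
  · obtain ⟨c, hc⟩ := hc
    rw [lineCount_map f A j u c hc, lineCount_map f B j u c hc, h]
  · rw [lineCount_map_zero f A j u (fun c _ h' => hc ⟨c, h'⟩),
      lineCount_map_zero f B j u (fun c _ h' => hc ⟨c, h'⟩)]

theorem disj_map (f : Fin n ↪ Fin N) {ρ : Finset (Fin d → Fin N)}
    (hρ : Disjoint ρ (cube d (univ.map f))) (B : Finset (Fin d → Fin n)) :
    Disjoint ρ (B.map (E d f)) :=
  hρ.mono_right (map_subset f B)

theorem sameLines_iff (f : Fin n ↪ Fin N) {ρ : Finset (Fin d → Fin N)}
    (hρ : Disjoint ρ (cube d (univ.map f))) (A B : Finset (Fin d → Fin n)) :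
    SameLines (univ.map f) (G f ρ A) (G f ρ B) ↔ SameLines univ A B := by
  unfold SameLines
  rw [G_sdiff f hρ A, G_sdiff f hρ B, cube_univ,
    (Finset.sdiff_eq_empty_iff_subset.2 (Finset.subset_univ A)),
    (Finset.sdiff_eq_empty_iff_subset.2 (Finset.subset_univ B))]
  simp only [true_and]
  constructor
  · intro h j u
    have h1 := h j (fun l => f (u l))
    unfold G at h1
    rw [lineCount_union (disj_map f hρ A), lineCount_union (disj_map f hρ B),
      lineCount_map f A j _ u (fun l _ => rfl), lineCount_map f B j _ u (fun l _ => rfl)] at h1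
    omega
  · intro h j u
    unfold G
    rw [lineCount_union (disj_map f hρ A), lineCount_union (disj_map f hρ B),
      lineCount_map_eq f h]

theorem sameLines_surj (f : Fin n ↪ Fin N) {ρ : Finset (Fin d → Fin N)}
    (hρ : Disjoint ρ (cube d (univ.map f))) (A : Finset (Fin d → Fin n))
    (B : Finset (Fin d → Fin N)) (h : SameLines (univ.map f) (G f ρ A) B) : ∃ B', G f ρ B' = B := by
  obtain ⟨B', hB'⟩ := G_surj f B
  refine ⟨B', ?_⟩
  have h1 := h.1
  rw [G_sdiff f hρ A] at h1
  rw [← h1] at hB'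
  exact hB'

open Classical in
/-- the family `S_ρ` -/
noncomputable def Sr (f : Fin n ↪ Fin N) (ρ : Finset (Fin d → Fin N))
    (S : Finset (Finset (Fin d → Fin N))) : Finset (Finset (Fin d → Fin n)) :=
  univ.filter fun B => G f ρ B ∈ S

theorem majority_iff (f : Fin n ↪ Fin N) {ρ : Finset (Fin d → Fin N)}
    (hρ : Disjoint ρ (cube d (univ.map f))) (p : ℝ) (S : Finset (Finset (Fin d → Fin N)))
    (A : Finset (Fin d → Fin n)) :
    Majority p (univ.map f) S (G f ρ A) ↔ Majority p univ (Sr f ρ S) A := by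
  classical
  unfold Majority
  have h1 : (univ.filter fun B => SameLines (univ.map f) (G f ρ A) B).card =
      (univ.filter fun B => SameLines univ A B).card := by
    symm
    refine Finset.card_bij (fun B _ => G f ρ B) ?_ (fun a _ b _ h => G_inj f hρ h) ?_
    · intro B hB
      rw [Finset.mem_filter] at hB ⊢
      exact ⟨Finset.mem_univ _, (sameLines_iff f hρ A B).2 hB.2⟩
    · intro B hB
      rw [Finset.mem_filter] at hB
      obtain ⟨B', rfl⟩ := sameLines_surj f hρ A B hB.2
      exact ⟨B', Finset.mem_filter.2 ⟨Finset.mem_univ _, (sameLines_iff f hρ A B').1 hB.2⟩, rfl⟩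
  have h2 : (S.filter fun B => SameLines (univ.map f) (G f ρ A) B).card =
      ((Sr f ρ S).filter fun B => SameLines univ A B).card := by
    symm
    refine Finset.card_bij (fun B _ => G f ρ B) ?_ (fun a _ b _ h => G_inj f hρ h) ?_
    · intro B hB
      rw [Finset.mem_filter] at hB ⊢
      exact ⟨(Finset.mem_filter.1 hB.1).2, (sameLines_iff f hρ A B).2 hB.2⟩
    · intro B hB
      rw [Finset.mem_filter] at hB
      obtain ⟨B', rfl⟩ := sameLines_surj f hρ A B hB.2
      exact ⟨B', Finset.mem_filter.2 ⟨Finset.mem_filter.2 ⟨Finset.mem_univ _, hB.1⟩,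
        (sameLines_iff f hρ A B').1 hB.2⟩, rfl⟩
  rw [h1, h2]

open Classical in
theorem count (f : Fin n ↪ Fin N) (p : ℝ) (S : Finset (Finset (Fin d → Fin N))) :
    (univ.filter fun A => Majority p (univ.map f) S A).card =
      ∑ ρ ∈ ((cube d (univ.map f))ᶜ).powerset,
        (univ.filter fun A => Majority p univ (Sr f ρ S) A).card := by
  rw [Finset.card_eq_sum_card_fiberwise (f := fun A => A \ cube d (univ.map f))
    (t := ((cube d (univ.map f))ᶜ).powerset)]
  · refine Finset.sum_congr rfl fun ρ hρ => ?_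
    have hρ' : Disjoint ρ (cube d (univ.map f)) := by
      rw [Finset.mem_powerset] at hρ
      exact Finset.disjoint_left.2 fun x hx => by
        simpa using hρ hx
    symm
    refine Finset.card_bij (fun B _ => G f ρ B) ?_ (fun a _ b _ h => G_inj f hρ' h) ?_
    · intro B hB
      rw [Finset.mem_filter] at hB
      rw [Finset.mem_filter, Finset.mem_filter]
      exact ⟨⟨Finset.mem_univ _, (majority_iff f hρ' p S B).2 hB.2⟩, G_sdiff f hρ' B⟩
    · intro A hA
      rw [Finset.mem_filter, Finset.mem_filter] at hA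
      obtain ⟨B, hB⟩ := G_surj f A
      rw [hA.2] at hB
      subst hB
      exact ⟨B, Finset.mem_filter.2 ⟨Finset.mem_univ _, (majority_iff f hρ' p S B).1 hA.1.2⟩, rfl⟩
  · intro A _
    simp only [Finset.coe_powerset, Set.mem_preimage, Set.mem_powerset_iff, Finset.coe_subset]
    intro x hx
    rw [Finset.mem_sdiff] at hx
    rw [Finset.mem_compl]
    exact hx.2

theorem good_of (f : Fin n ↪ Fin N) {ρ : Finset (Fin d → Fin N)}
    (hρ : Disjoint ρ (cube d (univ.map f))) (S : Finset (Finset (Fin d → Fin N)))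
    (h : Good (Sr f ρ S)) : Good S := by
  classical
  obtain ⟨A, hA, γ, hγ, hd, hu⟩ := h
  rw [Sr, Finset.mem_filter] at hA hu
  refine ⟨G f ρ A, hA.2, γ.map f, hγ.map, ?_, ?_⟩
  · unfold G
    rw [Finset.disjoint_union_left]
    constructor
    · exact hρ.mono_right (cube_mono (Finset.map_subset_map.2 (Finset.subset_univ _)))
    · rw [cube_map]
      exact (Finset.disjoint_map _).2 hd
  · have : G f ρ A ∪ cube d (γ.map f) = G f ρ (A ∪ cube d γ) := by
      unfold G
      rw [cube_map, Finset.map_union, Finset.union_assoc]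
    rw [this]
    exact hu.2

end Z2

open Z2 in
open Classical in
/-- (replaces local_robust; simpler and stronger)  Reduction of the local to the global statement. Fix the contents ρ of the cells
outside I^d: S_ρ = {B ⊆ (Fin n₀)^d : ρ ∪ e(B) ∈ S}, e : Fin n₀ ≃ I (I.orderEmbOfFin).  For A = ρ ∪ e(A') the class
{B : SameLines I A B} is {ρ ∪ e(B') : B' has the same line counts as A'}, so Majority p I S A ↔ Majority p univ S_ρ A'
(SameLines univ: the first condition is void).  By averaging some ρ has at least δ 2^(n₀^d) sets A' with Majority p univ S_ρ A';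
S_ρ is good by the hypothesis (n₀ = N₀), hence S is good (γ ↦ e(γ), cube d (e γ) = e (cube d γ)). -/
theorem local_of_global (d : ℕ) (hd : 1 ≤ d) (p δ : ℝ) (hδ : 0 < δ)
    (hyp : ∃ N₀ : ℕ, ∀ N : ℕ, N₀ ≤ N → ∀ S : Finset (Finset (Fin d → Fin N)),
      δ * 2 ^ (N ^ d) ≤ ((univ.filter fun A => Majority p univ S A).card : ℝ) → Good S) :
    ∃ n₀ : ℕ, ∀ (N : ℕ) (I : Finset (Fin N)), I.card = n₀ → ∀ S : Finset (Finset (Fin d → Fin N)),
      δ * 2 ^ (N ^ d) ≤ ((univ.filter fun A => Majority p I S A).card : ℝ) → Good S := by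
  obtain ⟨n, hn⟩ := hyp
  refine ⟨n, fun N I hI S hS => ?_⟩
  obtain ⟨f, rfl⟩ : ∃ f : Fin n ↪ Fin N, I = univ.map f := by
    refine ⟨(I.orderEmbOfFin hI).toEmbedding, ?_⟩
    ext x
    have := Finset.range_orderEmbOfFin I hI
    simp only [Finset.mem_map, Finset.mem_univ, true_and]
    constructor
    · intro hx
      have hx' : x ∈ Set.range (I.orderEmbOfFin hI) := by rw [this]; exact hx
      obtain ⟨y, hy⟩ := hx'
      exact ⟨y, hy⟩
    · rintro ⟨y, rfl⟩
      exact Finset.orderEmbOfFin_mem I hI y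
  by_contra hbad
  have hlt : ∀ ρ ∈ ((cube d (univ.map f))ᶜ).powerset,
      ((univ.filter fun A => Majority p univ (Sr f ρ S) A).card : ℝ) < δ * 2 ^ (n ^ d) := by
    intro ρ hρ
    by_contra hge
    apply hbad
    have hρ' : Disjoint ρ (cube d (univ.map f)) := by
      rw [Finset.mem_powerset] at hρ
      exact Finset.disjoint_left.2 fun x hx => by
        simpa using hρ hx
    exact good_of f hρ' S (hn n le_rfl (Sr f ρ S) (not_lt.1 hge))
  have hsum : ((univ.filter fun A => Majority p (univ.map f) S A).card : ℝ) <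
      ∑ ρ ∈ ((cube d (univ.map f))ᶜ).powerset, δ * 2 ^ (n ^ d) := by
    rw [count f p S]
    push_cast
    exact Finset.sum_lt_sum_of_nonempty ⟨∅, Finset.empty_mem_powerset _⟩ hlt
  rw [Finset.sum_const, Finset.card_powerset, Finset.card_compl, card_cube, Finset.card_map,
    Finset.card_univ, Fintype.card_fin, Fintype.card_fun, Fintype.card_fin, Fintype.card_fin,
    nsmul_eq_mul] at hsum
  have hle : n ^ d ≤ N ^ d := by
    have h1 : n ≤ N := by
      have := Finset.card_le_univ (univ.map f)
      rw [Finset.card_map, Finset.card_univ, Fintype.card_fin, Fintype.card_fin] at this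
      exact this
    exact Nat.pow_le_pow_left h1 d
  have hpow : ((2 : ℕ) ^ (N ^ d - n ^ d) : ℕ) * (δ * 2 ^ (n ^ d)) = δ * (2 : ℝ) ^ (N ^ d) := by
    push_cast
    rw [← Nat.sub_add_cancel hle, pow_add, Nat.add_sub_cancel]
    ring
  rw [hpow] at hsum
  exact absurd hS (not_le.2 hsum)

end Pool.Agent.J4.H79.HS
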